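import Pool.Agent.Helper38.FN.Gp
import Pool.Agent.Helper20.ACH.BK
import Pool.Agent.Helper20.ACH.BE
import Pool.Agent.Helper60.EN.Ori

/-! Project FN: bridge to the frozen hypotheses. -/

set_option autoImplicit false

open CategoryTheory

namespace Pool.FN

open Pool.ACH

/-- The kernel of an endomorphism. -/
private def fnb1_ker {X : Type} [AddCommGroup X] (ρ : X →+ X) : Type :=
  {x : X // ρ x = 0}

private instance fnb1_acg {X : Type} [AddCommGroup X] (ρ : X →+ X) :
    AddCommGroup (fnb1_ker ρ) :=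
  inferInstanceAs (AddCommGroup ρ.ker)

@[reducible] private def fnb1_act {G X : Type} [Group G] [AddCommGroup X] [DistribMulAction G X]
    (ρ : X →+ X) (h : ∀ (g : G) (x : X), ρ (g • x) = g • ρ x) :
    DistribMulAction G (fnb1_ker ρ) where
  smul g x := ⟨g • x.1, by rw [h, x.2, smul_zero]⟩
  one_smul x := Subtype.ext (one_smul G x.1)
  mul_smul g k x := Subtype.ext (mul_smul g k x.1)
  smul_zero g := Subtype.ext (smul_zero g)
  smul_add g x y := Subtype.ext (smul_add g x.1 y.1)

/-- PIECE FN-B1 (90 lines).  `ResData.exists_pre` (`Helper20/ACH/BK.lean`, copy the proof, with the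
private auxiliary definitions) with the additional information `H^1(G;ℤ[G]) = 0`, which is
`R.coh 0`: the modules `P0, P1, P2` and the maps `d0, d1` of the constructed `PD3Pre` are
`R.X 0, R.X 1, R.X 2`, `R.d 0`, `R.d 1`. -/
theorem exists_pre' {G : Type} [Group G] (R : ResData G) :
    ∃ (P0 P1 P2 P3 : Type) (_ : AddCommGroup P0) (_ : AddCommGroup P1) (_ : AddCommGroup P2)
      (_ : AddCommGroup P3) (_ : DistribMulAction G P0) (_ : DistribMulAction G P1)
      (_ : DistribMulAction G P2) (_ : DistribMulAction G P3) (D : PD3Pre G P0 P1 P2 P3),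
      ∀ φ : P1 →+ ℤ, IsFs G φ → (∀ p, φ (D.d1 p) = 0) →
        ∃ ψ : P0 →+ ℤ, IsFs G ψ ∧ ∀ p, φ p = ψ (D.d0 p) := by
  obtain ⟨ρ, h1, h2, h3⟩ := R.exists_proj 2 le_rfl
  let _ : DistribMulAction G (fnb1_ker ρ) := fnb1_act ρ h1
  obtain ⟨b0⟩ := R.b 0
  obtain ⟨b1⟩ := R.b 1
  obtain ⟨b2⟩ := R.b 2
  obtain ⟨b3⟩ := R.b 3
  obtain ⟨p0, hp0⟩ := R.π_surj 1
  let inc : fnb1_ker ρ →+ R.X 3 :=
    { toFun := fun x => x.1
      map_zero' := rfl
      map_add' := fun _ _ => rfl }
  have hinc : ∀ (g : G) (x : fnb1_ker ρ), inc (g • x) = g • inc x := fun g x => rfl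
  have hρ : ∀ x, ρ (x - ρ x) = 0 := fun x => by
    rw [map_sub, h3 _ (h2 x), sub_self]
  let pr : R.X 3 →+ fnb1_ker ρ :=
    { toFun := fun x => ⟨x - ρ x, hρ x⟩
      map_zero' := Subtype.ext (by simp; rfl)
      map_add' := fun x y => Subtype.ext (by
        change x + y - ρ (x + y) = (x - ρ x) + (y - ρ y)
        rw [map_add]; abel) }
  have hpr : ∀ (g : G) (x : R.X 3), pr (g • x) = g • pr x := fun g x => Subtype.ext (by
    change g • x - ρ (g • x) = g • (x - ρ x)
    rw [h1, smul_sub])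
  have hpi : ∀ x : fnb1_ker ρ, pr (inc x) = x := fun x => Subtype.ext (by
    change x.1 - ρ x.1 = x.1
    rw [x.2, sub_zero])
  have hip : ∀ x : R.X 3, inc (pr x) = x - ρ x := fun x => rfl
  have hdp : ∀ x : R.X 3, R.d 2 (inc (pr x)) = R.d 2 x := fun x => by
    rw [hip, map_sub, h2, sub_zero]
  have hzp : ∀ x : R.X 3, R.z (inc (pr x)) = R.z x := fun x => by
    obtain ⟨y, hy⟩ := (R.exact 2 _).1 (h2 x)
    rw [hip, map_sub, ← hy, R.z_d, sub_zero]
  refine ⟨R.X 0, R.X 1, R.X 2, fnb1_ker ρ, R.ab 0, R.ab 1, R.ab 2, inferInstance,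
    R.ac 0, R.ac 1, R.ac 2, inferInstance, ?_, ?_⟩
  · exact
      { ε := R.π
        d0 := R.d 0
        d1 := R.d 1
        d2 := (R.d 2).comp inc
        ε_smul := R.π_smul
        d0_smul := R.d_smul 0
        d1_smul := R.d_smul 1
        d2_smul := fun g p => by
          rw [AddMonoidHom.comp_apply, hinc, R.d_smul]; rfl
        p0 := p0
        ε_p0 := hp0
        exact0 := R.exact0
        exact1 := R.exact 0
        exact2 := fun p => by
          rw [R.exact 1 p]
          constructor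
          · rintro ⟨y, rfl⟩
            exact ⟨pr y, hdp y⟩
          · rintro ⟨q, rfl⟩
            exact ⟨inc q, rfl⟩
        d2_inj := by
          rw [injective_iff_map_eq_zero]
          intro x hx
          have e1 : ρ (inc x) = inc x := h3 _ hx
          have e2 : ρ (inc x) = 0 := x.2
          exact Subtype.ext (e1.symm.trans e2)
        b0 := b0
        b1 := b1
        b2 := b2
        b3 :=
          { J := b3.J
            fin := b3.fin
            φ := fun j => (b3.φ j).comp inc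
            e := fun j => pr (b3.e j)
            fs := fun j => (b3.fs j).comp inc hinc
            span := fun p => by
              have e1 := congrArg pr (b3.span (inc p))
              rw [hpi, map_sum] at e1
              refine e1.trans (Finset.sum_congr rfl fun j _ => ?_)
              have e2 := map_tw pr (b3.φ j) (b3.fs j) (fun g => g • b3.e j) (inc p)
              rw [tw_apply, tw_apply] at e2
              rw [e2]
              refine finsum_congr fun g => ?_
              rw [hpr, ← hinc]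
              rfl }
        z := R.z.comp inc
        z_fs := R.z_fs.comp inc hinc
        D2 := fun φ hφ hv => by
          obtain ⟨ψ, hψ, hψ2⟩ := R.coh 1 (by omega) φ hφ (fun x => by
            rw [← hdp x]; exact hv (pr x))
          exact ⟨ψ, hψ, AddMonoidHom.ext hψ2⟩
        D3 := fun φ hφ => by
          obtain ⟨m, ψ, hψ, hψ2⟩ := R.z_gen (φ.comp pr) (hφ.comp pr hpr) (fun x => by
            have e1 : R.d 2 (R.d 3 x) = 0 := (R.exact 2 _).2 ⟨x, rfl⟩
            have e2 : pr (R.d 3 x) = 0 := Subtype.ext (by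
              change R.d 3 x - ρ (R.d 3 x) = 0
              rw [h3 _ e1, sub_self])
            rw [AddMonoidHom.comp_apply, e2, map_zero])
          refine ⟨m, ψ, hψ, ?_⟩
          ext x
          have e1 := hψ2 (inc x)
          rw [AddMonoidHom.comp_apply, hpi] at e1
          rw [e1]
          simp
        D3' := fun n ψ hψ h => by
          refine R.z_free n ψ hψ fun x => ?_
          have e1 := DFunLike.congr_fun h (pr x)
          have e2 : n * R.z (inc (pr x)) = ψ (R.d 2 (inc (pr x))) := by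
            simpa using e1
          rw [hzp, hdp] at e2
          exact e2 }
  · intro φ hφ h
    exact R.coh 0 (by omega) φ hφ h

/-- The sum over the powers of `c`. -/
private def B2_N {G W : Type} [Group G] [AddCommGroup W] [DistribMulAction G W] (c : G) (n : ℕ)
    (w : W) : W :=
  ∑ i ∈ Finset.range n, c ^ i • w

private theorem B2_map {G W W' : Type} [Group G] [AddCommGroup W] [DistribMulAction G W]
    [AddCommGroup W'] [DistribMulAction G W'] (c : G) (n : ℕ) (d : W →+ W') (hd : Eqv G d) (w : W) :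
    d (B2_N c n w) = B2_N c n (d w) := by
  rw [B2_N, B2_N, map_sum]
  exact Finset.sum_congr rfl fun i _ => hd _ _

private theorem B2_sub {G W : Type} [Group G] [AddCommGroup W] [DistribMulAction G W] (c : G)
    (n : ℕ) (w w' : W) : B2_N c n (w - w') = B2_N c n w - B2_N c n w' := by
  rw [B2_N, B2_N, B2_N, ← Finset.sum_sub_distrib]
  exact Finset.sum_congr rfl fun i _ => smul_sub _ _ _

private theorem B2_cN {G W : Type} [Group G] [AddCommGroup W] [DistribMulAction G W] (c : G)
    (n : ℕ) (hc : c ^ n = 1) (w : W) : c • B2_N c n w = B2_N c n w := by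
  have h1 : c • B2_N c n w = ∑ i ∈ Finset.range n, c ^ (i + 1) • w := by
    rw [B2_N, Finset.smul_sum]
    exact Finset.sum_congr rfl fun i _ => by rw [pow_succ', mul_smul]
  rw [h1, B2_N]
  have h2 := Finset.sum_range_succ' (fun i => c ^ i • w) n
  have h3 := Finset.sum_range_succ (fun i => c ^ i • w) n
  rw [h3, hc, pow_zero] at h2
  exact (add_right_cancel h2).symm

private theorem B2_Nc {G W : Type} [Group G] [AddCommGroup W] [DistribMulAction G W] (c : G)
    (n : ℕ) (hc : c ^ n = 1) (w : W) : B2_N c n (c • w) = B2_N c n w := by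
  rw [← B2_cN c n hc w, B2_N, B2_N, Finset.smul_sum]
  exact Finset.sum_congr rfl fun i _ => by rw [smul_smul, smul_smul, pow_mul_comm' c i]

private theorem B2_rel {G W : Type} [Group G] [AddCommGroup W] [DistribMulAction G W] (c : G)
    (n : ℕ) (hn : 0 < n) (ho : orderOf c = n) (b : DB G W) :
    ∃ π : W →+ W, ∀ w, ∑ i ∈ Finset.range n, c ^ i • π ((c ^ i)⁻¹ • w) = w := by
  classical
  obtain ⟨T, hT, -⟩ := (Subgroup.zpowers c).exists_isComplement_right 1
  refine ⟨b.lift fun j g => if g ∈ T then g • b.e j else 0, fun w => ?_⟩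
  have hfin : IsOfFinOrder c := by
    rw [← orderOf_pos_iff, ho]
    exact hn
  have h1 : ∀ i : ℕ, c ^ i • b.lift (fun j g => if g ∈ T then g • b.e j else 0) ((c ^ i)⁻¹ • w) =
      ∑ j, tw (b.φ j) (b.fs j) (fun g => if (c ^ i)⁻¹ * g ∈ T then g • b.e j else 0) w := by
    intro i
    rw [b.lift_smul, b.lift_apply, Finset.smul_sum]
    refine Finset.sum_congr rfl fun j _ => ?_
    have h2 := map_tw (DistribSMul.toAddMonoidHom W (c ^ i)) (b.φ j) (b.fs j)
      (fun g => if (c ^ i)⁻¹ * g ∈ T then ((c ^ i)⁻¹ * g) • b.e j else 0) w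
    rw [DistribSMul.toAddMonoidHom_apply] at h2
    rw [h2]
    congr 2
    funext g
    rw [DistribSMul.toAddMonoidHom_apply]
    split_ifs with h3
    · rw [smul_smul, mul_inv_cancel_left]
    · rw [smul_zero]
  rw [Finset.sum_congr rfl fun i _ => h1 i, Finset.sum_comm]
  have h4 : ∀ j, ∑ i ∈ Finset.range n,
      tw (b.φ j) (b.fs j) (fun g => if (c ^ i)⁻¹ * g ∈ T then g • b.e j else 0) w =
      tw (b.φ j) (b.fs j) (fun g => g • b.e j) w := by
    intro j
    have h5 := congrArg (fun f : W →+ W => f w) (tw_sum (Finset.range n) (b.φ j) (b.fs j)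
      (fun i g => if (c ^ i)⁻¹ * g ∈ T then g • b.e j else 0))
    rw [AddMonoidHom.finset_sum_apply] at h5
    rw [← h5]
    congr 2
    funext g
    obtain ⟨⟨u, t⟩, hut, -⟩ := hT.existsUnique g
    obtain ⟨i, hi, hiu⟩ := Finset.mem_image.1 (hfin.mem_zpowers_iff_mem_range_orderOf.1 u.2)
    rw [ho] at hi
    have hut' : c ^ i * (t : G) = g := by rw [hiu]; exact hut
    rw [Finset.sum_eq_single i]
    · rw [if_pos]
      rw [← hut', inv_mul_cancel_left]
      exact t.2
    · intro k hk hki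
      rw [if_neg]
      intro hkT
      apply hki
      have h6 := hT.1 (a₁ := (⟨c ^ k, Subgroup.npow_mem_zpowers c k⟩, ⟨(c ^ k)⁻¹ * g, hkT⟩))
        (a₂ := (u, t)) (by
          change c ^ k * ((c ^ k)⁻¹ * g) = (u : G) * (t : G)
          rw [mul_inv_cancel_left]
          exact hut.symm)
      have h7 : c ^ k = c ^ i := by
        rw [hiu]
        exact congrArg (fun x => (x.1 : G)) h6
      exact pow_injOn_Iio_orderOf (by rw [ho]; exact Finset.mem_range.1 hk)
        (by rw [ho]; exact Finset.mem_range.1 hi) h7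
    · intro hk
      exact absurd hi hk
  rw [Finset.sum_congr rfl fun j _ => h4 j]
  exact (b.expand (AddMonoidHom.id W) w).symm

private theorem B2_inv {G W : Type} [Group G] [AddCommGroup W] [DistribMulAction G W] (c : G)
    (n : ℕ) (hn : 0 < n) (ho : orderOf c = n) (b : DB G W) (w : W) (hw : c • w = w) :
    ∃ v, B2_N c n v = w := by
  obtain ⟨π, hπ⟩ := B2_rel c n hn ho b
  refine ⟨π w, ?_⟩
  have h1 : ∀ i : ℕ, (c ^ i)⁻¹ • w = w := by
    intro i
    rw [inv_smul_eq_iff]
    induction i with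
    | zero => rw [pow_zero, one_smul]
    | succ i ih => rw [pow_succ, mul_smul, hw, ← ih]
  conv_rhs => rw [← hπ w]
  exact Finset.sum_congr rfl fun i _ => by rw [h1 i]

private theorem B2_tri {G W : Type} [Group G] [AddCommGroup W] [DistribMulAction G W] (c : G)
    (i : ℕ) (w : W) : ∃ v, c ^ i • w - w = c • v - v := by
  induction i with
  | zero => exact ⟨0, by rw [pow_zero, one_smul, smul_zero, sub_self, sub_self]⟩
  | succ i ih =>
    obtain ⟨v, hv⟩ := ih
    refine ⟨v + c ^ i • w, ?_⟩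
    have h1 : c ^ (i + 1) • w = c • c ^ i • w := by rw [pow_succ', mul_smul]
    rw [h1, smul_add]
    have h2 : c ^ i • w = c • v - v + w := by rw [← hv]; abel
    rw [h2]
    abel

private theorem B2_ker {G W : Type} [Group G] [AddCommGroup W] [DistribMulAction G W] (c : G)
    (n : ℕ) (hn : 0 < n) (ho : orderOf c = n) (b : DB G W) (w : W) (hw : B2_N c n w = 0) :
    ∃ v, w = c • v - v := by
  obtain ⟨π, hπ⟩ := B2_rel c n hn ho b
  have hc : c ^ n = 1 := by rw [← ho]; exact pow_orderOf_eq_one c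
  choose v hv using fun i : ℕ => B2_tri c i (π ((c ^ i)⁻¹ • w))
  have h1 : ∑ i ∈ Finset.range n, (c ^ i)⁻¹ • w = 0 := by
    have h2 : c ^ n • ∑ i ∈ Finset.range n, (c ^ i)⁻¹ • w = c • B2_N c n w := by
      rw [B2_N, Finset.smul_sum, Finset.smul_sum, ← Finset.sum_range_reflect]
      refine Finset.sum_congr rfl fun i hi => ?_
      have hi' := Finset.mem_range.1 hi
      rw [smul_smul, smul_smul, ← pow_succ']
      congr 1
      rw [mul_inv_eq_iff_eq_mul, ← pow_add]
      congr 1
      omega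
    rw [hc, one_smul, hw, smul_zero] at h2
    exact h2
  refine ⟨∑ i ∈ Finset.range n, v i, ?_⟩
  have h3 : ∑ i ∈ Finset.range n, (c ^ i • π ((c ^ i)⁻¹ • w) - π ((c ^ i)⁻¹ • w)) = w := by
    rw [Finset.sum_sub_distrib, hπ, ← map_sum, h1, map_zero, sub_zero]
  rw [← h3, Finset.smul_sum, ← Finset.sum_sub_distrib]
  exact Finset.sum_congr rfl fun i _ => hv i

/-- PIECE FN-B2 (70 lines).  A group with a projective resolution of length three is torsion free.
Suppose `c ≠ 1` has finite order; replacing it by a power, `c` has prime order `p`.  For a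
`G`-module `W` let `N w = ∑_{i<p} c^i w`.  For `W` with a dual basis (`DB G W`): `c w = w` implies
`w ∈ N W` and `N w = 0` implies `w ∈ (c - 1) W` (true for `ℤ[G]`, `W` is a direct summand of
`ℤ[G]^J`: for `w` write `w = ∑ j, ∑ᶠ g, φ_j(g⁻¹ w) g e_j` and choose representatives of `⟨c⟩ \ G`).
Now `Ĥ^0(ℤ) = Ĥ^1(ker ε) = Ĥ^0(ker d0) = Ĥ^1(P3) = 0` by dimension shifting: the class of
`1 ∈ ℤ`: `c p0 - p0 = d0 a`, `N (d0 a) = 0`, so `N a = d1 b` (exactness), `c (N a) = N a`, so
`c b - b = d2 e`, `N (d2 e) = 0`, `N e = 0`, `e = (c - 1) e'`, so `b - d2 e'` is invariant, so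
`= N b'`, `N (a - d1 b') = 0`, `a - d1 b' = (c-1) a'`, `p0 - d0 a'` is invariant, so `= N q`, and
`1 = ε(p0) = ε (N q) = p ε(q)`, a contradiction. -/
theorem torsion_free {G P0 P1 P2 P3 : Type} [Group G] [AddCommGroup P0] [AddCommGroup P1]
    [AddCommGroup P2] [AddCommGroup P3] [DistribMulAction G P0] [DistribMulAction G P1]
    [DistribMulAction G P2] [DistribMulAction G P3] (E : Reso G P0 P1 P2 P3) (c : G) (n : ℕ)
    (hn : 0 < n) (hc : c ^ n = 1) : c = 1 := by
  obtain ⟨m, hm⟩ : ∃ m, orderOf c = m := ⟨_, rfl⟩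
  have hm0 : 0 < m := by
    rw [← hm]
    exact orderOf_pos_iff.2 (isOfFinOrder_iff_pow_eq_one.2 ⟨n, hn, hc⟩)
  have hcm : c ^ m = 1 := by rw [← hm]; exact pow_orderOf_eq_one c
  obtain ⟨a, ha⟩ := (E.exact0 (c • E.p0 - E.p0)).1 (by rw [map_sub, E.ε_smul, sub_self])
  obtain ⟨b, hb⟩ := (E.exact1 (B2_N c m a)).1 (by
    rw [B2_map c m E.d0 E.d0_smul, ha, B2_sub, B2_Nc c m hcm, sub_self])
  obtain ⟨e, he⟩ := (E.exact2 (c • b - b)).1 (by
    rw [map_sub, E.d1_smul, hb, B2_cN c m hcm, sub_self])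
  have he0 : B2_N c m e = 0 := by
    apply E.d2_inj
    rw [B2_map c m E.d2 E.d2_smul, he, B2_sub, B2_Nc c m hcm, sub_self, map_zero]
  obtain ⟨e', he'⟩ := B2_ker c m hm0 hm E.b3 e he0
  obtain ⟨b', hb'⟩ := B2_inv c m hm0 hm E.b2 (b - E.d2 e') (by
    have h1 : c • b = b + E.d2 e := by rw [he]; abel
    have h2 : c • e' = e' + e := by rw [he']; abel
    rw [smul_sub, ← E.d2_smul, h1, h2, map_add]
    abel)
  obtain ⟨a', ha'⟩ := B2_ker c m hm0 hm E.b1 (a - E.d1 b') (by
    rw [B2_sub, ← B2_map c m E.d1 E.d1_smul, hb', map_sub, (E.exact2 (E.d2 e')).2 ⟨e', rfl⟩,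
      sub_zero, hb, sub_self])
  obtain ⟨q, hq⟩ := B2_inv c m hm0 hm E.b0 (E.p0 - E.d0 a') (by
    have h1 : c • E.p0 = E.p0 + E.d0 a := by rw [ha]; abel
    have h2 : c • a' = a' + (a - E.d1 b') := by rw [ha']; abel
    rw [smul_sub, ← E.d0_smul, h1, h2, map_add, map_sub, (E.exact1 (E.d1 b')).2 ⟨b', rfl⟩]
    abel)
  have h3 : (m : ℤ) * E.ε q = 1 := by
    have h4 : E.ε (B2_N c m q) = (m : ℤ) * E.ε q := by
      rw [B2_N, map_sum, Finset.sum_congr rfl fun i _ => E.ε_smul _ _, Finset.sum_const,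
        Finset.card_range, nsmul_eq_mul]
    rw [← h4, hq, map_sub, E.ε_p0, (E.exact0 (E.d0 a')).2 ⟨a', rfl⟩, sub_zero]
  have h5 : m = 1 := by
    have h6 : (m : ℤ) ∣ 1 := ⟨_, h3.symm⟩
    have h7 := Int.natCast_dvd_natCast.1 (by simpa using h6 : (m : ℤ) ∣ ((1 : ℕ) : ℤ))
    exact Nat.dvd_one.1 h7
  rw [← orderOf_eq_one_iff, hm, h5]

theorem good_of_frozen (G : Type) [Group G]
    (hFP : ∃ P : ProjectiveResolution
        (Rep.equivalenceModuleMonoidAlgebra.functor.obj (Rep.trivial ℤ G ℤ)),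
      (∃ n : ℕ, ∀ i : ℕ, n < i → Limits.IsZero (P.complex.X i)) ∧
      (∀ i : ℕ, Module.Finite (MonoidAlgebra ℤ G) (P.complex.X i).carrier))
    (hvan : ∀ i : ℕ, i ≠ 3 →
      Subsingleton (groupCohomology (Rep.ofMulAction ℤ G G) i).carrier)
    (hthree : Nonempty ((groupCohomology (Rep.ofMulAction ℤ G G) 3).carrier ≃+ ℤ))
    (hF : FAb G) : Good G := by
  obtain ⟨R⟩ := resData_of_frozen G hFP hvan hthree
  obtain ⟨P0, P1, P2, P3, i0, i1, i2, i3, a0, a1, a2, a3, D, hD⟩ := exists_pre' R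
  exact ⟨hF, P0, P1, P2, P3, i0, i1, i2, i3, a0, a1, a2, a3, D.toData (D.orientable hF), hD⟩

end Pool.FN
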