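import Pool.Agent.Helper38.FN.Ra

/-! Project FN: derivations and one-cocycles, quotient modules, lifting through exact sequences. -/

set_option autoImplicit false

namespace Pool.FN

open Pool.ACH

variable {G : Type} [Group G]

section

variable {P0 P1 P2 P3 : Type} [AddCommGroup P0] [AddCommGroup P1]
    [AddCommGroup P2] [AddCommGroup P3] [DistribMulAction G P0] [DistribMulAction G P1]
    [DistribMulAction G P2] [DistribMulAction G P3]

/-- PIECE FN-D1 (40 lines).  The derivation of a one-cocycle: `D g = u x` for any `x` with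
`d0 x = g p0 - p0` (exists since `ε` kills it; independent of `x` since `u ∘ d1 = 0` and
`ker d0 = im d1`).  `x_{gh}` and `x_g + g x_h` have the same image. -/
theorem exists_der (E : Reso G P0 P1 P2 P3) {W : Type} [AddCommGroup W] [DistribMulAction G W]
    (u : P1 →+ W) (hu : Eqv G u) (h : ∀ p, u (E.d1 p) = 0) :
    ∃ D : G → W, IsDer D ∧ ∀ (g : G) (x : P1), E.d0 x = g • E.p0 - E.p0 → u x = D g := by
  have hex : ∀ g : G, ∃ x : P1, E.d0 x = g • E.p0 - E.p0 := fun g =>
    (E.exact0 _).mp (by rw [map_sub, E.ε_smul, sub_self])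
  have heq : ∀ x y : P1, E.d0 x = E.d0 y → u x = u y := by
    intro x y hxy
    have h0 : E.d0 (x - y) = 0 := by rw [map_sub, hxy, sub_self]
    obtain ⟨q, hq⟩ := (E.exact1 _).mp h0
    have h1 : u (x - y) = 0 := by rw [← hq, h]
    rw [map_sub] at h1
    exact sub_eq_zero.mp h1
  choose x hx using hex
  refine ⟨fun g => u (x g), fun g k => ?_, fun g y hy => heq _ _ (hy.trans (hx g).symm)⟩
  change u (x (g * k)) = u (x g) + g • u (x k)
  rw [← hu, ← map_add]
  refine heq _ _ ?_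
  rw [map_add, E.d0_smul, hx, hx, hx, smul_sub, mul_smul]
  abel

/-- PIECE FN-D2 (90 lines).  The one-cocycle of a derivation `D`.  Let
`B p = ∑ j, tw (φ_j) _ (fun g => ε(e_j) • D g) p` on `P0` (dual basis `φ_j, e_j` of `P0`).  Then
`B (h p) = h B p + ε(p) • D h`: by `tw_smul`, `D (h g) = D h + h D g`, `map_tw` for `w ↦ h w`, and
`ε p = ∑ j, tw φ_j (fun _ => ε(e_j)) p`, which is `DB.expand_inv`; compare `lift0`, `lift0_smul` in
`Helper20/ACH/H1.lean`.  Put `u = B ∘ d0`, `w = B p0`: `u` is equivariant because `ε (d0 p) = 0`,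
`u ∘ d1 = 0`, and `u x = B (g p0 - p0) = g w + D g - w`.  All values of `B` are in `A`, since a
finsum of elements of `A` is in `A`. -/
theorem exists_coc (E : Reso G P0 P1 P2 P3) {W : Type} [AddCommGroup W] [DistribMulAction G W]
    (D : G → W) (hD : IsDer D) (A : AddSubgroup W) (hA : ∀ (g : G), ∀ a ∈ A, g • a ∈ A)
    (hDA : ∀ g, D g ∈ A) :
    ∃ (u : P1 →+ W) (w : W), w ∈ A ∧ Eqv G u ∧ (∀ p, u (E.d1 p) = 0) ∧ (∀ p, u p ∈ A) ∧
      ∀ (g : G) (x : P1), E.d0 x = g • E.p0 - E.p0 → u x = D g + (g • w - w) := by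
  have hε : ∀ (h : G) (p : P0), E.ε p • D h =
      E.b0.lift (fun j (_ : G) => E.ε (E.b0.e j) • D h) p := by
    intro h p
    have h2 := E.b0.expand_inv E.ε (fun g p => E.ε_smul g p) p
    conv_lhs => rw [h2]
    rw [DB.lift_apply, Finset.sum_smul]
    refine Finset.sum_congr rfl fun j _ => ?_
    rw [tw_const (E.b0.φ j) (E.b0.fs j) (E.ε (E.b0.e j) • D h) p,
      tw_const (E.b0.φ j) (E.b0.fs j) (E.ε (E.b0.e j)) p, smul_eq_mul, mul_smul]
  obtain ⟨B, hBdef⟩ : ∃ B : P0 →+ W, B = E.b0.lift (fun j g => E.ε (E.b0.e j) • D g) :=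
    ⟨_, rfl⟩
  have hsm : ∀ (h : G) (p : P0),
      h • B p = E.b0.lift (fun j g => E.ε (E.b0.e j) • (h • D g)) p := by
    intro h p
    rw [hBdef, DB.lift_apply, DB.lift_apply, Finset.smul_sum]
    refine Finset.sum_congr rfl fun j _ => ?_
    have h1 := map_tw (DistribSMul.toAddMonoidHom W h) (E.b0.φ j) (E.b0.fs j)
      (fun g => E.ε (E.b0.e j) • D g) p
    rw [DistribSMul.toAddMonoidHom_apply] at h1
    rw [h1]
    simp only [map_zsmul, DistribSMul.toAddMonoidHom_apply]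
  have hB : ∀ (h : G) (p : P0), B (h • p) = h • B p + E.ε p • D h := by
    intro h p
    rw [hsm, hε, ← AddMonoidHom.add_apply, ← DB.lift_add, hBdef, DB.lift_smul]
    congr 2
    funext j g
    rw [hD, smul_add, add_comm]
  have hBA : ∀ p, B p ∈ A := by
    intro p
    rw [hBdef, DB.lift_apply]
    refine sum_mem fun j _ => ?_
    rw [tw_apply]
    exact finsum_induction (· ∈ A) A.zero_mem (fun _ _ => A.add_mem) fun g =>
      A.zsmul_mem (A.zsmul_mem (hDA g) _) _
  refine ⟨B.comp E.d0, B E.p0, hBA _, fun g q => ?_, fun p => ?_, fun p => hBA _,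
    fun g x hx => ?_⟩
  · rw [AddMonoidHom.comp_apply, AddMonoidHom.comp_apply, E.d0_smul g q, hB,
      (E.exact0 _).2 ⟨q, rfl⟩, zero_smul, add_zero]
  · rw [AddMonoidHom.comp_apply, (E.exact1 _).2 ⟨p, rfl⟩, map_zero]
  · rw [AddMonoidHom.comp_apply, hx, map_sub, hB, E.ε_p0, one_smul]
    abel

/-- PIECE FN-D3 (50 lines).  A one-cocycle whose derivation is inner is a coboundary.
`u x = g w - w` for all `x` with `d0 x = g p0 - p0`.  For `p : P0` choose `q` with
`d0 q = p - ε(p) p0` and put `v p = ε(p) w + u q`; well-defined and additive since `u` kills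
`ker d0 = im d1`; equivariant: `g p - ε(p) p0 = g (p - ε(p) p0) + ε(p) (g p0 - p0)`. -/
theorem cob_of_inner (E : Reso G P0 P1 P2 P3) {W : Type} [AddCommGroup W]
    [DistribMulAction G W] (u : P1 →+ W) (hu : Eqv G u) (h : ∀ p, u (E.d1 p) = 0) (w : W)
    (hw : ∀ (g : G) (x : P1), E.d0 x = g • E.p0 - E.p0 → u x = g • w - w) :
    ∃ v : P0 →+ W, Eqv G v ∧ ∀ p, u p = v (E.d0 p) := by
  have hker : ∀ x y : P1, E.d0 x = E.d0 y → u x = u y := by
    intro x y hxy
    obtain ⟨z, hz⟩ := (E.exact1 (x - y)).1 (by rw [map_sub, hxy, sub_self])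
    rw [← sub_eq_zero, ← map_sub, ← hz, h]
  have hq0 : ∀ p : P0, ∃ q, E.d0 q = p - E.ε p • E.p0 := by
    intro p
    refine (E.exact0 _).1 ?_
    rw [map_sub, map_zsmul, E.ε_p0, smul_eq_mul, mul_one, sub_self]
  choose q hq using hq0
  have hε : ∀ p : P1, E.ε (E.d0 p) = 0 := fun p => (E.exact0 _).2 ⟨p, rfl⟩
  refine ⟨AddMonoidHom.mk' (fun p => E.ε p • w + u (q p)) ?_, ?_, ?_⟩
  · intro p p'
    have h1 : u (q (p + p')) = u (q p + q p') := by
      refine hker _ _ ?_
      rw [map_add, hq, hq, hq, map_add, add_smul]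
      abel
    change E.ε (p + p') • w + u (q (p + p')) = (E.ε p • w + u (q p)) + (E.ε p' • w + u (q p'))
    rw [h1, map_add, map_add, add_smul]
    abel
  · intro g p
    obtain ⟨x, hx⟩ := (E.exact0 (g • E.p0 - E.p0)).1 (by rw [map_sub, E.ε_smul, sub_self])
    have h1 : u (q (g • p)) = u (g • q p + E.ε p • x) := by
      refine hker _ _ ?_
      rw [map_add, E.d0_smul g (q p), map_zsmul, hq, hq, hx, E.ε_smul, smul_sub,
        smul_comm g (E.ε p) E.p0, smul_sub]
      abel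
    change E.ε (g • p) • w + u (q (g • p)) = g • (E.ε p • w + u (q p))
    rw [h1, map_add, map_zsmul, hu g (q p), hw g x hx, E.ε_smul, smul_add,
      smul_comm g (E.ε p) w, smul_sub]
    abel
  · intro p
    have h1 : u (q (E.d0 p)) = u p := by
      refine hker _ _ ?_
      rw [hq, hε, zero_smul, sub_zero]
    change u p = E.ε (E.d0 p) • w + u (q (E.d0 p))
    rw [h1, hε, zero_smul, zero_add]

/-- PIECE FN-D4 (30 lines).  `H^1(G;W) = 0` for derivations: apply `exists_coc` with `A = ⊤`,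
`H1z`, and evaluate `v (d0 x) = v (g p0 - p0) = g v(p0) - v(p0)`; such `x` exist. -/
theorem inner_of_H1z (E : Reso G P0 P1 P2 P3) {W : Type} [AddCommGroup W]
    [DistribMulAction G W] (h : E.H1z W) (D : G → W) (hD : IsDer D) :
    ∃ w : W, ∀ g, D g = g • w - w := by
  obtain ⟨u, w, -, hu, h0, -, hx⟩ := exists_coc E D hD ⊤ (fun _ _ _ => AddSubgroup.mem_top _)
    (fun _ => AddSubgroup.mem_top _)
  obtain ⟨v, hv, hv'⟩ := h u hu h0
  refine ⟨v E.p0 - w, fun g => ?_⟩
  have he : E.ε (g • E.p0 - E.p0) = 0 := by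
    rw [map_sub, E.ε_smul, sub_self]
  obtain ⟨x, hxx⟩ := (E.exact0 _).1 he
  have h1 := hx g x hxx
  have h2 : u x = v (E.d0 x) := hv' x
  rw [hxx, map_sub, hv g E.p0] at h2
  rw [h2] at h1
  have h3 : D g = g • v E.p0 - v E.p0 - (g • w - w) := by
    rw [h1]
    abel
  rw [h3, smul_sub]
  abel

/-- PIECE FN-D5 (30 lines).  Conversely: if all derivations are inner then `H^1(G;W) = 0`
(`exists_der`, `cob_of_inner`). -/
theorem H1z_of_inner (E : Reso G P0 P1 P2 P3) {W : Type} [AddCommGroup W]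
    [DistribMulAction G W] (h : ∀ D : G → W, IsDer D → ∃ w : W, ∀ g, D g = g • w - w) :
    E.H1z W := by
  intro u hu h0
  obtain ⟨D, hD, hx⟩ := exists_der E u hu h0
  obtain ⟨w, hw⟩ := h D hD
  obtain ⟨v, hv, hv'⟩ := cob_of_inner E u hu h0 w (fun g x hgx => (hx g x hgx).trans (hw g))
  exact ⟨v, hv, hv'⟩

/-- PIECE FN-D6 (90 lines).  Finiteness of `H^2` in an extension of modules
`0 → A → B → C → 0`.  Let `S''`, `S'` be the finite sets for `C`, `A`.  For each `s'' ∈ S''` for which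
some equivariant cocycle `ω : P2 → B` satisfies `b (ω p) = s'' p + v (d1 p)` for some equivariant `v`,
choose one, `ω_{s''}`.  Given a cocycle `ω` on `B`, `b ∘ ω` is equivalent to some `s''`, so
`b (ω - ω_{s''}) = v ∘ d1`; lift `v` to `ṽ : P1 → B` (`exists_lift` in `Ra.lean`, with dual basis
`E.b1`), then `ω - ω_{s''} - ṽ ∘ d1` has values in `a(A)`, so it is `a ∘ ω'`, `ω'` a cocycle on `A`,
equivalent to some `s' ∈ S'`.  The finite set is `{ω_{s''} + a ∘ s'}`. -/
theorem H2f_ext (E : Reso G P0 P1 P2 P3) {A B C : Type} [AddCommGroup A] [AddCommGroup B]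
    [AddCommGroup C] [DistribMulAction G A] [DistribMulAction G B] [DistribMulAction G C]
    (a : A →+ B) (b : B →+ C) (ha : Eqv G a) (hb : Eqv G b) (hinj : Function.Injective a)
    (hsurj : Function.Surjective b) (hex : ∀ x, b x = 0 ↔ ∃ y, a y = x)
    (hA : E.H2f A) (hC : E.H2f C) : E.H2f B := by
  obtain ⟨SA, hSA, hA2⟩ := hA
  obtain ⟨SC, hSC, hC2⟩ := hC
  have hcomp : ∀ {X Y Z : Type} [AddCommGroup X] [AddCommGroup Y] [AddCommGroup Z]
      [DistribMulAction G X] [DistribMulAction G Y] [DistribMulAction G Z] (f : Y →+ Z)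
      (g : X →+ Y), Eqv G f → Eqv G g → Eqv G (f.comp g) := by
    intro X Y Z _ _ _ _ _ _ f g hf hg x p
    rw [AddMonoidHom.comp_apply, AddMonoidHom.comp_apply, hg, hf]
  have hsub : ∀ {X Y : Type} [AddCommGroup X] [AddCommGroup Y]
      [DistribMulAction G X] [DistribMulAction G Y] (f g : X →+ Y), Eqv G f → Eqv G g →
      Eqv G (f - g) := by
    intro X Y _ _ _ _ f g hf hg x p
    rw [AddMonoidHom.sub_apply, AddMonoidHom.sub_apply, hf, hg, smul_sub]
  have hadd : ∀ {X Y : Type} [AddCommGroup X] [AddCommGroup Y]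
      [DistribMulAction G X] [DistribMulAction G Y] (f g : X →+ Y), Eqv G f → Eqv G g →
      Eqv G (f + g) := by
    intro X Y _ _ _ _ f g hf hg x p
    rw [AddMonoidHom.add_apply, AddMonoidHom.add_apply, hf, hg, smul_add]
  have hW : ∀ s : P2 →+ C, ∃ w : P2 →+ B,
      (∃ w' : P2 →+ B, Eqv G w' ∧ (∀ p, w' (E.d2 p) = 0) ∧
        ∃ v : P1 →+ C, Eqv G v ∧ ∀ p, b (w' p) = s p + v (E.d1 p)) →
      Eqv G w ∧ (∀ p, w (E.d2 p) = 0) ∧
        ∃ v : P1 →+ C, Eqv G v ∧ ∀ p, b (w p) = s p + v (E.d1 p) := by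
    intro s
    by_cases h : ∃ w' : P2 →+ B, Eqv G w' ∧ (∀ p, w' (E.d2 p) = 0) ∧
        ∃ v : P1 →+ C, Eqv G v ∧ ∀ p, b (w' p) = s p + v (E.d1 p)
    · obtain ⟨w', h'⟩ := h
      exact ⟨w', fun _ => h'⟩
    · exact ⟨0, fun h' => absurd h' h⟩
  choose W hW using hW
  refine ⟨Set.image2 (fun s t => W s + a.comp t) SC SA, hSC.image2 _ hSA, fun u hu hz => ?_⟩
  obtain ⟨s, hs, v, hv, hsv⟩ := hC2 (b.comp u) (hcomp b u hb hu) fun p => by
    rw [AddMonoidHom.comp_apply, hz, map_zero]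
  obtain ⟨hw, hwz, v0, hv0, hwv⟩ := hW s ⟨u, hu, hz, v, hv, fun p => hsv p⟩
  obtain ⟨t, ht, htb⟩ := exists_lift E.b1 b hb (v - v0) (hsub v v0 hv hv0) fun p => hsurj _
  obtain ⟨w, hwe, hwa⟩ := exists_lift E.b2 a ha (u - W s - t.comp E.d1)
    (hsub _ _ (hsub _ _ hu hw) (hcomp t E.d1 ht E.d1_smul)) fun p => (hex _).1 (by
      have h1 := hsv p
      rw [AddMonoidHom.comp_apply] at h1
      rw [AddMonoidHom.sub_apply, AddMonoidHom.sub_apply, AddMonoidHom.comp_apply, map_sub,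
        map_sub, h1, hwv, htb, AddMonoidHom.sub_apply]
      abel)
  obtain ⟨r, hr, v', hv', hrv⟩ := hA2 w hwe fun p => hinj (by
    rw [hwa, AddMonoidHom.sub_apply, AddMonoidHom.sub_apply, AddMonoidHom.comp_apply, hz, hwz,
      (E.exact2 _).2 ⟨p, rfl⟩]
    simp only [map_zero, sub_zero])
  refine ⟨W s + a.comp r, Set.mem_image2_of_mem hs hr, t + a.comp v',
    hadd _ _ ht (hcomp a v' ha hv'), fun p => ?_⟩
  have h2 := hwa p
  rw [hrv p, map_add, AddMonoidHom.sub_apply, AddMonoidHom.sub_apply,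
    AddMonoidHom.comp_apply] at h2
  rw [AddMonoidHom.add_apply, AddMonoidHom.add_apply, AddMonoidHom.comp_apply,
    AddMonoidHom.comp_apply]
  have h3 : u p = W s p + t (E.d1 p) + (a (r p) + a (v' (E.d1 p))) := by
    rw [h2]
    abel
  rw [h3]
  abel

/-- PIECE FN-D7 (70 lines).  The connecting map: if `B → C` induces zero on `H^1` and `H^2(A)` is
finite then `H^1(C)` is finite.  For an equivariant cocycle `u : P1 → C` choose an equivariant lift
`ũ : P1 → B` (`exists_lift`); `ũ ∘ d1` has values in `a(A)`, so `ũ ∘ d1 = a ∘ ω`, `ω` an equivariant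
cocycle.  If `ω` and `ω₁` (of `u₁`) are equivalent to the same `s ∈ S` then
`a (ω - ω₁) = a ∘ v ∘ d1`, so `ũ - ũ₁ - a ∘ v` is a cocycle with values in `B`, and
its image in `C`, which is `u - u₁`, is a coboundary by `hz`.  So choose for each `s ∈ S` which
occurs one `u_s`. -/
theorem H1f_of_conn (E : Reso G P0 P1 P2 P3) {A B C : Type} [AddCommGroup A] [AddCommGroup B]
    [AddCommGroup C] [DistribMulAction G A] [DistribMulAction G B] [DistribMulAction G C]
    (a : A →+ B) (b : B →+ C) (ha : Eqv G a) (hb : Eqv G b) (hinj : Function.Injective a)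
    (hsurj : Function.Surjective b) (hex : ∀ x, b x = 0 ↔ ∃ y, a y = x)
    (hz : E.H1m b) (hA : E.H2f A) : E.H1f C := by
  obtain ⟨S, hS, hS2⟩ := hA
  let R : (P1 →+ C) → (P2 →+ A) → Prop := fun u s => ∃ w : P1 →+ B, Eqv G w ∧
    (∀ p, b (w p) = u p) ∧ ∃ v : P1 →+ A, Eqv G v ∧
      ∀ p, w (E.d1 p) = a (s p) + a (v (E.d1 p))
  have h1 : ∀ u : P1 →+ C, Eqv G u → (∀ p, u (E.d1 p) = 0) → ∃ s ∈ S, R u s := by
    intro u hu hu0
    obtain ⟨w, hw, hwb⟩ := exists_lift E.b1 b hb u hu (fun p => hsurj (u p))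
    have h2 : ∀ p, ∃ y, a y = w (E.d1 p) := fun p => (hex _).1 (by rw [hwb, hu0])
    choose ω hω using h2
    let Ω : P2 →+ A :=
      { toFun := ω
        map_zero' := hinj (by rw [hω, map_zero, map_zero, map_zero])
        map_add' := fun p q => hinj (by rw [hω, map_add, map_add, map_add, hω, hω]) }
    have hΩ : ∀ p, a (Ω p) = w (E.d1 p) := hω
    have hΩe : Eqv G Ω := fun g p => hinj (by rw [hΩ, ha, hΩ, E.d1_smul, hw])
    have hΩz : ∀ p, Ω (E.d2 p) = 0 := fun p =>
      hinj (by rw [hΩ, map_zero, (E.exact2 _).2 ⟨p, rfl⟩, map_zero])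
    obtain ⟨s, hs, v, hv, hsv⟩ := hS2 Ω hΩe hΩz
    exact ⟨s, hs, w, hw, hwb, v, hv, fun p => by rw [← hΩ, hsv, map_add]⟩
  have h2 : ∀ (u u1 : P1 →+ C) (s : P2 →+ A), R u s → R u1 s →
      ∃ v : P0 →+ C, Eqv G v ∧ ∀ p, u p = u1 p + v (E.d0 p) := by
    rintro u u1 s ⟨w, hw, hwb, v, hv, hwv⟩ ⟨w1, hw1, hwb1, v1, hv1, hwv1⟩
    obtain ⟨y, hy, hyb⟩ := hz (w - w1 - a.comp (v - v1)) (fun g p => by
        simp only [AddMonoidHom.sub_apply, AddMonoidHom.comp_apply, map_sub, hw g p, hw1 g p,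
          hv g p, hv1 g p, ha g, smul_sub]) (fun p => by
        simp only [AddMonoidHom.sub_apply, AddMonoidHom.comp_apply, map_sub, hwv, hwv1]
        abel)
    refine ⟨y, hy, fun p => ?_⟩
    rw [← hyb]
    have h3 : b (a ((v - v1) p)) = 0 := (hex _).2 ⟨_, rfl⟩
    rw [AddMonoidHom.sub_apply, AddMonoidHom.sub_apply, AddMonoidHom.comp_apply, map_sub, h3,
      map_sub, hwb, hwb1]
    abel
  have h3 : ∀ s : P2 →+ A, ∃ t : P1 →+ C, (∃ u, R u s) → R t s := by
    intro s
    by_cases h : ∃ u, R u s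
    · obtain ⟨u, hu⟩ := h
      exact ⟨u, fun _ => hu⟩
    · exact ⟨0, fun h' => absurd h' h⟩
  choose f hf using h3
  refine ⟨f '' S, hS.image _, fun u hu hu0 => ?_⟩
  obtain ⟨s, hs, hus⟩ := h1 u hu hu0
  obtain ⟨v, hv, h⟩ := h2 u (f s) s hus (hf s ⟨u, hus⟩)
  exact ⟨f s, ⟨s, hs, rfl⟩, v, hv, h⟩

/-- PIECE FN-D8 (30 lines).  Transport of finiteness of `H^2` along an isomorphism of modules. -/
theorem H2f_equiv (E : Reso G P0 P1 P2 P3) {A B : Type} [AddCommGroup A] [AddCommGroup B]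
    [DistribMulAction G A] [DistribMulAction G B] (a : A ≃+ B) (ha : Eqv G a.toAddMonoidHom)
    (hA : E.H2f A) : E.H2f B := by
  obtain ⟨S, hS, h⟩ := hA
  have hsymm : Eqv G a.symm.toAddMonoidHom := by
    intro g p
    apply a.injective
    have h1 := ha g (a.symm p)
    change a (a.symm (g • p)) = a (g • a.symm p)
    change a (g • a.symm p) = g • a (a.symm p) at h1
    rw [h1, a.apply_symm_apply, a.apply_symm_apply]
  refine ⟨(fun s : P2 →+ A => a.toAddMonoidHom.comp s) '' S, hS.image _, fun u hu hz => ?_⟩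
  obtain ⟨s, hs, v, hv, hsv⟩ := h (a.symm.toAddMonoidHom.comp u)
    (fun g p => by
      rw [AddMonoidHom.comp_apply, AddMonoidHom.comp_apply, hu, hsymm])
    (fun p => by rw [AddMonoidHom.comp_apply, hz, map_zero])
  refine ⟨a.toAddMonoidHom.comp s, ⟨s, hs, rfl⟩, a.toAddMonoidHom.comp v,
    fun g p => by rw [AddMonoidHom.comp_apply, AddMonoidHom.comp_apply, hv, ha], fun p => ?_⟩
  have h2 := congrArg a (hsv p)
  rw [map_add] at h2
  change a (a.symm (u p)) = _ at h2
  rw [a.apply_symm_apply] at h2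
  exact h2

end

/-- PIECE FN-D9 (40 lines).  Submodules as modules: an invariant subgroup `A` of `W`. -/
theorem exists_sub {W : Type} [AddCommGroup W] [DistribMulAction G W] (A : AddSubgroup W)
    (hA : ∀ (g : G), ∀ a ∈ A, g • a ∈ A) :
    ∃ (A' : Type) (_ : AddCommGroup A') (_ : DistribMulAction G A') (a : A' →+ W),
      Eqv G a ∧ Function.Injective a ∧ ∀ x, x ∈ A ↔ ∃ y, a y = x := by
  refine ⟨A, inferInstance,
    { smul := fun g a => ⟨g • (a : W), hA g _ a.2⟩
      one_smul := fun a => Subtype.ext (one_smul G (a : W))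
      mul_smul := fun g h a => Subtype.ext (mul_smul g h (a : W))
      smul_zero := fun g => Subtype.ext (smul_zero g)
      smul_add := fun g a b => Subtype.ext (smul_add g (a : W) (b : W)) },
    A.subtype, fun g p => rfl, Subtype.val_injective, fun x => ?_⟩
  constructor
  · intro hx
    exact ⟨⟨x, hx⟩, rfl⟩
  · rintro ⟨y, rfl⟩
    exact y.2

/-- PIECE FN-D9 (40 lines), second part.  Quotient modules. -/
theorem exists_quot {W : Type} [AddCommGroup W] [DistribMulAction G W] (A : AddSubgroup W)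
    (hA : ∀ (g : G), ∀ a ∈ A, g • a ∈ A) :
    ∃ (C : Type) (_ : AddCommGroup C) (_ : DistribMulAction G C) (b : W →+ C),
      Eqv G b ∧ Function.Surjective b ∧ ∀ x, b x = 0 ↔ x ∈ A := by
  have hm : ∀ g : G, A ≤ A.comap (DistribSMul.toAddMonoidHom W g) := fun g a ha => hA g a ha
  refine ⟨W ⧸ A, inferInstance,
    { smul := fun g => QuotientAddGroup.map A A (DistribSMul.toAddMonoidHom W g) (hm g)
      one_smul := ?_
      mul_smul := ?_
      smul_zero := ?_
      smul_add := ?_ },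
    QuotientAddGroup.mk' A, fun g p => rfl, QuotientAddGroup.mk'_surjective A, fun x => ?_⟩
  · intro g h c
    induction c using QuotientAddGroup.induction_on with
    | H w => exact congrArg (QuotientAddGroup.mk' A) (mul_smul g h w)
  · intro c
    induction c using QuotientAddGroup.induction_on with
    | H w => exact congrArg (QuotientAddGroup.mk' A) (one_smul G w)
  · intro g
    exact map_zero (QuotientAddGroup.map A A (DistribSMul.toAddMonoidHom W g) (hm g))
  · intro g c c'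
    exact map_add (QuotientAddGroup.map A A (DistribSMul.toAddMonoidHom W g) (hm g)) c c'
  · exact QuotientAddGroup.eq_zero_iff x

end Pool.FN
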