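import Pool.Agent.Helper38.FN.De

/-! Project FN: almost invariant sets. -/

set_option autoImplicit false

namespace Pool.FN

open Pool.ACH

/-- PIECE FN-E1 (120 lines).  `Q` finitely generated, `X` infinite and co-infinite, almost invariant
under left translations by `Q` and under right translations by the subgroup `Q0` of finite index.
Then there is `t ∈ Q0` with `X t ⊊ X` or `X ⊊ X t`.  Let `S` be a finite generating set, closed
under inverses, `E₀` the finite set of all `x` such that `s x` and `x` are separated by `X` for some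
`s ∈ S`, and `B` the set of products of at most `n` elements of `S`, `n` such that
`E₀ ∪ S E₀ ⊆ B` (increase `n`).  There are only finitely many `t` with `B t ∩ B ≠ ∅`; `Q` is infinite
(`X` is), so is `Q0`; take `t ∈ Q0` with `B t ∩ B = ∅`.  `X` is constant along edges inside `B t` (no
point of `B t` is in `E₀`), so `B t ⊆ X` or `B t ⊆ Xᶜ`; in the same way `B ⊆ X t` or `B ⊆ (X t)ᶜ`.
If `B t ⊆ Xᶜ` and `B ⊆ (X t)ᶜ` then `X ∩ X t` is invariant under `S` (an edge leaving it is an edge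
in the boundary of `X`, with both ends in `B`, or in the boundary of `X t`, with both ends in
`B t`), so it is empty or everything, hence empty, contradicting `X t ~ X`, `X` infinite.  The
other three cases are similar: they give a contradiction, `X t ⊆ X`, or `X ⊆ X t`; and `X t ≠ X`
because the boundaries are disjoint and not empty. -/
theorem exists_nested {Q : Type} [Group Q] (hfg : Group.FG Q) (X : Set Q) (hX : X.Infinite)
    (hXc : Xᶜ.Infinite) (hl : ∀ g : Q, {x | ¬ (g * x ∈ X ↔ x ∈ X)}.Finite) (Q0 : Subgroup Q)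
    (h0 : Q0.index ≠ 0) (hr : ∀ t ∈ Q0, {x | ¬ (x * t ∈ X ↔ x ∈ X)}.Finite) :
    ∃ t ∈ Q0, ((∀ x, x * t ∈ X → x ∈ X) ∨ (∀ x, x ∈ X → x * t ∈ X)) ∧
      ∃ x, ¬ (x * t ∈ X ↔ x ∈ X) := by
  classical
  obtain ⟨S0, hS0⟩ := hfg
  obtain ⟨S, hS⟩ : ∃ S : Finset Q, S = S0 ∪ S0.image (fun x => x⁻¹) := ⟨_, rfl⟩
  have hmem : ∀ s ∈ S0, s ∈ S ∧ s⁻¹ ∈ S := by
    intro s hs
    rw [hS]
    exact ⟨Finset.mem_union_left _ hs, Finset.mem_union_right _ (Finset.mem_image_of_mem _ hs)⟩
  -- invariant sets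
  have hinv : ∀ Z : Set Q, (∀ s ∈ S, ∀ x ∈ Z, s * x ∈ Z) → ∀ z ∈ Z, ∀ x, x ∈ Z := by
    intro Z hZ z hz x
    have h1 : ∀ g : Q, g * z ∈ Z := by
      intro g
      have hg : g ∈ Subgroup.closure (S0 : Set Q) := by rw [hS0]; trivial
      induction hg using Subgroup.closure_induction_left with
      | one => rwa [one_mul]
      | mul_left s hs y hy ih =>
        rw [mul_assoc]
        exact hZ s (hmem s hs).1 _ ih
      | inv_mul_cancel s hs y hy ih =>
        rw [mul_assoc]
        exact hZ _ (hmem s hs).2 _ ih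
    have h2 := h1 (x * z⁻¹)
    rwa [inv_mul_cancel_right] at h2
  -- balls
  obtain ⟨B, hB0, hBs⟩ : ∃ B : ℕ → Finset Q, B 0 = {1} ∧
      ∀ n, B (n + 1) = B n ∪ (S ×ˢ B n).image (fun p => p.1 * p.2) :=
    ⟨fun n => Nat.rec {1} (fun _ b => b ∪ (S ×ˢ b).image (fun p => p.1 * p.2)) n, rfl,
      fun _ => rfl⟩
  have hBstep : ∀ n, ∀ s ∈ S, ∀ x ∈ B n, s * x ∈ B (n + 1) := by
    intro n s hs x hx
    rw [hBs]
    exact Finset.mem_union_right _ (Finset.mem_image.2 ⟨(s, x), Finset.mk_mem_product hs hx, rfl⟩)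
  have hBmono : ∀ n m, n ≤ m → B n ⊆ B m := by
    intro n m hnm
    induction m, hnm using Nat.le_induction with
    | base => exact Finset.Subset.refl _
    | succ m _ ih =>
      rw [hBs]
      exact ih.trans Finset.subset_union_left
  have hBall : ∀ x, ∃ n, x ∈ B n := by
    intro x
    have hg : x ∈ Subgroup.closure (S0 : Set Q) := by rw [hS0]; trivial
    induction hg using Subgroup.closure_induction_left with
    | one => exact ⟨0, by rw [hB0]; exact Finset.mem_singleton_self _⟩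
    | mul_left s hs y hy ih =>
      obtain ⟨n, hn⟩ := ih
      exact ⟨n + 1, hBstep n s (hmem s hs).1 y hn⟩
    | inv_mul_cancel s hs y hy ih =>
      obtain ⟨n, hn⟩ := ih
      exact ⟨n + 1, hBstep n _ (hmem s hs).2 y hn⟩
  have hBfin : ∀ T : Finset Q, ∃ n, T ⊆ B n := by
    intro T
    induction T using Finset.induction_on with
    | empty => exact ⟨0, Finset.empty_subset _⟩
    | insert a T _ ih =>
      obtain ⟨n, hn⟩ := ih
      obtain ⟨m, hm⟩ := hBall a
      refine ⟨max n m, Finset.insert_subset (hBmono _ _ (le_max_right n m) hm)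
        (hn.trans (hBmono _ _ (le_max_left n m)))⟩
  -- the boundary
  have hEfin : {x | ∃ s ∈ S, ¬ (s * x ∈ X ↔ x ∈ X)}.Finite := by
    have h1 : {x | ∃ s ∈ S, ¬ (s * x ∈ X ↔ x ∈ X)} =
        ⋃ s ∈ S, {x | ¬ (s * x ∈ X ↔ x ∈ X)} := by
      ext x
      simp only [Set.mem_iUnion, exists_prop]
      rfl
    rw [h1]
    exact Set.Finite.biUnion S.finite_toSet fun s _ => hl s
  obtain ⟨n, hn⟩ := hBfin hEfin.toFinset
  have hE : ∀ x, ∀ s ∈ S, ¬ (s * x ∈ X ↔ x ∈ X) → x ∈ B n := by
    intro x s hs hx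
    exact hn (hEfin.mem_toFinset.2 ⟨s, hs, hx⟩)
  -- constancy on translates of balls
  have hconst : ∀ t : Q, (∀ x ∈ B n, x * t ∉ B n) → ∀ m ≤ n + 1, ∀ x ∈ B m,
      (x * t ∈ X ↔ t ∈ X) := by
    intro t ht m
    induction m with
    | zero =>
      intro _ x hx
      rw [hB0, Finset.mem_singleton] at hx
      rw [hx, one_mul]
    | succ m ih =>
      intro hm x hx
      rw [hBs, Finset.mem_union, Finset.mem_image] at hx
      rcases hx with hx | ⟨⟨s, y⟩, hsy, rfl⟩
      · exact ih (by omega) x hx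
      · rw [Finset.mem_product] at hsy
        rw [← ih (by omega) y hsy.2, mul_assoc]
        by_contra hcon
        exact ht y (hBmono m n (by omega) hsy.2) (hE _ s hsy.1 hcon)
  -- the translation
  have hQ : Infinite Q := by
    by_contra h
    rw [not_infinite_iff_finite] at h
    exact hX (Set.toFinite X)
  have hQ0 : (Q0 : Set Q).Infinite := by
    intro h
    have h1 := Q0.card_mul_index
    rw [Nat.card_eq_zero_of_infinite (α := Q)] at h1
    rcases mul_eq_zero.1 h1 with h2 | h2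
    · have : Finite Q0 := h.to_subtype
      exact (Nat.card_pos (α := Q0)).ne' h2
    · exact h0 h2
  obtain ⟨t, ht, htn⟩ := hQ0.exists_notMem_finset
    ((B (n + 1) ×ˢ B (n + 1)).image (fun p => p.1⁻¹ * p.2))
  have hdis : ∀ x ∈ B (n + 1), x * t ∉ B (n + 1) := by
    intro x hx h1
    apply htn
    exact Finset.mem_image.2 ⟨(x, x * t), Finset.mk_mem_product hx h1, inv_mul_cancel_left x t⟩
  have hdis' : ∀ x ∈ B (n + 1), x * t⁻¹ ∉ B (n + 1) := by
    intro x hx h1
    exact hdis _ h1 (by rwa [inv_mul_cancel_right])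
  have hsub := hBmono n (n + 1) (Nat.le_succ n)
  have c1 : ∀ x ∈ B (n + 1), (x * t ∈ X ↔ t ∈ X) :=
    hconst t (fun x hx h => hdis x (hsub hx) (hsub h)) (n + 1) le_rfl
  have c2 : ∀ x ∈ B (n + 1), (x * t⁻¹ ∈ X ↔ t⁻¹ ∈ X) :=
    hconst t⁻¹ (fun x hx h => hdis' x (hsub hx) (hsub h)) (n + 1) le_rfl
  -- boundary edges of `X` and of its translate
  have e1 : ∀ x, ∀ s ∈ S, ¬ (s * x ∈ X ↔ x ∈ X) → (x * t ∈ X ↔ t ∈ X) ∧
      (s * x * t ∈ X ↔ t ∈ X) := fun x s hs hx =>
    ⟨c1 x (hsub (hE x s hs hx)), c1 _ (hBstep n s hs x (hE x s hs hx))⟩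
  have e2 : ∀ x, ∀ s ∈ S, ¬ (s * x * t ∈ X ↔ x * t ∈ X) → (x ∈ X ↔ t⁻¹ ∈ X) := by
    intro x s hs hx
    rw [mul_assoc] at hx
    have h1 := c2 _ (hsub (hE (x * t) s hs hx))
    rwa [mul_inv_cancel_right] at h1
  obtain ⟨a, ha⟩ := hX.nonempty
  obtain ⟨b, hb⟩ := hXc.nonempty
  -- an edge of the boundary
  obtain ⟨x0, s0, hs0, hx0⟩ : ∃ x, ∃ s ∈ S, ¬ (s * x ∈ X ↔ x ∈ X) := by
    by_contra hcon
    push Not at hcon
    exact hb (hinv X (fun s hs x hx => (hcon x s hs).2 hx) a ha b)
  have hr' := hr t ht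
  refine ⟨t, ht, ?_⟩
  by_cases h1 : t ∈ X
  · by_cases h2 : t⁻¹ ∈ X
    · -- complements
      exfalso
      have h3 : ∀ x, ¬ (x ∉ X ∧ x * t ∉ X) := by
        intro x hx
        have h4 := hinv {x | x ∉ X ∧ x * t ∉ X} (fun s hs x hx => by
          refine ⟨fun h => ?_, fun h => ?_⟩
          · exact hx.2 ((e1 x s hs (fun h' => hx.1 (h'.1 h))).1.2 h1)
          · exact hx.1 ((e2 x s hs (fun h' => hx.2 (h'.1 h))).2 h2)) x hx a
        exact h4.1 ha
      refine hXc (hr'.subset fun x hx h => ?_)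
      have h5 : x * t ∈ X := by
        by_contra h6
        exact h3 x ⟨hx, h6⟩
      exact hx (h.1 h5)
    · refine ⟨Or.inr fun x hx => ?_, ?_⟩
      · by_contra hxt
        have h4 := hinv {x | x ∈ X ∧ x * t ∉ X} (fun s hs x hx => by
          refine ⟨?_, fun h => ?_⟩
          · by_contra h
            exact hx.2 ((e1 x s hs (fun h' => h (h'.2 hx.1))).1.2 h1)
          · exact h2 ((e2 x s hs (fun h' => hx.2 (h'.1 h))).1 hx.1)) x ⟨hx, hxt⟩ b
        exact hb h4.1
      · obtain ⟨g1, g2⟩ := e1 x0 s0 hs0 hx0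
        by_cases h5 : x0 ∈ X
        · have h6 : s0 * x0 ∉ X := fun h => hx0 ⟨fun _ => h5, fun _ => h⟩
          exact ⟨s0 * x0, fun h => h6 (h.1 (g2.2 h1))⟩
        · exact ⟨x0, fun h => h5 (h.1 (g1.2 h1))⟩
  · by_cases h2 : t⁻¹ ∈ X
    · refine ⟨Or.inl fun x hxt => ?_, ?_⟩
      · by_contra hx
        have h4 := hinv {x | x ∉ X ∧ x * t ∈ X} (fun s hs x hx => by
          refine ⟨fun h => ?_, ?_⟩
          · exact h1 ((e1 x s hs (fun h' => hx.1 (h'.1 h))).1.1 hx.2)
          · by_contra h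
            exact hx.1 ((e2 x s hs (fun h' => h (h'.2 hx.2))).2 h2)) x ⟨hx, hxt⟩ a
        exact h4.1 ha
      · obtain ⟨g1, g2⟩ := e1 x0 s0 hs0 hx0
        by_cases h5 : x0 ∈ X
        · exact ⟨x0, fun h => h1 (g1.1 (h.2 h5))⟩
        · have h6 : s0 * x0 ∈ X := by
            by_contra h7
            exact hx0 ⟨fun h => absurd h h7, fun h => absurd h h5⟩
          exact ⟨s0 * x0, fun h => h1 (g2.1 (h.2 h6))⟩
    · exfalso
      have h3 : ∀ x, ¬ (x ∈ X ∧ x * t ∈ X) := by
        intro x hx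
        have h4 := hinv {x | x ∈ X ∧ x * t ∈ X} (fun s hs x hx => by
          refine ⟨?_, ?_⟩
          · by_contra h
            exact h1 ((e1 x s hs (fun h' => h (h'.2 hx.1))).1.1 hx.2)
          · by_contra h
            exact h2 ((e2 x s hs (fun h' => h (h'.2 hx.2))).1 hx.1)) x hx b
        exact hb h4.1
      exact hX (hr'.subset fun x hx h => h3 x ⟨hx, h.2 hx⟩)

open Classical in
/-- The summand of the flow. -/
private noncomputable def fne2T {Q : Type} [Group Q] (X : Set Q) (t x : Q) : ℤ :=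
  (if x * t ∈ X then 1 else 0) - (if x ∈ X then 1 else 0)

private theorem fne2_eq {Q : Type} [Group Q] (X : Set Q) (t x : Q) (h : x * t ∈ X ↔ x ∈ X) :
    fne2T X t x = 0 := by
  unfold fne2T
  by_cases hx : x ∈ X
  · rw [if_pos hx, if_pos (h.2 hx), sub_self]
  · rw [if_neg hx, if_neg (fun h' => hx (h.1 h')), sub_self]

private theorem fne2_fin {Q : Type} [Group Q] (X : Set Q) (t : Q)
    (h : {x | ¬ (x * t ∈ X ↔ x ∈ X)}.Finite) : (Function.support (fne2T X t)).Finite :=
  h.subset fun x hx h' => hx (fne2_eq X t x h')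

private theorem fne2_mul {Q : Type} [Group Q] (X : Set Q) (t u : Q)
    (ht : {x | ¬ (x * t ∈ X ↔ x ∈ X)}.Finite) (hu : {x | ¬ (x * u ∈ X ↔ x ∈ X)}.Finite) :
    ∑ᶠ x, fne2T X (t * u) x = ∑ᶠ x, fne2T X t x + ∑ᶠ x, fne2T X u x := by
  have h1 : ∀ x, fne2T X (t * u) x = fne2T X t x + fne2T X u (Equiv.mulRight t x) := by
    intro x
    have h : Equiv.mulRight t x = x * t := rfl
    rw [h]
    unfold fne2T
    rw [mul_assoc x t u]
    ring
  have h2 : (Function.support fun x => fne2T X u (Equiv.mulRight t x)).Finite := by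
    have h := (fne2_fin X u hu).preimage ((Equiv.mulRight t).injective.injOn)
    exact h
  rw [finsum_congr h1, finsum_add_distrib (fne2_fin X t ht) h2,
    finsum_comp_equiv (Equiv.mulRight t)]

private theorem fne2_surj {H : Type} [Group H] (f : H →* Multiplicative ℤ)
    (hf : ∃ x, f x ≠ 1) : ∃ g : H →* Multiplicative ℤ, Function.Surjective g := by
  let φ : Additive H →+ ℤ := MonoidHom.toAdditiveLeft f
  have hφ : ∀ x, φ (Additive.ofMul x) = Multiplicative.toAdd (f x) := fun x => rfl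
  obtain ⟨n, hn⟩ := Int.subgroup_cyclic φ.range
  have hn0 : n ≠ 0 := by
    rintro rfl
    obtain ⟨x, hx⟩ := hf
    apply hx
    have h : φ (Additive.ofMul x) ∈ φ.range := ⟨_, rfl⟩
    rw [hn, AddSubgroup.mem_closure_singleton] at h
    obtain ⟨k, hk⟩ := h
    rw [smul_zero] at hk
    exact hk.symm
  have hd : ∀ x, ∃ k : ℤ, φ x = k * n := by
    intro x
    have h : φ x ∈ φ.range := ⟨_, rfl⟩
    rw [hn, AddSubgroup.mem_closure_singleton] at h
    obtain ⟨k, hk⟩ := h
    exact ⟨k, by rw [← hk, smul_eq_mul]⟩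
  choose k hk using hd
  let g : Additive H →+ ℤ :=
    { toFun := k
      map_zero' := by
        have h := hk 0
        rw [map_zero] at h
        rcases mul_eq_zero.1 h.symm with h | h
        · exact h
        · exact absurd h hn0
      map_add' := by
        intro x y
        have h := hk (x + y)
        rw [map_add, hk x, hk y, ← add_mul] at h
        exact (mul_right_cancel₀ hn0 h).symm }
  refine ⟨AddMonoidHom.toMultiplicativeRight g, fun z => ?_⟩
  have h1 : Multiplicative.toAdd z * n ∈ φ.range := by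
    rw [hn, AddSubgroup.mem_closure_singleton]
    exact ⟨Multiplicative.toAdd z, smul_eq_mul _ _⟩
  obtain ⟨x, hx⟩ := h1
  refine ⟨Additive.toMul x, ?_⟩
  have h2 : k x = Multiplicative.toAdd z := by
    rw [hk x] at hx
    exact mul_right_cancel₀ hn0 hx
  change Multiplicative.ofAdd (k x) = z
  rw [h2]
  rfl

/-- PIECE FN-E2 (90 lines).  The flow `ψ(t) = |X t⁻¹ \ X| - |X \ X t⁻¹| =
∑_x ([x t ∈ X] - [x ∈ X])` (finite sum) is a homomorphism `Q0 → ℤ`
(`∑_x ([x t u ∈ X] - [x u ∈ X]) + ∑_x ([x u ∈ X] - [x ∈ X])`, substitute `x ↦ x u` with care: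
`[x u t'...]`; use `finsum_comp_equiv (Equiv.mulRight _)`), and it is not trivial by
`exists_nested`.  A non-trivial homomorphism to `ℤ` gives a surjective one (image `n ℤ`, divide by
`n`). -/
theorem exists_flow {Q : Type} [Group Q] (hfg : Group.FG Q) (X : Set Q) (hX : X.Infinite)
    (hXc : Xᶜ.Infinite) (hl : ∀ g : Q, {x | ¬ (g * x ∈ X ↔ x ∈ X)}.Finite) (Q0 : Subgroup Q)
    (h0 : Q0.index ≠ 0) (hr : ∀ t ∈ Q0, {x | ¬ (x * t ∈ X ↔ x ∈ X)}.Finite) :
    ∃ f : Q0 →* Multiplicative ℤ, Function.Surjective f := by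
  let f : Q0 →* Multiplicative ℤ :=
    { toFun := fun t => Multiplicative.ofAdd (∑ᶠ x, fne2T X (t : Q) x)
      map_one' := by
        have h : ∀ x, fne2T X ((1 : Q0) : Q) x = 0 := by
          intro x
          apply fne2_eq
          rw [Subgroup.coe_one, mul_one]
        rw [finsum_congr h, finsum_zero]
        rfl
      map_mul' := by
        intro t u
        rw [Subgroup.coe_mul, fne2_mul X t u (hr t t.2) (hr u u.2)]
        rfl }
  refine fne2_surj f ?_
  obtain ⟨t, ht, h1, x, hx⟩ := exists_nested hfg X hX hXc hl Q0 h0 hr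
  refine ⟨⟨t, ht⟩, fun h => ?_⟩
  have h2 : ∑ᶠ x, fne2T X t x = 0 := h
  have hfin := fne2_fin X t (hr t ht)
  rw [finsum_eq_sum_of_support_subset (s := hfin.toFinset) _ (by
    intro y hy
    exact hfin.mem_toFinset.2 hy)] at h2
  rcases h1 with h1 | h1
  · -- all summands are nonpositive
    have hle : ∀ y ∈ hfin.toFinset, fne2T X t y ≤ 0 := by
      intro y _
      unfold fne2T
      by_cases hy : y * t ∈ X
      · rw [if_pos hy, if_pos (h1 y hy), sub_self]
      · rw [if_neg hy]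
        split_ifs <;> norm_num
    have hx1 : fne2T X t x = -1 := by
      have hx2 : x ∈ X := by
        by_contra hc
        exact hx ⟨fun h' => h1 x h', fun h' => absurd h' hc⟩
      have hx3 : x * t ∉ X := fun hc => hx ⟨fun _ => hx2, fun _ => hc⟩
      unfold fne2T
      rw [if_pos hx2, if_neg hx3]
      norm_num
    have h3 := (Finset.sum_eq_zero_iff_of_nonpos hle).1 h2 x
      (hfin.mem_toFinset.2 (by rw [Function.mem_support, hx1]; norm_num))
    rw [hx1] at h3
    norm_num at h3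
  · have hle : ∀ y ∈ hfin.toFinset, 0 ≤ fne2T X t y := by
      intro y _
      unfold fne2T
      by_cases hy : y ∈ X
      · rw [if_pos hy, if_pos (h1 y hy), sub_self]
      · rw [if_neg hy]
        split_ifs <;> norm_num
    have hx1 : fne2T X t x = 1 := by
      have hx2 : x ∉ X := fun hc => hx ⟨fun _ => hc, fun _ => h1 x hc⟩
      have hx3 : x * t ∈ X := by
        by_contra hc
        exact hx ⟨fun h' => absurd h' hc, fun h' => absurd h' hx2⟩
      unfold fne2T
      rw [if_neg hx2, if_pos hx3]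
      norm_num
    have h3 := (Finset.sum_eq_zero_iff_of_nonneg hle).1 h2 x
      (hfin.mem_toFinset.2 (by rw [Function.mem_support, hx1]; norm_num))
    rw [hx1] at h3
    norm_num at h3

variable {G : Type} [Group G]

private theorem fne3_triv {p : ℕ} (M : Subgroup G) [M.Normal] (f : Ff G M (ZMod p)) (m : G)
    (hm : m ∈ M) : m • f = f := by
  refine Subtype.ext (funext fun x => ?_)
  rw [Ff.smul_apply]
  have hx : m⁻¹ • x = x := by
    induction x using QuotientGroup.induction_on with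
    | H g =>
      change ((m⁻¹ * g : G) : G ⧸ M) = (g : G ⧸ M)
      rw [QuotientGroup.eq]
      have h1 : (m⁻¹ * g)⁻¹ * g = g⁻¹ * m * g⁻¹⁻¹ := by group
      rw [h1]
      exact Subgroup.Normal.conj_mem inferInstance m hm g⁻¹
  rw [hx]

private theorem fne3_one {p : ℕ} (M : Subgroup G) (D : G → Ff G M (ZMod p)) (hD : IsDer D) :
    D 1 = 0 := by
  have h := hD 1 1
  rw [mul_one, one_smul] at h
  exact left_eq_add.1 h

private theorem fne3_conj {p : ℕ} (M : Subgroup G) [M.Normal] (D : G → Ff G M (ZMod p))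
    (hD : IsDer D) (g m : G) (hm : m ∈ M) : D (g * m * g⁻¹) = g • D m := by
  have h0 : D g + g • D g⁻¹ = 0 := by
    rw [← hD, mul_inv_cancel, fne3_one M D hD]
  rw [mul_assoc, hD, hD, fne3_triv M (D g⁻¹) m hm, smul_add, add_left_comm, h0, add_zero]

/-- PIECE FN-E3 (60 lines).  A derivation `D : G → F_p[G ⧸ M]`, `M` normal, finitely generated, of
infinite index, vanishes on `M`.  `M` acts trivially, so `D` is a homomorphism on `M`, with
`D (g m g⁻¹) = g D m`.  The image `D(M)` is a finitely generated abelian group killed by `p`, so it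
is finite, so the union of the supports is a finite subset of `G ⧸ M`, invariant under
`G`, which is transitive on the infinite set `G ⧸ M`; so it is empty. -/
theorem der_zero (p : ℕ) [Fact p.Prime] (M : Subgroup G) [M.Normal] (hM : M.FG)
    (hi : M.index = 0) (D : G → Ff G M (ZMod p)) (hD : IsDer D) (m : G) (hm : m ∈ M) :
    D m = 0 := by
  obtain ⟨S, hS⟩ := hM
  have hfin : (⋃ s ∈ S, {x : G ⧸ M | (D s).1 x ≠ 0}).Finite := by
    refine Set.Finite.biUnion S.finite_toSet fun s _ => ?_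
    exact (D s).2
  set T : Set (G ⧸ M) := ⋃ s ∈ S, {x : G ⧸ M | (D s).1 x ≠ 0} with hT
  have hsub : ∀ n ∈ M, ∀ x ∉ T, (D n).1 x = 0 := by
    intro n hn x hx
    rw [← hS] at hn
    have key : (n ∈ M) ∧ (D n).1 x = 0 := by
      induction hn using Subgroup.closure_induction with
      | mem y hy =>
        refine ⟨hS ▸ Subgroup.subset_closure hy, ?_⟩
        by_contra h
        exact hx (Set.mem_biUnion hy h)
      | one =>
        refine ⟨M.one_mem, ?_⟩
        rw [fne3_one M D hD]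
        rfl
      | mul a b _ _ ha hb =>
        refine ⟨M.mul_mem ha.1 hb.1, ?_⟩
        rw [hD, fne3_triv M (D b) a ha.1, Ff.add_apply, ha.2, hb.2, add_zero]
      | inv a _ ha =>
        refine ⟨M.inv_mem ha.1, ?_⟩
        have h1 := hD a⁻¹ a
        rw [inv_mul_cancel, fne3_one M D hD, fne3_triv M (D a) a⁻¹ (M.inv_mem ha.1)] at h1
        have h2 : (D a⁻¹).1 x + (D a).1 x = 0 := by
          rw [← Ff.add_apply, ← h1]
          rfl
        rwa [ha.2, add_zero] at h2
    exact key.2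
  by_contra h
  have h1 : ∃ x, (D m).1 x ≠ 0 := by
    by_contra h2
    push Not at h2
    exact h (Subtype.ext (funext h2))
  obtain ⟨x0, hx0⟩ := h1
  have h3 : ∀ g : G, g • x0 ∈ T := by
    intro g
    by_contra h4
    have h5 := hsub (g * m * g⁻¹) (Subgroup.Normal.conj_mem inferInstance m hm g) _ h4
    rw [fne3_conj M D hD g m hm, Ff.smul_apply, inv_smul_smul] at h5
    exact hx0 h5
  have h6 : (Set.univ : Set (G ⧸ M)).Finite := by
    refine hfin.subset fun y _ => ?_
    obtain ⟨g, hg⟩ := MulAction.exists_smul_eq G x0 y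
    rw [← hg]
    exact h3 g
  rw [Subgroup.index_eq_zero_iff_infinite] at hi
  exact Set.infinite_univ h6

/-- PIECE FN-E4 (100 lines).  `N` normal of infinite index, `D : G → F_p[G ⧸ N]` a derivation which
vanishes on `N` and is not inner.  Then there is an infinite, co-infinite `X ⊆ G ⧸ N` almost
invariant under left translations.  `m (h N) = - D h (h N)` is well defined and
`D g x = m (g⁻¹ x) - m x` (`D h = D g + g D(g⁻¹ h)` at `x = h N`).  The level sets `{m = a}`,
`a : ZMod p`, are almost invariant.  If all of them are finite or co-finite, then one is co-finite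
(`G ⧸ N` is infinite, `ZMod p` finite), `m - a` has finite support and `D` is inner. -/
theorem exists_X (p : ℕ) [Fact p.Prime] (N : Subgroup G) [N.Normal] (hi : N.index = 0)
    (D : G → Ff G N (ZMod p)) (hD : IsDer D) (hN : ∀ n ∈ N, D n = 0)
    (hin : ¬ ∃ w : Ff G N (ZMod p), ∀ g, D g = g • w - w) :
    ∃ X : Set (G ⧸ N), X.Infinite ∧ Xᶜ.Infinite ∧
      ∀ g : G ⧸ N, {x | ¬ (g * x ∈ X ↔ x ∈ X)}.Finite := by
  obtain ⟨m, hm⟩ : ∃ m : G ⧸ N → ZMod p, ∀ h : G, m (h : G ⧸ N) = -(D h).1 (h : G ⧸ N) := by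
    refine ⟨fun x => -(D x.out).1 x, fun h => ?_⟩
    obtain ⟨n, hn⟩ := QuotientGroup.mk_out_eq_mul N h
    have h1 : D ((h : G ⧸ N).out) = D h := by
      rw [hn, hD, hN n.1 n.2, smul_zero, add_zero]
    change -(D ((h : G ⧸ N).out)).1 (h : G ⧸ N) = _
    rw [h1]
  have key : ∀ (g : G) (x : G ⧸ N), (D g).1 x = m (g⁻¹ • x) - m x := by
    intro g x
    obtain ⟨h, rfl⟩ := QuotientGroup.mk_surjective x
    have h1 := hD g (g⁻¹ * h)
    rw [mul_inv_cancel_left] at h1
    have h2 : (D h).1 (h : G ⧸ N) =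
        (D g).1 (h : G ⧸ N) + (D (g⁻¹ * h)).1 (g⁻¹ • (h : G ⧸ N)) := by
      conv_lhs => rw [h1]
      rfl
    have h3 : g⁻¹ • (h : G ⧸ N) = ((g⁻¹ * h : G) : G ⧸ N) := rfl
    rw [h3] at h2 ⊢
    rw [hm, hm, h2]
    ring
  have hfin : ∀ g : G, {x : G ⧸ N | m (g • x) ≠ m x}.Finite := by
    intro g
    refine Set.Finite.subset (D g⁻¹).2 fun x hx => ?_
    intro h0
    apply hx
    have h1 := key g⁻¹ x
    rw [inv_inv] at h1
    exact sub_eq_zero.1 (h1.symm.trans h0)
  have : Infinite (G ⧸ N) := Subgroup.index_eq_zero_iff_infinite.1 hi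
  obtain ⟨a, ha⟩ := Finite.exists_infinite_fiber m
  rw [Set.infinite_coe_iff] at ha
  refine ⟨m ⁻¹' {a}, ha, ?_, fun g => ?_⟩
  · intro hc
    apply hin
    refine ⟨⟨fun x => m x - a, ?_⟩, fun g => ?_⟩
    · refine Set.Finite.subset hc fun x hx => ?_
      intro h0
      apply hx
      change m x - a = 0
      rw [Set.mem_preimage, Set.mem_singleton_iff] at h0
      rw [h0, sub_self]
    · refine Subtype.ext (funext fun x => ?_)
      rw [key]
      change _ = (m (g⁻¹ • x) - a) - (m x - a)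
      ring
  · obtain ⟨h, rfl⟩ := QuotientGroup.mk_surjective g
    refine Set.Finite.subset (hfin h) fun x hx => ?_
    intro h0
    apply hx
    have h1 : (h : G ⧸ N) * x = h • x := by
      obtain ⟨y, rfl⟩ := QuotientGroup.mk_surjective x
      rfl
    rw [h1, Set.mem_preimage, Set.mem_preimage, h0]

section

variable {P0 P1 P2 P3 : Type} [AddCommGroup P0] [AddCommGroup P1]
    [AddCommGroup P2] [AddCommGroup P3] [DistribMulAction G P0] [DistribMulAction G P1]
    [DistribMulAction G P2] [DistribMulAction G P3]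

/-- PIECE FN-E5 (120 lines).  If `H^1(G;F_p[G ⧸ N])` is finite then the `t ∈ G ⧸ N` with `X t ~ X`
(mod finite sets) form a subgroup of finite index.  For an almost invariant `Y` the function
`g ↦ g 1_Y - 1_Y` is a derivation `G → F_p[G ⧸ N]` (finite support by hypothesis).  By
`exists_coc` (`De.lean`) and `H1f` the classes of these derivations modulo inner ones take finitely
many values (if two cocycles are equivalent to the same `s` then their difference is
`v ∘ d0`, so the difference of the derivations is inner).  If the derivations of `Y`, `Y'` differ by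
an inner one then `1_Y - 1_{Y'} - w` is an invariant function, so constant, so (`w` of finite
support) `Y ~ Y'` or `Y ~ Y'ᶜ`.  So the right translates `X t` fall into finitely many classes
modulo `~`, and the stabilizer of the class of `X` has finite index (its right or left cosets
correspond to the classes). -/
theorem exists_Q0 (E : Reso G P0 P1 P2 P3) (p : ℕ) [Fact p.Prime] (N : Subgroup G) [N.Normal]
    (hi : N.index = 0) (hf : E.H1f (Ff G N (ZMod p))) (X : Set (G ⧸ N)) (hX : X.Infinite)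
    (hXc : Xᶜ.Infinite) (hl : ∀ g : G ⧸ N, {x | ¬ (g * x ∈ X ↔ x ∈ X)}.Finite) :
    ∃ Q0 : Subgroup (G ⧸ N), Q0.index ≠ 0 ∧
      ∀ t ∈ Q0, {x | ¬ (x * t ∈ X ↔ x ∈ X)}.Finite := by
  classical
  obtain ⟨S, hS, hS2⟩ := hf
  let I : Set (G ⧸ N) → (G ⧸ N) → ZMod p := fun Y x => if x ∈ Y then 1 else 0
  let AI : Set (G ⧸ N) → Prop := fun Y => ∀ g : G ⧸ N, {x | ¬ (g * x ∈ Y ↔ x ∈ Y)}.Finite
  have hsm : ∀ (g : G) (x : G ⧸ N), g • x = QuotientGroup.mk g * x := by
    intro g x
    induction x using QuotientGroup.induction_on with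
    | H z => rfl
  have hfin : ∀ Y, AI Y → ∀ g : G, {x : G ⧸ N | I Y (g⁻¹ • x) - I Y x ≠ 0}.Finite := by
    intro Y hY g
    refine (hY (QuotientGroup.mk g⁻¹)).subset fun x hx => ?_
    rw [Set.mem_setOf_eq] at hx ⊢
    intro h
    apply hx
    rw [hsm]
    simp only [I, h, sub_self]
  have hder : ∀ Y, AI Y → ∃ D : G → Ff G N (ZMod p), IsDer D ∧
      ∀ g x, (D g).1 x = I Y (g⁻¹ • x) - I Y x := by
    intro Y hY
    refine ⟨fun g => ⟨fun x => I Y (g⁻¹ • x) - I Y x, hfin Y hY g⟩, ?_, fun g x => rfl⟩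
    intro g h
    apply Subtype.ext
    funext x
    change I Y ((g * h)⁻¹ • x) - I Y x = (I Y (g⁻¹ • x) - I Y x) +
      (I Y (h⁻¹ • g⁻¹ • x) - I Y (g⁻¹ • x))
    rw [mul_inv_rev, mul_smul]
    abel
  let R : Set (G ⧸ N) → (P1 →+ Ff G N (ZMod p)) → Prop := fun Y s =>
    ∃ z : Ff G N (ZMod p), ∀ (g : G) (x : P1), E.d0 x = g • E.p0 - E.p0 →
      ∀ y, I Y (g⁻¹ • y) - I Y y = (s x).1 y + (z.1 (g⁻¹ • y) - z.1 y)
  have hsub : ∀ (f f' : Ff G N (ZMod p)) (x : G ⧸ N), (f - f').1 x = f.1 x - f'.1 x :=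
    fun f f' x => rfl
  have h1 : ∀ Y, AI Y → ∃ s ∈ S, R Y s := by
    intro Y hY
    obtain ⟨D, hD, hDv⟩ := hder Y hY
    obtain ⟨u, w, -, hu, hu1, -, hux⟩ := exists_coc E D hD ⊤ (fun g a _ => AddSubgroup.mem_top _)
      (fun g => AddSubgroup.mem_top _)
    obtain ⟨s, hs, v, hv, hsv⟩ := hS2 u hu hu1
    refine ⟨s, hs, v E.p0 - w, fun g x hx y => ?_⟩
    have e1 := hux g x hx
    have e2 := hsv x
    rw [hx, map_sub, hv, e1] at e2
    have e3 : D g = s x + (g • v E.p0 - v E.p0) - (g • w - w) := by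
      rw [← e2]; abel
    have e4 := congrArg (fun f : Ff G N (ZMod p) => f.1 y) e3
    beta_reduce at e4
    rw [hDv, hsub, hsub, Ff.add_apply, hsub, Ff.smul_apply, Ff.smul_apply] at e4
    rw [e4, hsub, hsub]
    abel
  have hx0 : ∀ g : G, ∃ x : P1, E.d0 x = g • E.p0 - E.p0 := fun g =>
    (E.exact0 _).1 (by rw [map_sub, E.ε_smul, sub_self])
  let A : Set (G ⧸ N) → Set (G ⧸ N) → Prop := fun Y Y' => {x | ¬ (x ∈ Y ↔ x ∈ Y')}.Finite
  have hAs : ∀ {Y Y'}, A Y Y' → A Y' Y := fun {Y Y'} h =>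
    h.subset fun x hx hc => hx hc.symm
  have hAt : ∀ {Y Y' Y''}, A Y Y' → A Y' Y'' → A Y Y'' := fun {Y Y' Y''} h h' =>
    (h.union h').subset fun x hx => by
      by_contra hc
      rw [Set.mem_union, not_or, Set.mem_setOf_eq, Set.mem_setOf_eq, not_not, not_not] at hc
      exact hx (hc.1.trans hc.2)
  have hAc : ∀ {Y Y'}, A Y Y' → A Yᶜ Y'ᶜ := fun {Y Y'} h =>
    h.subset fun x hx hc => hx (not_congr hc)
  have h2 : ∀ (Y Y' : Set (G ⧸ N)) (s : P1 →+ Ff G N (ZMod p)), R Y s → R Y' s →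
      A Y Y' ∨ A Y Y'ᶜ := by
    rintro Y Y' s ⟨z, hz⟩ ⟨z', hz'⟩
    have hinv : ∀ (g : G) (y : G ⧸ N), I Y (g⁻¹ • y) - I Y' (g⁻¹ • y) - z.1 (g⁻¹ • y) +
        z'.1 (g⁻¹ • y) = I Y y - I Y' y - z.1 y + z'.1 y := by
      intro g y
      obtain ⟨x, hx⟩ := hx0 g
      have e1 := hz g x hx y
      have e2 := hz' g x hx y
      linear_combination e1 - e2
    obtain ⟨c, hc⟩ : ∃ c, ∀ y, I Y y - I Y' y - z.1 y + z'.1 y = c := by
      refine ⟨I Y 1 - I Y' 1 - z.1 (1 : G ⧸ N) + z'.1 (1 : G ⧸ N), fun y => ?_⟩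
      induction y using QuotientGroup.induction_on with
      | H g =>
        have e := hinv g (QuotientGroup.mk g)
        have e1 : (g⁻¹ • (QuotientGroup.mk g : G ⧸ N)) = 1 := by
          rw [hsm, ← QuotientGroup.mk_mul, inv_mul_cancel, QuotientGroup.mk_one]
        rw [e1] at e
        exact e.symm
    have hF : ({y : G ⧸ N | z.1 y ≠ 0} ∪ {y : G ⧸ N | z'.1 y ≠ 0}).Finite := z.2.union z'.2
    have hoff : ∀ y, y ∉ ({y : G ⧸ N | z.1 y ≠ 0} ∪ {y : G ⧸ N | z'.1 y ≠ 0}) →
        I Y y - I Y' y = c := by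
      intro y hy
      rw [Set.mem_union, not_or, Set.mem_setOf_eq, Set.mem_setOf_eq, not_not, not_not] at hy
      have := hc y
      rw [hy.1, hy.2, sub_zero, add_zero] at this
      exact this
    have h10 : (1 : ZMod p) ≠ 0 := one_ne_zero
    by_cases hc0 : c = 0
    · left
      refine hF.subset fun x hx => ?_
      by_contra hn
      have e := hoff x hn
      rw [hc0] at e
      apply hx
      by_cases a : x ∈ Y <;> by_cases b : x ∈ Y' <;> simp [I, a, b] at e ⊢
    · right
      refine hF.subset fun x hx => ?_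
      by_contra hn
      have e := hoff x hn
      apply hx
      rw [Set.mem_compl_iff]
      by_cases a : x ∈ Y <;> by_cases b : x ∈ Y' <;> simp [I, a, b] at e ⊢
      · exact hc0 e.symm
      · exact hc0 e.symm
  let T : G ⧸ N → Set (G ⧸ N) := fun t => {x | x * t ∈ X}
  have hTA : ∀ t, AI (T t) := by
    intro t g
    refine ((hl g).preimage (mul_left_injective t).injOn).subset fun x hx => ?_
    rw [Set.mem_preimage, Set.mem_setOf_eq]
    intro hc
    apply hx
    change g * x * t ∈ X ↔ x * t ∈ X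
    rw [mul_assoc]
    exact hc
  have hsh : ∀ (t : G ⧸ N) {a b : G ⧸ N}, A (T a) (T b) → A (T (t * a)) (T (t * b)) := by
    intro t a b h
    refine (h.preimage (mul_left_injective t).injOn).subset fun x hx => ?_
    rw [Set.mem_preimage, Set.mem_setOf_eq]
    intro hc
    apply hx
    change x * (t * a) ∈ X ↔ x * (t * b) ∈ X
    rw [← mul_assoc, ← mul_assoc]
    exact hc
  have hT1 : T 1 = X := by
    ext x
    change x * 1 ∈ X ↔ x ∈ X
    rw [mul_one]
  have hArefl : ∀ Y, A Y Y := fun Y => by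
    have : {x : G ⧸ N | ¬ (x ∈ Y ↔ x ∈ Y)} = ∅ := by
      ext x; simp
    change {x : G ⧸ N | ¬ (x ∈ Y ↔ x ∈ Y)}.Finite
    rw [this]
    exact Set.finite_empty
  let H : Subgroup (G ⧸ N) :=
    { carrier := {t | A (T t) (T 1)}
      one_mem' := hArefl _
      mul_mem' := fun {a b} ha hb => by
        have := hsh a hb
        rw [mul_one] at this
        exact hAt this ha
      inv_mem' := fun {a} ha => by
        have := hsh a⁻¹ ha
        rw [inv_mul_cancel, mul_one] at this
        exact hAs this }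
  refine ⟨H, ?_, fun t ht => ?_⟩
  · choose σ hσS hσR using fun t : G ⧸ N => h1 (T t) (hTA t)
    choose τ hτ using fun s : S => (show ∃ t : G ⧸ N, (∃ t', σ t' = s.1) → σ t = s.1 by
      by_cases h : ∃ t', σ t' = s.1
      · obtain ⟨t', h'⟩ := h
        exact ⟨t', fun _ => h'⟩
      · exact ⟨1, fun h' => absurd h' h⟩)
    have : Finite S := hS
    let F : (G ⧸ N) ⧸ H → S × Prop := fun c =>
      (⟨σ c.out, hσS _⟩, A (T c.out) (T (τ ⟨σ c.out, hσS _⟩)))
    have hFi : Function.Injective F := by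
      intro c c' hcc
      have e1 : σ c.out = σ c'.out := congrArg (fun q => (q.1 : P1 →+ Ff G N (ZMod p))) hcc
      have e2 : A (T c.out) (T (τ ⟨σ c.out, hσS _⟩)) =
        A (T c'.out) (T (τ ⟨σ c'.out, hσS _⟩)) := congrArg (fun q => q.2) hcc
      have e3 : (⟨σ c.out, hσS _⟩ : S) = ⟨σ c'.out, hσS _⟩ := Subtype.ext e1
      rw [← e3] at e2
      generalize hs0 : (⟨σ c.out, hσS _⟩ : S) = s0 at e2
      have hs1 : σ c.out = s0.1 := congrArg Subtype.val hs0
      have hs2 : σ (τ s0) = s0.1 := hτ s0 ⟨c.out, hs1⟩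
      have hr1 := h2 _ _ s0.1 (hs1 ▸ hσR c.out) (hs2 ▸ hσR (τ s0))
      have hr2 := h2 _ _ s0.1 ((e1.symm.trans hs1) ▸ hσR c'.out) (hs2 ▸ hσR (τ s0))
      have hA : A (T c.out) (T c'.out) := by
        by_cases ha : A (T c.out) (T (τ s0))
        · exact hAt ha (hAs (e2 ▸ ha))
        · have ha' : ¬ A (T c'.out) (T (τ s0)) := e2 ▸ ha
          exact hAt (hr1.resolve_left ha) (hAs (hr2.resolve_left ha'))
      have hm : (c.out)⁻¹ * c'.out ∈ H := by
        have := hsh (c.out)⁻¹ hA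
        rw [inv_mul_cancel] at this
        exact hAs this
      have := QuotientGroup.eq.2 hm
      rw [QuotientGroup.out_eq', QuotientGroup.out_eq'] at this
      exact this
    have : Finite ((G ⧸ N) ⧸ H) := Finite.of_injective F hFi
    exact Subgroup.index_ne_zero_of_finite
  · have h : A (T t) (T 1) := ht
    rw [hT1] at h
    exact h

/-- PIECE FN-E6 (50 lines).  Assembly.  `H^1(G;F_p[G ⧸ N])` finite, no finite index subgroup of `G`
maps onto `ℤ`: then `H^1(G;F_p[G ⧸ N]) = 0`.  `H1z_of_inner` (`De.lean`), `der_zero`, `exists_X`,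
`exists_Q0`, `exists_flow`; pull back `Q0` along `G → G ⧸ N` (`Subgroup.comap`, index preserved).
`G ⧸ N` is finitely generated (`hfg`). -/
theorem H1z_of_H1f (E : Reso G P0 P1 P2 P3) (p : ℕ) [Fact p.Prime] (hfg : Group.FG G)
    (hF : FAb G) (N : Subgroup G) [N.Normal] (hN : N.FG) (hi : N.index = 0)
    (hf : E.H1f (Ff G N (ZMod p))) : E.H1z (Ff G N (ZMod p)) := by
  refine H1z_of_inner E fun D hD => ?_
  by_contra hin
  obtain ⟨X, hX, hXc, hl⟩ := exists_X p N hi D hD (fun n hn => der_zero p N hN hi D hD n hn) hin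
  obtain ⟨Q0, h0, hr⟩ := exists_Q0 E p N hi hf X hX hXc hl
  have hq : Group.FG (G ⧸ N) := QuotientGroup.fg N
  obtain ⟨f, hfs⟩ := exists_flow hq X hX hXc hl Q0 h0 hr
  have hs : Function.Surjective (QuotientGroup.mk' N) := QuotientGroup.mk'_surjective N
  refine hF (Q0.comap (QuotientGroup.mk' N)) ?_ ⟨f.comp ((QuotientGroup.mk' N).subgroupComap Q0),
    hfs.comp (MonoidHom.subgroupComap_surjective_of_surjective _ _ hs)⟩
  rw [Subgroup.index_comap_of_surjective _ hs]
  exact h0

end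

end Pool.FN
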