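import Pool.Agent.Helper38.FN.Df

/-! Project FN: the modules `F_p[G ⧸ M]`, `F_p[G ⧸ N]` for `N / M` central of order `p`. -/

set_option autoImplicit false

namespace Pool.FN

open Pool.ACH

variable {G : Type} [Group G]

/-- `N = M ⟨c⟩`, `c` of order `p` and central modulo `M`. -/
structure Cen (p : ℕ) (M N : Subgroup G) (c : G) : Prop where
  le : M ≤ N
  mem : c ∈ N
  nmem : c ∉ M
  pow : c ^ p ∈ M
  gen : ∀ n ∈ N, ∃ i : ℕ, (c ^ i)⁻¹ * n ∈ M
  cen : ∀ g : G, g * c * g⁻¹ * c⁻¹ ∈ M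

private theorem m1_map_smul {M N : Subgroup G} (h : M ≤ N) (g : G) (x : G ⧸ M) :
    Subgroup.quotientMapOfLE h (g • x) = g • Subgroup.quotientMapOfLE h x := by
  induction x using QuotientGroup.induction_on with
  | H z => rfl

/-- PIECE FN-M1 (60 lines).  The projection `A[G ⧸ M] → A[G ⧸ N]`, the sum over fibres, for `M ≤ N`.
Finite support: image of the support. -/
theorem exists_pr (M N : Subgroup G) (h : M ≤ N) (A : Type) [AddCommGroup A] :
    ∃ π : Ff G M A →+ Ff G N A, Eqv G π ∧ ∀ (f : Ff G M A) (q : G ⧸ N),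
      (π f).1 q = ∑ᶠ (x : G ⧸ M) (_ : Subgroup.quotientMapOfLE h x = q), f.1 x := by
  classical
  have hfin : ∀ (f : Ff G M A), (Function.support fun x : G ⧸ M => f.1 x).Finite := fun f => f.2
  have hsup : ∀ (f : Ff G M A) (q : G ⧸ N), (Function.support fun x : G ⧸ M =>
      ∑ᶠ (_ : Subgroup.quotientMapOfLE h x = q), f.1 x).Finite := by
    intro f q
    refine (hfin f).subset fun x hx => ?_
    intro h0
    apply hx
    change f.1 x = 0 at h0
    change (∑ᶠ (_ : Subgroup.quotientMapOfLE h x = q), f.1 x) = 0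
    rw [h0, finsum_zero]
  have hπ : ∀ f : Ff G M A, {q : G ⧸ N | (fun q : G ⧸ N =>
      ∑ᶠ (x : G ⧸ M) (_ : Subgroup.quotientMapOfLE h x = q), f.1 x) q ≠ 0}.Finite := by
    intro f
    refine ((hfin f).image (Subgroup.quotientMapOfLE h)).subset fun q hq => ?_
    by_contra hc
    apply hq
    change (∑ᶠ (x : G ⧸ M) (_ : Subgroup.quotientMapOfLE h x = q), f.1 x) = 0
    refine finsum_eq_zero_of_forall_eq_zero fun x => ?_
    rw [finsum_eq_if]
    split_ifs with hx
    · by_contra h0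
      exact hc ⟨x, h0, hx⟩
    · rfl
  refine ⟨{ toFun := fun f => ⟨fun q : G ⧸ N =>
              ∑ᶠ (x : G ⧸ M) (_ : Subgroup.quotientMapOfLE h x = q), f.1 x, hπ f⟩
            map_zero' := ?_
            map_add' := ?_ }, ?_, fun f q => rfl⟩
  · refine Subtype.ext (funext fun q => ?_)
    change (∑ᶠ (x : G ⧸ M) (_ : Subgroup.quotientMapOfLE h x = q), (0 : Ff G M A).1 x) = 0
    refine finsum_eq_zero_of_forall_eq_zero fun x => ?_
    rw [finsum_eq_if]
    split_ifs
    · rfl
    · rfl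
  · intro f f'
    refine Subtype.ext (funext fun q => ?_)
    change (∑ᶠ (x : G ⧸ M) (_ : Subgroup.quotientMapOfLE h x = q), (f + f').1 x) =
      (∑ᶠ (x : G ⧸ M) (_ : Subgroup.quotientMapOfLE h x = q), f.1 x) +
        ∑ᶠ (x : G ⧸ M) (_ : Subgroup.quotientMapOfLE h x = q), f'.1 x
    rw [← finsum_add_distrib (hsup f q) (hsup f' q)]
    refine finsum_congr fun x => ?_
    by_cases hx : Subgroup.quotientMapOfLE h x = q
    · rw [finsum_eq_if, finsum_eq_if, finsum_eq_if, if_pos hx, if_pos hx, if_pos hx]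
      rfl
    · rw [finsum_eq_if, finsum_eq_if, finsum_eq_if, if_neg hx, if_neg hx, if_neg hx, add_zero]
  · intro g f
    refine Subtype.ext (funext fun q => ?_)
    change (∑ᶠ (x : G ⧸ M) (_ : Subgroup.quotientMapOfLE h x = q), f.1 (g⁻¹ • x)) =
      ∑ᶠ (x : G ⧸ M) (_ : Subgroup.quotientMapOfLE h x = g⁻¹ • q), f.1 x
    rw [← finsum_comp_equiv (MulAction.toPerm g : Equiv.Perm (G ⧸ M))
      (f := fun x => ∑ᶠ (_ : Subgroup.quotientMapOfLE h x = q), f.1 (g⁻¹ • x))]
    refine finsum_congr fun x => ?_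
    have h1 : (Subgroup.quotientMapOfLE h ((MulAction.toPerm g : Equiv.Perm (G ⧸ M)) x) = q) =
        (Subgroup.quotientMapOfLE h x = g⁻¹ • q) := by
      rw [MulAction.toPerm_apply, m1_map_smul, eq_inv_smul_iff]
    have h2 : g⁻¹ • (MulAction.toPerm g : Equiv.Perm (G ⧸ M)) x = x := by
      rw [MulAction.toPerm_apply, inv_smul_smul]
    simp only [h1, h2]

/-- The projection `A[G ⧸ M] → A[G ⧸ N]`. -/
noncomputable def pr (M N : Subgroup G) (h : M ≤ N) (A : Type) [AddCommGroup A] :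
    Ff G M A →+ Ff G N A := (exists_pr M N h A).choose

theorem pr_eqv (M N : Subgroup G) (h : M ≤ N) (A : Type) [AddCommGroup A] :
    Eqv G (pr M N h A) := (exists_pr M N h A).choose_spec.1

theorem pr_apply (M N : Subgroup G) (h : M ≤ N) (A : Type) [AddCommGroup A] (f : Ff G M A)
    (q : G ⧸ N) :
    (pr M N h A f).1 q = ∑ᶠ (x : G ⧸ M) (_ : Subgroup.quotientMapOfLE h x = q), f.1 x :=
  (exists_pr M N h A).choose_spec.2 f q

/-- PIECE FN-M2 (40 lines).  `pr` is surjective: `A[G ⧸ N]` is generated by functions supported at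
one point; or take `f` supported on the representatives `q.out`. -/
theorem pr_surjective (M N : Subgroup G) (h : M ≤ N) (A : Type) [AddCommGroup A] :
    Function.Surjective (pr M N h A) := by
  classical
  intro f'
  have hout : ∀ q : G ⧸ N, Subgroup.quotientMapOfLE h ((q.out : G) : G ⧸ M) = q := by
    intro q
    change ((q.out : G) : G ⧸ N) = q
    exact Quotient.out_eq' q
  let φ : G ⧸ M → A := fun x =>
    if x = (((Subgroup.quotientMapOfLE h x).out : G) : G ⧸ M) then
      f'.1 (Subgroup.quotientMapOfLE h x) else 0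
  have hφ : {x : G ⧸ M | φ x ≠ 0}.Finite := by
    have hf' : {q : G ⧸ N | f'.1 q ≠ 0}.Finite := f'.2
    refine (hf'.image fun q : G ⧸ N => ((q.out : G) : G ⧸ M)).subset fun x hx => ?_
    have hx' : φ x ≠ 0 := hx
    by_cases hc : x = (((Subgroup.quotientMapOfLE h x).out : G) : G ⧸ M)
    · refine ⟨Subgroup.quotientMapOfLE h x, ?_, hc.symm⟩
      intro h0
      apply hx'
      change (if x = (((Subgroup.quotientMapOfLE h x).out : G) : G ⧸ M) then
        f'.1 (Subgroup.quotientMapOfLE h x) else 0) = 0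
      rw [if_pos hc, h0]
    · exact absurd (if_neg hc) hx'
  refine ⟨⟨φ, hφ⟩, Subtype.ext (funext fun q => ?_)⟩
  rw [pr_apply]
  change (∑ᶠ (x : G ⧸ M) (_ : Subgroup.quotientMapOfLE h x = q), φ x) = f'.1 q
  rw [finsum_eq_single _ ((q.out : G) : G ⧸ M)]
  · rw [finsum_eq_if, if_pos (hout q)]
    change (if _ then _ else _) = _
    rw [hout q, if_pos rfl]
  · intro x hx
    rw [finsum_eq_if]
    split_ifs with h1
    · change (if x = (((Subgroup.quotientMapOfLE h x).out : G) : G ⧸ M) then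
        f'.1 (Subgroup.quotientMapOfLE h x) else 0) = 0
      rw [h1, if_neg hx]
    · rfl

section

variable {p : ℕ} [hp : Fact p.Prime] {M N : Subgroup G} {c : G}

omit hp in
private theorem Cen.free_mk [M.Normal] (g : G) (i : ℕ) :
    c ^ i • (g : G ⧸ M) = (c : G ⧸ M) ^ i * (g : G ⧸ M) := rfl

omit hp in
private theorem Cen.free_comm (hC : Cen p M N c) [M.Normal] (x : G ⧸ M) :
    x * (c : G ⧸ M) = (c : G ⧸ M) * x := by
  induction x using QuotientGroup.induction_on with
  | H g =>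
    have h1 := (QuotientGroup.eq_one_iff (N := M) _).2 (hC.cen g)
    rw [QuotientGroup.mk_mul, QuotientGroup.mk_mul, QuotientGroup.mk_mul, QuotientGroup.mk_inv,
      QuotientGroup.mk_inv, mul_inv_eq_one, mul_inv_eq_iff_eq_mul] at h1
    exact h1

omit hp in
private theorem Cen.free_comm_pow (hC : Cen p M N c) [M.Normal] (x : G ⧸ M) (i : ℕ) :
    x * (c : G ⧸ M) ^ i = (c : G ⧸ M) ^ i * x :=
  (Commute.pow_right (hC.free_comm x) i)

private theorem Cen.free_order (hC : Cen p M N c) [M.Normal] : orderOf (c : G ⧸ M) = p := by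
  refine orderOf_eq_prime ?_ ?_
  · rw [← QuotientGroup.mk_pow]
    exact (QuotientGroup.eq_one_iff _).2 hC.pow
  · intro h
    exact hC.nmem ((QuotientGroup.eq_one_iff _).1 h)

/-- PIECE FN-M3 (60 lines).  `⟨c⟩` acts freely on `G ⧸ M`, and its orbits are the fibres of
`G ⧸ M → G ⧸ N`: (i) for `0 < i < p`, `c ^ i • x ≠ x` (if `c ^ i g ∈ g M` then `c ^ i ∈ M` because `c`
is central modulo `M` and `M` is normal; with `c ^ p ∈ M` and `p` prime this gives `c ∈ M`);
(ii) `quotientMapOfLE x = quotientMapOfLE y` iff `y = c ^ i • x` for some `i < p`. -/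
theorem Cen.free (hC : Cen p M N c) [M.Normal] (x : G ⧸ M) (i : ℕ) (hi : 0 < i) (hi' : i < p) :
    c ^ i • x ≠ x := by
  induction x using QuotientGroup.induction_on with
  | H g =>
    rw [Cen.free_mk, Ne, mul_eq_right]
    intro h
    have h1 := orderOf_dvd_of_pow_eq_one h
    rw [hC.free_order] at h1
    exact absurd (Nat.le_of_dvd hi h1) (not_le.2 hi')

theorem Cen.fibre (hC : Cen p M N c) [M.Normal] (x y : G ⧸ M) :
    Subgroup.quotientMapOfLE hC.le x = Subgroup.quotientMapOfLE hC.le y ↔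
      ∃ i < p, y = c ^ i • x := by
  induction x using QuotientGroup.induction_on with
  | H g =>
  induction y using QuotientGroup.induction_on with
  | H h =>
    rw [Subgroup.quotientMapOfLE_apply_mk, Subgroup.quotientMapOfLE_apply_mk, QuotientGroup.eq]
    constructor
    · intro h1
      obtain ⟨i, hi⟩ := hC.gen _ h1
      have h2 := (QuotientGroup.eq_one_iff (N := M) _).2 hi
      rw [QuotientGroup.mk_mul, QuotientGroup.mk_mul, QuotientGroup.mk_inv,
        QuotientGroup.mk_inv, QuotientGroup.mk_pow, inv_mul_eq_one] at h2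
      refine ⟨i % p, Nat.mod_lt _ hp.out.pos, ?_⟩
      have h3 : (c : G ⧸ M) ^ (i % p) = (c : G ⧸ M) ^ i := by
        rw [← hC.free_order, pow_mod_orderOf]
      rw [Cen.free_mk, h3, ← hC.free_comm_pow, h2, mul_inv_cancel_left]
    · rintro ⟨i, -, hi⟩
      rw [Cen.free_mk, ← hC.free_comm_pow, ← inv_mul_eq_iff_eq_mul, ← QuotientGroup.mk_inv,
        ← QuotientGroup.mk_mul, ← QuotientGroup.mk_pow, QuotientGroup.eq] at hi
      have h1 := N.mul_mem (N.pow_mem hC.mem i) (N.inv_mem (hC.le hi))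
      rwa [mul_inv_rev, inv_inv, mul_inv_cancel_left] at h1

theorem Cen.pow_smul (hC : Cen p M N c) [M.Normal] (x : G ⧸ M) : c ^ p • x = x := by
  induction x using QuotientGroup.induction_on with
  | H g =>
    have h1 : (c : G ⧸ M) ^ p = 1 := by
      rw [← hC.free_order, pow_orderOf_eq_one]
    rw [Cen.free_mk, h1, one_mul]

private theorem fnm4_mod (hC : Cen p M N c) [M.Normal] (n : ℕ) (x : G ⧸ M) :
    c ^ n • x = c ^ (n % p) • x := by
  have h : ∀ m : ℕ, c ^ (p * m) • x = x := by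
    intro m
    induction m with
    | zero => rw [mul_zero, pow_zero, one_smul]
    | succ m ih => rw [mul_add, mul_one, pow_add, mul_smul, hC.pow_smul, ih]
  conv_lhs => rw [← Nat.mod_add_div n p, pow_add, mul_smul, h]

private theorem fnm4_uniq (hC : Cen p M N c) [M.Normal] (x : G ⧸ M) (i j : ℕ) (hi : i < p)
    (hj : j < p) (h : c ^ i • x = c ^ j • x) : i = j := by
  wlog hij : i ≤ j generalizing i j
  · exact (this j i hj hi h.symm (le_of_not_ge hij)).symm
  by_contra hne
  have h1 : c ^ (j - i) • (c ^ i • x) = c ^ i • x := by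
    rw [← mul_smul, ← pow_add, Nat.sub_add_cancel hij]
    exact h.symm
  exact hC.free (c ^ i • x) (j - i) (by omega) (by omega) h1

omit hp in
private theorem fnm4_sum (A : Type) [AddCommGroup A]
    (f : Fn G M A) (hf : ∑ i ∈ Finset.range p, c ^ i • f = 0) (x : G ⧸ M) :
    ∑ i ∈ Finset.range p, f (c ^ i • x) = 0 := by
  have h1 : ∀ y : G ⧸ M, ∑ i ∈ Finset.range p, f ((c ^ i)⁻¹ • y) = 0 := by
    intro y
    have h2 := congrFun hf y
    have h3 : (∑ i ∈ Finset.range p, c ^ i • f) y = ∑ i ∈ Finset.range p, (c ^ i • f) y :=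
      Finset.sum_apply (M := fun _ : G ⧸ M => A) y (Finset.range p) fun i => c ^ i • f
    rw [h3] at h2
    exact h2
  have h4 := h1 (c ^ (p - 1) • x)
  rw [← Finset.sum_range_reflect] at h4
  rw [← h4]
  refine Finset.sum_congr rfl fun i hi => ?_
  rw [Finset.mem_range] at hi
  congr 1
  rw [← mul_smul]
  congr 1
  rw [eq_inv_mul_iff_mul_eq, ← pow_add]
  congr 1
  omega

/-- PIECE FN-M4 (90 lines).  If the norm of `f : G ⧸ M → A` vanishes then `f = c s - s`.  Choose a
representative `r` in each `⟨c⟩`-orbit (for example by choosing for each `q : G ⧸ N` the point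
`r q = (q.out : G ⧸ M)`), and put `s (c ^ k r) = - ∑_{j=1}^{k} f (c ^ j r)` for `0 ≤ k < p`.  Then
`s (c⁻¹ x) - s x = f x` for `x = c ^ k r`, `1 ≤ k < p`, and also for `k = 0`, where
`s (c^(p-1) r) - s r = - ∑_{j=1}^{p-1} f(c^j r) = f r` by the vanishing of the norm.  The support of
`s` is contained in the union of the orbits which meet the support of `f`. -/
theorem Cen.norm_Fn (hC : Cen p M N c) [M.Normal] (A : Type) [AddCommGroup A] (f : Fn G M A)
    (hf : ∑ i ∈ Finset.range p, c ^ i • f = 0) :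
    ∃ s : Fn G M A, f = c • s - s ∧
      ∀ x, s x ≠ 0 → ∃ i < p, f (c ^ i • x) ≠ 0 := by
  classical
  have hp0 : 0 < p := hp.out.pos
  let r : G ⧸ N → G ⧸ M := fun q => (q.out : G ⧸ M)
  have hr : ∀ q, Subgroup.quotientMapOfLE hC.le (r q) = q := fun q =>
    QuotientGroup.out_eq' q
  have hk : ∀ x : G ⧸ M, ∃ i < p, x = c ^ i • r (Subgroup.quotientMapOfLE hC.le x) := fun x =>
    (hC.fibre _ x).1 (hr _)
  choose k hkp hkx using hk
  have hq : ∀ (x : G ⧸ M) (i : ℕ), i < p → Subgroup.quotientMapOfLE hC.le (c ^ i • x) =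
      Subgroup.quotientMapOfLE hC.le x := fun x i hi =>
    ((hC.fibre x (c ^ i • x)).2 ⟨i, hi, rfl⟩).symm
  have hkr : ∀ (q : G ⧸ N) (i : ℕ), i < p → k (c ^ i • r q) = i := by
    intro q i hi
    have h1 := hkx (c ^ i • r q)
    rw [hq _ i hi, hr] at h1
    exact (fnm4_uniq hC (r q) _ _ hi (hkp _) h1).symm
  let s : Fn G M A := fun x =>
    -∑ j ∈ Finset.range (k x), f (c ^ (j + 1) • r (Subgroup.quotientMapOfLE hC.le x))
  have hs : ∀ (q : G ⧸ N) (i : ℕ), i < p →
      s (c ^ i • r q) = -∑ j ∈ Finset.range i, f (c ^ (j + 1) • r q) := by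
    intro q i hi
    show -∑ j ∈ Finset.range (k (c ^ i • r q)),
      f (c ^ (j + 1) • r (Subgroup.quotientMapOfLE hC.le (c ^ i • r q))) = _
    rw [hkr q i hi, hq _ i hi, hr]
  refine ⟨s, ?_, ?_⟩
  · have h5 : ∀ x, f x = s (c⁻¹ • x) - s x := by
      intro x
      obtain ⟨q, i, hi, rfl⟩ : ∃ q i, i < p ∧ x = c ^ i • r q := ⟨_, k x, hkp x, hkx x⟩
      rcases Nat.eq_zero_or_pos i with rfl | hi0
      · have h6 : c⁻¹ • (c ^ 0 • r q) = c ^ (p - 1) • r q := by
          rw [inv_smul_eq_iff, ← mul_smul, ← pow_succ', Nat.sub_add_cancel hp0, hC.pow_smul,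
            pow_zero, one_smul]
        rw [h6, hs q _ (by omega), hs q 0 hp0, Finset.range_zero, Finset.sum_empty, neg_zero,
          sub_zero]
        have h7 := fnm4_sum A f hf (r q)
        obtain ⟨t, ht⟩ : ∃ t, p = t + 1 := ⟨p - 1, by omega⟩
        have h8 : p - 1 = t := by omega
        rw [ht, Finset.sum_range_succ'] at h7
        rw [h8]
        exact eq_neg_of_add_eq_zero_right h7
      · obtain ⟨t, rfl⟩ : ∃ t, i = t + 1 := ⟨i - 1, by omega⟩
        have h6 : c⁻¹ • (c ^ (t + 1) • r q) = c ^ t • r q := by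
          rw [inv_smul_eq_iff, ← mul_smul, ← pow_succ']
        rw [h6, hs q _ (by omega), hs q _ hi, Finset.sum_range_succ]
        abel
    exact funext h5
  · intro x hx
    by_contra hcon
    push Not at hcon
    refine hx ?_
    show -∑ j ∈ Finset.range (k x), f (c ^ (j + 1) • r (Subgroup.quotientMapOfLE hC.le x)) = 0
    rw [neg_eq_zero]
    refine Finset.sum_eq_zero fun j _ => ?_
    have h1 : r (Subgroup.quotientMapOfLE hC.le x) = c ^ (p - k x) • x := by
      have h0 : c ^ (p - k x) • (c ^ k x • r (Subgroup.quotientMapOfLE hC.le x)) =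
          r (Subgroup.quotientMapOfLE hC.le x) := by
        rw [← mul_smul, ← pow_add, Nat.sub_add_cancel (hkp x).le, hC.pow_smul]
      rw [← hkx x] at h0
      exact h0.symm
    rw [h1, ← mul_smul, ← pow_add, fnm4_mod hC]
    exact hcon _ (Nat.mod_lt _ hp0)

/-- PIECE FN-M4 (90 lines), second part: the same for functions of finite support. -/
theorem Cen.norm_Ff (hC : Cen p M N c) [M.Normal] (A : Type) [AddCommGroup A] (f : Ff G M A)
    (hf : ∑ i ∈ Finset.range p, c ^ i • f = 0) : ∃ s : Ff G M A, f = c • s - s := by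
  have h1 : ∑ i ∈ Finset.range p, c ^ i • (f.1 : Fn G M A) = 0 := by
    let v : Ff G M A →+ Fn G M A := (FfS G M A).subtype
    have h2 : v (∑ i ∈ Finset.range p, c ^ i • f) = ∑ i ∈ Finset.range p, v (c ^ i • f) :=
      map_sum v (fun i => c ^ i • f) (Finset.range p)
    rw [hf, map_zero] at h2
    exact h2.symm
  obtain ⟨s, hs, hs'⟩ := hC.norm_Fn A f.1 h1
  have h3 : {x : G ⧸ M | s x ≠ 0}.Finite := by
    have h4 : (⋃ i ∈ Finset.range p, {x : G ⧸ M | f.1 (c ^ i • x) ≠ 0}).Finite := by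
      refine Set.Finite.biUnion (Finset.finite_toSet _) fun i _ => ?_
      exact f.2.preimage (MulAction.injective (β := G ⧸ M) (c ^ i)).injOn
    refine h4.subset fun x hx => ?_
    obtain ⟨i, hi, hi'⟩ := hs' x hx
    exact Set.mem_biUnion (Finset.mem_coe.2 (Finset.mem_range.2 hi)) hi'
  exact ⟨⟨s, h3⟩, Subtype.ext hs⟩

/-- evaluation -/
private def inv_norm_ev (M : Subgroup G) (A : Type) [AddCommGroup A] (x : G ⧸ M) :
    Ff G M A →+ A where
  toFun f := f.1 x
  map_zero' := rfl
  map_add' _ _ := rfl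

omit hp in
private theorem inv_norm_pow (A : Type) [AddCommGroup A] (f : Ff G M A) (hf : c • f = f)
    (i : ℕ) (x : G ⧸ M) : f.1 (c ^ i • x) = f.1 x := by
  induction i with
  | zero => rw [pow_zero, one_smul]
  | succ i ih =>
    have h2 : (c • f).1 (c • (c ^ i • x)) = f.1 (c • (c ^ i • x)) := by rw [hf]
    rw [Ff.smul_apply, inv_smul_smul] at h2
    rw [pow_succ', mul_smul, ← h2, ih]

/-- PIECE FN-M5 (60 lines).  An invariant function is a norm: restrict `f` to the representatives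
of the orbits. -/
theorem Cen.inv_norm (hC : Cen p M N c) [M.Normal] (A : Type) [AddCommGroup A] (f : Ff G M A)
    (hf : c • f = f) : ∃ s : Ff G M A, f = ∑ i ∈ Finset.range p, c ^ i • s := by
  classical
  let r : G ⧸ N → G ⧸ M := fun q => (q.out : G ⧸ M)
  have hr : ∀ q, Subgroup.quotientMapOfLE hC.le (r q) = q := fun q =>
    QuotientGroup.out_eq' q
  let φ : G ⧸ M → A := fun x =>
    if x = r (Subgroup.quotientMapOfLE hC.le x) then f.1 x else 0
  have hφ : {x : G ⧸ M | φ x ≠ 0}.Finite := by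
    have hf' : {x : G ⧸ M | f.1 x ≠ 0}.Finite := f.2
    refine hf'.subset fun x hx => ?_
    intro h0
    apply hx
    change (if x = r (Subgroup.quotientMapOfLE hC.le x) then f.1 x else 0) = 0
    rw [h0, ite_self]
  let s : Ff G M A := ⟨φ, hφ⟩
  refine ⟨s, Subtype.ext (funext fun x => ?_)⟩
  have h1 : (∑ i ∈ Finset.range p, c ^ i • s).1 x =
      ∑ i ∈ Finset.range p, φ ((c ^ i)⁻¹ • x) :=
    map_sum (inv_norm_ev M A x) (fun i => c ^ i • s) (Finset.range p)
  rw [h1]
  obtain ⟨k, hk, hkx⟩ := (hC.fibre (r (Subgroup.quotientMapOfLE hC.le x)) x).1 (hr _)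
  rw [Finset.sum_eq_single_of_mem k (Finset.mem_range.2 hk)]
  · have h2 : (c ^ k)⁻¹ • x = r (Subgroup.quotientMapOfLE hC.le x) := by
      rw [inv_smul_eq_iff]
      exact hkx
    rw [h2]
    change _ = if r (Subgroup.quotientMapOfLE hC.le x) = r (Subgroup.quotientMapOfLE hC.le
      (r (Subgroup.quotientMapOfLE hC.le x))) then
        f.1 (r (Subgroup.quotientMapOfLE hC.le x)) else 0
    rw [hr, if_pos rfl]
    exact (congrArg (fun y : G ⧸ M => (f.1 : G ⧸ M → A) y) hkx).trans
      (inv_norm_pow A f hf k _)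
  · intro i hi hik
    rw [Finset.mem_range] at hi
    change (if (c ^ i)⁻¹ • x = r (Subgroup.quotientMapOfLE hC.le ((c ^ i)⁻¹ • x)) then
      f.1 ((c ^ i)⁻¹ • x) else 0) = 0
    refine if_neg fun h2 => hik ?_
    have h3 : Subgroup.quotientMapOfLE hC.le ((c ^ i)⁻¹ • x) =
        Subgroup.quotientMapOfLE hC.le x :=
      (hC.fibre _ _).2 ⟨i, hi, by rw [smul_inv_smul]⟩
    rw [h3, inv_smul_eq_iff] at h2
    exact fnm4_uniq hC _ _ _ hi hk (h2.symm.trans hkx)

/-- evaluation -/
private def pr_eq_ev (M : Subgroup G) (A : Type) [AddCommGroup A] (x : G ⧸ M) : Ff G M A →+ A where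
  toFun f := f.1 x
  map_zero' := rfl
  map_add' _ _ := rfl

private theorem pr_eq_inj (hC : Cen p M N c) [M.Normal] (x : G ⧸ M) {i j : ℕ} (hij : i < j)
    (hj : j < p) : c ^ i • x ≠ c ^ j • x := by
  intro h
  refine hC.free x (j - i) (by omega) (by omega) ?_
  have h1 : c ^ j = c ^ i * c ^ (j - i) := by
    rw [← pow_add]
    congr 1
    omega
  rw [h1, mul_smul] at h
  exact (smul_left_cancel _ h).symm

private theorem pr_eq_fun (hC : Cen p M N c) [M.Normal] (A : Type) [AddCommGroup A]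
    (φ : G ⧸ M → A) (x : G ⧸ M) :
    ∑ᶠ (y : G ⧸ M) (_ : Subgroup.quotientMapOfLE hC.le y = Subgroup.quotientMapOfLE hC.le x), φ y =
      ∑ i ∈ Finset.range p, φ (c ^ i • x) := by
  classical
  have hinj : Set.InjOn (fun i : ℕ => c ^ i • x) (Finset.range p : Set ℕ) := by
    intro i hi j hj h
    have hi' := Finset.mem_range.1 hi
    have hj' := Finset.mem_range.1 hj
    rcases lt_trichotomy i j with h1 | h1 | h1
    · exact absurd h (pr_eq_inj hC x h1 hj')
    · exact h1
    · exact absurd h.symm (pr_eq_inj hC x h1 hi')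
  rw [← Finset.sum_image (f := φ) hinj, ← finsum_mem_coe_finset]
  refine finsum_congr fun y => ?_
  have h1 : (Subgroup.quotientMapOfLE hC.le y = Subgroup.quotientMapOfLE hC.le x) =
      (y ∈ ((Finset.range p).image fun i : ℕ => c ^ i • x : Finset (G ⧸ M))) := by
    rw [eq_comm (a := Subgroup.quotientMapOfLE hC.le y), hC.fibre, Finset.mem_image]
    refine propext ⟨?_, ?_⟩
    · rintro ⟨i, hi, h⟩
      exact ⟨i, Finset.mem_range.2 hi, h.symm⟩
    · rintro ⟨i, hi, h⟩
      exact ⟨i, Finset.mem_range.1 hi, h.symm⟩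
  simp only [h1, Finset.mem_coe]

/-- PIECE FN-M6 (70 lines).  `pr f` at the image of `x` is `∑_{i<p} f (c ^ i x)`
(`Cen.fibre`, `Cen.free`: `i ↦ c ^ i x` is a bijection from `range p` onto the fibre).  So `pr f = 0`
iff the norm of `f` vanishes iff `f = c s - s`. -/
theorem Cen.pr_eq (hC : Cen p M N c) [M.Normal] (A : Type) [AddCommGroup A] (f : Ff G M A)
    (x : G ⧸ M) : (pr M N hC.le A f).1 (Subgroup.quotientMapOfLE hC.le x) =
      ∑ i ∈ Finset.range p, f.1 (c ^ i • x) := by
  exact (pr_apply M N hC.le A f _).trans (pr_eq_fun hC A f.1 x)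

private theorem pr_eq_zero_iff (hC : Cen p M N c) [M.Normal] (A : Type) [AddCommGroup A]
    (f : Ff G M A) : pr M N hC.le A f = 0 ↔
      ∀ x : G ⧸ M, ∑ i ∈ Finset.range p, f.1 (c ^ i • x) = 0 := by
  constructor
  · intro h x
    rw [← hC.pr_eq, h]
    rfl
  · intro h
    refine Subtype.ext (funext fun q => ?_)
    obtain ⟨g, rfl⟩ := QuotientGroup.mk_surjective q
    have h1 := hC.pr_eq A f (g : G ⧸ M)
    rw [h, Subgroup.quotientMapOfLE_apply_mk] at h1
    exact h1

theorem Cen.pr_eq_zero (hC : Cen p M N c) [M.Normal] (A : Type) [AddCommGroup A]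
    (f : Ff G M A) : pr M N hC.le A f = 0 ↔ ∃ s : Ff G M A, f = c • s - s := by
  rw [pr_eq_zero_iff hC]
  constructor
  · intro h
    refine hC.norm_Ff A f (Subtype.ext (funext fun x => ?_))
    have h1 : (∑ i ∈ Finset.range p, c ^ i • f).1 x = ∑ i ∈ Finset.range p, f.1 ((c ^ i)⁻¹ • x) :=
      map_sum (pr_eq_ev M A x) _ _
    change (∑ i ∈ Finset.range p, c ^ i • f).1 x = 0
    rw [h1, ← h ((c ^ (p - 1))⁻¹ • x), ← Finset.sum_range_reflect]
    refine Finset.sum_congr rfl fun i hi => ?_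
    have hi' := Finset.mem_range.1 hi
    have key : (c ^ (p - 1 - i))⁻¹ • x = c ^ i • (c ^ (p - 1))⁻¹ • x := by
      rw [← mul_smul]
      congr 1
      have e : c ^ (p - 1) = c ^ (p - 1 - i) * c ^ i := by
        rw [← pow_add]
        congr 1
        omega
      rw [e, mul_inv_rev, mul_inv_cancel_left]
    exact congrArg f.1 key
  · rintro ⟨s, rfl⟩ x
    have h1 : ∀ i, (c • s - s : Ff G M A).1 (c ^ i • x) = s.1 (c ^ i • c⁻¹ • x) -
        s.1 (c ^ (i + 1) • c⁻¹ • x) := by
      intro i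
      change s.1 (c⁻¹ • c ^ i • x) - s.1 (c ^ i • x) = _
      congr 2
      · rw [← mul_smul, ← mul_smul]
        group
      · rw [← mul_smul]
        group
    rw [Finset.sum_congr rfl fun i _ => h1 i, Finset.sum_range_sub', hC.pow_smul, pow_zero,
      one_smul, sub_self]

/-- PIECE FN-M7 (20 lines).  `pr` kills the invariants if `p A = 0` (by `inv_norm` and
`pr (c ^ i s) = pr s`, or directly by `pr_eq`). -/
theorem Cen.pr_inv (hC : Cen p M N c) [M.Normal] (A : Type) [AddCommGroup A]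
    (hA : ∀ a : A, p • a = 0) (f : Ff G M A) (hf : c • f = f) : pr M N hC.le A f = 0 := by
  rw [pr_eq_zero_iff hC]
  intro x
  have h1 : ∀ y, f.1 (c • y) = f.1 y := by
    intro y
    have h2 : (c • f).1 (c • y) = f.1 (c • y) := by rw [hf]
    rw [Ff.smul_apply, inv_smul_smul] at h2
    exact h2.symm
  have h2 : ∀ i : ℕ, f.1 (c ^ i • x) = f.1 x := by
    intro i
    induction i with
    | zero => rw [pow_zero, one_smul]
    | succ i ih => rw [pow_succ', mul_smul, h1, ih]
  rw [Finset.sum_congr rfl fun i _ => h2 i, Finset.sum_const, Finset.card_range, hA]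

open Polynomial in
private lemma m8_poly : ((X : (ZMod p)[X]) - 1) ^ (p - 1) = ∑ i ∈ Finset.range p, X ^ i := by
  have h1 : (X : (ZMod p)[X]) - 1 ≠ 0 := by
    have h := X_sub_C_ne_zero (1 : ZMod p)
    rwa [map_one] at h
  have h2 : ((X : (ZMod p)[X]) - 1) ^ p = X ^ p - 1 := by
    rw [sub_pow_char, one_pow]
  have h3 : p = (p - 1) + 1 := (Nat.sub_add_cancel hp.out.one_le).symm
  refine mul_left_cancel₀ h1 ?_
  rw [mul_geom_sum, ← h2, ← pow_succ', ← h3]

private lemma m8_lin {V : Type} [AddCommGroup V] [Module (ZMod p) V]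
    (C' : Module.End (ZMod p) V) :
    (C' - 1) ^ (p - 1) = ∑ i ∈ Finset.range p, C' ^ i ∧ (C' - 1) ^ p = C' ^ p - 1 := by
  have h1 : (C' - 1) ^ (p - 1) = ∑ i ∈ Finset.range p, C' ^ i := by
    have h := congrArg (Polynomial.aeval C') (m8_poly (p := p))
    simpa only [map_pow, map_sub, map_sum, Polynomial.aeval_X, map_one] using h
  have h3 : p = (p - 1) + 1 := (Nat.sub_add_cancel hp.out.one_le).symm
  refine ⟨h1, ?_⟩
  rw [← mul_geom_sum, ← h1, ← pow_succ', ← h3]

private lemma m8_mod {V : Type} [AddCommGroup V] [Module (ZMod p) V] (C T : V →+ V)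
    (hT : ∀ v, T v = C v - v) :
    (∀ v, (T : V → V)^[p - 1] v = ∑ i ∈ Finset.range p, (C : V → V)^[i] v) ∧
      ∀ v, (T : V → V)^[p] v = (C : V → V)^[p] v - v := by
  obtain ⟨C', hC'⟩ : ∃ C' : Module.End (ZMod p) V, ∀ v, C' v = C v :=
    ⟨C.toZModLinearMap p, fun v => rfl⟩
  have hCf : (C' : V → V) = C := funext hC'
  have hTf : ((C' - 1 : Module.End (ZMod p) V) : V → V) = T := by
    funext v
    rw [hT, LinearMap.sub_apply, hC', Module.End.one_apply]
  obtain ⟨h1, h2⟩ := m8_lin C'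
  constructor
  · intro v
    rw [← hTf, ← Module.End.pow_apply, h1, LinearMap.sum_apply]
    refine Finset.sum_congr rfl fun i _ => ?_
    rw [Module.End.pow_apply, hCf]
  · intro v
    rw [← hTf, ← Module.End.pow_apply, h2, LinearMap.sub_apply, Module.End.pow_apply, hCf,
      Module.End.one_apply]

private lemma m8_gen {V : Type} [AddCommGroup V] (hV : ∀ v : V, p • v = 0) (C T : V →+ V)
    (hT : ∀ v, T v = C v - v) :
    (∀ v, (T : V → V)^[p - 1] v = ∑ i ∈ Finset.range p, (C : V → V)^[i] v) ∧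
      ∀ v, (T : V → V)^[p] v = (C : V → V)^[p] v - v :=
  @m8_mod p hp V _ (AddCommGroup.zmodModule hV) C T hT

/-- PIECE FN-M8 (40 lines).  `(c - 1)^(p-1) = ∑_{i<p} c^i` and `(c - 1)^p = 0` on `F_p[G ⧸ M]`.
`F_p[X]` has no zero divisors, `(X - 1)^p = X^p - 1 = (X - 1) ∑ X^i`; apply the polynomial to the
endomorphism `c` of the `ZMod p`-module, or use induction.  Here `T` is the additive endomorphism
`f ↦ c f - f`. -/
theorem Cen.iterate (hC : Cen p M N c) [M.Normal] (T : Ff G M (ZMod p) →+ Ff G M (ZMod p))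
    (hT : ∀ f, T f = c • f - f) :
    (∀ f, (T : Ff G M (ZMod p) → Ff G M (ZMod p))^[p - 1] f =
      ∑ i ∈ Finset.range p, c ^ i • f) ∧
    ∀ f, (T : Ff G M (ZMod p) → Ff G M (ZMod p))^[p] f = 0 := by
  have hV : ∀ v : Ff G M (ZMod p), p • v = 0 := by
    intro v
    have h1 : ∀ n : ℕ, (n • v).1 = fun x => n • v.1 x := by
      intro n
      induction n with
      | zero =>
        rw [zero_smul]
        funext x
        rw [zero_smul]
        rfl
      | succ n ih =>
        rw [add_smul, one_smul]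
        funext x
        rw [Ff.add_apply, ih, add_smul, one_smul]
    refine Subtype.ext ?_
    rw [h1]
    funext x
    have h2 : p • v.1 x = 0 := by
      rw [nsmul_eq_mul, CharP.cast_eq_zero, zero_mul]
    exact h2
  obtain ⟨C, hCv⟩ : ∃ C : Ff G M (ZMod p) →+ Ff G M (ZMod p), ∀ v, C v = c • v :=
    ⟨DistribSMul.toAddMonoidHom _ c, fun v => rfl⟩
  have hit : ∀ (i : ℕ) (v : Ff G M (ZMod p)), (C : Ff G M (ZMod p) → Ff G M (ZMod p))^[i] v =
      c ^ i • v := by
    intro i
    induction i with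
    | zero =>
      intro v
      rw [Function.iterate_zero, pow_zero, one_smul, id]
    | succ i ih =>
      intro v
      rw [Function.iterate_succ_apply', ih, hCv, smul_smul, ← pow_succ']
  obtain ⟨h1, h2⟩ := m8_gen hV C T fun v => by rw [hT, hCv]
  refine ⟨fun f => ?_, fun f => ?_⟩
  · rw [h1]
    exact Finset.sum_congr rfl fun i _ => hit i f
  · rw [h2, hit, sub_eq_zero]
    refine Subtype.ext (funext fun x => ?_)
    have h3 : (c ^ p)⁻¹ • x = x := by rw [inv_smul_eq_iff, hC.pow_smul]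
    exact congrArg (fun y : G ⧸ M => (f.1 : G ⧸ M → ZMod p) y) h3

end

end Pool.FN
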