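import Pool.Agent.Helper38.FN.Ra
import Pool.Agent.Helper38.FN.De
import Pool.Agent.Helper38.FN.Mo
import Pool.Agent.Helper38.FN.En

/-! Project FN: the two vanishing theorems. -/

set_option autoImplicit false

namespace Pool.FN

open Pool.ACH

variable {G : Type} [Group G] {p : ℕ} [hp : Fact p.Prime] {M N : Subgroup G} {c : G}

private theorem s2_comm (hC : Cen p M N c) [hM : M.Normal] (g : G) (f : Ff G M (ZMod p)) :
    g • (c • f) = c • (g • f) := by
  refine Subtype.ext (funext fun x => ?_)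
  change f.1 (c⁻¹ • g⁻¹ • x) = f.1 (g⁻¹ • c⁻¹ • x)
  refine congrArg f.1 ?_
  induction x using QuotientGroup.induction_on with
  | H x =>
    change ((c⁻¹ * (g⁻¹ * x) : G) : G ⧸ M) = ((g⁻¹ * (c⁻¹ * x) : G) : G ⧸ M)
    rw [QuotientGroup.eq]
    have h := hM.conj_mem _ (hC.cen g) x⁻¹
    have e : (c⁻¹ * (g⁻¹ * x))⁻¹ * (g⁻¹ * (c⁻¹ * x)) = x⁻¹ * (g * c * g⁻¹ * c⁻¹) * x⁻¹⁻¹ := by
      group
    rw [e]
    exact h

private theorem s2_smul (hC : Cen p M N c) [M.Normal]
    (T : Ff G M (ZMod p) →+ Ff G M (ZMod p)) (hT : ∀ f, T f = c • f - f) (g : G) (k : ℕ)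
    (f : Ff G M (ZMod p)) :
    (T : Ff G M (ZMod p) → Ff G M (ZMod p))^[k] (g • f) =
      g • (T : Ff G M (ZMod p) → Ff G M (ZMod p))^[k] f := by
  induction k with
  | zero => rfl
  | succ k ih =>
    rw [Function.iterate_succ_apply', Function.iterate_succ_apply', ih, hT, hT, smul_sub,
      s2_comm hC]

private theorem s2_zero (hC : Cen p M N c) [M.Normal]
    (T : Ff G M (ZMod p) →+ Ff G M (ZMod p)) (hT : ∀ f, T f = c • f - f) (k : ℕ) (hk : k < p)
    (f : Ff G M (ZMod p)) (hf : (T : Ff G M (ZMod p) → Ff G M (ZMod p))^[k] f = 0) :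
    pr M N hC.le (ZMod p) f = 0 := by
  have h1 := (hC.iterate T hT).1 f
  have h2 : (T : Ff G M (ZMod p) → Ff G M (ZMod p))^[p - 1] f = 0 := by
    have e : p - 1 = (p - 1 - k) + k := by omega
    rw [e, Function.iterate_add_apply, hf]
    exact iterate_map_zero T _
  rw [h2] at h1
  exact (hC.pr_eq_zero (ZMod p) f).mpr (hC.norm_Ff (ZMod p) f h1.symm)

private theorem s2_main {P0 P1 P2 P3 : Type} [AddCommGroup P0] [AddCommGroup P1]
    [AddCommGroup P2] [AddCommGroup P3] [DistribMulAction G P0] [DistribMulAction G P1]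
    [DistribMulAction G P2] [DistribMulAction G P3]
    (E : Reso G P0 P1 P2 P3) (hC : Cen p M N c) [M.Normal]
    (h : E.H2f (Ff G N (ZMod p)))
    (T : Ff G M (ZMod p) →+ Ff G M (ZMod p)) (hT : ∀ f, T f = c • f - f) (n : ℕ) :
    ∀ k, k + n = p → ∀ {A' : Type} [AddCommGroup A'] [DistribMulAction G A']
    (a : A' →+ Ff G M (ZMod p)), Eqv G a → Function.Injective a →
    (∀ x, (∃ y, a y = x) ↔ ∃ s : Ff G M (ZMod p),
      x = (T : Ff G M (ZMod p) → Ff G M (ZMod p))^[k] s) → E.H2f A' := by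
  induction n with
  | zero =>
    intro k hk A' _ _ a ha hinj hr
    have hz : ∀ y : A', y = 0 := by
      intro y
      obtain ⟨s, hs⟩ := (hr (a y)).mp ⟨y, rfl⟩
      have e : k = p := by omega
      rw [e, (hC.iterate T hT).2] at hs
      exact hinj (by rw [hs, map_zero])
    refine ⟨{0}, Set.finite_singleton _, fun u _ _ => ⟨0, rfl, 0, fun g x => ?_, fun x => ?_⟩⟩
    · exact (hz _).trans (hz _).symm
    · exact (hz _).trans (hz _).symm
  | succ n ih =>
    intro k hk A' _ _ a ha hinj hr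
    have hk' : k < p := by omega
    have hex : ∀ y : A', ∃ s : Ff G M (ZMod p),
        a y = (T : Ff G M (ZMod p) → Ff G M (ZMod p))^[k] s := fun y => (hr (a y)).mp ⟨y, rfl⟩
    choose s hs using hex
    have key : ∀ f f' : Ff G M (ZMod p), (T : Ff G M (ZMod p) → Ff G M (ZMod p))^[k] f =
        (T : Ff G M (ZMod p) → Ff G M (ZMod p))^[k] f' →
        pr M N hC.le (ZMod p) f = pr M N hC.le (ZMod p) f' := by
      intro f f' hff
      rw [← sub_eq_zero, ← map_sub]
      apply s2_zero hC T hT k hk'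
      rw [iterate_map_sub, hff, sub_self]
    let b : A' →+ Ff G N (ZMod p) := AddMonoidHom.mk' (fun y => pr M N hC.le (ZMod p) (s y)) (by
      intro y y'
      rw [← map_add]
      apply key
      rw [← hs, iterate_map_add, ← hs, ← hs, map_add])
    have hb : ∀ y f, a y = (T : Ff G M (ZMod p) → Ff G M (ZMod p))^[k] f →
        b y = pr M N hC.le (ZMod p) f := by
      intro y f hf
      exact key _ _ ((hs y).symm.trans hf)
    clear_value b
    have hbe : Eqv G b := by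
      intro g y
      rw [hb (g • y) (g • s y) (by rw [ha, hs, s2_smul hC T hT]), hb y (s y) (hs y)]
      exact pr_eqv M N hC.le (ZMod p) g (s y)
    obtain ⟨A'', i1, i2, a'', ha'', hinj'', hr''⟩ := exists_sub (G := G) b.ker (fun g y hy => by
      rw [AddMonoidHom.mem_ker] at hy ⊢
      rw [hbe, hy, smul_zero])
    refine H2f_ext E a'' b ha'' hbe hinj'' (fun q => ?_) (fun y => ?_) ?_ h
    · obtain ⟨f, rfl⟩ := pr_surjective M N hC.le (ZMod p) q
      obtain ⟨y, hy⟩ := (hr _).mpr ⟨f, rfl⟩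
      exact ⟨y, hb y f hy⟩
    · rw [← hr'', AddMonoidHom.mem_ker]
    · refine ih (k + 1) (by omega) (a.comp a'') (fun g y => ?_) (hinj.comp hinj'') (fun x => ?_)
      · rw [AddMonoidHom.comp_apply, AddMonoidHom.comp_apply, ha'', ha]
      · constructor
        · rintro ⟨z, rfl⟩
          have h1 : b (a'' z) = 0 := (hr'' (a'' z)).mpr ⟨z, rfl⟩
          rw [hb _ _ (hs (a'' z)), hC.pr_eq_zero] at h1
          obtain ⟨t, ht⟩ := h1
          refine ⟨t, ?_⟩
          rw [AddMonoidHom.comp_apply, hs, Function.iterate_succ_apply, hT, ← ht]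
        · rintro ⟨t, rfl⟩
          rw [Function.iterate_succ_apply]
          obtain ⟨y, hy⟩ := (hr _).mpr ⟨T t, rfl⟩
          have h1 : b y = 0 := by
            rw [hb y (T t) hy, hC.pr_eq_zero]
            exact ⟨t, hT t⟩
          obtain ⟨z, hz⟩ := (hr'' y).mp h1
          exact ⟨z, by rw [AddMonoidHom.comp_apply, hz, hy]⟩

section

variable {P0 P1 P2 P3 : Type} [AddCommGroup P0] [AddCommGroup P1]
    [AddCommGroup P2] [AddCommGroup P3] [DistribMulAction G P0] [DistribMulAction G P1]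
    [DistribMulAction G P2] [DistribMulAction G P3]

/-- `M` acts trivially on `A[G ⧸ M]`. -/
private theorem fns1_triv {A : Type} [AddCommGroup A] (M : Subgroup G) [M.Normal] (f : Ff G M A)
    (m : G) (hm : m ∈ M) : m • f = f := by
  refine Subtype.ext (funext fun x => ?_)
  rw [Ff.smul_apply]
  have hx : m⁻¹ • x = x := by
    induction x using QuotientGroup.induction_on with
    | H g =>
      change ((m⁻¹ * g : G) : G ⧸ M) = (g : G ⧸ M)
      rw [QuotientGroup.eq]
      have h1 : (m⁻¹ * g)⁻¹ * g = g⁻¹ * m * g⁻¹⁻¹ := by group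
      rw [h1]
      exact Subgroup.Normal.conj_mem inferInstance m hm g⁻¹
  rw [hx]

private theorem fns1_pow {W : Type} [AddCommGroup W] [DistribMulAction G W] (D : G → W)
    (hD : IsDer D) (c : G) (n : ℕ) : D (c ^ n) = ∑ i ∈ Finset.range n, c ^ i • D c := by
  induction n with
  | zero =>
    have h := hD 1 1
    rw [mul_one, one_smul] at h
    rw [pow_zero, Finset.sum_range_zero]
    exact left_eq_add.1 h
  | succ n ih => rw [pow_succ, hD, ih, Finset.sum_range_succ]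

/-- A derivation is, up to an inner one, invariant under `c`. -/
private theorem fns1_key (hC : Cen p M N c) [M.Normal] (hM : M.FG) (hi : N.index = 0)
    (D : G → Ff G M (ZMod p)) (hD : IsDer D) :
    ∃ s : Ff G M (ZMod p), ∀ g, c • (D g - (g • s - s)) = D g - (g • s - s) := by
  have hiM : M.index = 0 := Nat.eq_zero_of_zero_dvd (hi ▸ Subgroup.index_dvd_of_le hC.le)
  have h0 : ∀ m ∈ M, D m = 0 := fun m hm => der_zero p M hM hiM D hD m hm
  obtain ⟨s, hs⟩ := hC.norm_Ff (ZMod p) (D c) (by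
    rw [← fns1_pow D hD c p]
    exact h0 _ hC.pow)
  refine ⟨s, fun g => ?_⟩
  have hm : g * c * g⁻¹ * c⁻¹ ∈ M := hC.cen g
  have hg : g * c = (g * c * g⁻¹ * c⁻¹) * (c * g) := by group
  have h1 : D (g * c) = D (c * g) := by
    rw [hg, hD, h0 _ hm, fns1_triv M _ _ hm, zero_add]
  have h2 : g • c • s = c • g • s := by
    rw [← mul_smul, ← mul_smul, hg, mul_smul, fns1_triv M _ _ hm]
  rw [hD, hD, hs, smul_sub, h2] at h1
  have h3 : c • D g = D g + (c • g • s - g • s) - (c • s - s) := by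
    rw [h1]
    abel
  rw [smul_sub, smul_sub, h3]
  abel

/-- PIECE FN-S1 (70 lines).  `H^1(G;F_p[G ⧸ M]) → H^1(G;F_p[G ⧸ N])` is zero.  Let `D` be the derivation
of a cocycle `u` (`exists_der`).  `D = 0` on `M` (`der_zero`; the index of `M` is `0` since
`M ≤ N`).  From `D (c ^ p) = 0` and `D (c ^ i) = ∑_{j<i} c ^ j D c` the norm of `D c` vanishes, so
`D c = c s - s` (`Cen.norm_Ff`).  `D' g = D g - (g s - s)` satisfies `D' c = 0`, `D' m = 0` for
`m ∈ M`; `g c = m c g` with `m ∈ M` (`Cen.cen`), so `D' g = D' (g c) = D'(m c g) = D'(m) + m (D' c +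
c D' g) = c D' g` (`M` acts trivially).  So `pr (D' g) = 0` (`Cen.pr_inv`), and
`pr (u x) = g (pr s) - pr s`: `cob_of_inner` for `pr ∘ u`. -/
theorem H1m_pr (E : Reso G P0 P1 P2 P3) (hC : Cen p M N c) [M.Normal] (hM : M.FG)
    (hi : N.index = 0) : E.H1m (pr M N hC.le (ZMod p)) := by
  intro u hu hud
  obtain ⟨D, hD, hDu⟩ := exists_der E u hu hud
  obtain ⟨s, hs⟩ := fns1_key hC hM hi D hD
  have hpr : Eqv G (pr M N hC.le (ZMod p)) := pr_eqv M N hC.le (ZMod p)
  obtain ⟨v, hv, hvd⟩ := cob_of_inner E ((pr M N hC.le (ZMod p)).comp u)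
    (fun g x => by
      rw [AddMonoidHom.comp_apply, AddMonoidHom.comp_apply, hu, hpr])
    (fun x => by rw [AddMonoidHom.comp_apply, hud, map_zero])
    (pr M N hC.le (ZMod p) s)
    (fun g x hx => by
      have h0 : pr M N hC.le (ZMod p) (D g - (g • s - s)) = 0 :=
        hC.pr_inv (ZMod p) (fun a => by simp) _ (hs g)
      rw [AddMonoidHom.comp_apply, hDu g x hx, ← hpr, ← map_sub, ← sub_eq_zero, ← map_sub, h0])
  exact ⟨v, hv, fun x => hvd x⟩

/-- PIECE FN-S2 (120 lines).  `H^2(G;(c-1) F_p[G ⧸ M])` is finite if `H^2(G;F_p[G ⧸ N])` is.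
Let `T f = c f - f`, `A_k` = image of `T^k` (`exists_sub`), `A_p = 0` (`Cen.iterate`).  For
`k < p` the map `T^k f ↦ pr f` from `A_k` to `F_p[G ⧸ N]` is well defined (if `T^k f = 0`, `k < p`, then
`T^(p-1) f = 0`, the norm of `f` vanishes, `pr f = 0`), surjective, equivariant (`T` commutes with
`G` because `c` is central modulo `M`), with kernel `A_{k+1}` (if `pr f = 0` then `f = T s`).  So
`H2f_ext` and descending induction on `k`.  The statement is for `k = 1`, for any module `A'`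
isomorphic to `A_1` (`H2f_equiv`). -/
theorem H2f_aug (E : Reso G P0 P1 P2 P3) (hC : Cen p M N c) [M.Normal]
    (h : E.H2f (Ff G N (ZMod p))) {A' : Type} [AddCommGroup A'] [DistribMulAction G A']
    (a : A' →+ Ff G M (ZMod p)) (ha : Eqv G a) (hinj : Function.Injective a)
    (hr : ∀ x, (∃ y, a y = x) ↔ ∃ s : Ff G M (ZMod p), x = c • s - s) : E.H2f A' := by
  have hp1 : 1 + (p - 1) = p := by
    have := hp.out.pos
    omega
  obtain ⟨T, hT⟩ : ∃ T : Ff G M (ZMod p) →+ Ff G M (ZMod p), ∀ f, T f = c • f - f :=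
    ⟨DistribSMul.toAddMonoidHom (Ff G M (ZMod p)) c - AddMonoidHom.id (Ff G M (ZMod p)),
      fun f => rfl⟩
  refine s2_main E hC h T hT (p - 1) 1 hp1 a ha hinj fun x => (hr x).trans ⟨?_, ?_⟩
  · rintro ⟨s, rfl⟩
    exact ⟨s, (hT s).symm⟩
  · rintro ⟨s, rfl⟩
    exact ⟨s, hT s⟩

/-- PIECE FN-S3 (30 lines).  Assembly: `H^1(G;F_p[G ⧸ N])` is finite: `H1f_of_conn` for
`0 → (c-1) F_p[G ⧸ M] → F_p[G ⧸ M] → F_p[G ⧸ N] → 0` (`exists_sub`, `pr`, `Cen.pr_eq_zero`,
`pr_surjective`), `H1m_pr`, `H2f_aug`. -/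
theorem H1f_Ff (E : Reso G P0 P1 P2 P3) (hC : Cen p M N c) [M.Normal] (hM : M.FG)
    (hi : N.index = 0) (h : E.H2f (Ff G N (ZMod p))) : E.H1f (Ff G N (ZMod p)) := by
  obtain ⟨A', i1, i2, a, ha, hinj, hx⟩ := exists_sub (pr M N hC.le (ZMod p)).ker
    (fun g x hx => by
      rw [AddMonoidHom.mem_ker] at hx ⊢
      rw [pr_eqv M N hC.le (ZMod p) g x, hx, smul_zero])
  have hex : ∀ x, pr M N hC.le (ZMod p) x = 0 ↔ ∃ y, a y = x := fun x => by
    rw [← hx x, AddMonoidHom.mem_ker]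
  exact H1f_of_conn E a (pr M N hC.le (ZMod p)) ha (pr_eqv M N hC.le (ZMod p)) hinj
    (pr_surjective M N hC.le (ZMod p)) hex (H1m_pr E hC hM hi)
    (H2f_aug E hC h a ha hinj fun x => by rw [← hex x, hC.pr_eq_zero])

omit hp in
private theorem s4_triv (M : Subgroup G) [M.Normal] (A : Type) [AddCommGroup A] (m : G)
    (hm : m ∈ M) (f : Ff G M A) : m • f = f := by
  refine Subtype.ext (funext fun x => ?_)
  rw [Ff.smul_apply]
  have hx : m⁻¹ • x = x := by
    induction x using QuotientGroup.induction_on with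
    | H a =>
      change ((m⁻¹ * a : G) : G ⧸ M) = a
      rw [QuotientGroup.eq]
      have h1 := Subgroup.Normal.conj_mem (inferInstance : M.Normal) m hm a⁻¹
      have h2 : (m⁻¹ * a)⁻¹ * a = a⁻¹ * m * a⁻¹⁻¹ := by group
      rw [h2]
      exact h1
  rw [hx]

private theorem s4_q_smul {M N : Subgroup G} (h : M ≤ N) (g : G) (x : G ⧸ M) :
    Subgroup.quotientMapOfLE h (g • x) = g • Subgroup.quotientMapOfLE h x := by
  induction x using QuotientGroup.induction_on with
  | H a => rfl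

private theorem s4_sub {M : Subgroup G} {A : Type} [AddCommGroup A] (f f' : Ff G M A)
    (x : G ⧸ M) : (f - f').1 x = f.1 x - f'.1 x := rfl

/-- PIECE FN-S4 (70 lines).  `H^1(G;F_p[G ⧸ N]) = 0` implies `H^1(G;F_p[G ⧸ M]) = 0`.  As in FN-S1 a
derivation `D : G → F_p[G ⧸ M]` is, up to an inner one, zero on `M` and at `c`, with values in the
invariants of `c`, so `D g = ν (D₁ g)`, where `ν : F_p[G ⧸ N] → F_p[G ⧸ M]`,
`(ν f)(x) = f (image of x)` (injective, equivariant, image = invariants of `c`), `D₁` is a derivation,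
hence inner. -/
theorem H1z_M (E : Reso G P0 P1 P2 P3) (hC : Cen p M N c) [M.Normal] [N.Normal] (hM : M.FG)
    (hi : N.index = 0) (h : E.H1z (Ff G N (ZMod p))) : E.H1z (Ff G M (ZMod p)) := by
  classical
  refine H1z_of_inner E fun D hD => ?_
  have hiM : M.index = 0 := by
    rw [← Subgroup.relIndex_mul_index hC.le, hi, mul_zero]
  have hDM : ∀ m ∈ M, D m = 0 := fun m hm => der_zero p M hM hiM D hD m hm
  have hD1 : D 1 = 0 := hDM 1 M.one_mem
  -- the norm of `D c` vanishes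
  have hpow : ∀ i : ℕ, D (c ^ i) = ∑ j ∈ Finset.range i, c ^ j • D c := by
    intro i
    induction i with
    | zero => rw [pow_zero, hD1, Finset.sum_range_zero]
    | succ i ih => rw [pow_succ, hD, ih, Finset.sum_range_succ]
  obtain ⟨s, hs⟩ := hC.norm_Ff (ZMod p) (D c) (by rw [← hpow, hDM _ hC.pow])
  -- the corrected derivation
  obtain ⟨D', hD'⟩ : ∃ D' : G → Ff G M (ZMod p), D' = fun g => D g - (g • s - s) := ⟨_, rfl⟩
  have hD'g : ∀ g, D' g = D g - (g • s - s) := fun g => by rw [hD']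
  have hder : IsDer D' := by
    intro g k
    rw [hD'g, hD'g, hD'g, hD, smul_sub, smul_sub, smul_smul]
    abel
  have hcc : D' c = 0 := by rw [hD'g, ← hs, sub_self]
  have hmm : ∀ m ∈ M, D' m = 0 := fun m hm => by
    rw [hD'g, hDM m hm, s4_triv M (ZMod p) m hm s, sub_self, sub_zero]
  have hinv : ∀ g, c • D' g = D' g := by
    intro g
    have h1 : D' (g * c) = D' g := by rw [hder, hcc, smul_zero, add_zero]
    have h2 : g * c = (g * c * g⁻¹ * c⁻¹) * (c * g) := by group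
    have h3 : D' (g * c) = c • D' g := by
      rw [h2, hder, hmm _ (hC.cen g), zero_add, s4_triv M (ZMod p) _ (hC.cen g), hder, hcc, zero_add]
    rw [← h3, h1]
  have hinv1 : ∀ (g : G) (i : ℕ) (x : G ⧸ M), (D' g).1 (c ^ i • x) = (D' g).1 x := by
    intro g i
    induction i with
    | zero =>
      intro x
      rw [pow_zero, one_smul]
    | succ i ih =>
      intro x
      rw [pow_succ, mul_smul, ih]
      have h1 := congrArg (fun f : Ff G M (ZMod p) => f.1 (c • x)) (hinv g)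
      simp only [Ff.smul_apply, inv_smul_smul] at h1
      exact h1.symm
  obtain ⟨q, hq⟩ : ∃ q : G ⧸ M → G ⧸ N, q = Subgroup.quotientMapOfLE hC.le := ⟨_, rfl⟩
  have hqs : ∀ (g : G) (x : G ⧸ M), q (g • x) = g • q x := fun g x => by
    rw [hq]
    exact s4_q_smul hC.le g x
  have hqf : ∀ x y, q x = q y ↔ ∃ i < p, y = c ^ i • x := fun x y => by
    rw [hq]
    exact hC.fibre x y
  have hfib : ∀ (g : G) (x y : G ⧸ M), q x = q y → (D' g).1 x = (D' g).1 y := by
    intro g x y hxy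
    obtain ⟨i, -, rfl⟩ := (hqf x y).1 hxy
    exact (hinv1 g i x).symm
  have hr : ∀ y : G ⧸ N, ∃ x : G ⧸ M, q x = y := by
    intro y
    induction y using QuotientGroup.induction_on with
    | H a => exact ⟨(a : G ⧸ M), by rw [hq]; rfl⟩
  choose r hr using hr
  obtain ⟨D₁, hD₁⟩ : ∃ D₁ : G → Ff G N (ZMod p), ∀ (g : G) (x : G ⧸ M),
      (D₁ g).1 (q x) = (D' g).1 x := by
    refine ⟨fun g => ⟨fun y => (D' g).1 (r y), ?_⟩, fun g x => hfib g _ _ (hr (q x))⟩
    have hfin : {x : G ⧸ M | (D' g).1 x ≠ 0}.Finite := (D' g).2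
    refine (hfin.image q).subset fun y hy => ?_
    exact ⟨r y, hy, hr y⟩
  have hder1 : IsDer D₁ := by
    intro g k
    refine Subtype.ext (funext fun y => ?_)
    rw [Ff.add_apply, Ff.smul_apply, ← hr y, ← hqs, hD₁, hD₁, hD₁, hder, Ff.add_apply,
      Ff.smul_apply]
  obtain ⟨w₁, hw₁⟩ := inner_of_H1z E h D₁ hder1
  -- pull back to `G ⧸ M`
  obtain ⟨w, hw⟩ : ∃ w : Ff G M (ZMod p), ∀ x, w.1 x = w₁.1 (q x) := by
    refine ⟨⟨fun x => w₁.1 (q x), ?_⟩, fun x => rfl⟩
    have hfin : {y : G ⧸ N | w₁.1 y ≠ 0}.Finite := w₁.2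
    have hfin2 : (⋃ y ∈ {y : G ⧸ N | w₁.1 y ≠ 0},
        ((Finset.range p).image fun i => c ^ i • r y : Set (G ⧸ M))).Finite :=
      hfin.biUnion fun y _ => Finset.finite_toSet _
    refine hfin2.subset fun x hx => ?_
    rw [Set.mem_iUnion₂]
    refine ⟨q x, hx, ?_⟩
    obtain ⟨i, hi1, hi2⟩ := (hqf (r (q x)) x).1 (hr (q x))
    rw [Finset.mem_coe, Finset.mem_image]
    exact ⟨i, Finset.mem_range.2 hi1, hi2.symm⟩
  refine ⟨w + s, fun g => ?_⟩
  have h1 : D' g = g • w - w := by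
    refine Subtype.ext (funext fun x => ?_)
    rw [s4_sub, Ff.smul_apply, hw, hw, ← hD₁, hw₁, hqs]
    rfl
  have h2 : D g = D' g + (g • s - s) := by rw [hD'g, sub_add_cancel]
  rw [h2, h1, smul_add]
  abel

end

/-! ### Step (5).  `R = F_p[G ⧸ M]`, `I = Fn G M R`, `ε : R → I`, `(ε r)(x) = x⁻¹ r`. -/

private theorem exists_eps_act (M : Subgroup G) [hM : M.Normal] {m : G} (hm : m ∈ M)
    (x : G ⧸ M) : m • x = x := by
  induction x using QuotientGroup.induction_on with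
  | H h =>
    change ((m * h : G) : G ⧸ M) = (h : G ⧸ M)
    rw [QuotientGroup.eq]
    have h1 := hM.conj_mem m⁻¹ (M.inv_mem hm) h⁻¹
    rw [inv_inv] at h1
    rwa [mul_inv_rev]

private theorem exists_eps_eq {A : Type} [AddCommGroup A] (M : Subgroup G) [hM : M.Normal]
    {y y' : G} (h : (y : G ⧸ M) = (y' : G ⧸ M)) (r : Ff G M A) : y⁻¹ • r = y'⁻¹ • r := by
  refine Subtype.ext (funext fun x => ?_)
  rw [Ff.smul_apply, Ff.smul_apply, inv_inv, inv_inv]
  have h1 : y⁻¹ * y' ∈ M := QuotientGroup.eq.1 h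
  have h2 : y' • x = y • ((y⁻¹ * y') • x) := by
    rw [smul_smul, mul_inv_cancel_left]
  rw [h2, exists_eps_act M h1]

/-- PIECE FN-S5 (50 lines).  `ε : R → I`, `(ε r)(x) = x.out⁻¹ • r` is additive, equivariant and
injective.  `M` (normal) acts trivially on `R`, so `y⁻¹ r` depends only on `y M`. -/
theorem exists_eps (p : ℕ) [Fact p.Prime] (M : Subgroup G) [M.Normal] :
    ∃ e : Ff G M (ZMod p) →+ Fn G M (Ff G M (ZMod p)), Eqv G e ∧ Function.Injective e ∧
      ∀ r (g : G), e r (g : G ⧸ M) = g⁻¹ • r := by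
  let e : Ff G M (ZMod p) →+ Fn G M (Ff G M (ZMod p)) :=
    { toFun := fun r x => x.out⁻¹ • r
      map_zero' := funext fun x => smul_zero _
      map_add' := fun r r' => funext fun x => smul_add _ r r' }
  have he : ∀ r (g : G), e r (g : G ⧸ M) = g⁻¹ • r := fun r g =>
    exists_eps_eq M (Quotient.out_eq' (g : G ⧸ M)) r
  refine ⟨e, fun g r => funext fun x => ?_, fun r r' h => ?_, he⟩
  · induction x using QuotientGroup.induction_on with
    | H h =>
      rw [Fn.smul_apply]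
      have h1 : g⁻¹ • (h : G ⧸ M) = ((g⁻¹ * h : G) : G ⧸ M) := rfl
      rw [h1, he, he, smul_smul]
      congr 1
      rw [mul_inv_rev, inv_inv]
  · have h1 := congrFun h ((1 : G) : G ⧸ M)
    rwa [he, he, inv_one, one_smul, one_smul] at h1

private theorem hom_coh_out (M : Subgroup G) {T : Type} [AddCommGroup T] [DistribMulAction G T]
    (hT : ∀ m ∈ M, ∀ t : T, m • t = t) (y : G) (t : T) :
    (y : G ⧸ M).out • t = y • t ∧ ((y : G ⧸ M).out)⁻¹ • t = y⁻¹ • t := by
  obtain ⟨h, hh⟩ := QuotientGroup.mk_out_eq_mul M y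
  rw [hh]
  constructor
  · rw [mul_smul, hT h h.2]
  · rw [mul_inv_rev, mul_smul, hT _ (inv_mem h.2)]

private theorem hom_coh_inv (M : Subgroup G) (hi : M.index = 0) (w : Ff G M (ZMod p))
    (hw : ∀ g : G, g • w = w) : w = 0 := by
  have hinf : Infinite (G ⧸ M) := Subgroup.index_eq_zero_iff_infinite.1 hi
  have h1 : ∀ y : G, w.1 (y : G ⧸ M) = w.1 ((1 : G) : G ⧸ M) := by
    intro y
    have h2 := congrArg (fun f : Ff G M (ZMod p) => f.1 ((y : G) : G ⧸ M)) (hw y)
    change (y • w).1 (y : G ⧸ M) = w.1 (y : G ⧸ M) at h2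
    have h3 : y⁻¹ • (y : G ⧸ M) = ((1 : G) : G ⧸ M) := by
      change ((y⁻¹ * y : G) : G ⧸ M) = ((1 : G) : G ⧸ M)
      rw [inv_mul_cancel]
    rw [← h2, Ff.smul_apply, h3]
  apply Subtype.ext
  funext x
  change w.1 x = 0
  by_contra h
  obtain ⟨y, rfl⟩ := QuotientGroup.mk_surjective x
  have h3 : (Set.univ : Set (G ⧸ M)).Finite := by
    have h4 : {x : G ⧸ M | w.1 x ≠ 0}.Finite := w.2
    refine h4.subset fun z _ => ?_
    obtain ⟨u, rfl⟩ := QuotientGroup.mk_surjective z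
    change w.1 (u : G ⧸ M) ≠ 0
    rw [h1 u, ← h1 y]
    exact h
  exact Set.infinite_univ h3

private theorem hom_coh_fin (M : Subgroup G) {T : Type} [Finite T] (f : T → Ff G M (ZMod p))
    (s : G ⧸ M → T) : {x : G ⧸ M | (f (s x)).1 x ≠ 0}.Finite := by
  have h1 : (⋃ t : T, {x : G ⧸ M | (f t).1 x ≠ 0}).Finite :=
    Set.finite_iUnion fun t => (f t).2
  exact h1.subset fun x hx => Set.mem_iUnion.2 ⟨s x, hx⟩

/-- PIECE FN-S6 (120 lines).  `H^1(G;Hom(T,R)) = 0` for a finite `G`-module `T` on which `M` acts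
trivially, if `H^1(G;R) = 0`.  For `t : T` put `D_t g (x) = δ g (x t) (x)` for `x = y M : G ⧸ M`
(`x t = y t`).  `D_t : G → R` is a derivation (finite support since `T` is finite), so
`D_t g = g r_t - r_t` with a unique `r_t` (invariant elements of `R` are `0`, since the transitive
`G`-set `G ⧸ M` is infinite), so `t ↦ r_t` is additive.  Put `ρ t (x) = r_{x⁻¹ t} (x)`: finite support,
additive, and `δ g t (x) = D_{x⁻¹ t} g (x) = r_{x⁻¹ t}(g⁻¹ x) - r_{x⁻¹ t}(x)`,
`(g ρ(g⁻¹ t))(x) = ρ(g⁻¹ t)(g⁻¹ x) = r_{x⁻¹ t}(g⁻¹ x)`. -/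
theorem hom_coh (M : Subgroup G) [M.Normal] (hi : M.index = 0)
    (hR : ∀ D : G → Ff G M (ZMod p), IsDer D → ∃ w, ∀ g, D g = g • w - w)
    {T : Type} [AddCommGroup T] [DistribMulAction G T] [Finite T]
    (hT : ∀ m ∈ M, ∀ t : T, m • t = t) (δ : G → T →+ Ff G M (ZMod p))
    (hδ : ∀ (g h : G) (t : T), δ (g * h) t = δ g t + g • δ h (g⁻¹ • t)) :
    ∃ ρ : T →+ Ff G M (ZMod p), ∀ (g : G) (t : T), δ g t = g • ρ (g⁻¹ • t) - ρ t := by
  have hval : ∀ (f f' : Ff G M (ZMod p)) (x : G ⧸ M), (f - f').1 x = f.1 x - f'.1 x :=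
    fun f f' x => rfl
  let D : T → G → Ff G M (ZMod p) := fun t g =>
    ⟨fun x => (δ g (x.out • t)).1 x, hom_coh_fin M (fun s => δ g s) fun x => x.out • t⟩
  have hDv : ∀ t g (y : G), (D t g).1 (y : G ⧸ M) = (δ g (y • t)).1 (y : G ⧸ M) := by
    intro t g y
    change (δ g ((y : G ⧸ M).out • t)).1 (y : G ⧸ M) = _
    rw [(hom_coh_out M hT y t).1]
  have hD : ∀ t, IsDer (D t) := by
    intro t g h
    apply Subtype.ext
    funext x
    obtain ⟨y, rfl⟩ := QuotientGroup.mk_surjective x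
    rw [hDv, hδ, Ff.add_apply, Ff.add_apply, hDv, Ff.smul_apply, Ff.smul_apply]
    have h1 : g⁻¹ • (y : G ⧸ M) = ((g⁻¹ * y : G) : G ⧸ M) := rfl
    rw [h1, hDv, mul_smul]
  choose r hr using fun t => hR (D t) (hD t)
  have hDadd : ∀ t t' g, D (t + t') g = D t g + D t' g := by
    intro t t' g
    apply Subtype.ext
    funext x
    obtain ⟨y, rfl⟩ := QuotientGroup.mk_surjective x
    rw [hDv, Ff.add_apply, hDv, hDv, smul_add, map_add, Ff.add_apply]
  have hradd : ∀ t t', r (t + t') = r t + r t' := by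
    intro t t'
    rw [← sub_eq_zero]
    apply hom_coh_inv M hi
    intro g
    have h1 := hDadd t t' g
    rw [hr, hr, hr] at h1
    rw [smul_sub, smul_add, ← sub_eq_zero]
    have h2 : g • r (t + t') = r (t + t') + (g • r t - r t + (g • r t' - r t')) := by
      rw [← h1]
      abel
    rw [h2]
    abel
  let ρ : T →+ Ff G M (ZMod p) := AddMonoidHom.mk' (fun t =>
    ⟨fun x => (r ((x.out)⁻¹ • t)).1 x, hom_coh_fin M r fun x => (x.out)⁻¹ • t⟩) (by
      intro t t'
      apply Subtype.ext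
      funext x
      change (r ((x.out)⁻¹ • (t + t'))).1 x =
        (r ((x.out)⁻¹ • t)).1 x + (r ((x.out)⁻¹ • t')).1 x
      rw [smul_add, hradd, Ff.add_apply])
  have hρv : ∀ t (y : G), (ρ t).1 (y : G ⧸ M) = (r (y⁻¹ • t)).1 (y : G ⧸ M) := by
    intro t y
    change (r (((y : G ⧸ M).out)⁻¹ • t)).1 (y : G ⧸ M) = _
    rw [(hom_coh_out M hT y t).2]
  refine ⟨ρ, fun g t => ?_⟩
  apply Subtype.ext
  funext x
  obtain ⟨y, rfl⟩ := QuotientGroup.mk_surjective x
  have h1 : g⁻¹ • (y : G ⧸ M) = ((g⁻¹ * y : G) : G ⧸ M) := rfl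
  have h2 := hDv (y⁻¹ • t) g y
  rw [smul_inv_smul, hr, hval, Ff.smul_apply] at h2
  rw [← h2, hval, Ff.smul_apply, hρv, h1, hρv, mul_inv_rev, inv_inv, mul_smul, smul_inv_smul]

private theorem fns7_triv (M : Subgroup G) [M.Normal] (m : G) (hm : m ∈ M) (x : G ⧸ M) :
    m • x = x := by
  induction x using QuotientGroup.induction_on with
  | H g =>
    change ((m * g : G) : G ⧸ M) = (g : G ⧸ M)
    rw [QuotientGroup.eq]
    have h := Subgroup.Normal.conj_mem (inferInstance : M.Normal) m⁻¹ (M.inv_mem hm) g⁻¹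
    rw [inv_inv] at h
    rwa [mul_inv_rev]

private theorem fns7_pI (M : Subgroup G) (p : ℕ) (f : Fn G M (Ff G M (ZMod p))) :
    p • f = 0 := by
  have hR0 : ∀ a : Ff G M (ZMod p), p • a = 0 := by
    intro a
    refine Subtype.ext (funext fun x => ?_)
    have h3 : ∀ n : ℕ, (n • a).1 x = n • a.1 x := by
      intro n
      induction n with
      | zero => rw [zero_smul, zero_smul]; rfl
      | succ n ih => rw [succ_nsmul, succ_nsmul, Ff.add_apply, ih]
    change (p • a).1 x = 0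
    rw [h3]
    simp
  funext x
  have h3 : ∀ n : ℕ, (n • f) x = n • f x := by
    intro n
    induction n with
    | zero => rw [zero_smul, zero_smul]; rfl
    | succ n ih => rw [succ_nsmul, succ_nsmul, Fn.add_apply, ih]
  rw [h3, hR0]
  rfl

private theorem fns7_gen {K A J : Type} [Field K] [AddCommGroup A] [AddCommGroup J] [Module K A]
    [Module K J] (f : A →ₗ[K] J) (h : Function.Surjective f) :
    ∃ g : J →ₗ[K] A, ∀ y, f (g y) = y := by
  obtain ⟨g, hg⟩ := LinearMap.exists_rightInverse_of_surjective f (LinearMap.range_eq_top.2 h)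
  exact ⟨g, fun y => LinearMap.congr_fun hg y⟩

private theorem fns7_sec (p : ℕ) [Fact p.Prime] {A J : Type} [AddCommGroup A] [AddCommGroup J]
    (b : A →+ J) (hsurj : Function.Surjective b) (pA : ∀ a : A, p • a = 0)
    (pJ : ∀ y : J, p • y = 0) : ∃ s : J →+ A, ∀ y, b (s y) = y := by
  let mA : Module (ZMod p) A := AddCommGroup.zmodModule pA
  let mJ : Module (ZMod p) J := AddCommGroup.zmodModule pJ
  obtain ⟨s', hs'⟩ := fns7_gen (K := ZMod p) (b.toZModLinearMap p) hsurj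
  exact ⟨s'.toAddMonoidHom, hs'⟩

private theorem fns7_fin (p : ℕ) (hp : 0 < p) {M : Subgroup G} (hM : M.FG) {T : Type}
    [AddCommGroup T] (k : M → T) (hk : ∀ a a', k (a * a') = k a + k a')
    (hs : ∀ t, ∃ m, k m = t) (pT : ∀ t : T, p • t = 0) : Finite T := by
  have : Group.FG M := (Group.fg_iff_subgroup_fg M).2 hM
  let φ : M →* Multiplicative T := MonoidHom.mk' (fun m => Multiplicative.ofAdd (k m))
    (fun a a' => by rw [hk]; rfl)
  have hφ : Function.Surjective φ := fun t => by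
    obtain ⟨m, hm⟩ := hs (Multiplicative.toAdd t)
    exact ⟨m, by change Multiplicative.ofAdd (k m) = t; rw [hm]; rfl⟩
  have h1 : Group.FG (Multiplicative T) := Group.fg_of_surjective hφ
  have : AddGroup.FG T := AddGroup.fg_iff_mul_fg.2 h1
  exact AddCommGroup.finite_of_fg_isAddTorsion T
    (fun t => isOfFinAddOrder_iff_nsmul_eq_zero.2 ⟨p, hp, pT t⟩)

/-- PIECE FN-S7 (110 lines).  `D : G → J` a derivation, `b : I → J` surjective with kernel `ε(R)`.
There is `l : M → I` additive with `l (g m g⁻¹) = g l(m)` and `b (l m) = D m`.  `M` acts trivially on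
`I` and `J` (`M` normal), `D (g m g⁻¹) = g D m`, `p J = 0`, so `T = D(M)` is a finite (`M`
finitely generated, exponent `p`) invariant subgroup of `J`.  Choose a `ZMod p`-linear (additive)
section `σ₀ : T → I` of `b`; `g σ₀(g⁻¹ t) - σ₀ t = ε (δ g t)`; `hom_coh` gives `ρ`, `σ = σ₀ - ε ρ` is
equivariant (sign: `g σ₀ g⁻¹ t - σ₀ t = ε(g ρ(g⁻¹ t) - ρ t)`), `l = σ ∘ D`. -/
theorem exists_lam (M : Subgroup G) [M.Normal] (hM : M.FG) (hi : M.index = 0)
    (hR : ∀ D : G → Ff G M (ZMod p), IsDer D → ∃ w, ∀ g, D g = g • w - w)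
    (e : Ff G M (ZMod p) →+ Fn G M (Ff G M (ZMod p))) (he : Eqv G e)
    (hinj : Function.Injective e) {J : Type} [AddCommGroup J] [DistribMulAction G J]
    (b : Fn G M (Ff G M (ZMod p)) →+ J) (hb : Eqv G b) (hsurj : Function.Surjective b)
    (hker : ∀ x, b x = 0 ↔ ∃ r, e r = x) (D : G → J) (hD : IsDer D) :
    ∃ l : M → Fn G M (Ff G M (ZMod p)), (∀ a a', l (a * a') = l a + l a') ∧
      (∀ (g : G) (m m' : M), (m' : G) = g * m * g⁻¹ → l m' = g • l m) ∧
      ∀ m : M, b (l m) = D m := by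
  have hI : ∀ m ∈ M, ∀ f : Fn G M (Ff G M (ZMod p)), m • f = f := by
    intro m hm f
    funext x
    rw [Fn.smul_apply, fns7_triv M m⁻¹ (M.inv_mem hm)]
  have hJ : ∀ m ∈ M, ∀ y : J, m • y = y := by
    intro m hm y
    obtain ⟨f, rfl⟩ := hsurj y
    rw [← hb m f, hI m hm f]
  have pI : ∀ f : Fn G M (Ff G M (ZMod p)), p • f = 0 := fns7_pI M p
  have pJ : ∀ y : J, p • y = 0 := by
    intro y
    obtain ⟨f, rfl⟩ := hsurj y
    rw [← map_nsmul, pI, map_zero]
  obtain ⟨s, hs⟩ := fns7_sec p b hsurj pI pJ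
  have hD1 : D 1 = 0 := by
    have h := hD 1 1
    rw [mul_one, one_smul] at h
    exact left_eq_add.mp h
  have hDm : ∀ m ∈ M, ∀ h, D (m * h) = D m + D h := fun m hm h => by rw [hD, hJ m hm]
  have hDc : ∀ g m : G, m ∈ M → D (g * m * g⁻¹) = g • D m := by
    intro g m hm
    have h1 : D g + g • D g⁻¹ = 0 := by rw [← hD, mul_inv_cancel, hD1]
    rw [mul_assoc, hD, hDm m hm, smul_add, add_left_comm, h1, add_zero]
  let T0 : AddSubgroup J :=
    { carrier := {y | ∃ m ∈ M, D m = y}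
      zero_mem' := ⟨1, M.one_mem, hD1⟩
      add_mem' := by
        rintro _ _ ⟨m, hm, rfl⟩ ⟨m', hm', rfl⟩
        exact ⟨m * m', M.mul_mem hm hm', hDm m hm m'⟩
      neg_mem' := by
        rintro _ ⟨m, hm, rfl⟩
        refine ⟨m⁻¹, M.inv_mem hm, ?_⟩
        have h := hDm m⁻¹ (M.inv_mem hm) m
        rw [inv_mul_cancel, hD1] at h
        exact (neg_eq_of_add_eq_zero_left h.symm).symm }
  have hT0 : ∀ y, y ∈ T0 ↔ ∃ m ∈ M, D m = y := fun y => Iff.rfl
  obtain ⟨T, _, _, i, hi1, hi2, hi3⟩ := exists_sub (G := G) T0 (fun g y hy => by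
    obtain ⟨m, hm, rfl⟩ := (hT0 y).1 hy
    exact (hT0 _).2 ⟨g * m * g⁻¹, Subgroup.Normal.conj_mem inferInstance m hm g, hDc g m hm⟩)
  have hk : ∀ m : M, ∃ t : T, i t = D m := fun m =>
    (hi3 _).1 ((hT0 _).2 ⟨m.1, m.2, rfl⟩)
  choose k hk using hk
  have hkadd : ∀ a a' : M, k (a * a') = k a + k a' := fun a a' => hi2 (by
    rw [map_add, hk, hk, hk, Subgroup.coe_mul, hDm a.1 a.2])
  have hksurj : ∀ t : T, ∃ m : M, k m = t := fun t => by
    obtain ⟨m, hm, h⟩ := (hT0 _).1 ((hi3 (i t)).2 ⟨t, rfl⟩)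
    exact ⟨⟨m, hm⟩, hi2 (by rw [hk]; exact h)⟩
  have hfin : Finite T := fns7_fin p hp.out.pos hM k hkadd hksurj (fun t => hi2 (by
    rw [map_nsmul, pJ, map_zero]))
  have hTM : ∀ m ∈ M, ∀ t : T, m • t = t := fun m hm t => hi2 (by rw [hi1, hJ m hm])
  have hbe : ∀ r, b (e r) = 0 := fun r => (hker _).2 ⟨r, rfl⟩
  have hr : ∀ (g : G) (t : T), ∃ r, e r = g • s (i (g⁻¹ • t)) - s (i t) := by
    intro g t
    refine (hker _).1 ?_
    rw [map_sub, hb, hs, hs, hi1, smul_inv_smul, sub_self]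
  choose r hr using hr
  let δ : G → T →+ Ff G M (ZMod p) := fun g => AddMonoidHom.mk' (r g) (fun t t' => hinj (by
    rw [map_add, hr, hr, hr, smul_add, map_add, map_add, map_add, map_add, smul_add]
    abel))
  have hδr : ∀ g t, e (δ g t) = g • s (i (g⁻¹ • t)) - s (i t) := hr
  obtain ⟨ρ, hρ⟩ := hom_coh (p := p) M hi hR hTM δ (fun g h t => hinj (by
    rw [map_add, he, hδr, hδr, hδr, smul_sub, mul_inv_rev, mul_smul, mul_smul]
    abel))
  have hσ : ∀ (g : G) (t : T), s (i (g • t)) - e (ρ (g • t)) = g • (s (i t) - e (ρ t)) := by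
    intro g t
    have h1 := hδr g (g • t)
    rw [hρ, inv_smul_smul, map_sub, he] at h1
    rw [smul_sub, sub_eq_sub_iff_add_eq_add]
    have h2 := sub_eq_sub_iff_add_eq_add.mp h1
    rw [add_comm (s (i (g • t))) (g • e (ρ t)), h2]
  refine ⟨fun m => s (i (k m)) - e (ρ (k m)), fun a a' => ?_, fun g m m' h => ?_, fun m => ?_⟩
  · simp only []
    rw [hkadd, map_add, map_add, map_add, map_add]
    abel
  · have h1 : k m' = g • k m := hi2 (by rw [hi1, hk, hk, h, hDc g m.1 m.2])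
    simp only []
    rw [h1, hσ]
  · simp only []
    rw [map_sub, hbe, sub_zero, hs, hk]

/-- PIECE FN-S8 (80 lines).  Shapiro: `D g (x) = μ (s(x)⁻¹ g s(g⁻¹ x))`, where `s(x) = x.out`,
`μ m = l m (1 : G ⧸ M)`, is a derivation `G → Fn G M A` with `D m = l m` for `m ∈ M`. -/
theorem exists_shapiro (M : Subgroup G) [M.Normal] {A : Type} [AddCommGroup A]
    (l : M → Fn G M A) (hl : ∀ a a', l (a * a') = l a + l a')
    (hg : ∀ (g : G) (m m' : M), (m' : G) = g * m * g⁻¹ → l m' = g • l m) :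
    ∃ D : G → Fn G M A, IsDer D ∧ ∀ m : M, D m = l m := by
  have hmem : ∀ (g : G) (x : G ⧸ M), x.out⁻¹ * g * (g⁻¹ • x).out ∈ M := by
    intro g x
    have h1 : ((x.out : G) : G ⧸ M) = ((g * (g⁻¹ • x).out : G) : G ⧸ M) := by
      have h2 : ((g * (g⁻¹ • x).out : G) : G ⧸ M) = g • (((g⁻¹ • x).out : G) : G ⧸ M) := rfl
      rw [h2, QuotientGroup.out_eq', QuotientGroup.out_eq', smul_inv_smul]
    have h3 := QuotientGroup.eq.1 h1
    rwa [← mul_assoc] at h3
  refine ⟨fun g x => l ⟨x.out⁻¹ * g * (g⁻¹ • x).out, hmem g x⟩ ((1 : G) : G ⧸ M), ?_, ?_⟩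
  · intro g h
    funext x
    have h1 : (⟨x.out⁻¹ * (g * h) * ((g * h)⁻¹ • x).out, hmem (g * h) x⟩ : M) =
        ⟨x.out⁻¹ * g * (g⁻¹ • x).out, hmem g x⟩ *
          ⟨(g⁻¹ • x).out⁻¹ * h * (h⁻¹ • g⁻¹ • x).out, hmem h (g⁻¹ • x)⟩ := by
      apply Subtype.ext
      change x.out⁻¹ * (g * h) * ((g * h)⁻¹ • x).out = x.out⁻¹ * g * (g⁻¹ • x).out *
        ((g⁻¹ • x).out⁻¹ * h * (h⁻¹ • g⁻¹ • x).out)
      rw [mul_inv_rev, mul_smul]
      group
    change l ⟨x.out⁻¹ * (g * h) * ((g * h)⁻¹ • x).out, hmem (g * h) x⟩ ((1 : G) : G ⧸ M) =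
      l ⟨x.out⁻¹ * g * (g⁻¹ • x).out, hmem g x⟩ ((1 : G) : G ⧸ M) +
        l ⟨(g⁻¹ • x).out⁻¹ * h * (h⁻¹ • g⁻¹ • x).out, hmem h (g⁻¹ • x)⟩ ((1 : G) : G ⧸ M)
    rw [h1, hl]
    rfl
  · intro m
    funext x
    change l ⟨x.out⁻¹ * m * ((m : G)⁻¹ • x).out, hmem m x⟩ ((1 : G) : G ⧸ M) = l m x
    have h1 : (m : G)⁻¹ • x = x := exists_eps_act M (M.inv_mem m.2) x
    rw [hg x.out⁻¹ m ⟨x.out⁻¹ * m * ((m : G)⁻¹ • x).out, hmem m x⟩ (by
      change x.out⁻¹ * (m : G) * ((m : G)⁻¹ • x).out = x.out⁻¹ * m * x.out⁻¹⁻¹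
      rw [h1, inv_inv]), Fn.smul_apply, inv_inv]
    have h2 : x.out • ((1 : G) : G ⧸ M) = x := by
      change ((x.out * 1 : G) : G ⧸ M) = x
      rw [mul_one, QuotientGroup.out_eq']
    rw [h2]

private theorem fns9_tel {W : Type} [AddCommGroup W] [DistribMulAction G W] (c : G) (p : ℕ)
    (x : W) : ∑ i ∈ Finset.range p, c ^ i • (c • x - x) = c ^ p • x - x := by
  have h := Finset.sum_range_sub (fun i => c ^ i • x) p
  rw [pow_zero, one_smul] at h
  rw [← h]
  refine Finset.sum_congr rfl fun i _ => ?_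
  rw [smul_sub, smul_smul, pow_succ]

private theorem fns9_tel2 {W : Type} [AddCommGroup W] [DistribMulAction G W] (c : G) (p : ℕ)
    (x : W) : c • (∑ i ∈ Finset.range p, c ^ i • x) - ∑ i ∈ Finset.range p, c ^ i • x
      = c ^ p • x - x := by
  rw [← fns9_tel c p x, Finset.smul_sum, ← Finset.sum_sub_distrib]
  refine Finset.sum_congr rfl fun i _ => ?_
  rw [smul_sub, smul_smul, smul_smul, ← pow_succ', ← pow_succ]

private theorem fns9_map {W W' : Type} [AddCommGroup W] [DistribMulAction G W]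
    [AddCommGroup W'] [DistribMulAction G W'] (f : W →+ W') (hf : Eqv G f) (c : G) (p : ℕ)
    (x : W) : f (∑ i ∈ Finset.range p, c ^ i • x) = ∑ i ∈ Finset.range p, c ^ i • f x := by
  rw [map_sum]
  exact Finset.sum_congr rfl fun i _ => hf _ _

private theorem fns9_pow (hC : Cen p M N c) [M.Normal] (A : Type) [AddCommGroup A]
    (x : Fn G M A) : c ^ p • x = x := by
  funext q
  rw [Fn.smul_apply]
  have h := hC.pow_smul q
  conv_lhs => rw [← h]
  rw [inv_smul_smul]

/-- PIECE FN-S9 (90 lines).  Invariants of `c` in `J = I / ε(R)`: (i) if the norm of `y : J`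
vanishes then `y = c j - j`: lift to `x : I`, the norm of `x` is `ε r` with `r` invariant under `c`,
so `r = norm of r'` (`Cen.inv_norm`), the norm of `x - ε r'` is `0`, `Cen.norm_Fn`;
(ii) if `c y = y` then `y = b x` with `c x = x`: `c x - x = ε r`, the norm of `r` vanishes,
`r = c s - s` (`Cen.norm_Ff`), take `x - ε s`. -/
theorem J_inv (hC : Cen p M N c) [M.Normal]
    (e : Ff G M (ZMod p) →+ Fn G M (Ff G M (ZMod p))) (he : Eqv G e)
    (hinj : Function.Injective e) {J : Type} [AddCommGroup J] [DistribMulAction G J]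
    (b : Fn G M (Ff G M (ZMod p)) →+ J) (hb : Eqv G b) (hsurj : Function.Surjective b)
    (hker : ∀ x, b x = 0 ↔ ∃ r, e r = x) :
    (∀ y : J, ∑ i ∈ Finset.range p, c ^ i • y = 0 → ∃ j, y = c • j - j) ∧
    ∀ y : J, c • y = y → ∃ x, c • x = x ∧ b x = y := by
  refine ⟨fun y hy => ?_, fun y hy => ?_⟩
  · obtain ⟨x, rfl⟩ := hsurj y
    rw [← fns9_map b hb, hker] at hy
    obtain ⟨r, hr⟩ := hy
    have h1 : c • r = r := by
      apply hinj
      rw [he, hr, ← sub_eq_zero, fns9_tel2, fns9_pow hC, sub_self]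
    obtain ⟨s, hs⟩ := hC.inv_norm (ZMod p) r h1
    have h2 : ∑ i ∈ Finset.range p, c ^ i • (x - e s) = 0 := by
      have h3 : ∑ i ∈ Finset.range p, c ^ i • (x - e s)
          = ∑ i ∈ Finset.range p, c ^ i • x - ∑ i ∈ Finset.range p, c ^ i • e s := by
        rw [← Finset.sum_sub_distrib]
        exact Finset.sum_congr rfl fun i _ => smul_sub _ _ _
      rw [h3, ← fns9_map e he, ← hs, hr, sub_self]
    obtain ⟨t, ht, -⟩ := hC.norm_Fn (Ff G M (ZMod p)) (x - e s) h2
    refine ⟨b t, ?_⟩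
    rw [← hb, ← map_sub, ← ht, map_sub, (hker (e s)).2 ⟨s, rfl⟩, sub_zero]
  · obtain ⟨x, rfl⟩ := hsurj y
    have h1 : b (c • x - x) = 0 := by
      rw [map_sub, hb, hy, sub_self]
    rw [hker] at h1
    obtain ⟨r, hr⟩ := h1
    have h2 : ∑ i ∈ Finset.range p, c ^ i • r = 0 := by
      apply hinj
      rw [fns9_map e he, hr, fns9_tel, fns9_pow hC, sub_self, map_zero]
    obtain ⟨s, hs⟩ := hC.norm_Ff (ZMod p) r h2
    refine ⟨x - e s, ?_, ?_⟩
    · rw [smul_sub, ← he]
      have h3 : e (c • s) = e r + e s := by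
        rw [← map_add, hs, sub_add_cancel]
      rw [h3, hr]
      abel
    · rw [map_sub, (hker (e s)).2 ⟨s, rfl⟩, sub_zero]

section

variable {P0 P1 P2 P3 : Type} [AddCommGroup P0] [AddCommGroup P1]
    [AddCommGroup P2] [AddCommGroup P3] [DistribMulAction G P0] [DistribMulAction G P1]
    [DistribMulAction G P2] [DistribMulAction G P3]

/-- `M` acts trivially on functions on `G ⧸ M`. -/
private theorem fns10_triv (M : Subgroup G) [M.Normal] {A : Type} [AddCommGroup A]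
    (f : Fn G M A) (m : G) (hm : m ∈ M) : m • f = f := by
  funext x
  rw [Fn.smul_apply, exists_eps_act M (M.inv_mem hm)]

omit hp in
/-- `c` commutes with the action of `G` on a module on which `M` acts trivially. -/
private theorem fns10_comm (hC : Cen p M N c) {W : Type} [AddCommGroup W] [DistribMulAction G W]
    (hW : ∀ m ∈ M, ∀ w : W, m • w = w) (g : G) (w : W) : c • (g • w) = g • (c • w) := by
  have h1 : c * g = (g * c * g⁻¹ * c⁻¹)⁻¹ * (g * c) := by group
  rw [← mul_smul, h1, mul_smul, hW _ (M.inv_mem (hC.cen g)), mul_smul]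

omit hp in
/-- A derivation which vanishes on `M` and at `c` has values in the invariants of `c`. -/
private theorem fns10_inv (hC : Cen p M N c) {W : Type} [AddCommGroup W] [DistribMulAction G W]
    (hW : ∀ m ∈ M, ∀ w : W, m • w = w) (D : G → W) (hD : IsDer D) (hM : ∀ m ∈ M, D m = 0)
    (hc : D c = 0) (g : G) : c • D g = D g := by
  have h1 : c * g = (g * c * g⁻¹ * c⁻¹)⁻¹ * (g * c) := by group
  have hm := M.inv_mem (hC.cen g)
  have h2 : D (c * g) = c • D g := by rw [hD, hc, zero_add]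
  rw [← h2, h1, hD, hM _ hm, zero_add, hW _ hm, hD, hc, smul_zero, add_zero]

private theorem fns10_comp {X Y Z : Type} [AddCommGroup X] [AddCommGroup Y] [AddCommGroup Z]
    [DistribMulAction G X] [DistribMulAction G Y] [DistribMulAction G Z] (f : Y →+ Z)
    (g : X →+ Y) (hf : Eqv G f) (hg : Eqv G g) : Eqv G (f.comp g) := by
  intro x q
  rw [AddMonoidHom.comp_apply, AddMonoidHom.comp_apply, hg, hf]

private theorem fns10_sub {X Y : Type} [AddCommGroup X] [AddCommGroup Y]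
    [DistribMulAction G X] [DistribMulAction G Y] (f g : X →+ Y) (hf : Eqv G f) (hg : Eqv G g) :
    Eqv G (f - g) := by
  intro x q
  rw [AddMonoidHom.sub_apply, AddMonoidHom.sub_apply, hf, hg, smul_sub]

/-- The cocycle `P1 → J` is a coboundary up to a cocycle which lifts to `I` and a cocycle with values
in the invariants of `c`. -/
private theorem fns10_dec {P0 P1 P2 P3 : Type} [AddCommGroup P0] [AddCommGroup P1]
    [AddCommGroup P2] [AddCommGroup P3] [DistribMulAction G P0] [DistribMulAction G P1]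
    [DistribMulAction G P2] [DistribMulAction G P3]
    (E : Reso G P0 P1 P2 P3) (hC : Cen p M N c) [M.Normal] (hM : M.FG)
    (hi : N.index = 0) (h1 : E.H1z (Ff G M (ZMod p)))
    (e : Ff G M (ZMod p) →+ Fn G M (Ff G M (ZMod p))) (he : Eqv G e)
    (hinj : Function.Injective e) {J : Type} [AddCommGroup J] [DistribMulAction G J]
    (b : Fn G M (Ff G M (ZMod p)) →+ J) (hb : Eqv G b) (hsurj : Function.Surjective b)
    (hker : ∀ x, b x = 0 ↔ ∃ r, e r = x) (i : P1 →+ J) (hie : Eqv G i)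
    (hi0 : ∀ x, i (E.d1 x) = 0) :
    ∃ (uI : P1 →+ Fn G M (Ff G M (ZMod p))) (w : P1 →+ J) (v : P0 →+ J), Eqv G uI ∧
      (∀ x, uI (E.d1 x) = 0) ∧ Eqv G w ∧ (∀ x, c • w x = w x) ∧ Eqv G v ∧
      ∀ x, i x = b (uI x) + w x + v (E.d0 x) := by
  have hiM : M.index = 0 := Nat.eq_zero_of_zero_dvd (hi ▸ Subgroup.index_dvd_of_le hC.le)
  have hJ : ∀ m ∈ M, ∀ y : J, m • y = y := by
    intro m hm y
    obtain ⟨x, rfl⟩ := hsurj y
    rw [← hb, fns10_triv M x m hm]
  obtain ⟨D, hD, hDx⟩ := exists_der E i hie hi0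
  have hR : ∀ D : G → Ff G M (ZMod p), IsDer D → ∃ w, ∀ g, D g = g • w - w :=
    fun D hD => inner_of_H1z E h1 D hD
  obtain ⟨l, hl, hlg, hlb⟩ := exists_lam M hM hiM hR e he hinj b hb hsurj hker D hD
  obtain ⟨DI, hDI, hDIm⟩ := exists_shapiro M l hl hlg
  obtain ⟨D1, hD1v⟩ : ∃ D1 : G → J, ∀ g, D1 g = D g - b (DI g) := ⟨_, fun g => rfl⟩
  have hD1 : IsDer D1 := by
    intro g h
    rw [hD1v, hD1v, hD1v, hD, hDI, map_add, hb, smul_sub]
    abel
  have hD1m : ∀ m ∈ M, D1 m = 0 := by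
    intro m hm
    have h3 := hDIm ⟨m, hm⟩
    have h4 := hlb ⟨m, hm⟩
    rw [← h3] at h4
    rw [hD1v]
    exact sub_eq_zero.2 h4.symm
  have hnorm : ∑ i ∈ Finset.range p, c ^ i • D1 c = 0 := by
    rw [← fns1_pow D1 hD1 c p]
    exact hD1m _ hC.pow
  obtain ⟨j, hj⟩ := (J_inv hC e he hinj b hb hsurj hker).1 _ hnorm
  obtain ⟨D2, hD2v⟩ : ∃ D2 : G → J, ∀ g, D2 g = D1 g - (g • j - j) := ⟨_, fun g => rfl⟩
  have hD2 : IsDer D2 := by
    intro g h
    rw [hD2v, hD2v, hD2v, hD1, smul_sub, smul_sub, mul_smul]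
    abel
  have hD2m : ∀ m ∈ M, D2 m = 0 := by
    intro m hm
    rw [hD2v, hD1m m hm, hJ m hm, sub_self, sub_zero]
  have hD2c : D2 c = 0 := by
    rw [hD2v, hj, sub_self]
  have hinv : ∀ g, c • D2 g = D2 g := fun g => fns10_inv hC hJ D2 hD2 hD2m hD2c g
  let A : AddSubgroup J :=
    { carrier := {y | c • y = y}
      zero_mem' := smul_zero c
      add_mem' := by
        intro y y' hy hy'
        change c • (y + y') = y + y'
        rw [smul_add]
        exact congrArg₂ _ hy hy'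
      neg_mem' := by
        intro y hy
        change c • (-y) = -y
        rw [smul_neg]
        exact congrArg _ hy }
  have hA : ∀ (g : G), ∀ a ∈ A, g • a ∈ A := by
    intro g a ha
    change c • (g • a) = g • a
    rw [fns10_comm hC hJ]
    exact congrArg _ ha
  obtain ⟨uI, wI, -, huI, huI0, -, huIx⟩ := exists_coc E DI hDI ⊤
    (fun _ _ _ => AddSubgroup.mem_top _) (fun _ => AddSubgroup.mem_top _)
  obtain ⟨w, w2, hw2, hw, hw0, hwA, hwx⟩ := exists_coc E D2 hD2 A hA hinv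
  obtain ⟨v, hv, hvx⟩ := cob_of_inner E (i - b.comp uI - w)
    (fns10_sub _ _ (fns10_sub _ _ hie (fns10_comp b uI hb huI)) hw)
    (fun x => by
      rw [AddMonoidHom.sub_apply, AddMonoidHom.sub_apply, AddMonoidHom.comp_apply, hi0, huI0,
        hw0, map_zero, sub_zero, sub_zero]) (j - b wI - w2)
    (fun g x hx => by
      rw [AddMonoidHom.sub_apply, AddMonoidHom.sub_apply, AddMonoidHom.comp_apply, hDx g x hx,
        huIx g x hx, hwx g x hx, hD2v, hD1v, map_add, map_sub, hb, smul_sub, smul_sub]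
      abel)
  refine ⟨uI, w, v, huI, huI0, hw, hwA, hv, fun x => ?_⟩
  rw [← hvx, AddMonoidHom.sub_apply, AddMonoidHom.sub_apply, AddMonoidHom.comp_apply]
  abel

/-- PIECE FN-S10 (150 lines).  `H^2(G;F_p[G ⧸ M]) → H^2(G;F_p[G ⧸ N])` is zero.  `R, I, J, ε, b` as
above (`exists_eps`, `exists_quot`).  Let `u : P2 → R` be a cocycle.  `ε ∘ u = i ∘ d1` with
`i : P1 → I` equivariant (`h2`).  `b ∘ i` is a one-cocycle, with derivation `D` (`exists_der`).
`exists_lam`, `exists_shapiro`: derivation `D_I : G → I` with `b (D_I m) = D m` for `m ∈ M`.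
`D₁ = D - b ∘ D_I` vanishes on `M`; the norm of `D₁ c` is `D₁(c^p) = 0`, so `D₁ c = c j - j`
(`J_inv`).  `D₂ g = D₁ g - (g j - j)` vanishes on `M` and at `c`, so `c D₂ g = D₂ g` as in FN-S1
(`M` acts trivially on `J`).  `exists_coc` for `D_I` (cocycle `u_I`, up to an inner derivation) and
for `D₂` with `A` = invariants of `c` in `J` (invariant under `G` since `c` is central modulo `M`):
cocycle `w'` with values in the invariants.  Then `b ∘ i - b ∘ u_I - w'` is a cocycle whose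
derivation is inner, so it is `v ∘ d0` (`cob_of_inner`), `v : P0 → J`; lift `v` to `v' : P0 → I`
(`exists_lift`).  Lift `w' : P1 → J^c` to `k : P1 → I^c` (`exists_lift` for `b : I^c → J^c`, `J_inv`,
`exists_sub`).  `b (i - u_I - v' d0 - k) = 0`, so `i - u_I - v' d0 - k = ε ∘ ρ`, `ρ : P1 → R`
equivariant.  Apply to `d1 x`: `ε (u x) = i (d1 x) = k (d1 x) + ε (ρ (d1 x))`, so
`ε (u x - ρ (d1 x))` is invariant under `c`, so `u x - ρ (d1 x)` is, so
`pr (u x) = pr (ρ (d1 x))` (`Cen.pr_inv`). -/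
theorem H2m_pr (E : Reso G P0 P1 P2 P3) (hC : Cen p M N c) [M.Normal] (hM : M.FG)
    (hi : N.index = 0) (h1 : E.H1z (Ff G M (ZMod p)))
    (h2 : E.H2z (Fn G M (Ff G M (ZMod p)))) : E.H2m (pr M N hC.le (ZMod p)) := by
  obtain ⟨e, he, hinj, -⟩ := exists_eps p M
  obtain ⟨J, _, _, b, hb, hsurj, hbk⟩ := exists_quot (G := G) e.range (by
    rintro g _ ⟨r, rfl⟩
    exact ⟨g • r, he g r⟩)
  have hker : ∀ x, b x = 0 ↔ ∃ r, e r = x := fun x => (hbk x).trans AddMonoidHom.mem_range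
  intro u hu hu0
  obtain ⟨i, hie, hix⟩ := h2 (e.comp u) (fns10_comp e u he hu) (fun x => by
    rw [AddMonoidHom.comp_apply, hu0, map_zero])
  have hix' : ∀ x, e (u x) = i (E.d1 x) := fun x => hix x
  obtain ⟨uI, w, v, huI, huI0, hw, hwc, hv, hdec⟩ := fns10_dec E hC hM hi h1 e he hinj b hb
    hsurj hker (b.comp i) (fns10_comp b i hb hie) (fun x => by
      rw [AddMonoidHom.comp_apply, ← hix', hker]
      exact ⟨_, rfl⟩)
  obtain ⟨v', hv', hv'x⟩ := exists_lift E.b0 b hb v hv (fun x => hsurj _)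
  -- the invariants of `c` in `I`
  have hI : ∀ m ∈ M, ∀ y : Fn G M (Ff G M (ZMod p)), m • y = y := fun m hm y =>
    fns10_triv M y m hm
  let A : AddSubgroup (Fn G M (Ff G M (ZMod p))) :=
    { carrier := {y | c • y = y}
      zero_mem' := smul_zero c
      add_mem' := by
        intro y y' hy hy'
        change c • (y + y') = y + y'
        rw [smul_add]
        exact congrArg₂ _ hy hy'
      neg_mem' := by
        intro y hy
        change c • (-y) = -y
        rw [smul_neg]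
        exact congrArg _ hy }
  obtain ⟨I', _, _, a, ha, hainj, haA⟩ := exists_sub (G := G) A (by
    intro g y hy
    change c • (g • y) = g • y
    rw [fns10_comm hC hI]
    exact congrArg _ hy)
  obtain ⟨k, hk, hkx⟩ := exists_lift E.b1 (b.comp a) (fns10_comp b a hb ha) w hw (fun x => by
    obtain ⟨y, hy, hyx⟩ := (J_inv hC e he hinj b hb hsurj hker).2 _ (hwc x)
    obtain ⟨y', hy'⟩ := (haA y).1 hy
    exact ⟨y', by rw [AddMonoidHom.comp_apply, hy', hyx]⟩)
  have hkx' : ∀ x, b (a (k x)) = w x := fun x => hkx x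
  obtain ⟨ρ, hρ, hρx⟩ := exists_lift E.b1 e he (i - uI - v'.comp E.d0 - a.comp k)
    (fns10_sub _ _ (fns10_sub _ _ (fns10_sub _ _ hie huI) (fns10_comp _ _ hv' E.d0_smul))
      (fns10_comp _ _ ha hk)) (fun x => by
      rw [← hker]
      have h3 := hdec x
      rw [AddMonoidHom.comp_apply] at h3
      rw [AddMonoidHom.sub_apply, AddMonoidHom.sub_apply, AddMonoidHom.sub_apply,
        AddMonoidHom.comp_apply, AddMonoidHom.comp_apply, map_sub, map_sub, map_sub, h3, hkx',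
        hv'x]
      abel)
  refine ⟨(pr M N hC.le (ZMod p)).comp ρ, fns10_comp _ _ (pr_eqv M N hC.le (ZMod p)) hρ,
    fun x => ?_⟩
  have h4 : e (ρ (E.d1 x)) = e (u x) - a (k (E.d1 x)) := by
    rw [hρx, AddMonoidHom.sub_apply, AddMonoidHom.sub_apply, AddMonoidHom.sub_apply,
      AddMonoidHom.comp_apply, AddMonoidHom.comp_apply, huI0, (E.exact1 _).2 ⟨x, rfl⟩, map_zero,
      sub_zero, sub_zero, hix']
  have h5 : c • (u x - ρ (E.d1 x)) = u x - ρ (E.d1 x) := by
    apply hinj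
    have h6 : e (u x - ρ (E.d1 x)) = a (k (E.d1 x)) := by
      rw [map_sub, h4, sub_sub_cancel]
    rw [he, h6]
    exact (haA _).2 ⟨_, rfl⟩
  have h7 := hC.pr_inv (ZMod p) (fun z => by
    rw [nsmul_eq_mul, CharP.cast_eq_zero, zero_mul]) _ h5
  rw [map_sub, sub_eq_zero] at h7
  exact h7

end

end Pool.FN
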