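import Pool.Agent.Helper38.FN.Rc
import Pool.Agent.Helper38.FN.St
import Pool.Agent.Helper20.ACH.Restr
import Pool.Agent.Helper20.ACH.F1

/-! Project FN: the core theorem. -/

set_option autoImplicit false

namespace Pool.FN

open Pool.ACH

variable {G : Type} [Group G] {P0 P1 P2 P3 : Type} [AddCommGroup P0] [AddCommGroup P1]
    [AddCommGroup P2] [AddCommGroup P3] [DistribMulAction G P0] [DistribMulAction G P1]
    [DistribMulAction G P2] [DistribMulAction G P3]

/-- Subgroups of finite index of finitely generated subgroups. -/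
theorem fg_of_cen {p : ℕ} [Fact p.Prime] {M N : Subgroup G} {c : G} (hC : Cen p M N c)
    (hN : N.FG) : M.FG := by
  have hfin : Finite (N ⧸ M.subgroupOf N) := by
    refine Finite.of_surjective (fun i : Fin p =>
      (QuotientGroup.mk ((⟨c, hC.mem⟩ : N) ^ (i : ℕ)) : N ⧸ M.subgroupOf N)) ?_
    intro q
    induction q using QuotientGroup.induction_on with
    | H n =>
      obtain ⟨i, hi⟩ := hC.gen n n.2
      refine ⟨⟨i % p, Nat.mod_lt _ (Fact.out : p.Prime).pos⟩, ?_⟩
      rw [QuotientGroup.eq, Subgroup.mem_subgroupOf]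
      have h1 : (c ^ (i % p))⁻¹ * (n : G) = (c ^ p) ^ (i / p) * ((c ^ i)⁻¹ * n) := by
        have e : c ^ i = c ^ (i % p) * (c ^ p) ^ (i / p) := by
          rw [← pow_mul, ← pow_add, Nat.mod_add_div]
        rw [e, mul_inv_rev, mul_assoc, mul_inv_cancel_left]
      change (c ^ (i % p))⁻¹ * (n : G) ∈ M
      rw [h1]
      exact M.mul_mem (M.pow_mem hC.pow _) hi
  have : Group.FG N := (Group.fg_iff_subgroup_fg N).2 hN
  have : (M.subgroupOf N).FiniteIndex := Subgroup.finiteIndex_of_finite_quotient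
  have h2 : Group.FG (M.subgroupOf N) := Subgroup.fg_of_index_ne_zero _
  have h3 : Group.FG M := Group.fg_of_surjective
    (f := (Subgroup.subgroupOfEquivOfLe hC.le).toMonoidHom)
    (Subgroup.subgroupOfEquivOfLe hC.le).surjective
  exact (Group.fg_iff_subgroup_fg M).1 h3

/-- The homomorphism `N → ℤ/p` with kernel `M`. -/
theorem exists_hom_cen {p : ℕ} [Fact p.Prime] {M N : Subgroup G} [M.Normal] {c : G}
    (hC : Cen p M N c) :
    ∃ l : N → ZMod p, (∀ a b, l (a * b) = l a + l b) ∧ l ⟨c, hC.mem⟩ ≠ 0 := by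
  have ho : orderOf (QuotientGroup.mk c : G ⧸ M) = p := by
    refine orderOf_eq_prime ?_ ?_
    · rw [← QuotientGroup.mk_pow]
      exact (QuotientGroup.eq_one_iff _).2 hC.pow
    · rw [Ne, QuotientGroup.eq_one_iff]
      exact hC.nmem
  have hex : ∀ n : N, ∃ i : ℕ, (QuotientGroup.mk (n : G) : G ⧸ M) = (QuotientGroup.mk c) ^ i := by
    intro n
    obtain ⟨i, hi⟩ := hC.gen n n.2
    refine ⟨i, ?_⟩
    rw [← QuotientGroup.mk_pow]
    exact (QuotientGroup.eq.2 hi).symm
  choose i hi using hex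
  have key : ∀ (a b : ℕ), (QuotientGroup.mk c : G ⧸ M) ^ a = (QuotientGroup.mk c) ^ b →
      (a : ZMod p) = b := by
    intro a b h
    rw [pow_eq_pow_iff_modEq, ho] at h
    exact (ZMod.natCast_eq_natCast_iff _ _ _).2 h
  refine ⟨fun n => (i n : ZMod p), ?_, ?_⟩
  · intro a b
    rw [← Nat.cast_add]
    refine key _ _ ?_
    rw [← hi, pow_add, ← hi, ← hi]
    rfl
  · have h1 := key (i ⟨c, hC.mem⟩) 1 (by rw [← hi, pow_one])
    change (i ⟨c, hC.mem⟩ : ZMod p) ≠ 0
    rw [h1, Nat.cast_one]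
    exact one_ne_zero

/-- The core theorem (assembly, helper38). -/
theorem core (D : PD3Data G P0 P1 P2 P3) (hD1 : DOne (ofPD3 D)) (hF : FAb G) (p : ℕ)
    [Fact p.Prime] (M N : Subgroup G) [M.Normal] [N.Normal] (hN : N.FG) (hi : N.index = 0)
    (c : G) (hC : Cen p M N c) :
    (∀ l : N → ZMod p, (∀ a b, l (a * b) = l a + l b) → ∀ m : N, (m : G) ∈ M → l m = 0) ∧
    ∃ f : N →* Multiplicative ℤ, Function.Surjective f := by
  have hinf : Infinite G := by
    rw [← not_finite_iff_infinite]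
    intro hfin
    exact Subgroup.index_ne_zero_of_finite hi
  have hM : M.FG := fg_of_cen hC hN
  obtain ⟨E', e0, e1, e2⟩ := exists_dual D hD1 hinf
  let E : Reso G P0 P1 P2 P3 := ofPD3 D
  have hE : Dual E E' := ⟨e0, e1, e2⟩
  have h2f : E.H2f (Ff G N (ZMod p)) := H2f_trans E' E (H2f_Ff E E' hE N hN p)
  have h1f : E.H1f (Ff G N (ZMod p)) := H1f_Ff E hC hM hi h2f
  have h1z : E.H1z (Ff G N (ZMod p)) := H1z_of_H1f E p D.fg hF N hN hi h1f
  have h1M : E.H1z (Ff G M (ZMod p)) := H1z_M E hC hM hi h1z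
  have id1 : ∀ (W : Type) [AddCommGroup W] [DistribMulAction G W],
      Eqv G (AddMonoidHom.id W) := fun W _ _ g p => rfl
  have h1z' : E'.H1z (Ff G N (ZMod p)) := H1m_trans E E' _ (id1 _) h1z
  have h1M' : E'.H1z (Ff G M (ZMod p)) := H1m_trans E E' _ (id1 _) h1M
  have hpk : ∀ a : Ff G M (ZMod p), p • a = 0 := by
    intro a
    refine Subtype.ext (funext fun x => ?_)
    have h3 : ∀ n : ℕ, (n • a).1 x = n • a.1 x := by
      intro n
      induction n with
      | zero => rw [zero_smul, zero_smul]; rfl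
      | succ n ih => rw [succ_nsmul, succ_nsmul, Ff.add_apply, ih]
    change (p • a).1 x = 0
    rw [h3]
    simp
  have h2z : E.H2z (Fn G M (Ff G M (ZMod p))) := H2z_of_H1z E E' hE M p h1M' _ hpk
  have h2m : E'.H2m (pr M N hC.le (ZMod p)) :=
    H2m_trans E E' _ (pr_eqv M N hC.le (ZMod p)) (H2m_pr E hC hM hi h1M h2z)
  refine ⟨fun l hl m hm => hom_trivial E E' hE M N hC.le p h2m l hl m hm, ?_⟩
  obtain ⟨l, hl, hc⟩ := exists_hom_cen hC
  exact maps_onto_int E N hN p (fun k _ hk => H2z_of_H1z E E' hE N p h1z' k hk) l hl _ hc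

end Pool.FN
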