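import Pool.Agent.Helper20.ACH.Defs

/-!
# Project FN (MP_9d9192_al): definitions

Finitely generated normal subgroups of `PD_3`-groups.  Resolutions, cohomology in degrees one and
two with coefficients in a `G`-module `W` as statements about equivariant additive maps, function
modules on `G ⧸ M`, dual modules, derivations.
-/

set_option autoImplicit false

namespace Pool.FN

open Pool.ACH

/-- Equivariant additive maps. -/
def Eqv (G : Type) [Group G] {P W : Type} [AddCommGroup P] [AddCommGroup W]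
    [DistribMulAction G P] [DistribMulAction G W] (u : P →+ W) : Prop :=
  ∀ (g : G) (p : P), u (g • p) = g • u p

/-- A resolution of length three of `ℤ` by finitely generated projective modules. -/
structure Reso (G P0 P1 P2 P3 : Type) [Group G] [AddCommGroup P0] [AddCommGroup P1]
    [AddCommGroup P2] [AddCommGroup P3] [DistribMulAction G P0] [DistribMulAction G P1]
    [DistribMulAction G P2] [DistribMulAction G P3] where
  ε : P0 →+ ℤ
  d0 : P1 →+ P0
  d1 : P2 →+ P1
  d2 : P3 →+ P2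
  ε_smul : ∀ (g : G) (p : P0), ε (g • p) = ε p
  d0_smul : Eqv G d0
  d1_smul : Eqv G d1
  d2_smul : Eqv G d2
  p0 : P0
  ε_p0 : ε p0 = 1
  exact0 : ∀ p, ε p = 0 ↔ ∃ q, d0 q = p
  exact1 : ∀ p, d0 p = 0 ↔ ∃ q, d1 q = p
  exact2 : ∀ p, d1 p = 0 ↔ ∃ q, d2 q = p
  d2_inj : Function.Injective d2
  b0 : DB G P0
  b1 : DB G P1
  b2 : DB G P2
  b3 : DB G P3

section Reso

variable {G P0 P1 P2 P3 : Type} [Group G] [AddCommGroup P0] [AddCommGroup P1]
    [AddCommGroup P2] [AddCommGroup P3] [DistribMulAction G P0] [DistribMulAction G P1]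
    [DistribMulAction G P2] [DistribMulAction G P3] (E : Reso G P0 P1 P2 P3)

/-- `π` induces the zero map in degree one. -/
def Reso.H1m {W W' : Type} [AddCommGroup W] [DistribMulAction G W] [AddCommGroup W']
    [DistribMulAction G W'] (π : W →+ W') : Prop :=
  ∀ u : P1 →+ W, Eqv G u → (∀ p, u (E.d1 p) = 0) →
    ∃ v : P0 →+ W', Eqv G v ∧ ∀ p, π (u p) = v (E.d0 p)

/-- `π` induces the zero map in degree two. -/
def Reso.H2m {W W' : Type} [AddCommGroup W] [DistribMulAction G W] [AddCommGroup W']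
    [DistribMulAction G W'] (π : W →+ W') : Prop :=
  ∀ u : P2 →+ W, Eqv G u → (∀ p, u (E.d2 p) = 0) →
    ∃ v : P1 →+ W', Eqv G v ∧ ∀ p, π (u p) = v (E.d1 p)

/-- `H^1(G;W) = 0`. -/
def Reso.H1z (W : Type) [AddCommGroup W] [DistribMulAction G W] : Prop :=
  E.H1m (AddMonoidHom.id W)

/-- `H^2(G;W) = 0`. -/
def Reso.H2z (W : Type) [AddCommGroup W] [DistribMulAction G W] : Prop :=
  E.H2m (AddMonoidHom.id W)

/-- `H^1(G;W)` is finite. -/
def Reso.H1f (W : Type) [AddCommGroup W] [DistribMulAction G W] : Prop :=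
  ∃ S : Set (P1 →+ W), S.Finite ∧ ∀ u : P1 →+ W, Eqv G u → (∀ p, u (E.d1 p) = 0) →
    ∃ s ∈ S, ∃ v : P0 →+ W, Eqv G v ∧ ∀ p, u p = s p + v (E.d0 p)

/-- `H^2(G;W)` is finite. -/
def Reso.H2f (W : Type) [AddCommGroup W] [DistribMulAction G W] : Prop :=
  ∃ S : Set (P2 →+ W), S.Finite ∧ ∀ u : P2 →+ W, Eqv G u → (∀ p, u (E.d2 p) = 0) →
    ∃ s ∈ S, ∃ v : P1 →+ W, Eqv G v ∧ ∀ p, u p = s p + v (E.d1 p)

end Reso

/-- Derivations. -/
def IsDer {G W : Type} [Group G] [AddCommGroup W] [DistribMulAction G W] (D : G → W) : Prop :=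
  ∀ g h : G, D (g * h) = D g + g • D h

/-- The resolution part of `PD3Data`. -/
def ofPD3 {G P0 P1 P2 P3 : Type} [Group G] [AddCommGroup P0] [AddCommGroup P1]
    [AddCommGroup P2] [AddCommGroup P3] [DistribMulAction G P0] [DistribMulAction G P1]
    [DistribMulAction G P2] [DistribMulAction G P3] (D : PD3Data G P0 P1 P2 P3) :
    Reso G P0 P1 P2 P3 where
  ε := D.ε
  d0 := D.d0
  d1 := D.d1
  d2 := D.d2
  ε_smul := D.ε_smul
  d0_smul := D.d0_smul
  d1_smul := D.d1_smul
  d2_smul := D.d2_smul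
  p0 := D.p0
  ε_p0 := D.ε_p0
  exact0 := D.exact0
  exact1 := D.exact1
  exact2 := D.exact2
  d2_inj := D.d2_inj
  b0 := D.b0
  b1 := D.b1
  b2 := D.b2
  b3 := D.b3

/-- Exactness of the dual complex in degree one: `H^1(G;ℤ[G]) = 0`. -/
def DOne {G P0 P1 P2 P3 : Type} [Group G] [AddCommGroup P0] [AddCommGroup P1]
    [AddCommGroup P2] [AddCommGroup P3] [DistribMulAction G P0] [DistribMulAction G P1]
    [DistribMulAction G P2] [DistribMulAction G P3] (E : Reso G P0 P1 P2 P3) : Prop :=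
  ∀ φ : P1 →+ ℤ, IsFs G φ → (∀ p, φ (E.d1 p) = 0) →
    ∃ ψ : P0 →+ ℤ, IsFs G ψ ∧ ∀ p, φ p = ψ (E.d0 p)

section Modules

variable (G : Type) [Group G]

/-- The dual module: additive maps to `ℤ` of finite support. -/
def Fs (P : Type) [AddCommGroup P] [DistribMulAction G P] : Type := {φ : P →+ ℤ // IsFs G φ}

/-- The subgroup of maps of finite support. -/
def FsS (P : Type) [AddCommGroup P] [DistribMulAction G P] : AddSubgroup (P →+ ℤ) where
  carrier := {φ | IsFs G φ}
  zero_mem' := IsFs.zero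
  add_mem' := fun h h' => h.add h'
  neg_mem' := fun h => h.neg

instance Fs.acg (P : Type) [AddCommGroup P] [DistribMulAction G P] : AddCommGroup (Fs G P) :=
  inferInstanceAs (AddCommGroup (FsS G P))

/-- The action on the dual module: `(g φ)(p) = φ(g⁻¹ p)`. -/
instance Fs.act (P : Type) [AddCommGroup P] [DistribMulAction G P] :
    DistribMulAction G (Fs G P) where
  smul g φ := ⟨rt g⁻¹ φ.1, φ.2.rt g⁻¹⟩
  one_smul φ := Subtype.ext (AddMonoidHom.ext fun p => by
    change φ.1 ((1 : G)⁻¹ • p) = φ.1 p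
    rw [inv_one, one_smul])
  mul_smul g h φ := Subtype.ext (AddMonoidHom.ext fun p => by
    change φ.1 ((g * h)⁻¹ • p) = φ.1 (h⁻¹ • g⁻¹ • p)
    rw [mul_inv_rev, mul_smul])
  smul_zero g := rfl
  smul_add g φ ψ := rfl

theorem Fs.add_val {P : Type} [AddCommGroup P] [DistribMulAction G P] (φ ψ : Fs G P) :
    (φ + ψ).1 = φ.1 + ψ.1 := rfl

theorem Fs.smul_apply {P : Type} [AddCommGroup P] [DistribMulAction G P] (g : G) (φ : Fs G P)
    (p : P) : (g • φ).1 p = φ.1 (g⁻¹ • p) := rfl

/-- Functions on `G ⧸ M` with values in `A`, with the action by translations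
`(g f)(x) = f(g⁻¹ x)`; this is the coinduced module of the trivial `M`-module `A`. -/
def Fn (M : Subgroup G) (A : Type) : Type := G ⧸ M → A

instance Fn.acg (M : Subgroup G) (A : Type) [AddCommGroup A] : AddCommGroup (Fn G M A) :=
  inferInstanceAs (AddCommGroup (G ⧸ M → A))

instance Fn.act (M : Subgroup G) (A : Type) [AddCommGroup A] : DistribMulAction G (Fn G M A) where
  smul g f := fun x => f (g⁻¹ • x)
  one_smul f := funext fun x => by
    change f ((1 : G)⁻¹ • x) = f x
    rw [inv_one, one_smul]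
  mul_smul g h f := funext fun x => by
    change f ((g * h)⁻¹ • x) = f (h⁻¹ • g⁻¹ • x)
    rw [mul_inv_rev, mul_smul]
  smul_zero g := rfl
  smul_add g f f' := rfl

theorem Fn.smul_apply (M : Subgroup G) (A : Type) [AddCommGroup A] (g : G) (f : Fn G M A)
    (x : G ⧸ M) : (g • f) x = f (g⁻¹ • x) := rfl

theorem Fn.add_apply (M : Subgroup G) (A : Type) [AddCommGroup A] (f f' : Fn G M A)
    (x : G ⧸ M) : (f + f') x = f x + f' x := rfl

/-- The functions of finite support. -/
def FfS (M : Subgroup G) (A : Type) [AddCommGroup A] : AddSubgroup (Fn G M A) where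
  carrier := {f | {x : G ⧸ M | f x ≠ 0}.Finite}
  zero_mem' := by
    have : {x : G ⧸ M | (0 : Fn G M A) x ≠ 0} = ∅ := by
      ext x
      simp only [Set.mem_setOf_eq, Set.mem_empty_iff_false, iff_false, not_not]
      rfl
    rw [Set.mem_setOf_eq, this]
    exact Set.finite_empty
  add_mem' := by
    intro f f' hf hf'
    refine (hf.union hf').subset fun x hx => ?_
    by_contra h
    simp only [Set.mem_union, Set.mem_setOf_eq, not_or, not_not] at h
    refine hx ?_
    rw [Fn.add_apply, h.1, h.2, add_zero]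
  neg_mem' := by
    intro f hf
    refine hf.subset fun x hx => ?_
    intro h
    refine hx ?_
    change -(f x) = 0
    rw [h, neg_zero]

/-- The functions of finite support, `A[G ⧸ M]`. -/
def Ff (M : Subgroup G) (A : Type) [AddCommGroup A] : Type := FfS G M A

instance Ff.acg (M : Subgroup G) (A : Type) [AddCommGroup A] : AddCommGroup (Ff G M A) :=
  inferInstanceAs (AddCommGroup (FfS G M A))

instance Ff.act (M : Subgroup G) (A : Type) [AddCommGroup A] : DistribMulAction G (Ff G M A) where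
  smul g f := ⟨g • (f.1 : Fn G M A), by
    have h := f.2.preimage ((MulAction.injective (β := G ⧸ M) g⁻¹).injOn
      (s := (fun x : G ⧸ M => g⁻¹ • x) ⁻¹' {x | f.1 x ≠ 0}))
    exact h.subset fun x hx => hx⟩
  one_smul f := Subtype.ext (one_smul G (f.1 : Fn G M A))
  mul_smul g h f := Subtype.ext (mul_smul g h (f.1 : Fn G M A))
  smul_zero g := Subtype.ext (smul_zero (A := Fn G M A) g)
  smul_add g f f' := Subtype.ext (smul_add g (f.1 : Fn G M A) f'.1)

theorem Ff.smul_apply (M : Subgroup G) (A : Type) [AddCommGroup A] (g : G) (f : Ff G M A)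
    (x : G ⧸ M) : (g • f).1 x = f.1 (g⁻¹ • x) := rfl

theorem Ff.add_apply (M : Subgroup G) (A : Type) [AddCommGroup A] (f f' : Ff G M A)
    (x : G ⧸ M) : (f + f').1 x = f.1 x + f'.1 x := rfl

theorem Ff.zero_apply (M : Subgroup G) (A : Type) [AddCommGroup A] (x : G ⧸ M) :
    (0 : Ff G M A).1 x = 0 := rfl

end Modules

end Pool.FN
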