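import Mathlib

/-! Project FN: finite groups. -/

set_option autoImplicit false

namespace Pool.FN

/-- The power of a product of two elements with central commutator. -/
private lemma mul_pow_of_comm {P : Type} [Group P] {y b z : P} (h : b * y = z * (y * b))
    (hy : y * z = z * y) (hb : b * z = z * b) (n : ℕ) :
    (y * b) ^ n = z ^ (n * (n - 1) / 2) * (y ^ n * b ^ n) := by
  have hyz : Commute y z := hy
  have hbz : Commute b z := hb
  have h1 : ∀ n : ℕ, b ^ n * y = z ^ n * (y * b ^ n) := by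
    intro n
    induction n with
    | zero => simp
    | succ n ih =>
      rw [pow_succ', mul_assoc, ih, ← mul_assoc, (hbz.pow_right n).eq, mul_assoc, ← mul_assoc b y,
        h, pow_succ]
      simp only [mul_assoc]
  induction n with
  | zero => simp
  | succ n ih =>
    have h2 : (n + 1) * (n + 1 - 1) / 2 = n * (n - 1) / 2 + n := by
      rw [Nat.add_sub_cancel]
      have h3 := Finset.sum_range_id_mul_two n
      have h4 := Finset.sum_range_id_mul_two (n + 1)
      rw [Finset.sum_range_succ, Nat.add_sub_cancel] at h4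
      omega
    rw [pow_succ, ih, h2, pow_add, mul_assoc, mul_assoc, ← mul_assoc (b ^ n), h1, mul_assoc (z ^ n),
      ← mul_assoc (y ^ n) (z ^ n), ((hyz.pow_left n).pow_right n).eq, pow_succ y, pow_succ b]
    simp only [mul_assoc]

/-- PIECE FN-F1 (150 lines).  `P` a finite `p`-group, `p` odd, `C ≠ 1` a central subgroup, such that
`⟨x⟩ C` is cyclic for all `x`.  Then `P` is cyclic.  Induction on `|P|` over the subgroups
`C ≤ P₁ ≤ P`.  If `P / C` is cyclic then `P = ⟨x⟩ C` for some `x`.  Otherwise the `p`-group `P / C` has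
two different maximal subgroups; their preimages `M₁ ≠ M₂` are normal of index `p`, contain `C`, and
are cyclic by induction: `M₁ = ⟨x⟩`, `M₂ = ⟨y⟩`.  `D = M₁ ∩ M₂` is central (`M₁ M₂ = P`), of index `p`
in both, so `x^p`, `y^p` generate `D`, `y^p = x^(p j)` for some `j`.  `[x, y] ∈ D` (`P / D` is
abelian of exponent `p`), so it is central, `[x, y]^p = [x^p, y] = 1`, and
`(y x^(-j))^p = y^p x^(-p j) [x,y]^(± j p (p-1)/2) = 1` as `p` is odd.  `w = y x^(-j) ∉ M₁`, so
`w ∉ C`, `w^p = 1`, and `⟨w⟩ C` is not cyclic: it has the two different subgroups `⟨w⟩` and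
`C[p]` of order `p`.  (Alternatively prove: a finite `p`-group, `p` odd, with exactly one subgroup of
order `p` is cyclic; here every `x ≠ 1` of order `p` lies in `C`.) -/
theorem isCyclic_of_center {P : Type} [Group P] [Finite P] (p : ℕ) [Fact p.Prime] (hp2 : p ≠ 2)
    (hP : IsPGroup p P) (C : Subgroup P) (hC : C ≠ ⊥) (hcen : ∀ c ∈ C, ∀ x : P, x * c = c * x)
    (h : ∀ x : P, IsCyclic (Subgroup.zpowers x ⊔ C : Subgroup P)) : IsCyclic P := by
  have hp : p.Prime := Fact.out
  obtain ⟨n, hn⟩ : ∃ n, Nat.card P = n := ⟨_, rfl⟩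
  induction n using Nat.strong_induction_on generalizing P with
  | _ n ih =>
  by_cases hx : ∃ x : P, Subgroup.zpowers x ⊔ C = ⊤
  · obtain ⟨x, hx⟩ := hx
    have h1 := h x
    rw [hx] at h1
    exact isCyclic_of_surjective _ (Subgroup.topEquiv (G := P)).surjective
  push Not at hx
  have hCt : C ≠ ⊤ := by
    intro h1
    apply hx 1
    rw [h1, sup_top_eq]
  -- maximal subgroups
  have hmax : ∀ N : Subgroup P, C ≤ N → N ≠ ⊤ → ∃ M : Subgroup P, N ≤ M ∧ IsCoatom M := by
    intro N _ hN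
    obtain ⟨M, hM, hNM⟩ := (eq_top_or_exists_le_coatom N).resolve_left hN
    exact ⟨M, hNM, hM⟩
  have hcyc : ∀ M : Subgroup P, C ≤ M → IsCoatom M → IsCyclic M := by
    intro M hCM hM
    refine ih (Nat.card M) ?_ (hP.to_subgroup M) (C.subgroupOf M) ?_ ?_ ?_ rfl
    · rw [← hn]
      refine lt_of_le_of_ne (Subgroup.card_le_card_group M) fun h1 => hM.1 ?_
      exact Subgroup.eq_top_of_card_eq M h1
    · intro h1
      apply hC
      rw [← Subgroup.map_subgroupOf_eq_of_le hCM, h1, Subgroup.map_bot]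
    · intro c hc x
      exact Subtype.ext (hcen c hc x)
    · intro x
      have h1 := h x
      have h2 : Subgroup.map M.subtype (Subgroup.zpowers x ⊔ C.subgroupOf M) =
          Subgroup.zpowers (x : P) ⊔ C := by
        rw [Subgroup.map_sup, Subgroup.map_subgroupOf_eq_of_le hCM, MonoidHom.map_zpowers,
          Subgroup.coe_subtype]
      rw [← h2] at h1
      exact isCyclic_of_surjective _
        (Subgroup.equivMapOfInjective _ M.subtype M.subtype_injective).symm.surjective
  have hnil : Group.IsNilpotent P := hP.isNilpotent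
  have hnorm : ∀ M : Subgroup P, IsCoatom M → M.Normal := fun M hM =>
    Subgroup.NormalizerCondition.normal_of_coatom M
      (Group.normalizerCondition_of_isNilpotent (G := P)) hM
  have hindex : ∀ M : Subgroup P, IsCoatom M → M.index = p := by
    intro M hM
    obtain ⟨a, ha⟩ := hP.exists_card_eq
    obtain ⟨b, hb⟩ := (hP.to_subgroup M).exists_card_eq
    have hlt : b < a := by
      have h1 : Nat.card M < Nat.card P := by
        refine lt_of_le_of_ne (Subgroup.card_le_card_group M) fun h1 => hM.1 ?_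
        exact Subgroup.eq_top_of_card_eq M h1
      rw [ha, hb] at h1
      exact (Nat.pow_lt_pow_iff_right hp.one_lt).1 h1
    obtain ⟨K, hK, hMK⟩ := Sylow.exists_subgroup_card_pow_succ (p := p) (n := b)
      (by rw [ha]; exact pow_dvd_pow p hlt) hb
    have h2 : M < K := by
      refine lt_of_le_of_ne hMK fun h1 => ?_
      rw [h1, hK, pow_succ] at hb
      have h3 : 0 < p ^ b := pow_pos hp.pos b
      have h4 := hp.one_lt
      nlinarith
    have h3 := hM.2 K h2
    rw [h3, Subgroup.card_top] at hK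
    have h4 := M.card_mul_index
    rw [hK, hb, pow_succ] at h4
    exact Nat.eq_of_mul_eq_mul_left (pow_pos hp.pos b) h4
  obtain ⟨M₁, hC1, hM1⟩ := hmax C le_rfl hCt
  obtain ⟨y₀, hy₀⟩ : ∃ y, y ∉ M₁ := by
    by_contra h1
    push Not at h1
    exact hM1.1 ((Subgroup.eq_top_iff' M₁).2 h1)
  obtain ⟨M₂, hN2, hM2⟩ := hmax _ le_sup_right (hx y₀)
  have hC2 : C ≤ M₂ := le_sup_right.trans hN2
  have hy2 : y₀ ∈ M₂ := hN2 (Subgroup.mem_sup_left (Subgroup.mem_zpowers y₀))
  have hne : M₁ ≠ M₂ := by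
    rintro rfl
    exact hy₀ hy2
  have := hcyc M₁ hC1 hM1
  have := hcyc M₂ hC2 hM2
  have hn1 := hnorm M₁ hM1
  have hn2 := hnorm M₂ hM2
  obtain ⟨⟨x, hx1⟩, hxg⟩ := IsCyclic.exists_generator (α := M₁)
  obtain ⟨⟨y, hy1⟩, hyg⟩ := IsCyclic.exists_generator (α := M₂)
  have hx1' : ∀ g ∈ M₁, ∃ k : ℤ, x ^ k = g := by
    intro g hg
    obtain ⟨k, hk⟩ := Subgroup.mem_zpowers_iff.1 (hxg ⟨g, hg⟩)
    exact ⟨k, by simpa using congrArg Subtype.val hk⟩
  have hy1' : ∀ g ∈ M₂, ∃ k : ℤ, y ^ k = g := by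
    intro g hg
    obtain ⟨k, hk⟩ := Subgroup.mem_zpowers_iff.1 (hyg ⟨g, hg⟩)
    exact ⟨k, by simpa using congrArg Subtype.val hk⟩
  have hyM : y ∉ M₁ := by
    intro h1
    obtain ⟨k, hk⟩ := hy1' y₀ hy2
    exact hy₀ (hk ▸ M₁.zpow_mem h1 k)
  have hxM : x ∉ M₂ := by
    intro h1
    have h2 : M₁ ≤ M₂ := by
      intro g hg
      obtain ⟨k, rfl⟩ := hx1' g hg
      exact M₂.zpow_mem h1 k
    exact hne (hM1.le_iff.1 h2 |>.resolve_left hM2.1).symm
  have htop : M₁ ⊔ M₂ = ⊤ := hM1.2 _ (lt_of_le_of_ne le_sup_left fun h1 => by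
    have h2 : M₂ ≤ M₁ := by rw [h1]; exact le_sup_right
    exact hne (hM2.le_iff.1 h2 |>.resolve_left hM1.1))
  -- the intersection is central
  have hD : ∀ d ∈ M₁, d ∈ M₂ → ∀ g : P, g * d = d * g := by
    intro d hd1 hd2 g
    have h1 : M₁ ⊔ M₂ ≤ Subgroup.centralizer {d} := by
      rw [sup_le_iff]
      constructor
      · intro u hu
        obtain ⟨k, rfl⟩ := hx1' u hu
        obtain ⟨l, rfl⟩ := hx1' d hd1
        rw [Subgroup.mem_centralizer_iff]
        intro w hw
        rw [Set.mem_singleton_iff.1 hw, ← zpow_add, ← zpow_add, add_comm]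
      · intro u hu
        obtain ⟨k, rfl⟩ := hy1' u hu
        obtain ⟨l, rfl⟩ := hy1' d hd2
        rw [Subgroup.mem_centralizer_iff]
        intro w hw
        rw [Set.mem_singleton_iff.1 hw, ← zpow_add, ← zpow_add, add_comm]
    rw [htop] at h1
    have h2 := Subgroup.mem_centralizer_iff.1 (h1 (Subgroup.mem_top g)) d (Set.mem_singleton d)
    exact h2.symm
  have hpow : ∀ (M : Subgroup P), IsCoatom M → ∀ g : P, g ^ p ∈ M := by
    intro M hM g
    have h1 := hnorm M hM
    rw [← hindex M hM]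
    exact M.pow_index_mem g
  -- `y ^ p` is a power of `x ^ p`
  obtain ⟨k, hk⟩ := hx1' (y ^ p) (hpow M₁ hM1 y)
  have hpk : (p : ℤ) ∣ k := by
    by_contra hpk
    have hcop : IsCoprime (p : ℤ) k :=
      (Nat.prime_iff_prime_int.1 hp).coprime_iff_not_dvd.2 hpk
    obtain ⟨u, v, huv⟩ := hcop
    apply hxM
    have h1 : x = (x ^ p) ^ u * (x ^ k) ^ v := by
      rw [← zpow_natCast, ← zpow_mul, ← zpow_mul, ← zpow_add]
      have h2 : (p : ℤ) * u + k * v = 1 := by rw [← huv]; ring
      rw [h2, zpow_one]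
    rw [h1]
    refine M₂.mul_mem (M₂.zpow_mem (hpow M₂ hM2 x) u) (M₂.zpow_mem ?_ v)
    rw [hk]
    exact M₂.pow_mem hy1 p
  obtain ⟨j, rfl⟩ := hpk
  set b : P := x ^ (-j) with hb
  have hbM : b ∈ M₁ := M₁.zpow_mem hx1 _
  set z : P := b * y * b⁻¹ * y⁻¹ with hz
  have hz1 : z ∈ M₁ := by
    have h1 : z = b * (y * b⁻¹ * y⁻¹) := by rw [hz]; group
    rw [h1]
    exact M₁.mul_mem hbM (hn1.conj_mem _ (M₁.inv_mem hbM) y)
  have hz2 : z ∈ M₂ := M₂.mul_mem (hn2.conj_mem _ hy1 b) (M₂.inv_mem hy1)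
  have hby : b * y = z * (y * b) := by rw [hz]; group
  have hzp : z ^ p = 1 := by
    have h1 : ∀ n : ℕ, b ^ n * y = z ^ n * (y * b ^ n) := by
      intro n
      induction n with
      | zero => simp
      | succ n ih =>
        have hbz : Commute b z := (hD z hz1 hz2 b)
        rw [pow_succ', mul_assoc, ih, ← mul_assoc, (hbz.pow_right n).eq, mul_assoc, ← mul_assoc b y,
          hby, pow_succ]
        simp only [mul_assoc]
    have h2 := h1 p
    have h3 : y * b ^ p = b ^ p * y := hD (b ^ p) (M₁.pow_mem hbM p) (hpow M₂ hM2 b) y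
    rw [h3] at h2
    exact right_eq_mul.1 h2
  have hw := mul_pow_of_comm hby (hD z hz1 hz2 y) (hD z hz1 hz2 b) p
  have hT : z ^ (p * (p - 1) / 2) = 1 := by
    obtain ⟨m, hm⟩ := hp.odd_of_ne_two hp2
    have h1 : p * (p - 1) / 2 = p * m := by
      rw [hm, Nat.add_sub_cancel, mul_comm 2 m, ← mul_assoc, Nat.mul_div_cancel _ (by norm_num)]
    rw [h1, pow_mul, hzp, one_pow]
  have hbp : b ^ p = (y ^ p)⁻¹ := by
    rw [hb, ← hk, ← zpow_natCast, ← zpow_mul, ← zpow_neg]
    congr 1
    ring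
  rw [hT, one_mul, hbp, mul_inv_cancel] at hw
  set w : P := y * b with hwdef
  have hwM : w ∉ M₁ := by
    intro h1
    apply hyM
    have h2 : y = w * b⁻¹ := by rw [hwdef]; group
    rw [h2]
    exact M₁.mul_mem h1 (M₁.inv_mem hbM)
  -- an element of order `p` in `C`
  obtain ⟨c, hcC, hcp⟩ : ∃ c ∈ C, orderOf c = p := by
    have h1 : p ∣ Nat.card C := by
      obtain ⟨m, hm⟩ := (hP.to_subgroup C).exists_card_eq
      rw [hm]
      refine dvd_pow_self p fun h2 => hC ?_
      rw [h2, pow_zero] at hm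
      exact Subgroup.card_eq_one.1 hm
    obtain ⟨c, hc⟩ := exists_prime_orderOf_dvd_card' (G := C) p h1
    exact ⟨c, c.2, by rw [← hc, Subgroup.orderOf_coe]⟩
  exfalso
  have hcyc2 := h w
  set X : Subgroup P := Subgroup.zpowers w ⊔ C with hX
  have hcX : c ∈ X := Subgroup.mem_sup_right hcC
  have hwX : w ∈ X := Subgroup.mem_sup_left (Subgroup.mem_zpowers w)
  classical
  have hfin : Fintype X := Fintype.ofFinite X
  have hcard := IsCyclic.card_pow_eq_one_le (α := X) hp.pos
  have hsub : (Subgroup.zpowers (⟨c, hcX⟩ : X) : Set X).toFinset ⊆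
      Finset.univ.filter fun a : X => a ^ p = 1 := by
    intro a ha
    rw [Set.mem_toFinset, SetLike.mem_coe, Subgroup.mem_zpowers_iff] at ha
    obtain ⟨l, rfl⟩ := ha
    rw [Finset.mem_filter]
    refine ⟨Finset.mem_univ _, ?_⟩
    have h1 : (⟨c, hcX⟩ : X) ^ p = 1 := by
      apply Subtype.ext
      rw [Subgroup.coe_pow, Subgroup.coe_one, ← hcp]
      exact pow_orderOf_eq_one c
    rw [← zpow_natCast, ← zpow_mul, mul_comm, zpow_mul, zpow_natCast, h1, one_zpow]
  have hc2 : (Subgroup.zpowers (⟨c, hcX⟩ : X) : Set X).toFinset.card = p := by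
    rw [Set.toFinset_card]
    have h1 : Fintype.card (Subgroup.zpowers (⟨c, hcX⟩ : X)) = orderOf (⟨c, hcX⟩ : X) :=
      Fintype.card_zpowers
    have h2 : orderOf (⟨c, hcX⟩ : X) = p := by rw [← hcp, Subgroup.orderOf_mk]
    rw [← h2, ← h1]
    exact Fintype.card_congr (Equiv.refl _)
  have heq := Finset.eq_of_subset_of_card_le hsub (by
    rw [hc2]
    convert hcard)
  have hwm : (⟨w, hwX⟩ : X) ∈ (Subgroup.zpowers (⟨c, hcX⟩ : X) : Set X).toFinset := by
    rw [heq, Finset.mem_filter]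
    exact ⟨Finset.mem_univ _, Subtype.ext hw⟩
  rw [Set.mem_toFinset, SetLike.mem_coe, Subgroup.mem_zpowers_iff] at hwm
  obtain ⟨l, hl⟩ := hwm
  have hl' : c ^ l = w := congrArg Subtype.val hl
  exact hwM (hl' ▸ M₁.zpow_mem (hC1 hcC) l)

/-- PIECE FN-F2 (80 lines).  `Φ` finite with a cyclic Sylow `p`-subgroup `P` and a central element
`c` of order `p`.  Then `Φ` has a non-trivial homomorphism to `ℤ/p`.  `c ∈ P` (central `p`-elements are
in every Sylow subgroup).  The automorphisms of the cyclic `p`-group `P` induced by `N(P)` form a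
group of order prime to `p` (`P` is a Sylow subgroup of `C(P)`, or: the order of `N(P)/C(P)` divides
`[N(P):P]`, and Mathlib has `IsZGroup`/Burnside material for cyclic Sylow subgroups), and they fix
`c ∈ P` of order `p`; `g x g⁻¹ = x^u` with `u ≡ 1` mod `p`, so `u` has `p`-power order in
`(ℤ/p^b)ˣ`; so `u = 1`.  Hence `N(P) ≤ C(P)` and Burnside's transfer theorem
(`MonoidHom.ker_transferSylow_isComplement'`) gives an epimorphism `Φ → P`. -/
theorem exists_hom_of_cyclic {Φ : Type} [Group Φ] [Finite Φ] (p : ℕ) [Fact p.Prime]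
    (P : Sylow p Φ) (hP : IsCyclic P) (c : Φ) (hc : ∀ x, x * c = c * x) (ho : orderOf c = p) :
    ∃ l : Φ → ZMod p, (∀ a b, l (a * b) = l a + l b) ∧ ∃ a, l a ≠ 0 := by
  have hp : p.Prime := Fact.out
  let _ : CommGroup P := IsCyclic.commGroup
  let V : Φ →* P := MonoidHom.transfer (MonoidHom.id P)
  have hV : V c ≠ 1 := by
    have key : ∀ (k : ℕ) (g₀ : Φ), g₀⁻¹ * c ^ k * g₀ ∈ (P : Subgroup Φ) →
        g₀⁻¹ * c ^ k * g₀ = c ^ k := by
      intro k g₀ _
      have h1 : Commute g₀ c := hc g₀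
      rw [mul_assoc, ← (h1.pow_right k).eq, inv_mul_cancel_left]
    have h1 : V c = ⟨c ^ (P : Subgroup Φ).index, MonoidHom.transfer_eq_pow_aux c key⟩ :=
      MonoidHom.transfer_eq_pow (MonoidHom.id P) c key
    intro h2
    rw [h1] at h2
    have h3 : c ^ (P : Subgroup Φ).index = 1 := congrArg Subtype.val h2
    rw [← orderOf_dvd_iff_pow_eq_one, ho] at h3
    exact P.not_dvd_index h3
  have hcyc : IsCyclic V.range := inferInstance
  have hcard : p ∣ Nat.card V.range := by
    obtain ⟨m, hm⟩ := (P.2.to_subgroup V.range).exists_card_eq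
    rw [hm]
    refine dvd_pow_self p fun h2 => hV ?_
    rw [h2, pow_zero] at hm
    have h3 : V.range = ⊥ := Subgroup.card_eq_one.1 hm
    exact Subgroup.mem_bot.1 (h3 ▸ ⟨c, rfl⟩)
  let e := zmodCyclicMulEquiv hcyc
  refine ⟨fun a => ZMod.castHom hcard (ZMod p) (Multiplicative.toAdd (e.symm (V.rangeRestrict a))),
    fun a b => ?_, ?_⟩
  · change ZMod.castHom hcard (ZMod p) (Multiplicative.toAdd (e.symm (V.rangeRestrict (a * b)))) = _
    rw [map_mul, map_mul, toAdd_mul, map_add]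
  · obtain ⟨a, ha⟩ := V.rangeRestrict_surjective (e (Multiplicative.ofAdd 1))
    refine ⟨a, ?_⟩
    change ZMod.castHom hcard (ZMod p) (Multiplicative.toAdd (e.symm (V.rangeRestrict a))) ≠ 0
    rw [ha, MulEquiv.symm_apply_apply, toAdd_ofAdd, map_one]
    exact one_ne_zero

open scoped IsMulCommutative in
/-- The order of the power of a central element given by the transfer to the center. -/
private lemma orderOf_pow_center_dvd {Ψ : Type} [Group Ψ] [Finite Ψ] (ζ : Ψ) :
    orderOf (ζ ^ (Subgroup.center Ψ).index) ∣ orderOf (Abelianization.of ζ) := by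
  have h2 := orderOf_map_dvd (Abelianization.lift (MonoidHom.transferCenterPow Ψ))
    (Abelianization.of ζ)
  rw [Abelianization.lift_apply_of] at h2
  rwa [← MonoidHom.transferCenterPow_apply, Subgroup.orderOf_coe]

/-- PIECE FN-F3 (50 lines).  `ζ` central in the finite group `Ψ` and `p ∤ [Ψ : ⟨ζ⟩]`.  The transfer
`x ↦ x ^ [Ψ : Z(Ψ)]` to the center (`MonoidHom.transferCenterPow`) is a homomorphism and
`[Ψ : Z(Ψ)]` divides `[Ψ : ⟨ζ⟩]`, so the `p`-part of the order of the image of `ζ` in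
`Abelianization Ψ` is that of `ζ`. -/
theorem order_abelianization {Ψ : Type} [Group Ψ] [Finite Ψ] (p : ℕ) [Fact p.Prime] (ζ : Ψ)
    (hc : ∀ x, x * ζ = ζ * x) (hi : ¬ p ∣ (Subgroup.zpowers ζ).index) (n : ℕ)
    (hn : p ^ n ∣ orderOf ζ) : p ^ n ∣ orderOf (Abelianization.of ζ) := by
  have hp : p.Prime := Fact.out
  have hle : Subgroup.zpowers ζ ≤ Subgroup.center Ψ := by
    rw [Subgroup.zpowers_le, Subgroup.mem_center_iff]
    exact hc
  have hk : ¬ p ∣ (Subgroup.center Ψ).index := fun h1 =>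
    hi (h1.trans (Subgroup.index_dvd_of_le hle))
  have h1 := orderOf_pow_center_dvd ζ
  refine dvd_trans ?_ h1
  have h2 : orderOf ζ ∣ orderOf (ζ ^ (Subgroup.center Ψ).index) * (Subgroup.center Ψ).index := by
    rw [orderOf_dvd_iff_pow_eq_one, mul_comm, pow_mul]
    exact pow_orderOf_eq_one _
  have h3 : Nat.Coprime (p ^ n) (Subgroup.center Ψ).index :=
    Nat.Coprime.pow_left n ((Nat.Prime.coprime_iff_not_dvd hp).2 hk)
  exact h3.dvd_of_dvd_mul_right (hn.trans h2)

end Pool.FN
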