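import Pool.Agent.Helper38.FN.Co
import Pool.Agent.Helper20.ACH.R5
import Pool.Agent.Helper20.ACH.Restr

/-! Project FN: from the core theorem to the context `(z, A)` (step (6) of the paper proof). -/

set_option autoImplicit false

namespace Pool.FN

open Pool.ACH

/-- `G` is an orientable `PD_3`-group without virtual epimorphisms onto `ℤ`. -/
def Good (G : Type) [Group G] : Prop :=
  FAb G ∧ ∃ (P0 P1 P2 P3 : Type) (_ : AddCommGroup P0) (_ : AddCommGroup P1)
    (_ : AddCommGroup P2) (_ : AddCommGroup P3) (_ : DistribMulAction G P0)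
    (_ : DistribMulAction G P1) (_ : DistribMulAction G P2) (_ : DistribMulAction G P3)
    (D : PD3Data G P0 P1 P2 P3), DOne (ofPD3 D)

variable {G : Type} [Group G]

/-- PIECE FN-G1 (40 lines).  `FAb.restrict`, `PD3Data.restrict` (`Helper20/ACH/Restr.lean`, `R5.lean`),
and `DOne` for the restriction by `IsFs.of_restrict`, `IsFs.restrict` (`R1.lean`), as in the proof of
`D2` in `PD3Data.restrict`. -/
theorem Good.restrict (h : Good G) (H : Subgroup G) (hH : H.index ≠ 0) : Good H := by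
  obtain ⟨hF, P0, P1, P2, P3, _, _, _, _, _, _, _, _, D, hD⟩ := h
  refine ⟨hF.restrict H hH, P0, P1, P2, P3, _, _, _, _, _, _, _, _, D.restrict H hH, ?_⟩
  intro φ hφ h0
  obtain ⟨ψ, hψ, h1⟩ := hD φ (hφ.of_restrict H hH) h0
  exact ⟨ψ, hψ.restrict H, h1⟩

theorem Good.fg (h : Good G) : Group.FG G := by
  obtain ⟨_, P0, P1, P2, P3, _, _, _, _, _, _, _, _, D, _⟩ := h
  exact D.fg

theorem Good.core (h : Good G) (p : ℕ) [Fact p.Prime] (M N : Subgroup G) [M.Normal] [N.Normal]
    (hN : N.FG) (hi : N.index = 0) (c : G) (hC : Cen p M N c) :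
    (∀ l : N → ZMod p, (∀ a b, l (a * b) = l a + l b) → ∀ m : N, (m : G) ∈ M → l m = 0) ∧
    ∃ f : N →* Multiplicative ℤ, Function.Surjective f := by
  obtain ⟨hF, P0, P1, P2, P3, _, _, _, _, _, _, _, _, D, hD⟩ := h
  exact Pool.FN.core D hD hF p M N hN hi c hC

/-- Finitely many homomorphisms from a finitely generated group to a finite group. -/
private theorem fng2_hom (H : Type) [Group H] [Group.FG H] (F : Type) [Group F] [Finite F] :
    Finite (H →* F) := by
  obtain ⟨S, hS⟩ := Group.fg_def.1 (inferInstance : Group.FG H)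
  have hinj : Function.Injective (fun φ : H →* F => fun s : S => φ s) := by
    intro φ ψ h
    apply MonoidHom.eq_of_eqOn_dense hS
    intro x hx
    exact congrFun h ⟨x, hx⟩
  exact Finite.of_injective _ hinj

/-- A finitely generated group has finitely many subgroups of index `n`. -/
private theorem fng2_fin (H : Type) [Group H] [Group.FG H] (n : ℕ) (hn : n ≠ 0) :
    {L : Subgroup H | L.index = n}.Finite := by
  have := fng2_hom H (Equiv.Perm (Fin n))
  let F : (H →* Equiv.Perm (Fin n)) × Fin n → Subgroup H := fun q =>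
    (MulAction.stabilizer (Equiv.Perm (Fin n)) q.2).comap q.1
  apply (Set.finite_range F).subset
  intro L hL
  have hL' : L.index = n := hL
  have : Finite (H ⧸ L) := Nat.finite_of_card_ne_zero (by
    have : Nat.card (H ⧸ L) = n := hL'
    rw [this]; exact hn)
  have hc : Nat.card (H ⧸ L) = n := hL'
  let e : (H ⧸ L) ≃ Fin n := (Finite.equivFin (H ⧸ L)).trans (finCongr hc)
  refine ⟨((e.permCongrHom : Equiv.Perm (H ⧸ L) ≃* Equiv.Perm (Fin n)).toMonoidHom.comp
    (MulAction.toPermHom H (H ⧸ L)), e (QuotientGroup.mk (1 : H))), ?_⟩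
  ext x
  simp only [F, Subgroup.mem_comap, MulAction.mem_stabilizer_iff]
  simp only [MonoidHom.comp_apply]
  rw [show ((e.permCongrHom : Equiv.Perm (H ⧸ L) ≃* Equiv.Perm (Fin n)).toMonoidHom
    ((MulAction.toPermHom H (H ⧸ L)) x)) • e (QuotientGroup.mk (1 : H))
    = e (x • (QuotientGroup.mk (1 : H) : H ⧸ L)) from by
      simp [Equiv.Perm.smul_def]]
  rw [e.injective.eq_iff]
  have h1 : (x • (QuotientGroup.mk (1 : H) : H ⧸ L)) = QuotientGroup.mk (x * 1) := rfl
  rw [h1, mul_one, eq_comm, QuotientGroup.eq]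
  simp

/-- The conjugates of `K` in `N`. -/
private theorem fng2_rel (N K : Subgroup G) [N.Normal] (g : G) :
    (K.map (MulAut.conj g).toMonoidHom).relIndex N = K.relIndex N := by
  have h1 : N.map (MulAut.conj g).toMonoidHom = N := by
    have h2 : g ∈ Subgroup.normalizer (N : Set G) := by
      rw [Subgroup.normalizer_eq_top N]; trivial
    exact Subgroup.mem_normalizer_iff_map_conj_eq.1 h2
  conv_lhs => rw [← h1]
  exact Subgroup.relIndex_map_map_of_injective K N (MulAut.conj g).injective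

/-- PIECE FN-G2 (100 lines).  `N` finitely generated and normal, `K ≤ N` of finite index in `N`.  The
normalizer of `K` in `G` has finite index.  A finitely generated group has only finitely many
subgroups of given index `n` (they are stabilizers of points for homomorphisms to
`Equiv.Perm (Fin n)`, a finite set of homomorphisms), `G` permutes those of `N` by conjugation, and
the normalizer of `K` is the stabilizer of `K`. -/
theorem normalizer_index (N : Subgroup G) [N.Normal] (hN : N.FG) (K : Subgroup G) (hK : K ≤ N)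
    (hi : K.relIndex N ≠ 0) : (Subgroup.normalizer (K : Set G)).index ≠ 0 := by
  have : Group.FG N := (Group.fg_iff_subgroup_fg N).2 hN
  have hfin := fng2_fin N (K.relIndex N) hi
  let X : Set (Subgroup G) := {L | L ≤ N ∧ L.relIndex N = K.relIndex N}
  have hX : X.Finite := by
    apply Set.Finite.of_finite_image (f := fun L : Subgroup G => L.subgroupOf N)
    · apply hfin.subset
      rintro _ ⟨L, hL, rfl⟩
      exact hL.2
    · intro L hL L' hL' h
      have h2 : L.subgroupOf N = L'.subgroupOf N := h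
      rw [Subgroup.subgroupOf_inj] at h2
      rwa [inf_eq_left.2 hL.1, inf_eq_left.2 hL'.1] at h2
  have hmem : ∀ g : G, K.map (MulAut.conj g).toMonoidHom ∈ X := by
    intro g
    refine ⟨?_, fng2_rel N K g⟩
    rintro _ ⟨k, hk, rfl⟩
    exact Subgroup.Normal.conj_mem inferInstance k (hK hk) g
  have hfX : Finite X := hX
  let f : G → X := fun g => ⟨K.map (MulAut.conj g).toMonoidHom, hmem g⟩
  have hf : ∀ a b : G, f a = f b → a⁻¹ * b ∈ Subgroup.normalizer (K : Set G) := by
    intro a b h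
    have h1 : K.map (MulAut.conj a).toMonoidHom = K.map (MulAut.conj b).toMonoidHom :=
      congrArg Subtype.val h
    rw [Subgroup.mem_normalizer_iff_map_conj_eq]
    have h2 := congrArg (Subgroup.map (MulAut.conj a⁻¹).toMonoidHom) h1
    rw [Subgroup.map_map, Subgroup.map_map] at h2
    have h3 : (MulAut.conj a⁻¹).toMonoidHom.comp (MulAut.conj a).toMonoidHom = MonoidHom.id G := by
      ext x; simp [mul_assoc]
    have h4 : (MulAut.conj a⁻¹).toMonoidHom.comp (MulAut.conj b).toMonoidHom =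
        (MulAut.conj (a⁻¹ * b)).toMonoidHom := by
      ext x; simp [mul_assoc]
    rw [h3, h4, Subgroup.map_id] at h2
    exact h2.symm
  have hfinite : Finite (G ⧸ Subgroup.normalizer (K : Set G)) := by
    apply Finite.of_injective (fun q : G ⧸ Subgroup.normalizer (K : Set G) => f q.out)
    intro q q' h
    have h1 := hf _ _ h
    rw [← QuotientGroup.eq, QuotientGroup.out_eq', QuotientGroup.out_eq'] at h1
    exact h1
  exact Subgroup.index_ne_zero_of_finite

private theorem sub_core_fg (N : Subgroup G) (hN : N.FG) (N1 : Subgroup G) (h1 : N1 ≤ N)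
    (h1i : N1.relIndex N ≠ 0) : N1.FG := by
  have i1 : Group.FG N := (Group.fg_iff_subgroup_fg N).2 hN
  have i2 : (N1.subgroupOf N).FiniteIndex := ⟨h1i⟩
  have i3 : Group.FG (N1.subgroupOf N) := Subgroup.fg_of_index_ne_zero (N1.subgroupOf N)
  have i4 : Group.FG N1 :=
    Group.fg_of_surjective (f := (Subgroup.subgroupOfEquivOfLe h1).toMonoidHom)
      (Subgroup.subgroupOfEquivOfLe h1).surjective
  exact (Group.fg_iff_subgroup_fg N1).1 i4

/-- The stabilizer of `L` in the normalizer of `N1`. -/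
private def sub_core_G1 {A : Type} [AddCommGroup A] (N1 : Subgroup G) (L : G → A) : Subgroup G where
  carrier := {g | g ∈ Subgroup.normalizer (N1 : Set G) ∧ ∀ x ∈ N1, L (g * x * g⁻¹) = L x}
  mul_mem' := by
    rintro g g' ⟨hg, hg1⟩ ⟨hg', hg1'⟩
    refine ⟨mul_mem hg hg', fun x hx => ?_⟩
    have h2 : g' * x * g'⁻¹ ∈ N1 := (Subgroup.mem_normalizer_iff.1 hg' x).1 hx
    rw [show g * g' * x * (g * g')⁻¹ = g * (g' * x * g'⁻¹) * g⁻¹ by group, hg1 _ h2, hg1' x hx]
  one_mem' := ⟨one_mem _, fun x _ => by simp⟩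
  inv_mem' := by
    rintro g ⟨hg, hg1⟩
    refine ⟨inv_mem hg, fun x hx => ?_⟩
    have h2 : g⁻¹ * x * g ∈ N1 := (Subgroup.mem_normalizer_iff''.1 hg x).1 hx
    have h3 := hg1 _ h2
    rw [show g * (g⁻¹ * x * g) * g⁻¹ = x by group] at h3
    rw [inv_inv, ← h3]

private theorem sub_core_index (N : Subgroup G) [N.Normal] (hN : N.FG)
    (N1 : Subgroup G) (h1 : N1 ≤ N) (h1i : N1.relIndex N ≠ 0) {A : Type} [AddCommGroup A]
    [Finite A] (L : G → A) (hL : ∀ x ∈ N1, ∀ y ∈ N1, L (x * y) = L x + L y) :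
    (sub_core_G1 N1 L).index ≠ 0 := by
  classical
  obtain ⟨S, hS⟩ := sub_core_fg N hN N1 h1 h1i
  have hle : sub_core_G1 N1 L ≤ Subgroup.normalizer (N1 : Set G) := fun g hg => hg.1
  have hdet : ∀ f g : G → A, (∀ x ∈ N1, ∀ y ∈ N1, f (x * y) = f x + f y) →
      (∀ x ∈ N1, ∀ y ∈ N1, g (x * y) = g x + g y) → (∀ s ∈ S, f s = g s) →
      ∀ x ∈ N1, f x = g x := by
    intro f g hf hg hfg x hx
    have hf1 : f 1 = 0 := by
      have := hf 1 (one_mem _) 1 (one_mem _)
      rw [mul_one] at this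
      exact (left_eq_add.1 this)
    have hg1 : g 1 = 0 := by
      have := hg 1 (one_mem _) 1 (one_mem _)
      rw [mul_one] at this
      exact (left_eq_add.1 this)
    rw [← hS] at hx hf hg
    induction hx using Subgroup.closure_induction with
    | mem x hx => exact hfg x hx
    | one => rw [hf1, hg1]
    | mul x y hx hy ihx ihy => rw [hf x hx y hy, hg x hx y hy, ihx, ihy]
    | inv x hx ih =>
      have e1 := hf x hx x⁻¹ (inv_mem hx)
      have e2 := hg x hx x⁻¹ (inv_mem hx)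
      rw [mul_inv_cancel, hf1] at e1
      rw [mul_inv_cancel, hg1, ← ih] at e2
      exact add_left_cancel (e1.symm.trans e2)
  have hconj : ∀ g ∈ Subgroup.normalizer (N1 : Set G), ∀ x ∈ N1, ∀ y ∈ N1,
      L (g⁻¹ * (x * y) * g) = L (g⁻¹ * x * g) + L (g⁻¹ * y * g) := by
    intro g hg x hx y hy
    rw [← hL _ ((Subgroup.mem_normalizer_iff''.1 hg x).1 hx) _
      ((Subgroup.mem_normalizer_iff''.1 hg y).1 hy)]
    congr 1
    group
  have hrel : (sub_core_G1 N1 L).relIndex (Subgroup.normalizer (N1 : Set G)) ≠ 0 := by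
    have hfin : Finite (Subgroup.normalizer (N1 : Set G) ⧸
        (sub_core_G1 N1 L).subgroupOf (Subgroup.normalizer (N1 : Set G))) := by
      refine Finite.of_injective (β := S → A)
        (fun q s => L ((q.out : G)⁻¹ * s * (q.out : G))) ?_
      intro q q' hqq
      rw [← q.out_eq, ← q'.out_eq]
      refine QuotientGroup.eq.2 ?_
      rw [Subgroup.mem_subgroupOf]
      have hall : ∀ x ∈ N1, L ((q.out : G)⁻¹ * x * (q.out : G)) =
          L ((q'.out : G)⁻¹ * x * (q'.out : G)) :=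
        hdet _ _ (hconj _ q.out.2) (hconj _ q'.out.2) fun s hs => congrFun hqq ⟨s, hs⟩
      refine ⟨?_, fun y hy => ?_⟩
      · exact (q.out⁻¹ * q'.out).2
      · have hy' : (q'.out : G) * y * (q'.out : G)⁻¹ ∈ N1 :=
          (Subgroup.mem_normalizer_iff.1 q'.out.2 y).1 hy
        have h5 := hall _ hy'
        rw [show (q'.out : G)⁻¹ * ((q'.out : G) * y * (q'.out : G)⁻¹) * (q'.out : G) = y by
          group] at h5
        rw [← h5]
        congr 1
        push_cast
        group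
    exact Subgroup.index_ne_zero_of_finite
  rw [← Subgroup.relIndex_mul_index hle]
  exact mul_ne_zero hrel (normalizer_index N hN N1 h1 h1i)

/-- PIECE FN-G3 (150 lines).  `N` normal, finitely generated, of infinite index, `N1 ≤ N` of finite
index in `N`, `l : N1 → ℤ/p` a homomorphism, `l a ≠ 0`.  Then every `l'` with `l' a = 0` vanishes, and
`N1` maps onto `ℤ`.  `M1 = ker l` (a subgroup of `G` contained in `N1`), `G1` = the set of `g` in the
normalizers of `N1` and `M1` (finite index, `normalizer_index`; `M1` has finite index in `N`) which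
centralize `N1 / M1` (kernel of an action on the finite set `N1 / M1`, so finite index; it contains
`N1`, since `N1 / M1` is commutative).  Replace `a` by a power such that ... (not needed: `a ∉ M1`,
`a ^ p ∈ M1`, `N1 = M1 ⟨a⟩`).  Apply `Good.core` to `G1` (`Good.restrict`) and the subgroups
`M1.subgroupOf G1`, `N1.subgroupOf G1` (finitely generated, since `N1` has finite index in `N`;
infinite index).  First part: `l'` vanishes on `ker l` and at `a`, so it is `0`. -/
theorem Good.sub_core (h : Good G) (N : Subgroup G) [N.Normal] (hN : N.FG) (hi : N.index = 0)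
    (N1 : Subgroup G) (h1 : N1 ≤ N) (h1i : N1.relIndex N ≠ 0) (p : ℕ) [Fact p.Prime]
    (l : N1 → ZMod p) (hl : ∀ a b, l (a * b) = l a + l b) (a : N1) (ha : l a ≠ 0) :
    (∀ l' : N1 → ZMod p, (∀ a b, l' (a * b) = l' a + l' b) → l' a = 0 → ∀ b, l' b = 0) ∧
    ∃ f : N1 →* Multiplicative ℤ, Function.Surjective f := by
  classical
  have hpp : p.Prime := Fact.out
  obtain ⟨L, hLl⟩ : ∃ L : G → ZMod p, ∀ x : N1, L x = l x :=
    ⟨fun x => if hx : x ∈ N1 then l ⟨x, hx⟩ else 0, fun x => dif_pos x.2⟩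
  have hL : ∀ x ∈ N1, ∀ y ∈ N1, L (x * y) = L x + L y := by
    intro x hx y hy
    have e1 := hl ⟨x, hx⟩ ⟨y, hy⟩
    rw [← hLl, ← hLl, ← hLl] at e1
    exact e1
  have hL1 : L 1 = 0 := by
    have := hL 1 (one_mem _) 1 (one_mem _)
    rw [mul_one] at this
    exact (left_eq_add.1 this)
  have hLi : ∀ x ∈ N1, L x⁻¹ = - L x := by
    intro x hx
    have := hL x hx x⁻¹ (inv_mem hx)
    rw [mul_inv_cancel, hL1] at this
    exact (neg_eq_of_add_eq_zero_right this.symm).symm
  have hLp : ∀ x ∈ N1, ∀ i : ℕ, L (x ^ i) = i * L x := by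
    intro x hx i
    induction i with
    | zero => rw [pow_zero, hL1, Nat.cast_zero, zero_mul]
    | succ i ih => rw [pow_succ, hL _ (pow_mem hx i) x hx, ih]; push_cast; ring
  have haL : L a ≠ 0 := by rwa [hLl]
  set G1 := sub_core_G1 N1 L with hG1
  have hG1i : G1.index ≠ 0 := sub_core_index N hN N1 h1 h1i L hL
  have hNG : N1 ≤ G1 := by
    intro g hg
    refine ⟨Subgroup.le_normalizer hg, fun x hx => ?_⟩
    rw [hL _ (mul_mem hg hx) _ (inv_mem hg), hL _ hg _ hx, hLi _ hg]
    ring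
  -- the kernel
  obtain ⟨M1, hM1⟩ : ∃ M1 : Subgroup G, ∀ x, x ∈ M1 ↔ x ∈ N1 ∧ L x = 0 :=
    ⟨{ carrier := {x | x ∈ N1 ∧ L x = 0}
       mul_mem' := by
        rintro x y ⟨hx, hx0⟩ ⟨hy, hy0⟩
        exact ⟨mul_mem hx hy, by rw [hL x hx y hy, hx0, hy0, add_zero]⟩
       one_mem' := ⟨one_mem _, hL1⟩
       inv_mem' := by
        rintro x ⟨hx, hx0⟩
        exact ⟨inv_mem hx, by rw [hLi x hx, hx0, neg_zero]⟩ }, fun x => Iff.rfl⟩
  have hMN : M1 ≤ N1 := fun x hx => ((hM1 x).1 hx).1
  have n1 : (N1.subgroupOf G1).Normal := by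
    refine ⟨fun x hx g => ?_⟩
    rw [Subgroup.mem_subgroupOf] at hx ⊢
    exact (Subgroup.mem_normalizer_iff.1 g.2.1 _).1 hx
  have n2 : (M1.subgroupOf G1).Normal := by
    refine ⟨fun x hx g => ?_⟩
    rw [Subgroup.mem_subgroupOf] at hx ⊢
    obtain ⟨hx1, hx0⟩ := (hM1 _).1 hx
    refine (hM1 _).2 ⟨(Subgroup.mem_normalizer_iff.1 g.2.1 _).1 hx1, ?_⟩
    exact (g.2.2 _ hx1).trans hx0
  have hfg : (N1.subgroupOf G1).FG := by
    have i1 : Group.FG N1 := (Group.fg_iff_subgroup_fg N1).2 (sub_core_fg N hN N1 h1 h1i)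
    have i4 : Group.FG (N1.subgroupOf G1) :=
      Group.fg_of_surjective (f := (Subgroup.subgroupOfEquivOfLe hNG).symm.toMonoidHom)
        (Subgroup.subgroupOfEquivOfLe hNG).symm.surjective
    exact (Group.fg_iff_subgroup_fg _).1 i4
  have hidx : (N1.subgroupOf G1).index = 0 := by
    have e1 : N1.index = 0 := by
      rw [← Subgroup.relIndex_mul_index h1, hi, mul_zero]
    have e2 := Subgroup.relIndex_mul_index hNG
    rw [e1] at e2
    exact (mul_eq_zero.1 e2).resolve_right hG1i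
  -- generation modulo `M1`
  have hgen : ∀ n ∈ N1, ∃ i : ℕ, ((a : G) ^ i)⁻¹ * n ∈ M1 := by
    intro n hn
    refine ⟨(L n * (L a)⁻¹).val, (hM1 _).2 ⟨mul_mem (inv_mem (pow_mem a.2 _)) hn, ?_⟩⟩
    rw [hL _ (inv_mem (pow_mem a.2 _)) _ hn, hLi _ (pow_mem a.2 _), hLp _ a.2,
      ZMod.natCast_val, ZMod.cast_id', id_eq, inv_mul_cancel_right₀ haL, neg_add_cancel]
  have hC : Cen p (M1.subgroupOf G1) (N1.subgroupOf G1) ⟨a, hNG a.2⟩ :=
    { le := fun x hx => hMN hx
      mem := a.2
      nmem := fun hx => haL ((hM1 _).1 hx).2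
      pow := by
        rw [Subgroup.mem_subgroupOf]
        refine (hM1 _).2 ⟨pow_mem a.2 _, ?_⟩
        change L ((a : G) ^ p) = 0
        rw [hLp _ a.2, ZMod.natCast_self, zero_mul]
      gen := by
        intro n hn
        rw [Subgroup.mem_subgroupOf] at hn
        obtain ⟨i, h3⟩ := hgen _ hn
        exact ⟨i, h3⟩
      cen := by
        intro g
        rw [Subgroup.mem_subgroupOf]
        have h3 : (g : G) * a * (g : G)⁻¹ ∈ N1 := (Subgroup.mem_normalizer_iff.1 g.2.1 _).1 a.2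
        refine (hM1 _).2 ⟨mul_mem h3 (inv_mem a.2), ?_⟩
        change L ((g : G) * a * (g : G)⁻¹ * (a : G)⁻¹) = 0
        rw [hL _ h3 _ (inv_mem a.2), hLi _ a.2, g.2.2 _ a.2, add_neg_cancel] }
  obtain ⟨c1, f, hf⟩ := (h.restrict G1 hG1i).core p (M1.subgroupOf G1) (N1.subgroupOf G1)
    hfg hidx ⟨a, hNG a.2⟩ hC
  refine ⟨fun l' hl' hla b => ?_, f.comp (Subgroup.subgroupOfEquivOfLe hNG).symm.toMonoidHom, ?_⟩
  · have h0 : ∀ m : N1, (m : G) ∈ M1 → l' m = 0 := by
      intro m hm
      have h4 := c1 (fun x => l' (Subgroup.subgroupOfEquivOfLe hNG x)) (fun x y => by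
        rw [map_mul, hl']) ((Subgroup.subgroupOfEquivOfLe hNG).symm m) hm
      simpa using h4
    have h1' : l' 1 = 0 := by
      have := hl' 1 1
      rw [mul_one] at this
      exact (left_eq_add.1 this)
    have hpow : ∀ i : ℕ, l' (a ^ i) = 0 := by
      intro i
      induction i with
      | zero => rw [pow_zero, h1']
      | succ i ih => rw [pow_succ, hl', ih, hla, add_zero]
    obtain ⟨i, h3⟩ := hgen b b.2
    have h5 : b = a ^ i * ((a ^ i)⁻¹ * b) := by group
    rw [h5, hl', hpow, zero_add]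
    exact h0 _ h3
  · exact hf.comp (Subgroup.subgroupOfEquivOfLe hNG).symm.surjective

/-- a finite group whose order is divisible by the prime `p` has a subgroup of non-trivial image -/
private theorem g4_sylow {Q : Type} [Group Q] [Finite Q] (p : ℕ) [hp : Fact p.Prime]
    (hd : p ∣ Nat.card Q) :
    ∃ (S : Subgroup Q) (χ : S →* Multiplicative (ZMod p)), Function.Surjective χ := by
  let S : Sylow p Q := default
  have hS : Nat.card S = p ^ (Nat.card Q).factorization p := Sylow.card_eq_multiplicity S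
  obtain ⟨n, hn⟩ : ∃ n, (Nat.card Q).factorization p = n + 1 := by
    have h1 : 0 < (Nat.card Q).factorization p :=
      hp.out.factorization_pos_of_dvd Nat.card_pos.ne' hd
    exact ⟨_, (Nat.succ_pred_eq_of_pos h1).symm⟩
  rw [hn] at hS
  obtain ⟨M, hM⟩ := Sylow.exists_subgroup_card_pow_prime (G := S) p (n := n)
    (by rw [hS]; exact pow_dvd_pow p (Nat.le_succ n))
  have hidx : M.index = p := by
    have h1 := M.card_mul_index
    rw [hM, hS, pow_succ] at h1
    exact Nat.eq_of_mul_eq_mul_left (pow_pos hp.out.pos n) h1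
  have hN : M.Normal := by
    apply Subgroup.normal_of_index_eq_minFac_card
    rw [hidx, hS, Nat.Prime.pow_minFac hp.out (Nat.succ_ne_zero n)]
  have hc : Nat.card (S ⧸ M) = p := hidx
  have hz : Nat.card (Multiplicative (ZMod p)) = p := by
    rw [Nat.card_congr Multiplicative.toAdd, Nat.card_zmod]
  let e : (S ⧸ M) ≃* Multiplicative (ZMod p) := mulEquivOfPrimeCardEq hc hz
  exact ⟨S, e.toMonoidHom.comp (QuotientGroup.mk' M),
    e.surjective.comp (QuotientGroup.mk'_surjective M)⟩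

/-- a normal subgroup `K` of finite index which does not contain `N` gives a subgroup `N1` of finite
index of `N` with a homomorphism onto `ZMod p` -/
private theorem g4_aux (N : Subgroup G) (K : Subgroup G) [K.Normal]
    (hK : K.index ≠ 0) (hKN : ¬ N ≤ K) :
    ∃ (N1 : Subgroup G) (p : ℕ) (_ : Fact p.Prime) (χ : N1 →* Multiplicative (ZMod p)),
      N1 ≤ N ∧ N1.relIndex N ≠ 0 ∧ Function.Surjective χ := by
  have hrel : K.relIndex N ≠ 0 := fun h => hK (Nat.eq_zero_of_zero_dvd
    (h ▸ K.relIndex_dvd_index_of_normal N))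
  have hone : K.relIndex N ≠ 1 := fun h => hKN (Subgroup.relIndex_eq_one.1 h)
  have hcard : Nat.card (N ⧸ K.subgroupOf N) = K.relIndex N := rfl
  have hfin : Finite (N ⧸ K.subgroupOf N) := Nat.finite_of_card_ne_zero (by rw [hcard]; exact hrel)
  have hp : Fact (Nat.card (N ⧸ K.subgroupOf N)).minFac.Prime :=
    ⟨Nat.minFac_prime (by rw [hcard]; exact hone)⟩
  obtain ⟨S, χ, hχ⟩ := g4_sylow (Q := N ⧸ K.subgroupOf N) _ (Nat.minFac_dvd _)
  let φ : N →* N ⧸ K.subgroupOf N := QuotientGroup.mk' (K.subgroupOf N)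
  have hφ : Function.Surjective φ := QuotientGroup.mk'_surjective _
  let e := (S.comap φ).equivMapOfInjective N.subtype N.subtype_injective
  refine ⟨(S.comap φ).map N.subtype, _, hp,
    (χ.comp (φ.subgroupComap S)).comp e.symm.toMonoidHom, Subgroup.map_subtype_le _, ?_, ?_⟩
  · rw [Subgroup.relIndex, Subgroup.subgroupOf,
      Subgroup.comap_map_eq_self_of_injective N.subtype_injective,
      Subgroup.index_comap_of_surjective _ hφ]
    exact Subgroup.index_ne_zero_of_finite
  · exact (hχ.comp (MonoidHom.subgroupComap_surjective_of_surjective φ S hφ)).comp e.symm.surjective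

/-- PIECE FN-G4 (80 lines).  If some normal subgroup `K` of finite index does not contain `N`, then
some subgroup `N1` of finite index in `N` maps onto `ℤ`: `N / (N ∩ K)` is a non-trivial finite group,
`p` a prime divisor of its order, `N1` the preimage of a Sylow `p`-subgroup, which maps onto `ℤ/p`
(a non-trivial `p`-group does); `Good.sub_core`. -/
theorem Good.exists_N1 (h : Good G) (N : Subgroup G) [N.Normal] (hN : N.FG) (hi : N.index = 0)
    (K : Subgroup G) [K.Normal] (hK : K.index ≠ 0) (hKN : ¬ N ≤ K) :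
    ∃ N1 : Subgroup G, N1 ≤ N ∧ N1.relIndex N ≠ 0 ∧
      ∃ f : N1 →* Multiplicative ℤ, Function.Surjective f := by
  obtain ⟨N1, p, hp, χ, h1, h1i, hχ⟩ := g4_aux N K hK hKN
  obtain ⟨a, ha⟩ := hχ (Multiplicative.ofAdd 1)
  refine ⟨N1, h1, h1i, (h.sub_core N hN hi N1 h1 h1i p (fun b => Multiplicative.toAdd (χ b))
    (fun b c => by rw [map_mul, toAdd_mul]) a ?_).2⟩
  rw [ha, toAdd_ofAdd]
  have := hp.out.one_lt
  exact one_ne_zero

/-- A finite order character. -/
private theorem g5_chi {Ψ : Type} [Group Ψ] (s : Ψ) (p : ℕ) (hs : orderOf s = p) :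
    ∃ χ : Ψ → ZMod p, (∀ k : ℤ, χ (s ^ k) = (k : ZMod p)) := by
  classical
  refine ⟨fun y => if h : ∃ k : ℤ, s ^ k = y then ((h.choose : ℤ) : ZMod p) else 0, fun k => ?_⟩
  have h : ∃ j : ℤ, s ^ j = s ^ k := ⟨k, rfl⟩
  simp only [dif_pos h]
  have h1 := h.choose_spec
  rw [zpow_eq_zpow_iff_modEq, hs] at h1
  exact (ZMod.intCast_eq_intCast_iff _ _ _).2 h1

/-- PIECE FN-G5 (120 lines).  `f : N1 → ℤ` onto; every finite index subgroup `K` of `N1` contains
`ker f`.  Replace `K` by its normal core (finite index).  `Ψ = N1 / K`, `Ā` the image of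
`A = ker f`.  If `Ā ≠ 1` let `p` be a prime divisor of its order, `S` a Sylow `p`-subgroup of `Ā`,
`z ∈ N1` with `f z = 1`, `n > 0` the order of the image of `z` in `Ψ`.  `N2 = {x ∈ N1 | n ∣ f x,
x z^(-f x) ∈ K-preimage of S}`: as `z^n ∈ K`, `N2 = {x | n ∣ f x ∧ (x mod K) ∈ S}` (a subgroup; image
of `x` in `Ψ` and `f x`), of finite index in `N1` and in `N`.  It has the homomorphisms
`x ↦ (f x)/n mod p` and `x ↦ χ (x mod K)`, `χ : S → ℤ/p` a non-trivial homomorphism.  With `a = z^n`: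
the first is `≠ 0` at `a`, the second is `0` at `a` and not identically `0` (for `s ∈ S ⊆ Ā` with
`χ s ≠ 0` take `x ∈ A` over `s`, `f x = 0`).  Contradiction to `Good.sub_core`. -/
theorem Good.ker_le (h : Good G) (N : Subgroup G) [N.Normal] (hN : N.FG) (hi : N.index = 0)
    (N1 : Subgroup G) (h1 : N1 ≤ N) (h1i : N1.relIndex N ≠ 0) (f : N1 →* Multiplicative ℤ)
    (hf : Function.Surjective f) (K : Subgroup N1) (hK : K.index ≠ 0) : f.ker ≤ K := by
  classical
  have : K.FiniteIndex := ⟨hK⟩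
  by_contra hcon
  obtain ⟨a0, ha0, ha0K⟩ : ∃ a0, a0 ∈ f.ker ∧ a0 ∉ K := Set.not_subset.mp hcon
  have ha0' : a0 ∉ K.normalCore := fun h => ha0K (K.normalCore_le h)
  obtain ⟨q, hq⟩ : ∃ q : N1 →* N1 ⧸ K.normalCore, q = QuotientGroup.mk' K.normalCore := ⟨_, rfl⟩
  have hqk : ∀ x, q x = 1 ↔ x ∈ K.normalCore := by
    intro x
    rw [hq, QuotientGroup.mk'_apply, QuotientGroup.eq_one_iff]
  have hpos : 0 < orderOf (q a0) := orderOf_pos _
  have hne1 : orderOf (q a0) ≠ 1 := by
    rw [Ne, orderOf_eq_one_iff, hqk]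
    exact ha0'
  obtain ⟨p, hp⟩ : ∃ p, p = (orderOf (q a0)).minFac := ⟨_, rfl⟩
  have : Fact p.Prime := ⟨hp ▸ Nat.minFac_prime hne1⟩
  have hpd : p ∣ orderOf (q a0) := hp ▸ Nat.minFac_dvd _
  obtain ⟨b, hb⟩ : ∃ b : N1, b = a0 ^ (orderOf (q a0) / p) := ⟨_, rfl⟩
  have hbk : f b = 1 := by
    rw [hb, map_pow, f.mem_ker.1 ha0, one_pow]
  have hbo : orderOf (q b) = p := by
    rw [hb, map_pow]
    exact orderOf_pow_orderOf_div hpos.ne' hpd
  obtain ⟨χ, hχ⟩ := g5_chi (q b) p hbo
  obtain ⟨z, hz⟩ := hf (Multiplicative.ofAdd 1)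
  obtain ⟨n, hn⟩ : ∃ n, n = orderOf (q z) := ⟨_, rfl⟩
  have hn0 : 0 < n := hn ▸ orderOf_pos _
  have : NeZero n := ⟨hn0.ne'⟩
  -- the subgroup
  let N2' : Subgroup N1 := 
    { carrier := {x | (n : ℤ) ∣ Multiplicative.toAdd (f x) ∧ q x ∈ Subgroup.zpowers (q b)}
      mul_mem' := by
        rintro x y ⟨hx1, hx2⟩ ⟨hy1, hy2⟩
        refine ⟨?_, ?_⟩
        · rw [map_mul, toAdd_mul]
          exact dvd_add hx1 hy1
        · rw [map_mul]
          exact mul_mem hx2 hy2
      one_mem' := by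
        refine ⟨?_, ?_⟩
        · rw [map_one, toAdd_one]
          exact dvd_zero _
        · rw [map_one]
          exact one_mem _
      inv_mem' := by
        rintro x ⟨hx1, hx2⟩
        refine ⟨?_, ?_⟩
        · rw [map_inv, toAdd_inv]
          exact (dvd_neg).2 hx1
        · rw [map_inv]
          exact inv_mem hx2 }
  have hN2' : ∀ x, x ∈ N2' ↔ (n : ℤ) ∣ Multiplicative.toAdd (f x) ∧
    q x ∈ Subgroup.zpowers (q b) := fun _ => Iff.rfl
  clear_value N2'
  -- finite index
  have hfi : N2'.index ≠ 0 := by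
    let r : N1 →* Multiplicative (ZMod n) :=
      { toFun := fun x => Multiplicative.ofAdd ((Multiplicative.toAdd (f x) : ℤ) : ZMod n)
        map_one' := by
          rw [map_one, toAdd_one, Int.cast_zero, ofAdd_zero]
        map_mul' := fun x y => by
          rw [map_mul, toAdd_mul, Int.cast_add, ofAdd_add] }
    have : N2'.FiniteIndex := by
      refine Subgroup.finiteIndex_of_le (H := K.normalCore ⊓ r.ker) ?_
      rintro x ⟨hx1, hx2⟩
      rw [hN2']
      refine ⟨?_, ?_⟩
      · have h3 : Multiplicative.ofAdd ((Multiplicative.toAdd (f x) : ℤ) : ZMod n) = 1 := hx2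
        rw [ofAdd_eq_one] at h3
        exact (ZMod.intCast_zmod_eq_zero_iff_dvd _ _).1 h3
      · rw [(hqk x).2 hx1]
        exact one_mem _
    exact Subgroup.FiniteIndex.index_ne_zero
  have h2 : N2'.map N1.subtype ≤ N1 := Subgroup.map_subtype_le N2'
  have h3 : (N2'.map N1.subtype).relIndex N ≠ 0 := by
    rw [← Subgroup.relIndex_mul_relIndex _ _ _ h2 h1]
    refine mul_ne_zero ?_ h1i
    rw [Subgroup.relIndex, ← Subgroup.comap_subtype, Subgroup.comap_map_eq_self_of_injective N1.subtype_injective]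
    exact hfi
  -- the maps
  have hm : ∀ x : (N2'.map N1.subtype : Subgroup G), ∃ y : N1, y ∈ N2' ∧ (y : G) = (x : G) := by
    rintro ⟨_, y, hy, rfl⟩
    exact ⟨y, hy, rfl⟩
  choose Y hY1 hY2 using hm
  have hYmul : ∀ x y, Y (x * y) = Y x * Y y := by
    intro x y
    apply Subtype.ext
    rw [hY2, Subgroup.coe_mul, Subgroup.coe_mul, hY2, hY2]
  obtain ⟨a, haY⟩ : ∃ a : (N2'.map N1.subtype : Subgroup G), Y a = z ^ n := by
    have h4 : z ^ n ∈ N2' := by
      rw [hN2']
      refine ⟨?_, ?_⟩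
      · rw [map_pow, hz, toAdd_pow, toAdd_ofAdd, nsmul_eq_mul, mul_one]
      · rw [map_pow, hn, pow_orderOf_eq_one]
        exact one_mem _
    refine ⟨⟨((z ^ n : N1) : G), ⟨z ^ n, h4, rfl⟩⟩, ?_⟩
    apply Subtype.ext
    rw [hY2]
  obtain ⟨c, hcY⟩ : ∃ a : (N2'.map N1.subtype : Subgroup G), Y a = b := by
    have h4 : b ∈ N2' := by
      rw [hN2']
      refine ⟨?_, Subgroup.mem_zpowers _⟩
      rw [hbk, toAdd_one]
      exact dvd_zero _
    refine ⟨⟨(b : G), ⟨b, h4, rfl⟩⟩, ?_⟩
    apply Subtype.ext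
    rw [hY2]
  have hnz : (n : ℤ) ≠ 0 := by exact_mod_cast hn0.ne'
  obtain ⟨h5, -⟩ := h.sub_core N hN hi (N2'.map N1.subtype) (h2.trans h1) h3 p
    (fun x => ((Multiplicative.toAdd (f (Y x)) / (n : ℤ) : ℤ) : ZMod p))
    (fun x y => by
      rw [hYmul, map_mul, toAdd_mul, Int.add_ediv_of_dvd_left ((hN2' _).1 (hY1 x)).1,
        Int.cast_add]) a (by
      rw [haY, map_pow, hz, toAdd_pow, toAdd_ofAdd, nsmul_eq_mul, mul_one, Int.ediv_self hnz,
        Int.cast_one]
      exact one_ne_zero)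
  have h6 := h5 (fun x => χ (q (Y x))) (fun x y => by
      obtain ⟨k, hk⟩ := ((hN2' _).1 (hY1 x)).2
      obtain ⟨l, hl⟩ := ((hN2' _).1 (hY1 y)).2
      simp only at hk hl
      rw [hYmul, map_mul, ← hk, ← hl, ← zpow_add, hχ, hχ, hχ, Int.cast_add])
    (by
      have h7 := hχ 0
      rw [zpow_zero, Int.cast_zero] at h7
      rw [haY, map_pow, hn, pow_orderOf_eq_one, h7]) c
  have h8 := hχ 1
  rw [zpow_one, Int.cast_one, ← hcY, h6] at h8
  exact zero_ne_one h8

/-- The context for the last part of the proof. -/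
structure Ctx (G : Type) [Group G] (z : G) (A : Subgroup G) : Prop where
  good : Good G
  comm : ∀ g : G, g * z * g⁻¹ * z⁻¹ ∈ A
  res : ∀ K : Subgroup G, K.index ≠ 0 → A ≤ K
  tau : ∀ (p : ℕ) (_ : Fact p.Prime) (τ : A → ZMod p), (∀ a b, τ (a * b) = τ a + τ b) →
    (∀ a a' : A, (a' : G) = z * a * z⁻¹ → τ a' = τ a) → ∀ a, τ a = 0

private theorem g6_relIndex (H L : Subgroup G)
    (hS : ∀ g ∈ L, ∀ g' ∈ L, (g ∈ H ↔ g' ∈ H) → g⁻¹ * g' ∈ H) : H.relIndex L ≠ 0 := by
  classical
  have hfin : Finite (L ⧸ H.subgroupOf L) := by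
    refine Finite.of_injective (fun q : L ⧸ H.subgroupOf L => decide ((q.out : G) ∈ H)) ?_
    intro q q' hq
    have h1 : ((q.out : G) ∈ H) ↔ ((q'.out : G) ∈ H) := decide_eq_decide.1 hq
    have h2 := hS _ q.out.2 _ q'.out.2 h1
    rw [← QuotientGroup.out_eq' q, ← QuotientGroup.out_eq' q']
    exact QuotientGroup.eq.2 h2
  exact Subgroup.index_ne_zero_of_finite

/-- conjugation on a normalized subgroup -/
private def g6_c (N1 : Subgroup G) (g : G) (hg : g ∈ Subgroup.normalizer (N1 : Set G)) :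
    N1 →* N1 where
  toFun x := ⟨g * x * g⁻¹, (Subgroup.mem_normalizer_iff.1 hg x).1 x.2⟩
  map_one' := Subtype.ext (by
    change g * 1 * g⁻¹ = 1
    group)
  map_mul' x y := Subtype.ext (by
    change g * (x * y : G) * g⁻¹ = (g * x * g⁻¹) * (g * y * g⁻¹)
    group)

/-- the elements which normalize `N1` and preserve `f` -/
private def g6_H (N1 : Subgroup G) (f : N1 →* Multiplicative ℤ) : Subgroup G where
  carrier := {g | g ∈ Subgroup.normalizer (N1 : Set G) ∧
    ∀ x y : N1, (y : G) = g * x * g⁻¹ → f y = f x}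
  one_mem' := ⟨one_mem _, fun x y h => by
    have : y = x := Subtype.ext (by rw [h]; group)
    rw [this]⟩
  mul_mem' := by
    rintro g g' ⟨h1, h2⟩ ⟨h1', h2'⟩
    refine ⟨mul_mem h1 h1', fun x y h => ?_⟩
    have hx' : g' * x * g'⁻¹ ∈ N1 := (Subgroup.mem_normalizer_iff.1 h1' x).1 x.2
    rw [← h2' x ⟨_, hx'⟩ rfl]
    exact h2 ⟨_, hx'⟩ y (by
      rw [h]
      change _ = g * (g' * x * g'⁻¹) * g⁻¹
      group)
  inv_mem' := by
    rintro g ⟨h1, h2⟩
    refine ⟨inv_mem h1, fun x y h => ?_⟩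
    exact (h2 y x (by rw [h]; group)).symm

private theorem g6_mem {N1 : Subgroup G} {f : N1 →* Multiplicative ℤ} {g : G} :
    g ∈ g6_H N1 f ↔ g ∈ Subgroup.normalizer (N1 : Set G) ∧
    ∀ x y : N1, (y : G) = g * x * g⁻¹ → f y = f x := Iff.rfl

private theorem g6_zero {N1 : Subgroup G} (f e : N1 →* Multiplicative ℤ)
    (he : ∀ K : Subgroup N1, K.index ≠ 0 → e.ker ≤ K) : e.ker ≤ f.ker := by
  intro x hx
  set k : ℤ := Multiplicative.toAdd (f x) with hk
  let u : N1 →* Multiplicative (ZMod (k.natAbs + 1)) :=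
    (AddMonoidHom.toMultiplicative (Int.castAddHom (ZMod (k.natAbs + 1)))).comp f
  have hu : u.ker.index ≠ 0 := by
    rw [Subgroup.index_ker]
    exact Nat.card_pos.ne'
  have h1 : u x = 1 := he u.ker hu hx
  have h2 : ((k : ℤ) : ZMod (k.natAbs + 1)) = 0 := h1
  have h3 : ((k.natAbs + 1 : ℕ) : ℤ) ∣ k := (ZMod.intCast_zmod_eq_zero_iff_dvd k _).1 h2
  have h4 : k = 0 := Int.eq_zero_of_abs_lt_dvd h3 (by
    rw [Int.abs_eq_natAbs]
    exact_mod_cast Nat.lt_succ_self _)
  change f x = 1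
  rw [← ofAdd_toAdd (f x), ← hk, h4]
  rfl

private theorem g6_sign {N1 : Subgroup G} (f : N1 →* Multiplicative ℤ)
    (hf : Function.Surjective f)
    (hker : ∀ e : N1 →* Multiplicative ℤ, Function.Surjective e →
      ∀ K : Subgroup N1, K.index ≠ 0 → e.ker ≤ K)
    (g : G) (hg : g ∈ Subgroup.normalizer (N1 : Set G)) :
    (∀ x y : N1, (y : G) = g * x * g⁻¹ → f y = f x) ∨
      ∀ x y : N1, (y : G) = g * x * g⁻¹ → f y = (f x)⁻¹ := by
  let e : N1 →* Multiplicative ℤ := f.comp (g6_c N1 g hg)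
  have hc : Function.Surjective (g6_c N1 g hg) := by
    intro y
    have hy : g⁻¹ * y * g⁻¹⁻¹ ∈ N1 := (Subgroup.mem_normalizer_iff.1 (inv_mem hg) y).1 y.2
    refine ⟨⟨_, hy⟩, Subtype.ext ?_⟩
    change g * (g⁻¹ * y * g⁻¹⁻¹) * g⁻¹ = y
    group
  have hes : Function.Surjective e := hf.comp hc
  have hle : e.ker ≤ f.ker := g6_zero f e (hker e hes)
  obtain ⟨x1, hx1⟩ := hes (Multiplicative.ofAdd 1)
  have key : ∀ x, f x = (f x1) ^ (Multiplicative.toAdd (e x)) := by
    intro x
    have h1 : x * x1 ^ (-(Multiplicative.toAdd (e x))) ∈ e.ker := by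
      rw [MonoidHom.mem_ker, map_mul, map_zpow, hx1]
      apply Multiplicative.toAdd.injective
      rw [toAdd_mul, toAdd_zpow, toAdd_ofAdd, toAdd_one]
      simp
    have h2 := hle h1
    rw [MonoidHom.mem_ker, map_mul, map_zpow, zpow_neg, mul_inv_eq_one] at h2
    exact h2
  obtain ⟨x2, hx2⟩ := hf (Multiplicative.ofAdd 1)
  have h3 : Multiplicative.toAdd (e x2) * Multiplicative.toAdd (f x1) = 1 := by
    have h4 := congrArg Multiplicative.toAdd (key x2)
    rw [hx2, toAdd_ofAdd, toAdd_zpow, smul_eq_mul] at h4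
    exact h4.symm
  have h5 : ∀ x y : N1, (y : G) = g * x * g⁻¹ → f y = e x := by
    intro x y hxy
    have : y = g6_c N1 g hg x := Subtype.ext hxy
    rw [this]
    rfl
  have h6 : f x1 = Multiplicative.ofAdd (Multiplicative.toAdd (f x1)) := (ofAdd_toAdd _).symm
  rcases Int.eq_one_or_neg_one_of_mul_eq_one (by rw [mul_comm]; exact h3) with h7 | h7
  · left
    intro x y hxy
    rw [h5 x y hxy, key x, h6, h7, ← ofAdd_zsmul, smul_eq_mul, mul_one, ofAdd_toAdd]
  · right
    intro x y hxy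
    rw [h5 x y hxy, key x, h6, h7, ← ofAdd_zsmul, smul_eq_mul, mul_neg_one, ofAdd_neg, inv_inv,
      ofAdd_toAdd]

/-- PIECE FN-G6 (150 lines).  The context.  `K` normal of finite index with `N ≰ K` exists
(`hunb 1`), so there are `N1`, `f` (`exists_N1`); `A = ker f`, `z ∈ N1` with `f z = 1`.
`H = {g | g normalizes N1 and f(g x g⁻¹) = f x for all x ∈ N1}`.  It has finite index: the
normalizer `G1` of `N1` has finite index (`normalizer_index`), it normalizes `A`: for `g ∈ G1`,
`g A g⁻¹` is the kernel of another epimorphism `N1 → ℤ`, so it is contained in every finite index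
subgroup of `N1` (`ker_le`), in particular in all `{f ≡ 0 mod n}`, hence in `A`, and so `= A`;
so `G1` acts on `N1 / A = ℤ` by `±1`, `H` has index at most `2` in `G1`.  `N1 ≤ H`.
`comm`: `f (g z g⁻¹ z⁻¹) = 0`.  `res`: `K ∩ N1` has finite index in `N1`, `ker_le`.  `tau`:
`x = a z^k ↦ τ a` is a homomorphism `N1 → ℤ/p` (`τ` is invariant under `z`, hence under `z^k`), its
kernel has finite index, so it contains `A`.  Orders: let `K` be normal of finite index in `G` with
`K.relIndex N > n * N1.relIndex N`; then `N1 / (N1 ∩ K)` has order `> n` and is generated by the image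
of `z` (it is a quotient of `N1 / A`), so this is the order of `z` modulo `K`; take
`K.subgroupOf H`. -/
theorem Good.exists_ctx (h : Good G) (N : Subgroup G) [N.Normal] (hN : N.FG) (hi : N.index = 0)
    (hunb : ∀ n : ℕ, ∃ K : Subgroup G, K.Normal ∧ K.index ≠ 0 ∧ n < K.relIndex N) :
    ∃ (H : Subgroup G) (z : H) (A : Subgroup H), Ctx H z A ∧
      ∀ n : ℕ, ∃ K : Subgroup H, ∃ _ : K.Normal, K.index ≠ 0 ∧
        n < orderOf (QuotientGroup.mk z : H ⧸ K) := by
  obtain ⟨K0, hK0n, hK0i, hK0⟩ := hunb 1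
  obtain ⟨N1, h1, h1i, f, hf⟩ := h.exists_N1 N hN hi K0 hK0i (fun hle => by
    rw [Subgroup.relIndex_eq_one.2 hle] at hK0
    exact lt_irrefl _ hK0)
  have hker : ∀ e : N1 →* Multiplicative ℤ, Function.Surjective e →
      ∀ K : Subgroup N1, K.index ≠ 0 → e.ker ≤ K :=
    fun e he K hK => h.ker_le N hN hi N1 h1 h1i e he K hK
  have hL : (Subgroup.normalizer (N1 : Set G)).index ≠ 0 := normalizer_index N hN N1 h1 h1i
  have hHL : g6_H N1 f ≤ Subgroup.normalizer (N1 : Set G) := fun g hg => (g6_mem.1 hg).1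
  have hHr : (g6_H N1 f).relIndex (Subgroup.normalizer (N1 : Set G)) ≠ 0 := by
    refine g6_relIndex _ _ fun g hg g' hg' hiff => ?_
    by_cases hgH : g ∈ g6_H N1 f
    · exact mul_mem (inv_mem hgH) (hiff.1 hgH)
    · have hgH' : g' ∉ g6_H N1 f := fun hh => hgH (hiff.2 hh)
      have s1 := (g6_sign f hf hker g hg).resolve_left fun hh => hgH ⟨hg, hh⟩
      have s2 := (g6_sign f hf hker g' hg').resolve_left fun hh => hgH' ⟨hg', hh⟩
      refine ⟨mul_mem (inv_mem hg) hg', fun x y hxy => ?_⟩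
      have hx' : g' * x * g'⁻¹ ∈ N1 := (Subgroup.mem_normalizer_iff.1 hg' x).1 x.2
      have e1 := s2 x ⟨_, hx'⟩ rfl
      have e2 := s1 y ⟨_, hx'⟩ (by
        rw [hxy]
        change g' * x * g'⁻¹ = _
        group)
      rw [e1] at e2
      exact (inv_injective e2).symm
  have hHi : (g6_H N1 f).index ≠ 0 := by
    rw [← Subgroup.relIndex_mul_index hHL]
    exact mul_ne_zero hHr hL
  have hN1H : N1 ≤ g6_H N1 f := by
    intro g hg
    refine ⟨Subgroup.le_normalizer hg, fun x y hxy => ?_⟩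
    have : y = ⟨g, hg⟩ * x * (⟨g, hg⟩ : N1)⁻¹ := Subtype.ext hxy
    rw [this, map_mul, map_mul, map_inv, mul_comm (f ⟨g, hg⟩), mul_inv_cancel_right]
  obtain ⟨z1, hz1⟩ := hf (Multiplicative.ofAdd 1)
  let φ : N1 →* g6_H N1 f := Subgroup.inclusion hN1H
  have hφ : ∀ x : N1, ((φ x : g6_H N1 f) : G) = x := fun x => rfl
  have hφinj : Function.Injective φ := Subgroup.inclusion_injective hN1H
  have hA : ∀ x : N1, φ x ∈ f.ker.map φ ↔ f x = 1 := by
    intro x
    constructor
    · rintro ⟨y, hy, hxy⟩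
      rw [← hφinj hxy]
      exact hy
    · intro hx
      exact ⟨x, hx, rfl⟩
  have hres : ∀ K : Subgroup (g6_H N1 f), K.index ≠ 0 → f.ker.map φ ≤ K := by
    intro K hK
    rw [Subgroup.map_le_iff_le_comap]
    apply hker f hf
    rw [Subgroup.index_comap]
    intro h0
    exact hK (Subgroup.index_eq_zero_of_relIndex_eq_zero h0)
  refine ⟨g6_H N1 f, φ z1, f.ker.map φ, ⟨h.restrict _ hHi, ?_, hres, ?_⟩, ?_⟩
  · -- commutators
    intro g
    have hgz : (g : G) * z1 * (g : G)⁻¹ ∈ N1 :=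
      (Subgroup.mem_normalizer_iff.1 (g6_mem.1 g.2).1 z1).1 z1.2
    have e1 : f ⟨_, hgz⟩ = f z1 := (g6_mem.1 g.2).2 z1 ⟨_, hgz⟩ rfl
    have e2 : g * φ z1 * g⁻¹ * (φ z1)⁻¹ = φ (⟨_, hgz⟩ * z1⁻¹) := Subtype.ext rfl
    rw [e2, hA, map_mul, map_inv, e1, mul_inv_cancel]
  · -- invariant homomorphisms
    intro p hp τ hτ hτz
    have hτ1 : τ 1 = 0 := by
      have e1 := hτ 1 1
      rw [mul_one] at e1
      exact add_eq_left.1 e1.symm
    have hmem : ∀ x : N1, φ (x * z1 ^ (-(Multiplicative.toAdd (f x)))) ∈ f.ker.map φ := by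
      intro x
      rw [hA, map_mul, map_zpow, hz1]
      apply Multiplicative.toAdd.injective
      rw [toAdd_mul, toAdd_zpow, toAdd_ofAdd, toAdd_one]
      simp
    -- invariance under the powers
    have hinv : ∀ (k : ℤ) (a a' : f.ker.map φ),
        (a' : g6_H N1 f) = φ z1 ^ k * a * (φ z1 ^ k)⁻¹ → τ a' = τ a := by
      have hnorm : ∀ (k : ℤ) (a : f.ker.map φ),
          φ z1 ^ k * (a : g6_H N1 f) * (φ z1 ^ k)⁻¹ ∈ f.ker.map φ := by
        rintro k ⟨_, x, hx, rfl⟩
        have e1 : φ z1 ^ k * φ x * (φ z1 ^ k)⁻¹ = φ (z1 ^ k * x * (z1 ^ k)⁻¹) := by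
          rw [map_mul, map_mul, map_inv, map_zpow]
        change φ z1 ^ k * φ x * (φ z1 ^ k)⁻¹ ∈ _
        rw [e1, hA, map_mul, map_mul, map_inv, mul_comm (f (z1 ^ k)), mul_inv_cancel_right]
        exact hx
      intro k
      induction k using Int.induction_on with
      | zero =>
        intro a a' haa
        rw [zpow_zero, one_mul, inv_one, mul_one] at haa
        rw [Subtype.ext haa]
      | succ k ih =>
        intro a a' haa
        rw [hτz ⟨_, hnorm k a⟩ a' (by
          rw [haa, add_comm, zpow_add, zpow_one]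
          group)]
        exact ih a ⟨_, hnorm k a⟩ rfl
      | pred k ih =>
        intro a a' haa
        have e1 : τ ⟨_, hnorm (-(k : ℤ)) a⟩ = τ a' := hτz a' ⟨_, hnorm (-(k : ℤ)) a⟩ (by
          rw [haa]
          change φ z1 ^ (-(k : ℤ)) * (a : g6_H N1 f) * (φ z1 ^ (-(k : ℤ)))⁻¹ = _
          rw [sub_eq_add_neg, add_comm, zpow_add, zpow_neg_one]
          group)
        rw [← e1]
        exact ih a ⟨_, hnorm (-(k : ℤ)) a⟩ rfl
    let T : N1 →* Multiplicative (ZMod p) :=
      { toFun := fun x => Multiplicative.ofAdd (τ ⟨_, hmem x⟩)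
        map_one' := by
          have e1 : (⟨_, hmem 1⟩ : f.ker.map φ) = 1 := Subtype.ext (by
            change φ (1 * z1 ^ (-(Multiplicative.toAdd (f 1)))) = 1
            rw [map_one f, toAdd_one, neg_zero, zpow_zero, mul_one, map_one])
          rw [e1, hτ1]
          rfl
        map_mul' := by
          intro x y
          set k := Multiplicative.toAdd (f x) with hk
          set l := Multiplicative.toAdd (f y) with hl
          have hkl : Multiplicative.toAdd (f (x * y)) = k + l := by rw [map_mul, toAdd_mul]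
          have hm : φ z1 ^ k * φ (y * z1 ^ (-l)) * (φ z1 ^ k)⁻¹ ∈ f.ker.map φ := by
            have e1 : φ z1 ^ k * φ (y * z1 ^ (-l)) * (φ z1 ^ k)⁻¹ =
                φ (z1 ^ k * (y * z1 ^ (-l)) * (z1 ^ k)⁻¹) := by
              rw [map_mul φ (z1 ^ k * (y * z1 ^ (-l))), map_mul φ (z1 ^ k), map_inv, map_zpow φ z1 k]
            rw [e1, hA, map_mul, map_mul, map_inv, mul_comm (f (z1 ^ k)), mul_inv_cancel_right]
            exact (hA _).1 (hmem y)
          have e2 : (⟨_, hmem (x * y)⟩ : f.ker.map φ) = ⟨_, hmem x⟩ * ⟨_, hm⟩ := by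
            apply Subtype.ext
            change φ (x * y * z1 ^ (-(Multiplicative.toAdd (f (x * y))))) =
              φ (x * z1 ^ (-k)) * (φ z1 ^ k * φ (y * z1 ^ (-l)) * (φ z1 ^ k)⁻¹)
            rw [hkl, ← map_zpow, ← map_inv, ← map_mul, ← map_mul, ← map_mul]
            congr 1
            group
          have e3 : τ ⟨_, hm⟩ = τ ⟨_, hmem y⟩ := hinv k ⟨_, hmem y⟩ ⟨_, hm⟩ rfl
          rw [e2, hτ, e3, ofAdd_add] }
    have hT : T.ker.index ≠ 0 := by
      rw [Subgroup.index_ker]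
      have : NeZero p := ⟨hp.out.ne_zero⟩
      exact Nat.card_pos.ne'
    rintro ⟨_, x, hx, rfl⟩
    have hx1 : f x = 1 := hx
    have e1 : T x = 1 := hker f hf T.ker hT hx
    have e2 : τ ⟨_, hmem x⟩ = 0 := e1
    have e3 : (⟨φ x, ⟨x, hx, rfl⟩⟩ : f.ker.map φ) = ⟨_, hmem x⟩ := Subtype.ext (by
      change φ x = φ (x * z1 ^ (-(Multiplicative.toAdd (f x))))
      rw [hx1, toAdd_one, neg_zero, zpow_zero, mul_one])
    rw [e3, e2]
  · -- orders
    intro n
    obtain ⟨K, hKn, hKi, hK⟩ := hunb (n * N1.relIndex N)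
    have hKH : (K.subgroupOf (g6_H N1 f)).index ≠ 0 := by
      intro h0
      exact hKi (Subgroup.index_eq_zero_of_relIndex_eq_zero h0)
    have hKHn : (K.subgroupOf (g6_H N1 f)).Normal := hKn.subgroupOf _
    refine ⟨K.subgroupOf (g6_H N1 f), hKHn, hKH, ?_⟩
    have hfin : Finite (g6_H N1 f ⧸ K.subgroupOf (g6_H N1 f)) :=
      Nat.finite_of_card_ne_zero hKH
    set m := orderOf (QuotientGroup.mk (φ z1) : g6_H N1 f ⧸ K.subgroupOf (g6_H N1 f)) with hm
    have hm0 : 0 < m := orderOf_pos _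
    have hzm : (z1 : G) ^ m ∈ K := by
      have e1 := pow_orderOf_eq_one
        (QuotientGroup.mk (φ z1) : g6_H N1 f ⧸ K.subgroupOf (g6_H N1 f))
      rw [← hm, ← QuotientGroup.mk_pow, QuotientGroup.eq_one_iff, Subgroup.mem_subgroupOf] at e1
      exact e1
    by_contra hcon
    rw [not_lt] at hcon
    have hKN1 : K.relIndex N1 ≠ 0 := by
      intro h0
      exact hKi (Subgroup.index_eq_zero_of_relIndex_eq_zero h0)
    have hn1 : (K.subgroupOf N1).Normal := hKn.subgroupOf _
    have hfin1 : Finite (N1 ⧸ K.subgroupOf N1) := Nat.finite_of_card_ne_zero hKN1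
    have hgen : ∀ q : N1 ⧸ K.subgroupOf N1, q ∈ Subgroup.zpowers
        (QuotientGroup.mk z1 : N1 ⧸ K.subgroupOf N1) := by
      intro q
      obtain ⟨x, rfl⟩ := QuotientGroup.mk_surjective q
      refine ⟨Multiplicative.toAdd (f x), ?_⟩
      change (QuotientGroup.mk z1 : N1 ⧸ K.subgroupOf N1) ^ (Multiplicative.toAdd (f x)) = _
      rw [← QuotientGroup.mk_zpow, QuotientGroup.eq]
      apply hker f hf _ hKN1
      rw [MonoidHom.mem_ker, map_mul, map_inv, map_zpow, hz1]
      apply Multiplicative.toAdd.injective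
      rw [toAdd_mul, toAdd_inv, toAdd_zpow, toAdd_ofAdd, toAdd_one]
      simp
    have hcard : K.relIndex N1 ≤ m := by
      have e1 : Nat.card (N1 ⧸ K.subgroupOf N1) =
          orderOf (QuotientGroup.mk z1 : N1 ⧸ K.subgroupOf N1) :=
        (orderOf_eq_card_of_forall_mem_zpowers hgen).symm
      change Nat.card (N1 ⧸ K.subgroupOf N1) ≤ m
      rw [e1]
      refine orderOf_le_of_pow_eq_one hm0 ?_
      rw [← QuotientGroup.mk_pow, QuotientGroup.eq_one_iff, Subgroup.mem_subgroupOf]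
      exact hzm
    have e1 : (K ⊓ N1).relIndex N = K.relIndex N1 * N1.relIndex N := by
      rw [← Subgroup.relIndex_mul_relIndex (K ⊓ N1) N1 N inf_le_right h1,
        Subgroup.inf_relIndex_right]
    have e2 : K.relIndex N ≤ (K ⊓ N1).relIndex N :=
      Nat.le_of_dvd (Nat.pos_of_ne_zero (by rw [e1]; exact mul_ne_zero hKN1 h1i))
        (Subgroup.relIndex_dvd_of_le_left N inf_le_left)
    have e3 : K.relIndex N1 * N1.relIndex N ≤ n * N1.relIndex N :=
      Nat.mul_le_mul_right _ (hcard.trans hcon)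
    omega

end Pool.FN
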