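import Pool.Agent.Helper38.FN.To
import Pool.Agent.Helper38.FN.Br

/-! Project FN: the main theorem. -/

set_option autoImplicit false

namespace Pool.FN

open Pool.ACH

variable {G : Type} [Group G]

theorem Good.torsion_free (h : Good G) (c : G) (n : ℕ) (hn : 0 < n) (hc : c ^ n = 1) : c = 1 := by
  obtain ⟨_, P0, P1, P2, P3, _, _, _, _, _, _, _, _, D, _⟩ := h
  exact Pool.FN.torsion_free (ofPD3 D) c n hn hc

theorem Good.false (h : Good G) (N : Subgroup G) [N.Normal] (hN : N.FG) (hi : N.index = 0)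
    (hunb : ∀ n : ℕ, ∃ K : Subgroup G, K.Normal ∧ K.index ≠ 0 ∧ n < K.relIndex N) : False := by
  obtain ⟨H, z, A, hc, ho⟩ := h.exists_ctx N hN hi hunb
  have hinf : Infinite H := by
    rw [← not_finite_iff_infinite]
    intro hfin
    obtain ⟨n, hn⟩ : ∃ n : ℕ, ∀ (K : Subgroup H) (_ : K.Normal),
        orderOf (QuotientGroup.mk z : H ⧸ K) ≤ n := by
      refine ⟨Nat.card H, fun K _ => ?_⟩
      have h1 : orderOf (QuotientGroup.mk z : H ⧸ K) ∣ orderOf z :=
        orderOf_map_dvd (QuotientGroup.mk' K) z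
      exact (Nat.le_of_dvd (orderOf_pos z) h1).trans (orderOf_le_card)
    obtain ⟨K, hK, _, hlt⟩ := ho n
    exact absurd (hn K hK) (not_le.2 hlt)
  obtain ⟨n, hn⟩ := hc.order_bounded hinf
  obtain ⟨K, hK, hKi, hlt⟩ := ho n
  exact absurd (hn K hK hKi) (not_le.2 hlt)

/-- PIECE FN-Z1 (50 lines).  If `G` is residually finite and `N` is infinite then the images of `N`
in the finite quotients of `G` have unbounded order: for `n + 1` different elements of `N` take a
normal subgroup of finite index which contains none of the quotients of two of them. -/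
theorem unbounded_of_resFin (N : Subgroup G) (hN : (N : Set G).Infinite)
    (hr : ∀ g : G, g ≠ 1 → ∃ K : Subgroup G, K.index ≠ 0 ∧ g ∉ K) (n : ℕ) :
    ∃ K : Subgroup G, K.Normal ∧ K.index ≠ 0 ∧ n < K.relIndex N := by
  classical
  obtain ⟨s, hs, hcard⟩ := hN.exists_subset_card_eq (n + 1)
  choose! f hf1 hf2 using hr
  have hne : ∀ p : s.offDiag, p.1.1⁻¹ * p.1.2 ≠ 1 := fun p h =>
    (Finset.mem_offDiag.1 p.2).2.2 (inv_mul_eq_one.1 h)
  have hK0 : (⨅ p : s.offDiag, f (p.1.1⁻¹ * p.1.2)).index ≠ 0 :=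
    Subgroup.index_iInf_ne_zero fun p => hf1 _ (hne p)
  have hfi : (⨅ p : s.offDiag, f (p.1.1⁻¹ * p.1.2)).FiniteIndex := ⟨hK0⟩
  have hcore : (⨅ p : s.offDiag, f (p.1.1⁻¹ * p.1.2)).normalCore.FiniteIndex := inferInstance
  refine ⟨(⨅ p : s.offDiag, f (p.1.1⁻¹ * p.1.2)).normalCore, inferInstance,
    hcore.index_ne_zero, ?_⟩
  generalize hK : (⨅ p : s.offDiag, f (p.1.1⁻¹ * p.1.2)).normalCore = K at hcore
  have hle : ∀ p : s.offDiag, K ≤ f (p.1.1⁻¹ * p.1.2) := fun p => by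
    rw [← hK]
    exact (Subgroup.normalCore_le _).trans (iInf_le _ p)
  have hfin : (K.subgroupOf N).index ≠ 0 := by
    have h1 : (K.subgroupOf N).FiniteIndex := inferInstance
    exact h1.index_ne_zero
  have hfin' : Finite (N ⧸ K.subgroupOf N) :=
    Subgroup.finite_quotient_of_finiteIndex (H := K.subgroupOf N)
  let g : s → N ⧸ K.subgroupOf N := fun a => QuotientGroup.mk ⟨a.1, hs a.2⟩
  have hg : Function.Injective g := by
    intro a b hab
    by_contra hne'
    have h1 : (⟨a.1, hs a.2⟩ : N)⁻¹ * ⟨b.1, hs b.2⟩ ∈ K.subgroupOf N := QuotientGroup.eq.1 hab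
    rw [Subgroup.mem_subgroupOf] at h1
    have hp : (a.1, b.1) ∈ s.offDiag :=
      Finset.mem_offDiag.2 ⟨a.2, b.2, fun h => hne' (Subtype.ext h)⟩
    exact hf2 _ (hne ⟨_, hp⟩) (hle ⟨_, hp⟩ h1)
  have h2 := Nat.card_le_card_of_injective g hg
  rw [Nat.card_eq_fintype_card, Fintype.card_coe, hcard] at h2
  exact h2

theorem infinite_of_ne_bot (h : Good G) (N : Subgroup G) (hN : N ≠ ⊥) :
    (N : Set G).Infinite := by
  obtain ⟨⟨c, hc⟩, hx⟩ := Subgroup.ne_bot_iff_exists_ne_one.1 hN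
  have hc1 : c ≠ 1 := fun h => hx (Subtype.ext h)
  intro hfin
  have h1 : IsOfFinOrder c := by
    have : Finite N := hfin
    have h2 : IsOfFinOrder (⟨c, hc⟩ : N) := isOfFinOrder_of_finite _
    exact (Submonoid.isOfFinOrder_coe (H := N.toSubmonoid) (x := ⟨c, hc⟩)).2 h2
  obtain ⟨n, hn, hcn⟩ := h1.exists_pow_eq_one
  exact hc1 (h.torsion_free c n hn hcn)

end Pool.FN
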