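import Pool.Agent.Helper38.FN.Df
import Pool.Agent.Helper20.ACH.PD3

/-! Project FN: comparison of resolutions, the dual resolution. -/

set_option autoImplicit false

namespace Pool.FN

open Pool.ACH

variable {G : Type} [Group G]

/-- PIECE FN-R1 (50 lines).  Projectivity.  Choose `a j` with `q (a j) = u (b.e j)` and put
`ũ p = ∑ j, ∑ᶠ g, b.φ j (g⁻¹ p) • (g • a j) = ∑ j, tw (b.φ j) (b.fs j) (fun g => g • a j) p`
(`tw` is additive in `p`; equivariance: `tw_smul` and `map_tw` for `w ↦ h • w`;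
`q (ũ p) = u p`: `map_tw`, `DB.expand` applied to `u` and `u (g • e) = g • u e`). -/
theorem exists_lift {P A B : Type} [AddCommGroup P] [AddCommGroup A] [AddCommGroup B]
    [DistribMulAction G P] [DistribMulAction G A] [DistribMulAction G B] (b : DB G P)
    (q : A →+ B) (hq : Eqv G q) (u : P →+ B) (hu : Eqv G u) (h : ∀ p, ∃ a, q a = u p) :
    ∃ w : P →+ A, Eqv G w ∧ ∀ p, q (w p) = u p := by
  choose a ha using fun j => h (b.e j)
  refine ⟨∑ j, tw (b.φ j) (b.fs j) (fun g => g • a j), fun g p => ?_, fun p => ?_⟩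
  · rw [AddMonoidHom.finsetSum_apply, AddMonoidHom.finsetSum_apply, Finset.smul_sum]
    refine Finset.sum_congr rfl fun j _ => ?_
    rw [tw_smul]
    have h1 := map_tw (DistribMulAction.toAddMonoidHom A g) (b.φ j) (b.fs j)
      (fun x => x • a j) p
    rw [DistribMulAction.toAddMonoidHom_apply] at h1
    rw [h1]
    simp only [DistribMulAction.toAddMonoidHom_apply, mul_smul]
  · rw [AddMonoidHom.finsetSum_apply, map_sum, b.expand u p]
    refine Finset.sum_congr rfl fun j _ => ?_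
    rw [map_tw, tw_apply]
    refine finsum_congr fun g => ?_
    beta_reduce
    rw [hq, ha, hu]

section

variable {P0 P1 P2 P3 : Type} [AddCommGroup P0] [AddCommGroup P1]
    [AddCommGroup P2] [AddCommGroup P3] [DistribMulAction G P0] [DistribMulAction G P1]
    [DistribMulAction G P2] [DistribMulAction G P3]
    {Q0 Q1 Q2 Q3 : Type} [AddCommGroup Q0] [AddCommGroup Q1]
    [AddCommGroup Q2] [AddCommGroup Q3] [DistribMulAction G Q0] [DistribMulAction G Q1]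
    [DistribMulAction G Q2] [DistribMulAction G Q3]

private theorem exists_chain_zero (E : Reso G P0 P1 P2 P3) (E' : Reso G Q0 Q1 Q2 Q3) :
    ∃ f0 : P0 →+ Q0, Eqv G f0 ∧ ∀ p, E'.ε (f0 p) = E.ε p := by
  let q : Q0 →+ Fn G ⊤ ℤ :=
    { toFun := fun p _ => E'.ε p
      map_zero' := funext fun _ => map_zero E'.ε
      map_add' := fun p p' => funext fun _ => map_add E'.ε p p' }
  let u : P0 →+ Fn G ⊤ ℤ :=
    { toFun := fun p _ => E.ε p
      map_zero' := funext fun _ => map_zero E.ε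
      map_add' := fun p p' => funext fun _ => map_add E.ε p p' }
  obtain ⟨w, hw, h⟩ := exists_lift E.b0 q (fun g p => funext fun _ => E'.ε_smul g p) u
    (fun g p => funext fun _ => E.ε_smul g p) fun p => ⟨E.ε p • E'.p0, funext fun _ => by
      change E'.ε (E.ε p • E'.p0) = E.ε p
      rw [map_zsmul, E'.ε_p0, smul_eq_mul, mul_one]⟩
  exact ⟨w, hw, fun p => congrFun (h p) ((1 : G) : G ⧸ (⊤ : Subgroup G))⟩

/-- PIECE FN-R2 (60 lines).  Comparison theorem.  `exists_lift` four times.  `f0`: `ε'` is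
surjective onto `ℤ` (`ε' (n • p0') = n`); here `ℤ` carries no action, so either repeat the proof of
`exists_lift` with `a j = ε (e j) • p0'`, or use it for `P0 → ℤ`, written as the module `Fn G ⊤ ℤ`.
`f1`: lift of `f0 ∘ d0` through `d0'` (values in `ker ε' = im d0'`), and so on. -/
theorem exists_chain (E : Reso G P0 P1 P2 P3) (E' : Reso G Q0 Q1 Q2 Q3) :
    ∃ (f0 : P0 →+ Q0) (f1 : P1 →+ Q1) (f2 : P2 →+ Q2) (f3 : P3 →+ Q3),
      Eqv G f0 ∧ Eqv G f1 ∧ Eqv G f2 ∧ Eqv G f3 ∧ (∀ p, E'.ε (f0 p) = E.ε p) ∧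
      (∀ p, f0 (E.d0 p) = E'.d0 (f1 p)) ∧ (∀ p, f1 (E.d1 p) = E'.d1 (f2 p)) ∧
      ∀ p, f2 (E.d2 p) = E'.d2 (f3 p) := by
  obtain ⟨f0, h0, e0⟩ := exists_chain_zero E E'
  obtain ⟨f1, h1, e1⟩ := exists_lift E.b1 E'.d0 E'.d0_smul (f0.comp E.d0)
    (fun g p => by
      change f0 (E.d0 (g • p)) = g • f0 (E.d0 p)
      rw [E.d0_smul, h0])
    (fun p => (E'.exact0 _).1 (by
      change E'.ε (f0 (E.d0 p)) = 0
      rw [e0]
      exact (E.exact0 _).2 ⟨p, rfl⟩))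
  obtain ⟨f2, h2, e2⟩ := exists_lift E.b2 E'.d1 E'.d1_smul (f1.comp E.d1)
    (fun g p => by
      change f1 (E.d1 (g • p)) = g • f1 (E.d1 p)
      rw [E.d1_smul, h1])
    (fun p => (E'.exact1 _).1 (by
      change E'.d0 (f1 (E.d1 p)) = 0
      rw [e1]
      change f0 (E.d0 (E.d1 p)) = 0
      rw [(E.exact1 _).2 ⟨p, rfl⟩, map_zero]))
  obtain ⟨f3, h3, e3⟩ := exists_lift E.b3 E'.d2 E'.d2_smul (f2.comp E.d2)
    (fun g p => by
      change f2 (E.d2 (g • p)) = g • f2 (E.d2 p)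
      rw [E.d2_smul, h2])
    (fun p => (E'.exact2 _).1 (by
      change E'.d1 (f2 (E.d2 p)) = 0
      rw [e2]
      change f1 (E.d1 (E.d2 p)) = 0
      rw [(E.exact2 _).2 ⟨p, rfl⟩, map_zero]))
  exact ⟨f0, f1, f2, f3, h0, h1, h2, h3, e0, fun p => (e1 p).symm, fun p => (e2 p).symm,
    fun p => (e3 p).symm⟩

/-- PIECE FN-R3 (60 lines).  A chain endomorphism over the identity is homotopic to the identity.
`k0`: lift of `f0 - 1` (values in `ker ε = im d0`) through `d0`; `k1`: lift of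
`f1 - 1 - k0 ∘ d0` (values in `ker d0`: `d0 f1 p - d0 p - d0 k0 d0 p = f0 d0 p - d0 p -
(f0 - 1) d0 p = 0`) through `d1`; `k2` in the same way. -/
theorem exists_homotopy (E : Reso G P0 P1 P2 P3) (f0 : P0 →+ P0) (f1 : P1 →+ P1)
    (f2 : P2 →+ P2) (f3 : P3 →+ P3) (h0 : Eqv G f0) (h1 : Eqv G f1) (h2 : Eqv G f2)
    (h3 : Eqv G f3) (hε : ∀ p, E.ε (f0 p) = E.ε p) (c0 : ∀ p, f0 (E.d0 p) = E.d0 (f1 p))
    (c1 : ∀ p, f1 (E.d1 p) = E.d1 (f2 p)) (c2 : ∀ p, f2 (E.d2 p) = E.d2 (f3 p)) :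
    ∃ (k0 : P0 →+ P1) (k1 : P1 →+ P2) (k2 : P2 →+ P3), Eqv G k0 ∧ Eqv G k1 ∧ Eqv G k2 ∧
      (∀ p, f0 p - p = E.d0 (k0 p)) ∧ (∀ p, f1 p - p = E.d1 (k1 p) + k0 (E.d0 p)) ∧
      ∀ p, f2 p - p = E.d2 (k2 p) + k1 (E.d1 p) := by
  obtain ⟨k0, e0, l0⟩ := exists_lift (G := G) E.b0 E.d0 E.d0_smul (f0 - AddMonoidHom.id P0)
    (fun g p => by
      rw [AddMonoidHom.sub_apply, AddMonoidHom.sub_apply, AddMonoidHom.id_apply,
        AddMonoidHom.id_apply, h0 g p, smul_sub])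
    (fun p => by
      refine (E.exact0 _).mp ?_
      rw [AddMonoidHom.sub_apply, AddMonoidHom.id_apply, map_sub, hε, sub_self])
  have l0' : ∀ p, E.d0 (k0 p) = f0 p - p := fun p => l0 p
  obtain ⟨k1, e1, l1⟩ := exists_lift (G := G) E.b1 E.d1 E.d1_smul
    (f1 - AddMonoidHom.id P1 - k0.comp E.d0)
    (fun g p => by
      simp only [AddMonoidHom.sub_apply, AddMonoidHom.id_apply, AddMonoidHom.comp_apply]
      rw [h1 g p, E.d0_smul g p, e0 g, smul_sub, smul_sub])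
    (fun p => by
      refine (E.exact1 _).mp ?_
      simp only [AddMonoidHom.sub_apply, AddMonoidHom.id_apply, AddMonoidHom.comp_apply]
      rw [map_sub, map_sub, l0', ← c0, sub_self])
  have l1' : ∀ p, E.d1 (k1 p) = f1 p - p - k0 (E.d0 p) := fun p => l1 p
  obtain ⟨k2, e2, l2⟩ := exists_lift (G := G) E.b2 E.d2 E.d2_smul
    (f2 - AddMonoidHom.id P2 - k1.comp E.d1)
    (fun g p => by
      simp only [AddMonoidHom.sub_apply, AddMonoidHom.id_apply, AddMonoidHom.comp_apply]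
      rw [h2 g p, E.d1_smul g p, e1 g, smul_sub, smul_sub])
    (fun p => by
      refine (E.exact2 _).mp ?_
      simp only [AddMonoidHom.sub_apply, AddMonoidHom.id_apply, AddMonoidHom.comp_apply]
      have hz : E.d0 (E.d1 p) = 0 := (E.exact1 _).mpr ⟨p, rfl⟩
      rw [map_sub, map_sub, l1', ← c1, hz, map_zero, sub_zero, sub_self])
  have l2' : ∀ p, E.d2 (k2 p) = f2 p - p - k1 (E.d1 p) := fun p => l2 p
  refine ⟨k0, k1, k2, e0, e1, e2, fun p => (l0' p).symm, fun p => ?_, fun p => ?_⟩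
  · rw [l1', sub_add_cancel]
  · rw [l2', sub_add_cancel]

/-- PIECE FN-R4 (60 lines).  The vanishing of the map in degree one does not depend on the
resolution.  `f : E → E'`, `f' : E' → E` chain maps, `k` a homotopy from `f ∘ f'` to `1` on `E'`.
For a cocycle `v : Q1 → W`: `v ∘ f1` is a cocycle on `E`, so `π (v (f1 p)) = w (d0 p)`; for
`q : Q1`: `π (v q) = π (v (f1 (f1' q))) - π (v (d1 (k1 q))) - π (v (k0 (d0 q)))
= w (f0' (d0 q)) - 0 - π (v (k0 (d0 q)))`, so `v' = w ∘ f0' - π ∘ v ∘ k0`. -/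
theorem H1m_trans (E : Reso G P0 P1 P2 P3) (E' : Reso G Q0 Q1 Q2 Q3) {W W' : Type}
    [AddCommGroup W] [DistribMulAction G W] [AddCommGroup W'] [DistribMulAction G W']
    (π : W →+ W') (hπ : Eqv G π) (h : E.H1m π) : E'.H1m π := by
  obtain ⟨f0, f1, f2, f3, hf0, hf1, hf2, hf3, hfε, c0, c1, c2⟩ := exists_chain E E'
  obtain ⟨g0, g1, g2, g3, hg0, hg1, hg2, hg3, hgε, e0, e1, e2⟩ := exists_chain E' E
  obtain ⟨k0, k1, k2, hk0, hk1, hk2, m0, m1, m2⟩ := exists_homotopy E' (f0.comp g0) (f1.comp g1)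
    (f2.comp g2) (f3.comp g3)
    (fun a p => by
      change f0 (g0 (a • p)) = a • f0 (g0 p)
      rw [hg0, hf0])
    (fun a p => by
      change f1 (g1 (a • p)) = a • f1 (g1 p)
      rw [hg1, hf1])
    (fun a p => by
      change f2 (g2 (a • p)) = a • f2 (g2 p)
      rw [hg2, hf2])
    (fun a p => by
      change f3 (g3 (a • p)) = a • f3 (g3 p)
      rw [hg3, hf3])
    (fun p => by
      change E'.ε (f0 (g0 p)) = E'.ε p
      rw [hfε, hgε])
    (fun p => by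
      change f0 (g0 (E'.d0 p)) = E'.d0 (f1 (g1 p))
      rw [e0, c0])
    (fun p => by
      change f1 (g1 (E'.d1 p)) = E'.d1 (f2 (g2 p))
      rw [e1, c1])
    (fun p => by
      change f2 (g2 (E'.d2 p)) = E'.d2 (f3 (g3 p))
      rw [e2, c2])
  intro v hv hv1
  obtain ⟨w, hw, hw1⟩ := h (v.comp f1)
    (fun a p => by
      change v (f1 (a • p)) = a • v (f1 p)
      rw [hf1, hv])
    (fun p => by
      change v (f1 (E.d1 p)) = 0
      rw [c1, hv1])
  refine ⟨w.comp g0 - (π.comp v).comp k0, fun a p => ?_, fun q => ?_⟩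
  · change w (g0 (a • p)) - π (v (k0 (a • p))) = a • (w (g0 p) - π (v (k0 p)))
    rw [hg0, hw, hk0, hv, hπ, smul_sub]
  · change π (v q) = w (g0 (E'.d0 q)) - π (v (k0 (E'.d0 q)))
    have h1 := hw1 (g1 q)
    change π (v (f1 (g1 q))) = w (E.d0 (g1 q)) at h1
    have h2 : f1 (g1 q) - q = E'.d1 (k1 q) + k0 (E'.d0 q) := m1 q
    have h3 : k0 (E'.d0 q) = f1 (g1 q) - q - E'.d1 (k1 q) := by
      rw [h2]
      abel
    rw [e0, ← h1, h3, map_sub v, hv1, sub_zero, map_sub v, map_sub π]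
    abel

/-- PIECE FN-R5 (60 lines).  The same in degree two; `v ∘ f2` is a cocycle because
`f2 d2 = d2' f3`; `v' = w ∘ f1' - π ∘ v ∘ k1`. -/
theorem H2m_trans (E : Reso G P0 P1 P2 P3) (E' : Reso G Q0 Q1 Q2 Q3) {W W' : Type}
    [AddCommGroup W] [DistribMulAction G W] [AddCommGroup W'] [DistribMulAction G W']
    (π : W →+ W') (hπ : Eqv G π) (h : E.H2m π) : E'.H2m π := by
  obtain ⟨f0, f1, f2, f3, hf0, hf1, hf2, hf3, hfε, c0, c1, c2⟩ := exists_chain E E'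
  obtain ⟨g0, g1, g2, g3, hg0, hg1, hg2, hg3, hgε, e0, e1, e2⟩ := exists_chain E' E
  obtain ⟨k0, k1, k2, hk0, hk1, hk2, m0, m1, m2⟩ := exists_homotopy E' (f0.comp g0) (f1.comp g1)
    (f2.comp g2) (f3.comp g3)
    (fun a p => by
      change f0 (g0 (a • p)) = a • f0 (g0 p)
      rw [hg0, hf0])
    (fun a p => by
      change f1 (g1 (a • p)) = a • f1 (g1 p)
      rw [hg1, hf1])
    (fun a p => by
      change f2 (g2 (a • p)) = a • f2 (g2 p)
      rw [hg2, hf2])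
    (fun a p => by
      change f3 (g3 (a • p)) = a • f3 (g3 p)
      rw [hg3, hf3])
    (fun p => by
      change E'.ε (f0 (g0 p)) = E'.ε p
      rw [hfε, hgε])
    (fun p => by
      change f0 (g0 (E'.d0 p)) = E'.d0 (f1 (g1 p))
      rw [e0, c0])
    (fun p => by
      change f1 (g1 (E'.d1 p)) = E'.d1 (f2 (g2 p))
      rw [e1, c1])
    (fun p => by
      change f2 (g2 (E'.d2 p)) = E'.d2 (f3 (g3 p))
      rw [e2, c2])
  intro v hv hv1
  obtain ⟨w, hw, hw1⟩ := h (v.comp f2)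
    (fun a p => by
      change v (f2 (a • p)) = a • v (f2 p)
      rw [hf2, hv])
    (fun p => by
      change v (f2 (E.d2 p)) = 0
      rw [c2, hv1])
  refine ⟨w.comp g1 - (π.comp v).comp k1, fun a p => ?_, fun q => ?_⟩
  · change w (g1 (a • p)) - π (v (k1 (a • p))) = a • (w (g1 p) - π (v (k1 p)))
    rw [hg1, hw, hk1, hv, hπ, smul_sub]
  · change π (v q) = w (g1 (E'.d1 q)) - π (v (k1 (E'.d1 q)))
    have h1 := hw1 (g2 q)
    change π (v (f2 (g2 q))) = w (E.d1 (g2 q)) at h1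
    have h2 : f2 (g2 q) - q = E'.d2 (k2 q) + k1 (E'.d1 q) := m2 q
    have h3 : k1 (E'.d1 q) = f2 (g2 q) - q - E'.d2 (k2 q) := by
      rw [h2]
      abel
    rw [e1, ← h1, h3, map_sub v, hv1, sub_zero, map_sub v, map_sub π]
    abel

/-- PIECE FN-R6 (60 lines).  Finiteness of `H^2` does not depend on the resolution: the finite set
for `E'` is `{s ∘ f2' | s ∈ S}`. -/
theorem H2f_trans (E : Reso G P0 P1 P2 P3) (E' : Reso G Q0 Q1 Q2 Q3) {W : Type}
    [AddCommGroup W] [DistribMulAction G W] (h : E.H2f W) : E'.H2f W := by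
  obtain ⟨f0, f1, f2, f3, hf0, hf1, hf2, hf3, hfε, c0, c1, c2⟩ := exists_chain E E'
  obtain ⟨g0, g1, g2, g3, hg0, hg1, hg2, hg3, hgε, e0, e1, e2⟩ := exists_chain E' E
  have hcomp : ∀ {A B C : Type} [AddCommGroup A] [AddCommGroup B] [AddCommGroup C]
      [DistribMulAction G A] [DistribMulAction G B] [DistribMulAction G C] (a : B →+ C)
      (b : A →+ B), Eqv G a → Eqv G b → Eqv G (a.comp b) := by
    intro A B C _ _ _ _ _ _ a b ha hb g p
    rw [AddMonoidHom.comp_apply, AddMonoidHom.comp_apply, hb, ha]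
  obtain ⟨k0, k1, k2, hk0, hk1, hk2, m0, m1, m2⟩ := exists_homotopy E' (f0.comp g0) (f1.comp g1)
    (f2.comp g2) (f3.comp g3) (hcomp _ _ hf0 hg0) (hcomp _ _ hf1 hg1) (hcomp _ _ hf2 hg2)
    (hcomp _ _ hf3 hg3)
    (fun p => by rw [AddMonoidHom.comp_apply, hfε, hgε])
    (fun p => by rw [AddMonoidHom.comp_apply, AddMonoidHom.comp_apply, e0, c0])
    (fun p => by rw [AddMonoidHom.comp_apply, AddMonoidHom.comp_apply, e1, c1])
    (fun p => by rw [AddMonoidHom.comp_apply, AddMonoidHom.comp_apply, e2, c2])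
  obtain ⟨S, hS, hS2⟩ := h
  refine ⟨(fun s : P2 →+ W => s.comp g2) '' S, hS.image _, fun u hu hz => ?_⟩
  obtain ⟨s, hs, v, hv, hsv⟩ := hS2 (u.comp f2) (hcomp _ _ hu hf2) fun p => by
    rw [AddMonoidHom.comp_apply, c2, hz]
  refine ⟨s.comp g2, ⟨s, hs, rfl⟩, v.comp g1 - u.comp k1, ?_, fun q => ?_⟩
  · intro g p
    rw [AddMonoidHom.sub_apply, AddMonoidHom.sub_apply, hcomp v g1 hv hg1 g p,
      hcomp u k1 hu hk1 g p, smul_sub]
  · have h1 := m2 q
    have h2 := hsv (g2 q)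
    have h3 := congrArg u h1
    rw [AddMonoidHom.comp_apply, map_sub, map_add, hz, zero_add] at h3
    rw [AddMonoidHom.comp_apply] at h2
    rw [AddMonoidHom.comp_apply, AddMonoidHom.sub_apply, AddMonoidHom.comp_apply,
      AddMonoidHom.comp_apply, e1, ← h3, ← add_sub_assoc, ← h2]
    abel

end

/-- PIECE FN-R7 (60 lines).  The dual basis of the dual module: `φ'_j = ` evaluation at `e_j`,
`e'_j = φ_j`.  `IsFs G (ev e_j)`: `{g | (g⁻¹ φ)(e_j) ≠ 0} = {g | φ (g e_j) ≠ 0}`, finite since `φ` is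
(inverse of the defining set of `IsFs`).  `span`: evaluate at `p`; `φ p = ∑ j, ∑ᶠ g, φ_j(g⁻¹ p) •
φ (g e_j)` is `DB.expand` for `ω = φ`, and `(g • φ_j) p = φ_j (g⁻¹ p)`; the additive map
`φ ↦ φ p` is pulled out of the finsum by `AddMonoidHom.map_finsum`.  State finiteness of the support
first. -/
theorem exists_dualBasis {P : Type} [AddCommGroup P] [DistribMulAction G P] (b : DB G P) :
    ∃ b' : DB G (Fs G P), True := by
  classical
  let ev : P → (Fs G P →+ ℤ) := fun p =>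
    { toFun := fun ψ => ψ.1 p
      map_zero' := rfl
      map_add' := fun _ _ => rfl }
  have hfin : ∀ (j : b.J) (ψ : Fs G P), {g : G | ev (b.e j) (g⁻¹ • ψ) ≠ 0}.Finite := by
    intro j ψ
    refine ((ψ.2 (b.e j)).preimage (inv_injective.injOn (s := Inv.inv ⁻¹' _))).subset fun g hg => ?_
    change ψ.1 ((g⁻¹)⁻¹ • b.e j) ≠ 0
    exact hg
  let e' : b.J → Fs G P := fun j => ⟨b.φ j, b.fs j⟩
  refine ⟨{ J := b.J, fin := b.fin, φ := fun j => ev (b.e j), e := e',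
            fs := hfin, span := fun ψ => ?_ }, trivial⟩
  refine Subtype.ext (AddMonoidHom.ext fun p => ?_)
  have hs : ∀ j, (Function.support fun g : G => ev (b.e j) (g⁻¹ • ψ) •
      (g • e' j)).Finite := fun j =>
    (hfin j ψ).subset fun g hg => by
      intro h0
      apply hg
      change ev (b.e j) (g⁻¹ • ψ) • (g • e' j) = 0
      rw [h0, zero_smul]
  change ψ.1 p = ev p (∑ j, ∑ᶠ g : G, ev (b.e j) (g⁻¹ • ψ) • (g • e' j))
  rw [map_sum, b.expand ψ.1 p]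
  refine Finset.sum_congr rfl fun j _ => ?_
  rw [AddMonoidHom.map_finsum (ev p) (hs j), tw_apply]
  refine finsum_congr fun g => ?_
  rw [map_zsmul]
  change b.φ j (g⁻¹ • p) • ψ.1 (g • b.e j) = ψ.1 ((g⁻¹)⁻¹ • b.e j) • b.φ j (g⁻¹ • p)
  rw [inv_inv, smul_eq_mul, smul_eq_mul, mul_comm]

section

variable {P0 P1 P2 P3 : Type} [AddCommGroup P0] [AddCommGroup P1]
    [AddCommGroup P2] [AddCommGroup P3] [DistribMulAction G P0] [DistribMulAction G P1]
    [DistribMulAction G P2] [DistribMulAction G P3]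

/-- Composition with an equivariant map, on the dual modules. -/
private def fnr8_pull {P Q : Type} [AddCommGroup P] [AddCommGroup Q] [DistribMulAction G P]
    [DistribMulAction G Q] (F : P →+ Q) (hF : ∀ (g : G) (p : P), F (g • p) = g • F p) :
    Fs G Q →+ Fs G P :=
  AddMonoidHom.mk' (fun φ => ⟨φ.1.comp F, φ.2.comp F hF⟩) fun _ _ => rfl

private theorem fnr8_pull_eqv {P Q : Type} [AddCommGroup P] [AddCommGroup Q]
    [DistribMulAction G P] [DistribMulAction G Q] (F : P →+ Q)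
    (hF : ∀ (g : G) (p : P), F (g • p) = g • F p) : Eqv G (fnr8_pull F hF) := by
  intro g φ
  refine Subtype.ext (AddMonoidHom.ext fun p => ?_)
  change φ.1 (g⁻¹ • F p) = φ.1 (F (g⁻¹ • p))
  rw [hF]

private theorem fnr8_pull_eq {P Q : Type} [AddCommGroup P] [AddCommGroup Q]
    [DistribMulAction G P] [DistribMulAction G Q] (F : P →+ Q)
    (hF : ∀ (g : G) (p : P), F (g • p) = g • F p) (φ : Fs G Q) (ψ : Fs G P)
    (h : ∀ p, φ.1 (F p) = ψ.1 p) : fnr8_pull F hF φ = ψ :=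
  Subtype.ext (AddMonoidHom.ext h)

/-- The augmentation of the dual resolution. -/
private noncomputable def fnr8_eps (D : PD3Data G P0 P1 P2 P3) : Fs G P3 →+ ℤ :=
  AddMonoidHom.mk' (fun φ => D.deg φ.1 φ.2) fun φ ψ => by
    obtain ⟨α, hα, h1⟩ := D.deg_spec φ.1 φ.2
    obtain ⟨β, hβ, h2⟩ := D.deg_spec ψ.1 ψ.2
    refine D.deg_unique _ _ _ (α + β) (hα.add hβ) (AddMonoidHom.ext fun p => ?_)
    change φ.1 p + ψ.1 p = (D.deg φ.1 φ.2 + D.deg ψ.1 ψ.2) * D.z p + (α (D.d2 p) + β (D.d2 p))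
    have h3 : φ.1 p = D.deg φ.1 φ.2 * D.z p + α (D.d2 p) := DFunLike.congr_fun h1 p
    have h4 : ψ.1 p = D.deg ψ.1 ψ.2 * D.z p + β (D.d2 p) := DFunLike.congr_fun h2 p
    rw [h3, h4]
    ring

private theorem fnr8_eps_smul (D : PD3Data G P0 P1 P2 P3) (g : G) (φ : Fs G P3) :
    fnr8_eps D (g • φ) = fnr8_eps D φ := by
  obtain ⟨α, hα, h1⟩ := D.deg_spec φ.1 φ.2
  obtain ⟨c, hc, h2⟩ := D.ori g⁻¹
  refine D.deg_unique (g • φ).1 (g • φ).2 _ (D.deg φ.1 φ.2 • c + rt g⁻¹ α)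
    ((hc.zsmul _).add (hα.rt g⁻¹))
    (AddMonoidHom.ext fun p => ?_)
  change φ.1 (g⁻¹ • p) = D.deg φ.1 φ.2 * D.z p + (D.deg φ.1 φ.2 * c (D.d2 p) + α (g⁻¹ • D.d2 p))
  have h3 : φ.1 (g⁻¹ • p) = D.deg φ.1 φ.2 * D.z (g⁻¹ • p) + α (D.d2 (g⁻¹ • p)) :=
    DFunLike.congr_fun h1 _
  rw [h3, h2, D.d2_smul]
  ring

private theorem fnr8_inj (D : PD3Data G P0 P1 P2 P3) (hinf : Infinite G) (φ : Fs G P0)
    (h : ∀ p, φ.1 (D.d0 p) = 0) : φ = 0 := by
  have h1 : ∀ p, φ.1 p = D.ε p * φ.1 D.p0 := by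
    intro p
    have h2 : D.ε (p - D.ε p • D.p0) = 0 := by
      rw [map_sub, map_zsmul, D.ε_p0, smul_eq_mul, mul_one, sub_self]
    obtain ⟨q, hq⟩ := (D.exact0 _).1 h2
    have h3 := h q
    rw [hq, map_sub, map_zsmul, smul_eq_mul, sub_eq_zero] at h3
    exact h3
  have h4 : φ.1 D.p0 = 0 := by
    by_contra h0
    have h5 := φ.2 D.p0
    refine Set.infinite_univ (α := G) (h5.subset fun g _ => ?_)
    change φ.1 (g⁻¹ • D.p0) ≠ 0
    rw [h1, D.ε_smul, D.ε_p0, one_mul]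
    exact h0
  refine Subtype.ext (AddMonoidHom.ext fun p => ?_)
  rw [h1, h4, mul_zero]
  rfl

/-- PIECE FN-R8 (120 lines).  The dual resolution of an orientable `PD_3`-group.
`ε' φ = D.deg φ` (see `Helper20/ACH/PD3.lean`, import it: `deg_spec`, `deg_unique`, `deg_z`,
`deg_comp`), additive by `deg_unique`; invariant: by `D.ori`, `g⁻¹`-translates of `z` are
`z + c ∘ d2`, so `deg (g φ) = deg φ`.  `p0' = z`.  `d0' ψ = ψ ∘ d2`, `d1' ψ = ψ ∘ d1`,
`d2' ψ = ψ ∘ d0`.  Exactness: `exact0` from `D.D3`, `D.D3'`; `exact1` from `D.D2`; `exact2` is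
`hD1`; `d2_inj`: if `ψ ∘ d0 = 0` then `ψ` vanishes on `ker ε`, so `ψ = ψ(p0) ε`, and since `ψ` has
finite support and `G` is infinite and `ε` is invariant, `ψ(p0) = 0`.  Dual bases:
`exists_dualBasis`. -/
theorem exists_dual (D : PD3Data G P0 P1 P2 P3) (hD1 : DOne (ofPD3 D)) (hinf : Infinite G) :
    ∃ E' : Reso G (Fs G P3) (Fs G P2) (Fs G P1) (Fs G P0),
      (∀ φ p, (E'.d0 φ).1 p = φ.1 (D.d2 p)) ∧ (∀ φ p, (E'.d1 φ).1 p = φ.1 (D.d1 p)) ∧
      ∀ φ p, (E'.d2 φ).1 p = φ.1 (D.d0 p) := by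
  refine ⟨{
    ε := fnr8_eps D
    d0 := fnr8_pull D.d2 D.d2_smul
    d1 := fnr8_pull D.d1 D.d1_smul
    d2 := fnr8_pull D.d0 D.d0_smul
    ε_smul := fnr8_eps_smul D
    d0_smul := fnr8_pull_eqv D.d2 D.d2_smul
    d1_smul := fnr8_pull_eqv D.d1 D.d1_smul
    d2_smul := fnr8_pull_eqv D.d0 D.d0_smul
    p0 := ⟨D.z, D.z_fs⟩
    ε_p0 := D.deg_z
    exact0 := ?_
    exact1 := ?_
    exact2 := ?_
    d2_inj := ?_
    b0 := (exists_dualBasis D.b3).choose
    b1 := (exists_dualBasis D.b2).choose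
    b2 := (exists_dualBasis D.b1).choose
    b3 := (exists_dualBasis D.b0).choose }, fun φ p => rfl, fun φ p => rfl, fun φ p => rfl⟩
  · intro φ
    constructor
    · intro h
      obtain ⟨α, hα, h1⟩ := D.deg_spec φ.1 φ.2
      have h2 : D.deg φ.1 φ.2 = 0 := h
      refine ⟨⟨α, hα⟩, fnr8_pull_eq _ _ _ _ fun p => ?_⟩
      rw [h1, h2, zero_smul, zero_add]
      rfl
    · rintro ⟨q, rfl⟩
      exact D.deg_comp q.1 q.2 (q.2.comp D.d2 D.d2_smul)
  · intro φ
    constructor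
    · intro h
      obtain ⟨ψ, hψ, h1⟩ := D.D2 φ.1 φ.2 fun p => congrArg (fun x : Fs G P3 => x.1 p) h
      refine ⟨⟨ψ, hψ⟩, fnr8_pull_eq _ _ _ _ fun p => ?_⟩
      rw [h1]
      rfl
    · rintro ⟨q, rfl⟩
      refine fnr8_pull_eq _ _ _ _ fun p => ?_
      change q.1 (D.d1 (D.d2 p)) = 0
      rw [(D.exact2 _).2 ⟨p, rfl⟩, map_zero]
  · intro φ
    constructor
    · intro h
      obtain ⟨ψ, hψ, h1⟩ := hD1 φ.1 φ.2 fun p => congrArg (fun x : Fs G P2 => x.1 p) h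
      exact ⟨⟨ψ, hψ⟩, fnr8_pull_eq _ _ _ _ fun p => (h1 p).symm⟩
    · rintro ⟨q, rfl⟩
      refine fnr8_pull_eq _ _ _ _ fun p => ?_
      change q.1 (D.d0 (D.d1 p)) = 0
      rw [(D.exact1 _).2 ⟨p, rfl⟩, map_zero]
  · rw [injective_iff_map_eq_zero]
    intro φ h
    exact fnr8_inj D hinf φ fun p => congrArg (fun x : Fs G P1 => x.1 p) h

end

end Pool.FN
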