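import Pool.Agent.Helper38.FN.Df

/-! Project FN: maps from the dual module to `F_p[G ⧸ M]`. -/

set_option autoImplicit false

namespace Pool.FN

open Pool.ACH

variable {G : Type} [Group G] {P : Type} [AddCommGroup P] [DistribMulAction G P]

/-- The subgroup of `P` generated by `m x - x`, `m ∈ M`, and `p x`. -/
def Kk (M : Subgroup G) (p : ℕ) (P : Type) [AddCommGroup P] [DistribMulAction G P] :
    AddSubgroup P :=
  AddSubgroup.closure ({y | ∃ m ∈ M, ∃ z : P, y = m • z - z} ∪ {y | ∃ z : P, y = (p : ℤ) • z})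

/-- PIECE FN-V1 (80 lines).  For `x : P` the equivariant map
`v_x : P^* → F_p[G ⧸ M]`, `v_x(φ)(q) = ∑_{g ∈ q} φ(g x)`.  The finsum has finite support
(`φ.2`), and `v_x(φ)` has finite support on `G ⧸ M` (image of a finite set).  Additive in `φ`,
equivariant: `v_x(h φ)(q) = ∑_{g ∈ q} φ(h⁻¹ g x) = ∑_{k ∈ h⁻¹ q} φ(k x)`
(`finsum_comp_equiv (Equiv.mulLeft h)`). -/
theorem exists_vm (M : Subgroup G) (p : ℕ) (x : P) :
    ∃ v : Fs G P →+ Ff G M (ZMod p), Eqv G v ∧ ∀ (φ : Fs G P) (q : G ⧸ M),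
      (v φ).1 q = ∑ᶠ (g : G) (_ : (g : G ⧸ M) = q), ((φ.1 (g • x) : ℤ) : ZMod p) := by
  have hfin : ∀ φ : Fs G P,
      (Function.support fun g : G => ((φ.1 (g • x) : ℤ) : ZMod p)).Finite := by
    intro φ
    refine ((φ.2 x).image fun g => g⁻¹).subset fun g hg => ⟨g⁻¹, ?_, inv_inv g⟩
    rw [Set.mem_ofPred_eq, inv_inv]
    intro h
    rw [Function.mem_support, h, Int.cast_zero] at hg
    exact hg rfl
  let val : Fs G P → Fn G M (ZMod p) := fun φ q =>
    ∑ᶠ (g : G) (_ : (g : G ⧸ M) = q), ((φ.1 (g • x) : ℤ) : ZMod p)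
  have hval : ∀ φ q, val φ q =
      ∑ᶠ (g : G) (_ : g ∈ {g : G | (g : G ⧸ M) = q}), ((φ.1 (g • x) : ℤ) : ZMod p) :=
    fun φ q => rfl
  have hadd : ∀ φ ψ : Fs G P, ∀ q, val (φ + ψ) q = val φ q + val ψ q := by
    intro φ ψ q
    rw [hval, hval, hval, ← finsum_mem_add_distrib' ((hfin φ).inter_of_right _)
      ((hfin ψ).inter_of_right _)]
    refine finsum_mem_congr rfl fun g _ => ?_
    rw [Fs.add_val, AddMonoidHom.add_apply, Int.cast_add]
  have hsupp : ∀ φ : Fs G P, {q : G ⧸ M | val φ q ≠ 0}.Finite := by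
    intro φ
    refine ((hfin φ).image fun g : G => (g : G ⧸ M)).subset fun q hq => ?_
    rw [Set.mem_ofPred_eq, hval] at hq
    obtain ⟨g, hg, h⟩ := exists_ne_zero_of_finsum_mem_ne_zero hq
    exact ⟨g, h, hg⟩
  let v : Fs G P →+ Ff G M (ZMod p) :=
    AddMonoidHom.mk' (fun φ => ⟨val φ, hsupp φ⟩) fun φ ψ =>
      Subtype.ext (funext fun q => hadd φ ψ q)
  refine ⟨v, fun h φ => ?_, fun φ q => rfl⟩
  apply Subtype.ext
  funext q
  rw [Ff.smul_apply]
  change val (h • φ) q = val φ (h⁻¹ • q)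
  rw [hval, hval, ← finsum_comp_equiv (Equiv.mulLeft h)]
  refine finsum_congr fun k => ?_
  have h1 : (Equiv.mulLeft h k ∈ {g : G | (g : G ⧸ M) = q}) =
      (k ∈ {g : G | (g : G ⧸ M) = h⁻¹ • q}) := by
    rw [Set.mem_ofPred_eq, Set.mem_ofPred_eq, Equiv.coe_mulLeft, eq_iff_iff, eq_inv_smul_iff]
    rfl
  rw [h1]
  refine finsum_congr fun _ => ?_
  rw [Fs.smul_apply, Equiv.coe_mulLeft, mul_smul, inv_smul_smul]

/-- The map `v_x`. -/
noncomputable def vm (M : Subgroup G) (p : ℕ) (x : P) : Fs G P →+ Ff G M (ZMod p) :=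
  (exists_vm M p x).choose

theorem vm_eqv (M : Subgroup G) (p : ℕ) (x : P) : Eqv G (vm M p x) :=
  (exists_vm M p x).choose_spec.1

theorem vm_apply (M : Subgroup G) (p : ℕ) (x : P) (φ : Fs G P) (q : G ⧸ M) :
    (vm M p x φ).1 q = ∑ᶠ (g : G) (_ : (g : G ⧸ M) = q), ((φ.1 (g • x) : ℤ) : ZMod p) :=
  (exists_vm M p x).choose_spec.2 φ q

private theorem vm2_fin (φ : Fs G P) (x : P) : {g : G | φ.1 (g • x) ≠ 0}.Finite := by
  have h := (φ.2 x).preimage (inv_injective.injOn (s := (fun g : G => g⁻¹) ⁻¹'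
    {g : G | φ.1 (g⁻¹ • x) ≠ 0}))
  refine h.subset fun g hg => ?_
  change φ.1 (g⁻¹⁻¹ • x) ≠ 0
  rw [inv_inv]
  exact hg

private theorem vm2_supp (M : Subgroup G) (p : ℕ) (φ : Fs G P) (x : P) (q : G ⧸ M) :
    (Function.support fun g : G =>
      ∑ᶠ (_ : (g : G ⧸ M) = q), ((φ.1 (g • x) : ℤ) : ZMod p)).Finite := by
  refine (vm2_fin φ x).subset fun g hg => ?_
  intro h0
  apply hg
  change ∑ᶠ (_ : (g : G ⧸ M) = q), ((φ.1 (g • x) : ℤ) : ZMod p) = 0
  rw [h0, Int.cast_zero]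
  exact finsum_zero

private theorem vm2_ext {M : Subgroup G} {p : ℕ} {f f' : Fs G P →+ Ff G M (ZMod p)}
    (h : ∀ (φ : Fs G P) (q : G ⧸ M), (f φ).1 q = (f' φ).1 q) : f = f' :=
  AddMonoidHom.ext fun φ => Subtype.ext (funext fun q => h φ q)

/-- PIECE FN-V2 (50 lines).  Additivity in `x`, and `v_x = 0` for `x` in `Kk M p P`:
`v_{m x} = v_x` since `g ↦ g m` preserves the cosets `q`. -/
theorem vm_add (M : Subgroup G) (p : ℕ) (x y : P) : vm M p (x + y) = vm M p x + vm M p y := by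
  classical
  refine vm2_ext fun φ q => ?_
  have h1 : ((vm M p x + vm M p y) φ).1 q = (vm M p x φ).1 q + (vm M p y φ).1 q := rfl
  rw [h1, vm_apply, vm_apply, vm_apply,
    ← finsum_add_distrib (vm2_supp M p φ x q) (vm2_supp M p φ y q)]
  refine finsum_congr fun g => ?_
  rw [finsum_eq_if, finsum_eq_if, finsum_eq_if]
  split_ifs
  · rw [smul_add, map_add, Int.cast_add]
  · rw [add_zero]

/-- PIECE FN-V2 (50 lines), second part. -/
theorem vm_eq_zero (M : Subgroup G) (p : ℕ) (x : P) (hx : x ∈ Kk M p P) : vm M p x = 0 := by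
  have h0 : vm M p (0 : P) = 0 := by
    have h := vm_add M p (0 : P) 0
    rw [add_zero] at h
    exact left_eq_add.1 h
  have hneg : ∀ z : P, vm M p (-z) = -vm M p z := by
    intro z
    have h := vm_add M p (-z) z
    rw [neg_add_cancel, h0] at h
    exact eq_neg_of_add_eq_zero_left h.symm
  refine AddSubgroup.closure_induction (p := fun x _ => vm M p x = 0) ?_ h0 ?_ ?_ hx
  · rintro x (⟨m, hm, z, rfl⟩ | ⟨z, rfl⟩)
    · rw [sub_eq_add_neg, vm_add, hneg, ← sub_eq_add_neg, sub_eq_zero]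
      refine vm2_ext fun φ q => ?_
      rw [vm_apply, vm_apply, ← finsum_comp_equiv (Equiv.mulRight m)
        (f := fun g : G => ∑ᶠ (_ : (g : G ⧸ M) = q), ((φ.1 (g • z) : ℤ) : ZMod p))]
      refine finsum_congr fun g => ?_
      have h1 : ((g * m : G) : G ⧸ M) = (g : G ⧸ M) := QuotientGroup.mk_mul_of_mem g hm
      rw [Equiv.coe_mulRight, h1, mul_smul]
    · refine vm2_ext fun φ q => ?_
      rw [vm_apply]
      change _ = (0 : ZMod p)
      have h2 : ∀ g : G, ((φ.1 (g • ((p : ℤ) • z)) : ℤ) : ZMod p) = 0 := by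
        intro g
        have h1 : φ.1 (g • ((p : ℤ) • z)) = (p : ℤ) * φ.1 (g • z) := by
          rw [smul_comm, map_zsmul, smul_eq_mul]
        rw [h1, Int.cast_mul, Int.cast_natCast, ZMod.natCast_self, zero_mul]
      simp only [h2, finsum_zero]
  · intro x y _ _ hx hy
    rw [vm_add, hx, hy, add_zero]
  · intro x _ hx
    rw [hneg, hx, neg_zero]

private theorem vm3_coset (M : Subgroup G) (p : ℕ) (e : P) (g h : G)
    (hgh : ((g : G) : G ⧸ M) = (h : G ⧸ M)) :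
    QuotientAddGroup.mk' (Kk M p P) (g⁻¹ • e) = QuotientAddGroup.mk' (Kk M p P) (h⁻¹ • e) := by
  rw [QuotientAddGroup.mk'_apply, QuotientAddGroup.mk'_apply, QuotientAddGroup.eq]
  have hm : g⁻¹ * h ∈ M := QuotientGroup.eq.1 hgh
  refine AddSubgroup.subset_closure (Or.inl ⟨(g⁻¹ * h)⁻¹, M.inv_mem hm, g⁻¹ • e, ?_⟩)
  rw [← mul_smul, mul_inv_rev, inv_inv, mul_assoc, mul_inv_cancel, mul_one, neg_add_eq_sub]

private theorem vm3_smul (M : Subgroup G) (p : ℕ) (z : P) (n : ℤ) (hn : (p : ℤ) ∣ n) :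
    n • QuotientAddGroup.mk' (Kk M p P) z = 0 := by
  obtain ⟨k, rfl⟩ := hn
  rw [mul_smul, ← map_zsmul, ← map_zsmul, QuotientAddGroup.mk'_apply,
    QuotientAddGroup.eq_zero_iff]
  exact AddSubgroup.subset_closure (Or.inr ⟨k • z, rfl⟩)

private theorem vm3_val (M : Subgroup G) (p : ℕ) (x : P) (φ : Fs G P) (q : G ⧸ M)
    [DecidableEq (G ⧸ M)] :
    (vm M p x φ).1 q = ((∑ h ∈ (vm2_fin φ x).toFinset with ((h : G) : G ⧸ M) = q,
      φ.1 (h • x) : ℤ) : ZMod p) := by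
  rw [vm_apply, Int.cast_sum, Finset.sum_filter]
  have h4 : ∀ h : G, (∑ᶠ (_ : (h : G ⧸ M) = q), ((φ.1 (h • x) : ℤ) : ZMod p)) =
      if (h : G ⧸ M) = q then ((φ.1 (h • x) : ℤ) : ZMod p) else 0 := fun h => finsum_eq_if
  simp only [h4]
  refine finsum_eq_sum_of_support_subset _ fun h hh => ?_
  rw [Set.Finite.coe_toFinset]
  intro h0
  apply hh
  change (if (h : G ⧸ M) = q then ((φ.1 (h • x) : ℤ) : ZMod p) else 0) = 0
  rw [h0, Int.cast_zero, ite_self]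

/-- PIECE FN-V3 (80 lines).  `v_x = 0` implies `x ∈ Kk M p P`.  By `b.span`,
`x = ∑ j, ∑ᶠ g, φ_j(g⁻¹ x) • g e_j`.  Group the `g` according to the coset `M g`, that is according
to `(g⁻¹ : G ⧸ M)`; modulo `Kk` the element `g e_j` depends only on this coset, and
`∑_{g⁻¹ ∈ q} φ_j(g⁻¹ x) = v_x(φ_j)(q) = 0` in `ZMod p`, that is divisible by `p`.  (Work in the
quotient `P ⧸ Kk`, with the map `ω : P → P ⧸ Kk`, `ω (m x) = ω x`, `p ω = 0`; `DB.expand` for `ω`;
show that `tw (φ_j) _ (fun g => ω (g • e_j)) x = 0`.) -/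
theorem mem_Kk (b : DB G P) (M : Subgroup G) (p : ℕ) [Fact p.Prime] (x : P)
    (hx : vm M p x = 0) : x ∈ Kk M p P := by
  classical
  rw [← QuotientAddGroup.eq_zero_iff, ← QuotientAddGroup.mk'_apply]
  conv_lhs => rw [b.span x]
  rw [map_sum]
  refine Finset.sum_eq_zero fun j _ => ?_
  have hT := vm2_fin (⟨b.φ j, b.fs j⟩ : Fs G P) x
  rw [AddMonoidHom.map_finsum _ (tw_supp (b.φ j) (b.fs j) (fun g => g • b.e j) x),
    ← finsum_comp_equiv (Equiv.inv G)]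
  have h1 : (∑ᶠ h : G, QuotientAddGroup.mk' (Kk M p P)
      (b.φ j (((Equiv.inv G) h)⁻¹ • x) • ((Equiv.inv G) h • b.e j))) =
      ∑ h ∈ hT.toFinset, b.φ j (h • x) • QuotientAddGroup.mk' (Kk M p P) (h⁻¹ • b.e j) := by
    have h2 : ∀ h : G, QuotientAddGroup.mk' (Kk M p P)
        (b.φ j (((Equiv.inv G) h)⁻¹ • x) • ((Equiv.inv G) h • b.e j)) =
        b.φ j (h • x) • QuotientAddGroup.mk' (Kk M p P) (h⁻¹ • b.e j) := by
      intro h
      rw [map_zsmul, Equiv.inv_apply, inv_inv]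
    simp only [h2]
    refine finsum_eq_sum_of_support_subset _ fun h hh => ?_
    rw [Set.Finite.coe_toFinset]
    intro h0
    apply hh
    change b.φ j (h • x) • QuotientAddGroup.mk' (Kk M p P) (h⁻¹ • b.e j) = 0
    have h0' : b.φ j (h • x) = 0 := h0
    rw [h0', zero_smul]
  rw [h1, ← Finset.sum_fiberwise_of_maps_to (s := hT.toFinset)
    (t := hT.toFinset.image fun h : G => (h : G ⧸ M)) (g := fun h : G => (h : G ⧸ M))
    (fun h hh => Finset.mem_image_of_mem _ hh)]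
  refine Finset.sum_eq_zero fun q _ => ?_
  have h3 : (∑ h ∈ hT.toFinset with ((h : G) : G ⧸ M) = q,
      b.φ j (h • x) • QuotientAddGroup.mk' (Kk M p P) (h⁻¹ • b.e j)) =
      (∑ h ∈ hT.toFinset with ((h : G) : G ⧸ M) = q, b.φ j (h • x)) •
        QuotientAddGroup.mk' (Kk M p P) ((Quotient.out q : G)⁻¹ • b.e j) := by
    rw [Finset.sum_smul]
    refine Finset.sum_congr rfl fun h hh => ?_
    rw [vm3_coset M p (b.e j) h (Quotient.out q : G) (by
      rw [(Finset.mem_filter.1 hh).2]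
      exact (QuotientGroup.out_eq' q).symm)]
  rw [h3]
  refine vm3_smul M p _ _ ?_
  rw [← ZMod.intCast_zmod_eq_zero_iff_dvd]
  have h5 := vm3_val M p x ⟨b.φ j, b.fs j⟩ q
  rw [hx] at h5
  exact h5.symm

private def vm4_ev (M : Subgroup G) (p : ℕ) (q : G ⧸ M) : Ff G M (ZMod p) →+ ZMod p where
  toFun f := f.1 q
  map_zero' := rfl
  map_add' _ _ := rfl

private def vm4_val : Fs G P →+ (P →+ ℤ) where
  toFun φ := φ.1
  map_zero' := rfl
  map_add' _ _ := rfl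

private noncomputable def vm4_V (M : Subgroup G) (p : ℕ) : P →+ (Fs G P →+ Ff G M (ZMod p)) :=
  AddMonoidHom.mk' (vm M p) (vm_add M p)

private theorem vm4_one (M : Subgroup G) (p : ℕ) (e : P) (q : G ⧸ M) (φ : Fs G P) (q' : G ⧸ M) :
    (vm M p ((Quotient.out q : G)⁻¹ • e) φ).1 q' =
      ∑ᶠ (h : G) (_ : h • q = q'), ((φ.1 (h • e) : ℤ) : ZMod p) := by
  rw [vm_apply, ← finsum_comp_equiv (Equiv.mulRight (Quotient.out q : G))
    (f := fun g : G => ∑ᶠ (_ : (g : G ⧸ M) = q'),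
      ((φ.1 (g • (Quotient.out q : G)⁻¹ • e) : ℤ) : ZMod p))]
  refine finsum_congr fun h => ?_
  have h1 : ((h * (Quotient.out q : G) : G) : G ⧸ M) = h • q := by
    have h2 : ((Quotient.out q : G) : G ⧸ M) = q := QuotientGroup.out_eq' q
    conv_rhs => rw [← h2]
    rfl
  rw [Equiv.coe_mulRight, h1, mul_smul, smul_inv_smul]

private theorem vm4_two (M : Subgroup G) (p : ℕ) [Fact p.Prime] (f : Ff G M (ZMod p)) (e : P) :
    ∃ x : P, ∀ (φ : Fs G P) (q' : G ⧸ M), (vm M p x φ).1 q' =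
      ∑ᶠ h : G, ((φ.1 (h • e) : ℤ) : ZMod p) * f.1 (h⁻¹ • q') := by
  classical
  have hfs : {q : G ⧸ M | f.1 q ≠ 0}.Finite := f.2
  refine ⟨∑ q ∈ hfs.toFinset, ((f.1 q).val : ℤ) • ((Quotient.out q : G)⁻¹ • e),
    fun φ q' => ?_⟩
  have hT := vm2_fin φ e
  have h1 : (vm M p (∑ q ∈ hfs.toFinset,
      ((f.1 q).val : ℤ) • ((Quotient.out q : G)⁻¹ • e)) φ).1 q' =
      ∑ q ∈ hfs.toFinset, f.1 q * (vm M p ((Quotient.out q : G)⁻¹ • e) φ).1 q' := by
    have h2 : vm M p (∑ q ∈ hfs.toFinset,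
        ((f.1 q).val : ℤ) • ((Quotient.out q : G)⁻¹ • e)) =
        ∑ q ∈ hfs.toFinset, ((f.1 q).val : ℤ) • vm M p ((Quotient.out q : G)⁻¹ • e) := by
      change vm4_V M p _ = _
      rw [map_sum]
      refine Finset.sum_congr rfl fun q _ => ?_
      rw [map_zsmul]
      rfl
    rw [h2, AddMonoidHom.finsetSum_apply]
    change vm4_ev M p q' _ = _
    rw [map_sum]
    refine Finset.sum_congr rfl fun q _ => ?_
    change vm4_ev M p q' (((f.1 q).val : ℤ) • (vm M p ((Quotient.out q : G)⁻¹ • e) φ)) = _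
    rw [map_zsmul, zsmul_eq_mul, Int.cast_natCast, ZMod.natCast_val, ZMod.cast_id]
    rfl
  have h3 : ∀ q : G ⧸ M, (vm M p ((Quotient.out q : G)⁻¹ • e) φ).1 q' =
      ∑ h ∈ hT.toFinset, if h • q = q' then ((φ.1 (h • e) : ℤ) : ZMod p) else 0 := by
    intro q
    rw [vm4_one]
    have h4 : ∀ h : G, (∑ᶠ (_ : h • q = q'), ((φ.1 (h • e) : ℤ) : ZMod p)) =
        if h • q = q' then ((φ.1 (h • e) : ℤ) : ZMod p) else 0 := fun h => finsum_eq_if
    simp only [h4]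
    refine finsum_eq_sum_of_support_subset _ fun h hh => ?_
    rw [Set.Finite.coe_toFinset]
    intro h0
    apply hh
    change (if h • q = q' then ((φ.1 (h • e) : ℤ) : ZMod p) else 0) = 0
    rw [h0, Int.cast_zero, ite_self]
  rw [h1]
  have h5 : (∑ᶠ h : G, ((φ.1 (h • e) : ℤ) : ZMod p) * f.1 (h⁻¹ • q')) =
      ∑ h ∈ hT.toFinset, ((φ.1 (h • e) : ℤ) : ZMod p) * f.1 (h⁻¹ • q') := by
    refine finsum_eq_sum_of_support_subset _ fun h hh => ?_
    rw [Set.Finite.coe_toFinset]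
    intro h0
    apply hh
    change ((φ.1 (h • e) : ℤ) : ZMod p) * f.1 (h⁻¹ • q') = 0
    rw [h0, Int.cast_zero, zero_mul]
  rw [h5]
  simp only [h3, Finset.mul_sum]
  rw [Finset.sum_comm]
  refine Finset.sum_congr rfl fun h _ => ?_
  have h6 : ∀ q : G ⧸ M, (f.1 q * if h • q = q' then ((φ.1 (h • e) : ℤ) : ZMod p) else 0) =
      if q = h⁻¹ • q' then ((φ.1 (h • e) : ℤ) : ZMod p) * f.1 (h⁻¹ • q') else 0 := by
    intro q
    by_cases hq : q = h⁻¹ • q'
    · have hq' : h • q = q' := by rw [hq, smul_inv_smul]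
      rw [if_pos hq, if_pos hq', hq, mul_comm]
    · have hq' : h • q ≠ q' := fun h' => hq (by rw [← h', inv_smul_smul])
      rw [if_neg hq, if_neg hq', mul_zero]
  simp only [h6]
  rw [Finset.sum_ite_eq']
  split_ifs with h7
  · rfl
  · have h8 : f.1 (h⁻¹ • q') = 0 := by
      by_contra h9
      exact h7 (hfs.mem_toFinset.2 h9)
    rw [h8, mul_zero]

private def vm4_F (b : DB G P) (j : b.J) : Fs G P := ⟨b.φ j, b.fs j⟩

private theorem vm4_three (b : DB G P) (φ : Fs G P) :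
    φ = ∑ j, ∑ h ∈ (vm2_fin φ (b.e j)).toFinset,
      (φ.1 (h • b.e j)) • (h • (vm4_F b j)) := by
  classical
  apply Subtype.ext
  apply AddMonoidHom.ext
  intro y
  have h1 : (∑ j, ∑ h ∈ (vm2_fin φ (b.e j)).toFinset,
      (φ.1 (h • b.e j)) • (h • (vm4_F b j))).1 y =
      ∑ j, ∑ h ∈ (vm2_fin φ (b.e j)).toFinset, φ.1 (h • b.e j) * b.φ j (h⁻¹ • y) := by
    change (AddMonoidHom.eval y) (vm4_val _) = _
    rw [map_sum, map_sum]
    refine Finset.sum_congr rfl fun j _ => ?_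
    rw [map_sum, map_sum]
    refine Finset.sum_congr rfl fun h _ => ?_
    rw [map_zsmul, map_zsmul, smul_eq_mul]
    rfl
  rw [h1]
  conv_lhs => rw [b.span y]
  rw [map_sum]
  refine Finset.sum_congr rfl fun j _ => ?_
  have hf : (Function.support fun g : G => b.φ j (g⁻¹ • y) • (g • b.e j)).Finite :=
    (b.fs j y).subset fun g hg h0 => hg (by
      change b.φ j (g⁻¹ • y) • (g • b.e j) = 0
      rw [h0, zero_smul])
  rw [AddMonoidHom.map_finsum _ hf]
  have h2 : (∑ᶠ g : G, φ.1 (b.φ j (g⁻¹ • y) • (g • b.e j))) =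
      ∑ᶠ g : G, φ.1 (g • b.e j) * b.φ j (g⁻¹ • y) :=
    finsum_congr fun g => by rw [map_zsmul, smul_eq_mul, mul_comm]
  rw [h2]
  refine finsum_eq_sum_of_support_subset _ fun h hh => ?_
  rw [Set.Finite.coe_toFinset]
  intro h0
  apply hh
  change φ.1 (h • b.e j) * b.φ j (h⁻¹ • y) = 0
  rw [h0, zero_mul]

/-- PIECE FN-V4 (80 lines).  Every equivariant map `w : P^* → F_p[G ⧸ M]` is some `v_x`:
for `φ : P^*`, `φ = ∑ j, ∑ᶠ g, φ(g e_j) • (g φ_j)` (dual basis of `P^*`, see the docstring of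
`exists_dualBasis` in `Ra.lean`), so `w φ = ∑ j, ∑ᶠ g, φ(g e_j) • g w(φ_j)`.  With
`w(φ_j) = ∑_q c_{j,q} q` (finite sum, `c_{j,q} ∈ ZMod p`, lift to `ℤ`), `q = r_q M`, the element
`x = ∑_{j,q} c_{j,q} • (r_q⁻¹ e_j)` works: `v_{r⁻¹ e}(φ)(q') = ∑_{g ∈ q'} φ(g r⁻¹ e) =
∑_{h r ∈ q'} φ(h e)`, which is the coefficient at `q'` of `∑_h φ(h e) h r M`. -/
theorem exists_vm_eq (b : DB G P) (M : Subgroup G) (p : ℕ) [Fact p.Prime]
    (w : Fs G P →+ Ff G M (ZMod p)) (hw : Eqv G w) : ∃ x : P, w = vm M p x := by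
  classical
  choose x hx using fun j : b.J => vm4_two M p (w (vm4_F b j)) (b.e j)
  refine ⟨∑ j, x j, vm2_ext fun φ q' => ?_⟩
  have h1 : (vm M p (∑ j, x j) φ).1 q' = ∑ j, (vm M p (x j) φ).1 q' := by
    change vm4_ev M p q' ((AddMonoidHom.eval φ) (vm4_V M p (∑ j, x j))) = _
    rw [map_sum, map_sum, map_sum]
    rfl
  rw [h1]
  conv_lhs => rw [vm4_three b φ]
  change vm4_ev M p q' (w _) = _
  rw [map_sum, map_sum]
  refine Finset.sum_congr rfl fun j _ => ?_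
  rw [hx j, map_sum, map_sum]
  have h2 : (∑ᶠ h : G, ((φ.1 (h • b.e j) : ℤ) : ZMod p) *
      (w (vm4_F b j)).1 (h⁻¹ • q')) =
      ∑ h ∈ (vm2_fin φ (b.e j)).toFinset, ((φ.1 (h • b.e j) : ℤ) : ZMod p) *
      (w (vm4_F b j)).1 (h⁻¹ • q') := by
    refine finsum_eq_sum_of_support_subset _ fun h hh => ?_
    rw [Set.Finite.coe_toFinset]
    intro h0
    apply hh
    change ((φ.1 (h • b.e j) : ℤ) : ZMod p) *
      (w (vm4_F b j)).1 (h⁻¹ • q') = 0
    rw [h0, Int.cast_zero, zero_mul]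
  rw [h2]
  refine Finset.sum_congr rfl fun h _ => ?_
  rw [map_zsmul, map_zsmul, hw, zsmul_eq_mul]
  rfl

/-- PIECE FN-V5 (20 lines).  Naturality. -/
theorem vm_comp {Q : Type} [AddCommGroup Q] [DistribMulAction G Q] (d : P →+ Q) (hd : Eqv G d)
    (M : Subgroup G) (p : ℕ) (x : P) (φ : Fs G Q) (ψ : Fs G P) (h : ∀ y, ψ.1 y = φ.1 (d y)) :
    vm M p x ψ = vm M p (d x) φ := by
  apply Subtype.ext
  funext q
  rw [vm_apply, vm_apply]
  refine finsum_congr fun g => finsum_congr fun _ => ?_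
  rw [h, hd]

end Pool.FN
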