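import Pool.Agent.Helper38.FN.Ra
import Pool.Agent.Helper38.FN.Rb
import Pool.Agent.Helper38.FN.De
import Pool.Agent.Helper38.FN.Mo
import Pool.Agent.Helper20.ACH.F3

/-! Project FN: consequences of duality.  `E` is a resolution, `E'` its dual resolution. -/

set_option autoImplicit false

namespace Pool.FN

open Pool.ACH

variable {G : Type} [Group G] {P0 P1 P2 P3 : Type} [AddCommGroup P0] [AddCommGroup P1]
    [AddCommGroup P2] [AddCommGroup P3] [DistribMulAction G P0] [DistribMulAction G P1]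
    [DistribMulAction G P2] [DistribMulAction G P3]

/-- `E'` is the dual of `E`. -/
structure Dual (E : Reso G P0 P1 P2 P3)
    (E' : Reso G (Fs G P3) (Fs G P2) (Fs G P1) (Fs G P0)) : Prop where
  d0 : ∀ φ p, (E'.d0 φ).1 p = φ.1 (E.d2 p)
  d1 : ∀ φ p, (E'.d1 φ).1 p = φ.1 (E.d1 p)
  d2 : ∀ φ p, (E'.d2 φ).1 p = φ.1 (E.d0 p)

/-- PIECE FN-C1 (60 lines).  `H^1(G;F_p[G ⧸ M]) = 0` (for `E'`) says that `F_p ⊗_M E` is exact in
degree two: if `d1 x ∈ Kk M p P1` then `x ∈ d2 P3 + Kk M p P2`.  `vm M p x : P2^* → F_p[G ⧸ M]` is a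
one-cocycle on `E'`: `vm x (φ ∘ d1) = vm (d1 x) φ = 0` (`vm_comp`, `vm_eq_zero`).  So it is
`w ∘ d0'`, `w : P3^* → F_p[G ⧸ M]`, `w = vm y` (`exists_vm_eq`), `vm y (φ ∘ d2) = vm (d2 y) φ`, so
`vm (x - d2 y) = 0`, and `mem_Kk`. -/
theorem exact_two (E : Reso G P0 P1 P2 P3)
    (E' : Reso G (Fs G P3) (Fs G P2) (Fs G P1) (Fs G P0)) (hE : Dual E E') (M : Subgroup G)
    (p : ℕ) [Fact p.Prime] (h : E'.H1z (Ff G M (ZMod p))) (x : P2) (hx : E.d1 x ∈ Kk M p P1) :
    ∃ y : P3, x - E.d2 y ∈ Kk M p P2 := by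
  obtain ⟨w, hw, hw'⟩ := h (vm M p x) (vm_eqv M p x) (fun φ => by
    rw [vm_comp E.d1 E.d1_smul M p x φ (E'.d1 φ) (fun y => hE.d1 φ y),
      vm_eq_zero M p (E.d1 x) hx]
    rfl)
  obtain ⟨y, rfl⟩ := exists_vm_eq E.b3 M p w hw
  refine ⟨y, mem_Kk E.b2 M p _ ?_⟩
  have h1 : vm M p x = vm M p (E.d2 y) := by
    refine AddMonoidHom.ext fun φ => ?_
    rw [← vm_comp E.d2 E.d2_smul M p y φ (E'.d0 φ) (fun z => hE.d0 φ z)]
    exact hw' φ
  have h2 := vm_add M p (x - E.d2 y) (E.d2 y)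
  rw [sub_add_cancel, h1] at h2
  exact left_eq_add.mp (by rw [add_comm]; exact h2)

/-- Extension of a map from the image of `m` (helper for piece FN-C2). -/
private theorem c2_extend0 (p : ℕ) [Fact p.Prime] {A Q k : Type} [AddCommGroup A] [AddCommGroup Q]
    [AddCommGroup k] [Module (ZMod p) k] [Module (ZMod p) Q]
    (m : A →+ Q) (ω : A →+ k) (h : ∀ x, m x = 0 → ω x = 0) :
    ∃ η : Q →+ k, ∀ x, η (m x) = ω x := by
  have hm : Function.Surjective m.rangeRestrict := m.rangeRestrict_surjective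
  have hker : m.rangeRestrict.ker ≤ ω.ker := by
    intro x hx
    rw [AddMonoidHom.mem_ker] at hx ⊢
    have h1 : m x = 0 := congrArg Subtype.val hx
    exact h x h1
  let f : m.range →+ k := AddMonoidHom.liftOfSurjective m.rangeRestrict hm ⟨ω, hker⟩
  have hf : ∀ x, f (m.rangeRestrict x) = ω x := by
    intro x
    exact AddMonoidHom.liftOfRightInverse_comp_apply _ _ _ ⟨ω, hker⟩ x
  obtain ⟨g, hg⟩ := LinearMap.exists_extend (p := AddSubgroup.toZModSubmodule p m.range)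
    (AddMonoidHom.toZModLinearMap (M := AddSubgroup.toZModSubmodule p m.range) p f)
  refine ⟨g.toAddMonoidHom, ?_⟩
  intro x
  have h1 : g (m x) = f (m.rangeRestrict x) := LinearMap.congr_fun hg (m.rangeRestrict x)
  rw [← hf x, ← h1]
  rfl

/-- Extension of a map from the image of `d` modulo `K` (helper for piece FN-C2). -/
private theorem c2_extend (p : ℕ) [Fact p.Prime] {A B k : Type} [AddCommGroup A] [AddCommGroup B]
    [AddCommGroup k] (hk : ∀ a : k, p • a = 0) (K : AddSubgroup B) (hK : ∀ b : B, p • b ∈ K)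
    (d : A →+ B) (ω : A →+ k) (h : ∀ x, d x ∈ K → ω x = 0) :
    ∃ η : B →+ k, (∀ b ∈ K, η b = 0) ∧ ∀ x, η (d x) = ω x := by
  have hQ : ∀ b : B ⧸ K, p • b = 0 := by
    intro b
    obtain ⟨b, rfl⟩ := QuotientAddGroup.mk_surjective b
    have h1 : ((p • b : B) : B ⧸ K) = 0 := (QuotientAddGroup.eq_zero_iff _).2 (hK b)
    rw [← h1]
    rfl
  obtain ⟨g, hg⟩ := @c2_extend0 p _ A (B ⧸ K) k _ _ _ (AddCommGroup.zmodModule hk)
    (AddCommGroup.zmodModule hQ) ((QuotientAddGroup.mk' K).comp d) ω (by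
      intro x hx
      exact h x ((QuotientAddGroup.eq_zero_iff _).1 hx))
  refine ⟨g.comp (QuotientAddGroup.mk' K), ?_, hg⟩
  intro b hb
  change g ((b : B ⧸ K)) = 0
  rw [(QuotientAddGroup.eq_zero_iff _).2 hb, map_zero]

/-- PIECE FN-C2 (100 lines).  Consequently `H^2(G;Fn G M k) = 0` for every `F_p`-space `k`
(that is `H^2(M;k) = 0`).  For an equivariant cocycle `u : P2 → Fn G M k` let
`ω x = u x (1 : G ⧸ M)`; then `ω (m x) = ω x`, so `ω` kills `Kk M p P2` and `d2 P3`.  The additive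
map `d1 x + κ ↦ ω x` on `d1 P2 + Kk M p P1` is well defined by `exact_two`; modulo `Kk M p P1` it is a
map of `ZMod p`-vector spaces and extends to `P1 ⧸ Kk M p P1 → k`.  So there is `η : P1 → k`,
killing `Kk M p P1`, with `ω x = η (d1 x)`.  Put `v x (g M) = η (g⁻¹ x)`. -/
theorem H2z_of_H1z (E : Reso G P0 P1 P2 P3)
    (E' : Reso G (Fs G P3) (Fs G P2) (Fs G P1) (Fs G P0)) (hE : Dual E E') (M : Subgroup G)
    (p : ℕ) [Fact p.Prime] (h : E'.H1z (Ff G M (ZMod p))) (k : Type) [AddCommGroup k]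
    (hk : ∀ a : k, p • a = 0) : E.H2z (Fn G M k) := by
  intro u hu hud
  let ω : P2 →+ k :=
    { toFun := fun x => u x ((1 : G) : G ⧸ M)
      map_zero' := by rw [map_zero]; rfl
      map_add' := fun x y => by rw [map_add]; rfl }
  have hω : ∀ x, ω x = u x ((1 : G) : G ⧸ M) := fun x => rfl
  have hωM : ∀ m ∈ M, ∀ x, ω (m • x) = ω x := by
    intro m hm x
    have h1 : m⁻¹ • ((1 : G) : G ⧸ M) = ((1 : G) : G ⧸ M) := by
      change ((m⁻¹ * 1 : G) : G ⧸ M) = _
      rw [QuotientGroup.eq]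
      simpa using hm
    rw [hω, hω, hu, Fn.smul_apply, h1]
  have hωK : ∀ x ∈ Kk M p P2, ω x = 0 := by
    intro x hx
    have : Kk M p P2 ≤ ω.ker := by
      rw [Kk, AddSubgroup.closure_le]
      rintro y (⟨m, hm, z, rfl⟩ | ⟨z, rfl⟩)
      · change _ ∈ ω.ker
        rw [AddMonoidHom.mem_ker, map_sub, hωM m hm, sub_self]
      · change _ ∈ ω.ker
        rw [AddMonoidHom.mem_ker, natCast_zsmul, map_nsmul, hk]
    exact this hx
  have hωd : ∀ y, ω (E.d2 y) = 0 := by
    intro y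
    rw [hω, hud]
    rfl
  obtain ⟨η, hη1, hη2⟩ := c2_extend p hk (Kk M p P1) (fun b => AddSubgroup.subset_closure
      (Or.inr ⟨b, (natCast_zsmul b p).symm⟩)) E.d1 ω (by
    intro x hx
    obtain ⟨y, hy⟩ := exact_two E E' hE M p h x hx
    have := hωK _ hy
    rw [map_sub, hωd, sub_zero] at this
    exact this)
  have hηM : ∀ m ∈ M, ∀ x, η (m • x) = η x := by
    intro m hm x
    have h1 : η (m • x - x) = 0 := hη1 _ (AddSubgroup.subset_closure (Or.inl ⟨m, hm, x, rfl⟩))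
    rwa [map_sub, sub_eq_zero] at h1
  let v : P1 →+ Fn G M k :=
    { toFun := fun x q => Quotient.liftOn' q (fun g => η (g⁻¹ • x)) (by
        intro a b hab
        have hab' : a⁻¹ * b ∈ M := QuotientGroup.leftRel_apply.1 hab
        have h1 := hηM _ hab' (b⁻¹ • x)
        rw [← mul_smul] at h1
        simpa using h1)
      map_zero' := by
        funext q
        induction q using QuotientGroup.induction_on with
        | H g =>
          change η (g⁻¹ • (0 : P1)) = 0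
          rw [smul_zero, map_zero]
      map_add' := by
        intro x y
        funext q
        induction q using QuotientGroup.induction_on with
        | H g =>
          change η (g⁻¹ • (x + y)) = η (g⁻¹ • x) + η (g⁻¹ • y)
          rw [smul_add, map_add] }
  have hv : ∀ x (g : G), v x (g : G ⧸ M) = η (g⁻¹ • x) := fun x g => rfl
  refine ⟨v, ?_, ?_⟩
  · intro a x
    funext q
    induction q using QuotientGroup.induction_on with
    | H g =>
      rw [hv, Fn.smul_apply]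
      change _ = v x ((a⁻¹ * g : G) : G ⧸ M)
      rw [hv, ← mul_smul]
      simp
  · intro x
    funext q
    induction q using QuotientGroup.induction_on with
    | H g =>
      rw [hv, ← E.d1_smul, hη2, hω, hu, Fn.smul_apply]
      change u x (g : G ⧸ M) = u x ((g⁻¹⁻¹ * 1 : G) : G ⧸ M)
      simp

private theorem c3_sum {ι A : Type} [AddCommMonoid A] (F : ι → A) (s : Finset ι)
    (hs : ∀ i, i ∉ s → F i = 0) (Q : ι → Prop) [DecidablePred Q] :
    ∑ᶠ (i : ι) (_ : Q i), F i = ∑ i ∈ s.filter Q, F i := by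
  have h1 : ∀ i, (∑ᶠ (_ : Q i), F i) = if Q i then F i else 0 := fun i => finsum_eq_if
  rw [finsum_congr h1, finsum_eq_sum_of_support_subset (s := s), Finset.sum_filter]
  intro i hi
  by_contra h2
  apply hi
  simp only
  rw [hs i h2, ite_self]

private theorem c3_two {ι κ σ A : Type} [AddCommMonoid A] (F : ι → A) (s : Finset ι)
    (hs : ∀ i, i ∉ s → F i = 0) (f : ι → κ) (g : κ → σ) (q : σ) (H : κ → A)
    (hH : ∀ y, H y = ∑ᶠ (i : ι) (_ : f i = y), F i) :
    ∑ᶠ (y : κ) (_ : g y = q), H y = ∑ᶠ (i : ι) (_ : g (f i) = q), F i := by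
  classical
  have h1 : ∀ y : κ, H y = ∑ i ∈ s.filter (fun i => f i = y), F i := by
    intro y
    rw [hH, c3_sum F s hs]
  rw [c3_sum F s hs (fun i => g (f i) = q), c3_sum H (s.image f) ?_ (fun y => g y = q)]
  · simp only [h1]
    rw [← Finset.sum_fiberwise_of_maps_to (s := s.filter fun i => g (f i) = q)
      (t := (s.image f).filter fun y => g y = q) (g := f)]
    · refine Finset.sum_congr rfl fun y hy => ?_
      refine Finset.sum_congr ?_ fun _ _ => rfl
      rw [Finset.filter_filter]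
      refine Finset.filter_congr fun i _ => ?_
      constructor
      · intro h
        exact ⟨by rw [h]; exact (Finset.mem_filter.1 hy).2, h⟩
      · exact fun h => h.2
    · intro i hi
      rw [Finset.mem_filter] at hi ⊢
      exact ⟨Finset.mem_image_of_mem _ hi.1, hi.2⟩
  · intro y hy
    rw [h1]
    refine Finset.sum_eq_zero fun i hi => ?_
    rw [Finset.mem_filter] at hi
    exact absurd (Finset.mem_image.2 ⟨i, hi.1, hi.2⟩) hy

/-- PIECE FN-C3 (40 lines).  `pr ∘ vm M p x = vm N p x`: both sides at `(φ, q)` are the sum of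
`φ (g x)` over `g ∈ q` (`finsum` over the fibres). -/
theorem pr_vm (M N : Subgroup G) (hMN : M ≤ N) (p : ℕ) {P : Type} [AddCommGroup P]
    [DistribMulAction G P] (x : P) (φ : Fs G P) :
    pr M N hMN (ZMod p) (vm M p x φ) = vm N p x φ := by
  have hfin : {g : G | φ.1 (g • x) ≠ 0}.Finite := by
    have h1 := (φ.2 x).preimage (inv_injective.injOn (s := (fun g : G => g⁻¹) ⁻¹'
      {g : G | φ.1 (g⁻¹ • x) ≠ 0}))
    refine h1.subset fun g hg => ?_
    change φ.1 (g⁻¹⁻¹ • x) ≠ 0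
    rw [inv_inv]
    exact hg
  have hs0 : ∀ g, g ∉ hfin.toFinset → ((φ.1 (g • x) : ℤ) : ZMod p) = 0 := by
    intro g hg
    rw [Set.Finite.mem_toFinset] at hg
    have h2 : φ.1 (g • x) = 0 := by
      by_contra h3
      exact hg h3
    rw [h2, Int.cast_zero]
  refine Subtype.ext (funext fun q => ?_)
  rw [pr_apply, vm_apply]
  exact c3_two (fun g : G => ((φ.1 (g • x) : ℤ) : ZMod p)) hfin.toFinset hs0
    (fun g : G => (g : G ⧸ M)) (Subgroup.quotientMapOfLE hMN) q _ fun y => vm_apply M p x φ y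

private theorem fnc5_section (N : Subgroup G) :
    ∃ ν : G → N, ∀ (n : N) (g : G), ν ((n : G) * g) = n * ν g := by
  have h0 : ∀ g : G, g * (QuotientGroup.mk g⁻¹ : G ⧸ N).out ∈ N := by
    intro g
    obtain ⟨m, hm⟩ := QuotientGroup.mk_out_eq_mul N g⁻¹
    rw [hm, mul_inv_cancel_left]
    exact m.2
  refine ⟨fun g => ⟨g * (QuotientGroup.mk g⁻¹ : G ⧸ N).out, h0 g⟩, fun n g => ?_⟩
  apply Subtype.ext
  have h1 : (QuotientGroup.mk ((n : G) * g)⁻¹ : G ⧸ N) = QuotientGroup.mk g⁻¹ := by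
    rw [QuotientGroup.eq, inv_inv, mul_assoc, mul_inv_cancel, mul_one]
    exact n.2
  change (n : G) * g * (QuotientGroup.mk ((n : G) * g)⁻¹ : G ⧸ N).out
    = (n : G) * (g * (QuotientGroup.mk g⁻¹ : G ⧸ N).out)
  rw [h1, mul_assoc]

/-- PIECE FN-C5 (80 lines).  The cocycle of a homomorphism `l : N → A`, `A` any abelian group, on
the resolution `P` (which is a resolution over `ℤ[N]` too, but not finitely generated).  Choose a
section: for `g : G` write `g = n_g t_g` with `n_g ∈ N` and `t_g` the representative of `N g`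
(`n_{n g} = n n_g` for `n ∈ N`).  Put `B p = ∑ j, tw (φ_j) _ (fun g => ε(e_j) • l (n_g)) p` on `P0`.
Then `B (n p) = B p + ε(p) • l n` (as in `lift0_smul` of `Helper20/ACH/H1.lean`), and `ω = B ∘ d0`
works: `ω x = B (m p0) - B p0 = l m`. -/
theorem exists_omega (E : Reso G P0 P1 P2 P3) (N : Subgroup G) {A : Type} [AddCommGroup A]
    (l : N → A) (hl : ∀ a b, l (a * b) = l a + l b) :
    ∃ ω : P1 →+ A, (∀ (n : N) (x : P1), ω ((n : G) • x) = ω x) ∧ (∀ p, ω (E.d1 p) = 0) ∧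
      ∀ (m : N) (x : P1), E.d0 x = (m : G) • E.p0 - E.p0 → ω x = l m := by
  obtain ⟨ν, hν⟩ := fnc5_section (G := G) N
  obtain ⟨B, hB⟩ : ∃ B : P0 →+ A, B = E.b0.lift (fun j g => E.ε (E.b0.e j) • l (ν g)) := ⟨_, rfl⟩
  have key : ∀ (n : N) (p : P0), B ((n : G) • p) = B p + E.ε p • l n := by
    intro n p
    have h1 : E.ε p • l n = E.b0.lift (fun j (_ : G) => E.ε (E.b0.e j) • l n) p := by
      have h2 := E.b0.expand_inv E.ε (fun g p => E.ε_smul g p) p
      conv_lhs => rw [h2]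
      rw [DB.lift_apply, Finset.sum_smul]
      refine Finset.sum_congr rfl fun j _ => ?_
      rw [tw_const (E.b0.φ j) (E.b0.fs j) (E.ε (E.b0.e j) • l n) p,
        tw_const (E.b0.φ j) (E.b0.fs j) (E.ε (E.b0.e j)) p, smul_eq_mul, mul_smul]
    rw [hB, DB.lift_smul, h1, ← AddMonoidHom.add_apply, ← DB.lift_add]
    congr 2
    funext j g
    rw [hν, hl, smul_add, add_comm]
  have hε : ∀ x, E.ε (E.d0 x) = 0 := fun x => (E.exact0 _).2 ⟨x, rfl⟩
  refine ⟨B.comp E.d0, fun n x => ?_, fun p => ?_, fun m x hx => ?_⟩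
  · rw [AddMonoidHom.coe_comp, Function.comp_apply, Function.comp_apply, E.d0_smul, key, hε,
      zero_smul, add_zero]
  · rw [AddMonoidHom.coe_comp, Function.comp_apply, (E.exact1 _).2 ⟨p, rfl⟩, map_zero]
  · rw [AddMonoidHom.coe_comp, Function.comp_apply, hx, map_sub, key, E.ε_p0, one_smul,
      add_sub_cancel_left]

/-- PIECE FN-C4 (80 lines).  If `pr` induces `0` on `H^2` (for `E'`) then every homomorphism
`l : N → ℤ/p` is trivial on `M`.  For `m ∈ M` take `x : P1` with `d0 x = m p0 - p0`.  `vm M p x` is a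
two-cocycle on `E'` (`vm x (φ ∘ d0) = vm (d0 x) φ = 0`, as `d0 x ∈ Kk M p P0`), so
`pr ∘ vm M p x = vm N p x` is `w ∘ d1'`, `w = vm N p y`, `y : P2`, so `x - d1 y ∈ Kk N p P1`.
Now let `ω : P1 → ZMod p` be an `N`-invariant map with `ω ∘ d1 = 0` and `ω x = l m` for all `m ∈ N`
and `x` with `d0 x = m p0 - p0` (piece FN-C5); it kills `d1 P2` and `Kk N p P1`, so `l m = ω x = 0`. -/
theorem hom_trivial (E : Reso G P0 P1 P2 P3)
    (E' : Reso G (Fs G P3) (Fs G P2) (Fs G P1) (Fs G P0)) (hE : Dual E E') (M N : Subgroup G)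
    (hMN : M ≤ N) (p : ℕ) [Fact p.Prime] (h : E'.H2m (pr M N hMN (ZMod p)))
    (l : N → ZMod p) (hl : ∀ a b, l (a * b) = l a + l b) (m : N) (hm : (m : G) ∈ M) :
    l m = 0 := by
  have hx0 : E.ε ((m : G) • E.p0 - E.p0) = 0 := by
    rw [map_sub, E.ε_smul, sub_self]
  obtain ⟨x, hx⟩ := (E.exact0 _).1 hx0
  have h1 : ∀ φ, vm M p x (E'.d2 φ) = 0 := by
    intro φ
    rw [vm_comp E.d0 E.d0_smul M p x φ (E'.d2 φ) (hE.d2 φ), hx, vm_eq_zero M p _
      (AddSubgroup.subset_closure (Or.inl ⟨(m : G), hm, E.p0, rfl⟩))]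
    rfl
  obtain ⟨v, hv, hv'⟩ := h (vm M p x) (vm_eqv M p x) h1
  obtain ⟨y, rfl⟩ := exists_vm_eq E.b2 N p v hv
  have h2 : vm N p x = vm N p (E.d1 y) := by
    refine AddMonoidHom.ext fun φ => ?_
    rw [← pr_vm M N hMN p x φ, hv' φ, vm_comp E.d1 E.d1_smul N p y φ (E'.d1 φ) (hE.d1 φ)]
  have h3 : vm N p (x - E.d1 y) = 0 := by
    have h4 := vm_add N p (x - E.d1 y) (E.d1 y)
    rw [sub_add_cancel, h2] at h4
    exact left_eq_add.1 (h4.trans (add_comm _ _))
  have h5 := mem_Kk E.b1 N p _ h3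
  obtain ⟨ω, hω1, hω2, hω3⟩ := exists_omega E N l hl
  have h6 : ∀ z ∈ Kk N p P1, ω z = 0 := by
    intro z hz
    refine AddSubgroup.closure_induction (p := fun z _ => ω z = 0) ?_ (map_zero ω) ?_ ?_ hz
    · rintro _ (⟨n, hn, z, rfl⟩ | ⟨z, rfl⟩)
      · rw [map_sub, hω1 ⟨n, hn⟩ z, sub_self]
      · rw [map_zsmul, zsmul_eq_mul]
        simp
    · intro a b _ _ ha hb
      rw [map_add, ha, hb, add_zero]
    · intro a _ ha
      rw [map_neg, ha, neg_zero]
  have h7 := h6 _ h5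
  rw [map_sub, hω2, sub_zero] at h7
  rw [← hω3 m x hx, h7]

/-- PIECE FN-C6 (60 lines).  Conversely an `N`-invariant map `ω : P1 → A` with `ω ∘ d1 = 0` gives a
homomorphism `l : N → A`, `l m = ω x` for any `x` with `d0 x = m p0 - p0` (as in `exists_der`,
`De.lean`). -/
theorem exists_l (E : Reso G P0 P1 P2 P3) (N : Subgroup G) {A : Type} [AddCommGroup A]
    (ω : P1 →+ A) (h1 : ∀ (n : N) (x : P1), ω ((n : G) • x) = ω x)
    (h2 : ∀ p, ω (E.d1 p) = 0) :
    ∃ l : N → A, (∀ a b, l (a * b) = l a + l b) ∧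
      ∀ (m : N) (x : P1), E.d0 x = (m : G) • E.p0 - E.p0 → ω x = l m := by
  have hd : ∀ x y : P1, E.d0 x = E.d0 y → ω x = ω y := by
    intro x y hxy
    have h3 : E.d0 (x - y) = 0 := by rw [map_sub, hxy, sub_self]
    obtain ⟨q, hq⟩ := (E.exact1 (x - y)).1 h3
    have h4 := h2 q
    rw [hq, map_sub, sub_eq_zero] at h4
    exact h4
  have hx : ∀ m : N, ∃ x : P1, E.d0 x = (m : G) • E.p0 - E.p0 := by
    intro m
    refine (E.exact0 _).1 ?_
    rw [map_sub, E.ε_smul, sub_self]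
  choose X hX using hx
  refine ⟨fun m => ω (X m), ?_, fun m x h => hd _ _ (h.trans (hX m).symm)⟩
  intro a b
  have h5 : E.d0 (X (a * b)) = E.d0 (X a + (a : G) • X b) := by
    have h6 := E.d0_smul (a : G) (X b)
    rw [map_add, h6, hX, hX, hX, smul_sub, ← mul_smul, Subgroup.coe_mul]
    abel
  change ω (X (a * b)) = ω (X a) + ω (X b)
  rw [hd _ _ h5, map_add, h1]

/-- PIECE FN-C7 (120 lines).  If `N` is finitely generated then `H^2(G;F_p[G ⧸ N])` (for `E'`) is
finite; it is `H_1(N;F_p)`.  An equivariant cocycle `v : P1^* → F_p[G ⧸ N]` is `vm N p x`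
(`exists_vm_eq`), and `vm (d0 x) = 0`, so `d0 x ∈ Kk N p P0` (`mem_Kk`).  So
`d0 x = ∑ (n_i y_i - y_i) + p y` (finite sum; `AddSubgroup.closure_induction`).  `ε`: `p ε(y) = 0`, so
`y = d0 y'`; `y_i = ε(y_i) p0 + d0 y_i'`.  Choose `x_n` with `d0 x_n = n p0 - p0` for `n : N`.  Then
`x - p y' - ∑ (n_i y_i' - y_i') - ∑ ε(y_i) x_{n_i}` is in `ker d0 = im d1`.  So modulo
`d1 P2 + Kk N p P1` every such `x` is in the subgroup generated by the `x_n`.  Modulo this subgroup
`n ↦ x_n` is a homomorphism to a group of exponent `p`, so its image is finite, generated by the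
images of the generators of `N`.  For `x ≡ x'` modulo `d1 P2 + Kk N p P1`, `vm x - vm x'` is a
coboundary: `vm (d1 z) φ = vm z (φ ∘ d1)`. -/
theorem H2f_Ff (E : Reso G P0 P1 P2 P3)
    (E' : Reso G (Fs G P3) (Fs G P2) (Fs G P1) (Fs G P0)) (hE : Dual E E') (N : Subgroup G)
    (hN : N.FG) (p : ℕ) [Fact p.Prime] : E'.H2f (Ff G N (ZMod p)) := by
  classical
  have hp0 : (p : ℤ) ≠ 0 := by exact_mod_cast (Fact.out : p.Prime).ne_zero
  obtain ⟨X, hX⟩ : ∃ X : G → P1, ∀ g, E.d0 (X g) = g • E.p0 - E.p0 := by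
    have h : ∀ g : G, ∃ q, E.d0 q = g • E.p0 - E.p0 := fun g => (E.exact0 _).1 (by
      rw [map_sub, E.ε_smul, sub_self])
    exact ⟨fun g => (h g).choose, fun g => (h g).choose_spec⟩
  obtain ⟨R, hR⟩ : ∃ R : AddSubgroup P1, R = E.d1.range ⊔ Kk N p P1 := ⟨_, rfl⟩
  obtain ⟨π, hπ⟩ : ∃ π : P1 →+ P1 ⧸ R, π = QuotientAddGroup.mk' R := ⟨_, rfl⟩
  have hπ0 : ∀ x, π x = 0 ↔ x ∈ R := by
    intro x
    rw [hπ]
    exact QuotientAddGroup.eq_zero_iff x
  have hπd : ∀ z, π (E.d1 z) = 0 := by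
    intro z
    rw [hπ0, hR]
    exact AddSubgroup.mem_sup_left ⟨z, rfl⟩
  have hπK : ∀ k ∈ Kk N p P1, π k = 0 := by
    intro k hk
    rw [hπ0, hR]
    exact AddSubgroup.mem_sup_right hk
  have hker : ∀ x, E.d0 x = 0 → π x = 0 := by
    intro x hx
    obtain ⟨q, hq⟩ := (E.exact1 x).1 hx
    rw [← hq]
    exact hπd q
  have hπm : ∀ m ∈ N, ∀ z, π (m • z) = π z := by
    intro m hm z
    rw [← sub_eq_zero, ← map_sub]
    exact hπK _ (AddSubgroup.subset_closure (Or.inl ⟨m, hm, z, rfl⟩))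
  have hπp : ∀ z, (p : ℤ) • π z = 0 := by
    intro z
    rw [← map_zsmul]
    exact hπK _ (AddSubgroup.subset_closure (Or.inr ⟨z, rfl⟩))
  have hhom : ∀ m n : N, π (X ((m * n : N) : G)) = π (X (m : G)) + π (X (n : G)) := by
    intro m n
    have h1 : E.d0 (X ((m * n : N) : G) - (X (m : G) + (m : G) • X (n : G))) = 0 := by
      rw [map_sub, map_add, E.d0_smul, hX, hX, hX, Subgroup.coe_mul, smul_sub, mul_smul]
      abel
    have h2 := hker _ h1
    rw [map_sub, map_add, hπm _ m.2] at h2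
    exact sub_eq_zero.1 h2
  obtain ⟨f, hf⟩ : ∃ f : N →* Multiplicative (P1 ⧸ R),
      ∀ n : N, f n = Multiplicative.ofAdd (π (X (n : G))) := by
    refine ⟨MonoidHom.mk' (fun n => Multiplicative.ofAdd (π (X (n : G)))) ?_, fun n => rfl⟩
    intro a b
    change Multiplicative.ofAdd (π (X ((a * b : N) : G))) = _
    rw [hhom, ofAdd_add]
  haveI : Group.FG N := (Group.fg_iff_subgroup_fg N).2 hN
  haveI hfin : Finite f.range := by
    refine CommGroup.finite_of_fg_torsion _ ?_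
    rintro ⟨x, n, rfl⟩
    rw [isOfFinOrder_iff_pow_eq_one]
    refine ⟨p, (Fact.out : p.Prime).pos, ?_⟩
    refine Subtype.ext ?_
    change (f n) ^ p = 1
    rw [hf, ← ofAdd_nsmul]
    have := hπp (X (n : G))
    rw [natCast_zsmul] at this
    rw [this]
    rfl
  -- representatives
  have hrep : ∀ y : Multiplicative (P1 ⧸ R), ∃ n : N, y ∈ f.range → f n = y := by
    intro y
    by_cases h : y ∈ f.range
    · obtain ⟨n, hn⟩ := h
      exact ⟨n, fun _ => hn⟩
    · exact ⟨1, fun h' => absurd h' h⟩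
  choose r hr using hrep
  refine ⟨(fun y => vm N p (X (r y : G))) '' (f.range : Set (Multiplicative (P1 ⧸ R))),
    (Set.toFinite _).image _, ?_⟩
  intro u hu hu0
  obtain ⟨x, rfl⟩ := exists_vm_eq E.b1 N p u hu
  have hx0 : vm N p (E.d0 x) = 0 := by
    ext φ
    have h1 := hu0 φ
    rw [vm_comp E.d0 E.d0_smul N p x φ (E'.d2 φ) (hE.d2 φ)] at h1
    rw [h1]
    rfl
  have hxK : E.d0 x ∈ Kk N p P0 := mem_Kk E.b0 N p _ hx0
  -- decomposition
  have hdec : ∀ k ∈ Kk N p P0, ∃ (a : P1) (y : P0), k = E.d0 a + (p : ℤ) • y ∧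
      Multiplicative.ofAdd (π a) ∈ f.range := by
    intro k hk
    refine AddSubgroup.closure_induction (p := fun k _ => ∃ (a : P1) (y : P0),
      k = E.d0 a + (p : ℤ) • y ∧ Multiplicative.ofAdd (π a) ∈ f.range) ?_ ?_ ?_ ?_ hk
    · rintro k (⟨m, hm, z, rfl⟩ | ⟨z, rfl⟩)
      · obtain ⟨z', hz'⟩ := (E.exact0 (z - E.ε z • E.p0)).1 (by
          rw [map_sub, map_zsmul, E.ε_p0, smul_eq_mul, mul_one, sub_self])
        refine ⟨E.ε z • X m + (m • z' - z'), 0, ?_, ?_⟩
        · rw [map_add, map_sub, map_zsmul, E.d0_smul, hX, hz', smul_zero, add_zero, smul_sub,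
            smul_sub, smul_comm m (E.ε z) E.p0]
          abel
        · rw [map_add, map_sub, map_zsmul, hπm m hm, sub_self, add_zero, ofAdd_zsmul]
          exact Subgroup.zpow_mem f.range
            (show Multiplicative.ofAdd (π (X m)) ∈ f.range from ⟨⟨m, hm⟩, hf _⟩) _
      · refine ⟨0, z, ?_, ?_⟩
        · rw [map_zero, zero_add]
        · rw [map_zero, ofAdd_zero]
          exact Subgroup.one_mem _
    · refine ⟨0, 0, ?_, ?_⟩
      · rw [map_zero, smul_zero, add_zero]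
      · rw [map_zero, ofAdd_zero]
        exact Subgroup.one_mem _
    · rintro k1 k2 - - ⟨a1, y1, h1, h1'⟩ ⟨a2, y2, h2, h2'⟩
      refine ⟨a1 + a2, y1 + y2, ?_, ?_⟩
      · rw [h1, h2, map_add, smul_add]
        abel
      · rw [map_add, ofAdd_add]
        exact Subgroup.mul_mem _ h1' h2'
    · rintro k1 - ⟨a1, y1, h1, h1'⟩
      refine ⟨-a1, -y1, ?_, ?_⟩
      · rw [h1, map_neg, smul_neg]
        abel
      · rw [map_neg, ofAdd_neg]
        exact Subgroup.inv_mem _ h1'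
  obtain ⟨a, y, hay, ha⟩ := hdec _ hxK
  have hy0 : E.ε y = 0 := by
    have h1 : E.ε (E.d0 x) = 0 := (E.exact0 _).2 ⟨x, rfl⟩
    have h2 : E.ε (E.d0 a) = 0 := (E.exact0 _).2 ⟨a, rfl⟩
    rw [hay, map_add, h2, zero_add, map_zsmul, smul_eq_mul] at h1
    exact (mul_eq_zero.1 h1).resolve_left hp0
  obtain ⟨y', hy'⟩ := (E.exact0 y).1 hy0
  have hxa : π x = π a := by
    have h1 : E.d0 (x - (a + (p : ℤ) • y')) = 0 := by
      rw [map_sub, map_add, map_zsmul, hy', hay, sub_self]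
    have h2 := hker _ h1
    rw [map_sub, map_add, map_zsmul, hπp, add_zero] at h2
    exact sub_eq_zero.1 h2
  rw [← hxa] at ha
  have hn := hr _ ha
  obtain ⟨n, hn'⟩ : ∃ n, n = r (Multiplicative.ofAdd (π x)) := ⟨_, rfl⟩
  rw [← hn', hf] at hn
  have hn2 : π (X (n : G)) = π x := Multiplicative.ofAdd.injective hn
  have hmem : x - X (n : G) ∈ R := by
    rw [← hπ0, map_sub, hn2, sub_self]
  rw [hR, AddSubgroup.mem_sup] at hmem
  obtain ⟨b, ⟨z, rfl⟩, κ, hκ, hb⟩ := hmem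
  refine ⟨vm N p (X (n : G)), ⟨_, ha, ?_⟩, vm N p z, vm_eqv N p z, ?_⟩
  · change vm N p (X (r (Multiplicative.ofAdd (π x)) : G)) = _
    rw [← hn']
  intro φ
  have hxe : x = X (n : G) + (E.d1 z + κ) := by
    rw [hb]
    abel
  rw [vm_comp E.d1 E.d1_smul N p z φ (E'.d1 φ) (hE.d1 φ)]
  rw [hxe, vm_add, vm_add, vm_eq_zero N p κ hκ, add_zero]
  rfl

/-- PIECE FN-C8 (100 lines).  `H^2(N;F_p) = 0` implies that homomorphisms `N → ℤ/p^k` lift to
`ℤ/p^(k+1)`.  Let `ω : P1 → ZMod (p^k)` be the cocycle of `l` (`exists_omega`).  Lift it to an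
`N`-invariant `ω' : P1 → ZMod (p^(k+1))`: in terms of the dual basis,
`ω' x = ∑ j, tw (φ_j) _ (fun g => a_j(N g)) x`, where `a_j(N g)` is a lift of `ω (g e_j)`, which depends
only on `N g`.  `ω' ∘ d1` has values in `p^k ZMod (p^(k+1))`, which is killed by `p`; regard it as an
equivariant cocycle `P2 → Fn G N k'`, `k'` the additive group `p^k ZMod(p^(k+1))` (or the kernel of
the reduction), `x ↦ (g N ↦ ω' (d1 (g⁻¹ x)))`.  By hypothesis it is a coboundary, so
`ω' ∘ d1 = η ∘ d1`, `η` `N`-invariant with values in `k'`.  Apply `exists_l` to `ω' - η`. -/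
theorem lift_hom (E : Reso G P0 P1 P2 P3) (N : Subgroup G) (p : ℕ) [Fact p.Prime]
    (h : ∀ (k : Type) [AddCommGroup k], (∀ a : k, p • a = 0) → E.H2z (Fn G N k)) (k : ℕ)
    (l : N → ZMod (p ^ k)) (hl : ∀ a b, l (a * b) = l a + l b) :
    ∃ l' : N → ZMod (p ^ (k + 1)), (∀ a b, l' (a * b) = l' a + l' b) ∧
      ∀ a, ZMod.castHom (pow_dvd_pow p (Nat.le_succ k)) (ZMod (p ^ k)) (l' a) = l a := by
  obtain ⟨red, hred⟩ : ∃ red : ZMod (p ^ (k + 1)) →+ ZMod (p ^ k), ∀ a, red a =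
      ZMod.castHom (pow_dvd_pow p (Nat.le_succ k)) (ZMod (p ^ k)) a :=
    ⟨(ZMod.castHom (pow_dvd_pow p (Nat.le_succ k)) (ZMod (p ^ k))).toAddMonoidHom, fun _ => rfl⟩
  have hsurj : Function.Surjective red := fun b => by
    obtain ⟨a, ha⟩ := ZMod.castHom_surjective (pow_dvd_pow p (Nat.le_succ k)) b
    exact ⟨a, (hred a).trans ha⟩
  have hker : ∀ a : ZMod (p ^ (k + 1)), red a = 0 → p • a = 0 := fun a ha => by
    rw [hred] at ha
    obtain ⟨n, rfl⟩ := ZMod.intCast_surjective a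
    rw [map_intCast, CharP.intCast_eq_zero_iff (ZMod (p ^ k)) (p ^ k)] at ha
    obtain ⟨m, rfl⟩ := ha
    rw [nsmul_eq_mul]
    have h1 : ((p : ZMod (p ^ (k + 1))) * (((p ^ k : ℕ) : ℤ) * m : ℤ)) =
        ((p ^ (k + 1) : ℕ) : ZMod (p ^ (k + 1))) * (m : ZMod (p ^ (k + 1))) := by
      push_cast
      ring
    rw [h1, ZMod.natCast_self, zero_mul]
  obtain ⟨ω, hω1, hω2, hω3⟩ := exists_omega E N l hl
  choose sec hsec using hsurj
  obtain ⟨ω', hω'⟩ : ∃ ω' : P1 →+ ZMod (p ^ (k + 1)),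
      ω' = E.b1.lift fun j g => sec (ω (g • E.b1.e j)) := ⟨_, rfl⟩
  have h1 : ∀ (n : N) (x : P1), ω' ((n : G) • x) = ω' x := by
    intro n x
    rw [hω', DB.lift_smul]
    congr 2
    funext j g
    rw [mul_smul, hω1]
  have h2 : ∀ x, red (ω' x) = ω x := by
    intro x
    rw [hω', DB.lift_apply, map_sum, E.b1.expand ω x]
    refine Finset.sum_congr rfl fun j _ => ?_
    rw [map_tw]
    congr 2
    funext g
    rw [hsec]
  have hd12 : ∀ y, E.d1 (E.d2 y) = 0 := fun y => (E.exact2 _).2 ⟨y, rfl⟩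
  have key : ∀ (q : G ⧸ N) (g : G) (x : P2), (g : G ⧸ N) = q →
      ω' (E.d1 (q.out⁻¹ • x)) = ω' (E.d1 (g⁻¹ • x)) := by
    intro q g x hg
    have h3 : ((q.out : G) : G ⧸ N) = (g : G ⧸ N) := by
      rw [hg]
      exact Quotient.out_eq q
    have h4 : (q.out)⁻¹ * g ∈ N := QuotientGroup.eq.1 h3
    have h5 : (q.out)⁻¹ • x = ((⟨_, h4⟩ : N) : G) • g⁻¹ • x := by
      rw [smul_smul]
      congr 1
      change _ = (q.out)⁻¹ * g * g⁻¹
      rw [mul_inv_cancel_right]
    rw [h5, E.d1_smul, h1]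
  have hin : ∀ y : P2, ω' (E.d1 y) ∈ red.ker := fun y => by
    rw [AddMonoidHom.mem_ker, h2, hω2]
  obtain ⟨u, hu⟩ : ∃ u : P2 →+ Fn G N red.ker, ∀ x q,
      ((u x q : red.ker) : ZMod (p ^ (k + 1))) = ω' (E.d1 (q.out⁻¹ • x)) := by
    refine ⟨{ toFun := fun x => fun q => ⟨ω' (E.d1 (q.out⁻¹ • x)), hin _⟩
              map_zero' := ?_
              map_add' := fun x y => ?_ }, fun x q => rfl⟩
    · funext q
      refine Subtype.ext ?_
      change ω' (E.d1 (q.out⁻¹ • (0 : P2))) = 0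
      rw [smul_zero, map_zero, map_zero]
    · funext q
      refine Subtype.ext ?_
      change ω' (E.d1 (q.out⁻¹ • (x + y))) = ω' (E.d1 (q.out⁻¹ • x)) + ω' (E.d1 (q.out⁻¹ • y))
      rw [smul_add, map_add, map_add]
  obtain ⟨v, hv1, hv2⟩ := h red.ker (fun a => Subtype.ext (by
      change p • (a : ZMod (p ^ (k + 1))) = 0
      exact hker _ a.2)) u (fun g x => by
      funext q
      refine Subtype.ext ?_
      rw [hu, Fn.smul_apply, hu, key (g⁻¹ • q) (g⁻¹ * q.out) x (by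
        have h3 : ((g⁻¹ * q.out : G) : G ⧸ N) = g⁻¹ • ((q.out : G) : G ⧸ N) := rfl
        rw [h3]
        congr 1
        exact Quotient.out_eq q), mul_inv_rev, inv_inv, smul_smul]) (fun y => by
      funext q
      refine Subtype.ext ?_
      rw [hu, ← E.d2_smul, hd12, map_zero]
      rfl)
  obtain ⟨η, hη⟩ : ∃ η : P1 →+ ZMod (p ^ (k + 1)), ∀ x,
      η x = ((v x ((1 : G) : G ⧸ N) : red.ker) : ZMod (p ^ (k + 1))) := by
    refine ⟨{ toFun := fun x => ((v x ((1 : G) : G ⧸ N) : red.ker) : ZMod (p ^ (k + 1)))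
              map_zero' := ?_
              map_add' := fun x y => ?_ }, fun x => rfl⟩
    · rw [map_zero]
      rfl
    · rw [map_add, Fn.add_apply]
      rfl
  obtain ⟨l', hl1, hl2⟩ := exists_l E N (ω' - η) (fun n x => by
      rw [AddMonoidHom.sub_apply, AddMonoidHom.sub_apply, h1, hη, hη, hv1, Fn.smul_apply]
      have h3 : ((n : G))⁻¹ • ((1 : G) : G ⧸ N) = ((1 : G) : G ⧸ N) := by
        change (((n : G)⁻¹ * 1 : G) : G ⧸ N) = _
        rw [QuotientGroup.eq]
        simp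
      rw [h3]) (fun x => by
      have h3 := hv2 x
      rw [AddMonoidHom.id_apply] at h3
      rw [AddMonoidHom.sub_apply, hη, ← h3, hu, key _ 1 x rfl, inv_one, one_smul, sub_self])
  refine ⟨l', hl1, fun a => ?_⟩
  obtain ⟨x, hx⟩ := (E.exact0 ((a : G) • E.p0 - E.p0)).1 (by
    rw [map_sub, E.ε_smul, sub_self])
  rw [← hl2 a x hx, ← hred, AddMonoidHom.sub_apply, map_sub, h2, hω3 a x hx, hη]
  have h3 := (v x ((1 : G) : G ⧸ N)).2
  rw [AddMonoidHom.mem_ker] at h3
  rw [h3, sub_zero]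

/-- PIECE FN-C9 (60 lines).  If in addition `N` is finitely generated and has a non-trivial
homomorphism to `ℤ/p` then `N` maps onto `ℤ`.  Otherwise `Abelianization N` is finite
(`Pool.ACH.finite_abelianization` in `Helper20/ACH/F3.lean`), of exponent dividing `e > 0`.  By
induction there are `l_k : N → ZMod (p^k)`, `k ≥ 1`, lifting `l_1`; if `l_1 a ≠ 0` then `l_k a` is a
unit, and `e l_k a = 0`, a contradiction for `p^k > e`. -/
theorem maps_onto_int (E : Reso G P0 P1 P2 P3) (N : Subgroup G) (hN : N.FG) (p : ℕ)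
    [Fact p.Prime]
    (h : ∀ (k : Type) [AddCommGroup k], (∀ a : k, p • a = 0) → E.H2z (Fn G N k))
    (l : N → ZMod p) (hl : ∀ a b, l (a * b) = l a + l b) (a : N) (ha : l a ≠ 0) :
    ∃ f : N →* Multiplicative ℤ, Function.Surjective f := by
  by_contra hno
  have hp : p.Prime := Fact.out
  have hfg : Group.FG N := (Group.fg_iff_subgroup_fg N).2 hN
  have hfin : Finite (Abelianization N) := finite_abelianization hfg hno
  have he : 0 < Nat.card (Abelianization N) := Nat.card_pos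
  obtain ⟨e, hee⟩ : ∃ e, e = Nat.card (Abelianization N) := ⟨_, rfl⟩
  rw [← hee] at he
  -- the lifts
  have hlift : ∀ k : ℕ, ∃ l' : N → ZMod (p ^ (k + 1)), (∀ a b, l' (a * b) = l' a + l' b) ∧
      ∀ a, ZMod.castHom (dvd_pow_self p (Nat.succ_ne_zero k)) (ZMod p) (l' a) = l a := by
    intro k
    induction k with
    | zero =>
      have hd : p ^ (0 + 1) ∣ p := by rw [zero_add, pow_one]
      refine ⟨fun a => ZMod.castHom hd (ZMod (p ^ (0 + 1))) (l a), fun a b => ?_, fun a => ?_⟩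
      · beta_reduce
        rw [hl, map_add]
      · have h1 : (ZMod.castHom (dvd_pow_self p (Nat.succ_ne_zero 0)) (ZMod p)).comp
            (ZMod.castHom hd (ZMod (p ^ (0 + 1)))) = RingHom.id (ZMod p) := RingHom.ext_zmod _ _
        exact DFunLike.congr_fun h1 (l a)
    | succ k ih =>
      obtain ⟨l1, hl1, hl1'⟩ := ih
      obtain ⟨l2, hl2, hl2'⟩ := lift_hom E N p h (k + 1) l1 hl1
      refine ⟨l2, hl2, fun a => ?_⟩
      rw [← hl1' a, ← hl2' a]
      have h1 : (ZMod.castHom (dvd_pow_self p (Nat.succ_ne_zero k)) (ZMod p)).comp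
          (ZMod.castHom (pow_dvd_pow p (Nat.le_succ (k + 1))) (ZMod (p ^ (k + 1)))) =
          ZMod.castHom (dvd_pow_self p (Nat.succ_ne_zero (k + 1))) (ZMod p) :=
        RingHom.ext_zmod _ _
      exact (DFunLike.congr_fun h1 (l2 a)).symm
  obtain ⟨l', hl', hl''⟩ := hlift e
  have h0 : l' 1 = 0 := by
    have h1 := hl' 1 1
    rw [mul_one] at h1
    exact left_eq_add.1 h1
  let χ : N →* Multiplicative (ZMod (p ^ (e + 1))) :=
    { toFun := fun a => Multiplicative.ofAdd (l' a)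
      map_one' := by rw [h0]; rfl
      map_mul' := fun a b => by rw [hl']; rfl }
  have h2 : χ a ^ e = 1 := by
    have h3 : Abelianization.of a ^ e = 1 := by
      rw [hee]
      exact pow_card_eq_one'
    have h4 : Abelianization.lift χ (Abelianization.of a) = χ a := Abelianization.lift_apply_of χ a
    rw [← h4, ← map_pow, h3, map_one]
  have h5 : e • l' a = 0 := by
    have h6 : Multiplicative.ofAdd (e • l' a) = Multiplicative.ofAdd 0 := by
      rw [ofAdd_nsmul]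
      exact h2
    exact Multiplicative.ofAdd.injective h6
  have hne : NeZero (p ^ (e + 1)) := ⟨pow_ne_zero _ hp.ne_zero⟩
  have hunit : IsUnit (l' a) := by
    have h7 : ((l' a).val : ZMod (p ^ (e + 1))) = l' a := ZMod.natCast_zmod_val _
    rw [← h7, ZMod.isUnit_iff_coprime]
    refine Nat.Coprime.pow_right _ ?_
    rw [Nat.coprime_comm, hp.coprime_iff_not_dvd]
    intro hdvd
    apply ha
    rw [← hl'' a, ← h7, map_natCast]
    exact (ZMod.natCast_eq_zero_iff _ _).2 hdvd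
  rw [nsmul_eq_mul] at h5
  have h8 : ((e : ℕ) : ZMod (p ^ (e + 1))) = 0 := by
    obtain ⟨u, hu⟩ := hunit
    rw [← hu] at h5
    exact (Units.mul_left_eq_zero u).1 h5
  have h9 := Nat.le_of_dvd he ((ZMod.natCast_eq_zero_iff _ _).1 h8)
  have h10 : e < p ^ e := Nat.lt_pow_self hp.one_lt
  have h11 : p ^ e ≤ p ^ (e + 1) := Nat.pow_le_pow_right hp.pos (Nat.le_succ e)
  omega

end Pool.FN
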