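import Pool.Agent.Helper38.FN.Gp
import Pool.Agent.Helper38.FN.Fi
import Pool.Agent.Helper20.ACH.F2
import Pool.Agent.Helper20.ACH.F3
import Pool.Agent.Helper20.ACH.H1
import Pool.Agent.Helper20.ACH.HOM

/-! Project FN: `H^2(G;ℚ/ℤ) = 0`, the torus trick, and the last part of the proof. -/

set_option autoImplicit false

namespace Pool.FN

open Pool.ACH

/-- `ℚ / ℤ`. -/
abbrev QZ : Type := ℚ ⧸ (Int.castAddHom ℚ).range

variable {G : Type} [Group G]

section

variable {P0 P1 P2 P3 : Type} [AddCommGroup P0] [AddCommGroup P1]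
    [AddCommGroup P2] [AddCommGroup P3] [DistribMulAction G P0] [DistribMulAction G P1]
    [DistribMulAction G P2] [DistribMulAction G P3]

/-- An element of infinite order of an abelian group is not killed by some map to `ℚ`. -/
private lemma exists_rat_map {Q : Type} [AddCommGroup Q] (x : Q) (hx : ∀ n : ℤ, n • x = 0 → n = 0) :
    ∃ f : Q →+ ℚ, f x = 1 := by
  obtain ⟨f, hf⟩ := Module.Baer.extension_property_addMonoidHom
    (Module.Baer.of_divisible (A := ℚ)) (zmultiplesHom Q x)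
    ((injective_iff_map_eq_zero _).2 fun n hn => hx n hn) (Int.castAddHom ℚ)
  refine ⟨f, ?_⟩
  have h1 := DFunLike.congr_fun hf (1 : ℤ)
  simpa using h1

/-- PIECE FN-T1 (90 lines).  `H_1(G;ℤ)` is a torsion group: if `x : P1` and
`d0 x ∈ Kk ⊤ 0 P0` (the subgroup generated by the `g y - y`) then `n x = d1 y + k` for some `n > 0`,
`y : P2`, `k ∈ Kk ⊤ 0 P1`.  Otherwise the image of `x` in the abelian group
`P1 ⧸ (d1 P2 + Kk ⊤ 0 P1)` has infinite order, so (`ℚ` is divisible, injective) there is an additive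
map `ω : P1 → ℚ`, invariant, `ω ∘ d1 = 0`, `ω x ≠ 0`.  `PD3Data.exists_hom`
(`Helper20/ACH/HOM.lean`) gives `β : G → ℚ` additive and `B` with `ω = B ∘ d0`; `β = 0`
(`hom_rat_eq_zero`, `F2.lean`), so `B` is invariant and `ω x = B (d0 x) = 0`. -/
theorem h1_torsion (D : PD3Data G P0 P1 P2 P3) (hF : FAb G) (x : P1)
    (hx : D.d0 x ∈ Kk (⊤ : Subgroup G) 0 P0) :
    ∃ n : ℕ, 0 < n ∧ ∃ y : P2, (n : ℤ) • x - D.d1 y ∈ Kk (⊤ : Subgroup G) 0 P1 := by
  set R : AddSubgroup P1 := D.d1.range ⊔ Kk (⊤ : Subgroup G) 0 P1 with hR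
  by_cases hfin : ∀ n : ℤ, n • (QuotientAddGroup.mk x : P1 ⧸ R) = 0 → n = 0
  · exfalso
    obtain ⟨f, hf⟩ := exists_rat_map _ hfin
    set ω : P1 →+ ℚ := f.comp (QuotientAddGroup.mk' R) with hω
    have hker : ∀ y ∈ R, ω y = 0 := by
      intro y hy
      rw [hω, AddMonoidHom.comp_apply, QuotientAddGroup.mk'_apply,
        (QuotientAddGroup.eq_zero_iff y).2 hy, map_zero]
    have hinv : Inv G ω := by
      intro g p
      rw [← sub_eq_zero, ← map_sub]
      exact hker _ (AddSubgroup.mem_sup_right (AddSubgroup.subset_closure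
        (Or.inl ⟨g, Subgroup.mem_top g, p, rfl⟩)))
    obtain ⟨β, B, hβ, hB, hωB⟩ := D.exists_hom ω hinv fun p =>
      hker _ (AddSubgroup.mem_sup_left ⟨p, rfl⟩)
    have hβ0 : ∀ g, β g = 0 := by
      refine hom_rat_eq_zero D.fg ?_ β hβ
      rintro ⟨f, hf⟩
      exact hF ⊤ (by rw [Subgroup.index_top]; exact one_ne_zero)
        ⟨f.comp (Subgroup.topEquiv (G := G)).toMonoidHom,
          hf.comp (Subgroup.topEquiv (G := G)).surjective⟩
    have hB0 : ∀ y ∈ Kk (⊤ : Subgroup G) 0 P0, B y = 0 := by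
      intro y hy
      induction hy using AddSubgroup.closure_induction with
      | mem y hy =>
        rcases hy with ⟨m, -, z, rfl⟩ | ⟨z, rfl⟩
        · rw [map_sub, hB, hβ0, smul_zero, add_zero, sub_self]
        · rw [Nat.cast_zero, zero_smul, map_zero]
      | zero => exact map_zero B
      | add a b _ _ ha hb => rw [map_add, ha, hb, add_zero]
      | neg a _ ha => rw [map_neg, ha, neg_zero]
    have h1 : ω x = 1 := hf
    rw [hωB, hB0 _ hx] at h1
    exact zero_ne_one h1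
  · push Not at hfin
    obtain ⟨n, hn, hn0⟩ := hfin
    have h1 : n • x ∈ R := by
      rw [← QuotientAddGroup.eq_zero_iff, QuotientAddGroup.mk_zsmul]
      exact hn
    have h2 : ((n.natAbs : ℕ) : ℤ) • x ∈ R := by
      rcases Int.natAbs_eq n with h3 | h3
      · rwa [← h3]
      · have h4 : ((n.natAbs : ℕ) : ℤ) = - n := by omega
        rw [h4, neg_smul]
        exact R.neg_mem h1
    obtain ⟨a, ⟨y, hy⟩, b, hb, hab⟩ := AddSubgroup.mem_sup.1 h2
    refine ⟨n.natAbs, Int.natAbs_pos.2 hn0, y, ?_⟩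
    rw [← hab, ← hy, add_sub_cancel_left]
    exact hb

/-- PIECE FN-T2 (100 lines).  Invariant maps `P^* → ℚ/ℤ`.  (i) Every invariant additive
`v : P^* → ℚ/ℤ` is `φ ↦ (1/n) ∑_g φ(g x)` for some `n > 0`, `x : P` (`v = ∑ j, ∑_g φ(g e_j) v(φ_j)`,
`v(φ_j) = a_j / n` with a common denominator, `x = ∑ a_j e_j`).  (ii) if `n` divides
`∑_g φ(g x)` for all `φ : P^*` then `x ∈ Kk ⊤ n P` (as `mem_Kk` in `Rb.lean`:
`x = ∑ j, ∑_g φ_j(g⁻¹ x) g e_j ≡ ∑ j, (∑_g φ_j(g⁻¹ x)) e_j`). -/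
theorem inv_QZ {P : Type} [AddCommGroup P] [DistribMulAction G P] (b : DB G P)
    (v : Fs G P →+ QZ) (hv : ∀ (g : G) φ, v (g • φ) = v φ) :
    ∃ (n : ℕ) (x : P), 0 < n ∧ ∀ φ : Fs G P,
      v φ = QuotientAddGroup.mk (((∑ᶠ g : G, φ.1 (g • x) : ℤ) : ℚ) / n) := by
  classical
  have hfin : ∀ (φ : Fs G P) (e : P), (Function.support fun g : G => φ.1 (g • e)).Finite := by
    intro φ e
    have h := (φ.2 e).preimage (inv_injective.injOn (s := (fun g : G => g⁻¹) ⁻¹'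
      {g : G | φ.1 (g⁻¹ • e) ≠ 0}))
    refine h.subset fun g hg => ?_
    change φ.1 (g⁻¹⁻¹ • e) ≠ 0
    rw [inv_inv]
    exact hg
  let Φ : b.J → Fs G P := fun j => ⟨b.φ j, b.fs j⟩
  let ev : P → (Fs G P →+ ℤ) := fun p => AddMonoidHom.mk' (fun φ => φ.1 p) (fun φ ψ => rfl)
  have hv1 : ∀ φ : Fs G P, v φ = ∑ j, (∑ᶠ g : G, φ.1 (g • b.e j)) • v (Φ j) := by
    intro φ
    let T : Finset G := Finset.univ.biUnion fun j => (hfin φ (b.e j)).toFinset
    have hT : ∀ j g, φ.1 (g • b.e j) ≠ 0 → g ∈ T := by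
      intro j g h
      exact Finset.mem_biUnion.2 ⟨j, Finset.mem_univ _, (Set.Finite.mem_toFinset _).2 h⟩
    have h1 : φ = ∑ j, ∑ g ∈ T, φ.1 (g • b.e j) • (g • Φ j) := by
      apply Subtype.ext
      apply AddMonoidHom.ext
      intro p
      change φ.1 p = ev p (∑ j, ∑ g ∈ T, φ.1 (g • b.e j) • (g • Φ j))
      rw [map_sum, b.expand φ.1 p]
      refine Finset.sum_congr rfl fun j _ => ?_
      rw [map_sum, tw_apply, finsum_eq_sum_of_support_subset (s := T)]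
      · refine Finset.sum_congr rfl fun g _ => ?_
        rw [map_zsmul]
        change b.φ j (g⁻¹ • p) • φ.1 (g • b.e j) = φ.1 (g • b.e j) • b.φ j (g⁻¹ • p)
        rw [smul_eq_mul, smul_eq_mul, mul_comm]
      · intro g hg
        refine hT j g fun h => hg ?_
        beta_reduce
        rw [h, smul_zero]
    conv_lhs => rw [h1]
    rw [map_sum]
    refine Finset.sum_congr rfl fun j _ => ?_
    rw [map_sum, finsum_eq_sum_of_support_subset (s := T) (fun g : G => φ.1 (g • b.e j))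
      (fun g hg => hT j g hg), Finset.sum_smul]
    refine Finset.sum_congr rfl fun g _ => ?_
    rw [map_zsmul, hv]
  have hr0 : ∀ j, ∃ r : ℚ, v (Φ j) = QuotientAddGroup.mk r := fun j =>
    (QuotientAddGroup.mk_surjective (v (Φ j))).imp fun r h => h.symm
  choose r hr using hr0
  let n : ℕ := ∏ j, (r j).den
  have hn : 0 < n := Finset.prod_pos fun j _ => (r j).pos
  have ha0 : ∀ j, ∃ a : ℤ, r j = (a : ℚ) / n := by
    intro j
    obtain ⟨k, hk⟩ : (r j).den ∣ n := Finset.dvd_prod_of_mem _ (Finset.mem_univ j)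
    refine ⟨(r j).num * k, ?_⟩
    have h1 : ((r j).den : ℚ) ≠ 0 := Nat.cast_ne_zero.2 (r j).den_nz
    have h2 : (n : ℚ) ≠ 0 := Nat.cast_ne_zero.2 hn.ne'
    rw [eq_div_iff h2, hk]
    push_cast
    rw [← mul_assoc, Rat.mul_den_eq_num]
  choose a ha using ha0
  refine ⟨n, ∑ j, a j • b.e j, hn, fun φ => ?_⟩
  have hs : ∑ᶠ g : G, φ.1 (g • ∑ j, a j • b.e j) = ∑ j, a j * ∑ᶠ g : G, φ.1 (g • b.e j) := by
    have h1 : ∀ g : G, φ.1 (g • ∑ j, a j • b.e j) = ∑ j, a j * φ.1 (g • b.e j) := by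
      intro g
      rw [Finset.smul_sum, map_sum]
      refine Finset.sum_congr rfl fun j _ => ?_
      rw [smul_comm, map_zsmul, smul_eq_mul]
    rw [finsum_congr h1, finsum_sum_comm]
    · refine Finset.sum_congr rfl fun j _ => ?_
      rw [mul_finsum]
    · intro j _
      refine (hfin φ (b.e j)).subset fun g hg h => hg ?_
      beta_reduce
      rw [show φ.1 (g • b.e j) = 0 from h, mul_zero]
  rw [hv1, hs]
  have h3 : (((∑ j, a j * ∑ᶠ g : G, φ.1 (g • b.e j) : ℤ) : ℚ) / n) =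
      ∑ j, (∑ᶠ g : G, φ.1 (g • b.e j)) • r j := by
    rw [Int.cast_sum, Finset.sum_div]
    refine Finset.sum_congr rfl fun j _ => ?_
    rw [zsmul_eq_mul, Int.cast_mul]
    conv_rhs => rw [ha j]
    ring
  rw [h3]
  change _ = QuotientAddGroup.mk' (Int.castAddHom ℚ).range (∑ j, (∑ᶠ g : G, φ.1 (g • b.e j)) • r j)
  rw [map_sum]
  refine Finset.sum_congr rfl fun j _ => ?_
  rw [map_zsmul, hr]
  rfl

theorem mem_Kk_top {P : Type} [AddCommGroup P] [DistribMulAction G P] (b : DB G P) (n : ℕ)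
    (x : P) (h : ∀ φ : Fs G P, (n : ℤ) ∣ ∑ᶠ g : G, φ.1 (g • x)) :
    x ∈ Kk (⊤ : Subgroup G) n P := by
  let ω : P →+ P ⧸ Kk (⊤ : Subgroup G) n P := QuotientAddGroup.mk' _
  have h1 : ∀ (g : G) (y : P), ω (g • y) = ω y := by
    intro g y
    rw [← sub_eq_zero, ← map_sub]
    exact (QuotientAddGroup.eq_zero_iff _).2 (AddSubgroup.subset_closure
      (Or.inl ⟨g, Subgroup.mem_top g, y, rfl⟩))
  have h2 : ∀ y : P, (n : ℤ) • ω y = 0 := by
    intro y
    rw [← map_zsmul]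
    exact (QuotientAddGroup.eq_zero_iff _).2 (AddSubgroup.subset_closure (Or.inr ⟨y, rfl⟩))
  have h3 : ω x = 0 := by
    rw [b.expand ω x]
    refine Finset.sum_eq_zero fun j _ => ?_
    obtain ⟨k, hk⟩ := h ⟨b.φ j, b.fs j⟩
    have h4 : ∑ᶠ g : G, b.φ j (g⁻¹ • x) • ω (g • b.e j) =
        (∑ᶠ g : G, b.φ j (g⁻¹ • x)) • ω (b.e j) := by
      have h5 := AddMonoidHom.map_finsum ((zmultiplesHom (P ⧸ Kk (⊤ : Subgroup G) n P))
        (ω (b.e j))) (f := fun g : G => b.φ j (g⁻¹ • x)) (b.fs j x)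
      rw [zmultiplesHom_apply] at h5
      rw [h5]
      refine finsum_congr fun g => ?_
      rw [h1, zmultiplesHom_apply]
    have h6 : ∑ᶠ g : G, b.φ j (g⁻¹ • x) = ∑ᶠ g : G, b.φ j (g • x) :=
      finsum_comp_equiv (Equiv.inv G) (f := fun g : G => b.φ j (g • x))
    rw [tw_apply, h4, h6]
    change (∑ᶠ g : G, b.φ j (g • x)) = n * k at hk
    rw [hk, mul_comm, mul_smul, h2, smul_zero]
  exact (QuotientAddGroup.eq_zero_iff _).1 h3

private theorem fnt3_Kk0 {P : Type} [AddCommGroup P] [DistribMulAction G P] {k : Type*}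
    [AddCommGroup k] (ω : P →+ k) (hω : Inv G ω) (x : P) (hx : x ∈ Kk (⊤ : Subgroup G) 0 P) :
    ω x = 0 := by
  have h1 : Kk (⊤ : Subgroup G) 0 P ≤ ω.ker := by
    rw [Kk, AddSubgroup.closure_le]
    rintro y (⟨m, -, z, rfl⟩ | ⟨z, rfl⟩)
    · change ω (m • z - z) = 0
      rw [map_sub, hω, sub_self]
    · change ω (((0 : ℕ) : ℤ) • z) = 0
      rw [Nat.cast_zero, zero_smul, map_zero]
  exact h1 hx

private theorem fnt3_Kk {P : Type} [AddCommGroup P] [DistribMulAction G P] (n : ℕ) (x : P)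
    (hx : x ∈ Kk (⊤ : Subgroup G) n P) :
    ∃ y : P, x - (n : ℤ) • y ∈ Kk (⊤ : Subgroup G) 0 P := by
  refine AddSubgroup.closure_induction (p := fun x _ =>
    ∃ y : P, x - (n : ℤ) • y ∈ Kk (⊤ : Subgroup G) 0 P) ?_ ?_ ?_ ?_ hx
  · rintro y (⟨m, hm, z, rfl⟩ | ⟨z, rfl⟩)
    · refine ⟨0, ?_⟩
      rw [smul_zero, sub_zero]
      exact AddSubgroup.subset_closure (Or.inl ⟨m, hm, z, rfl⟩)
    · refine ⟨z, ?_⟩
      rw [sub_self]
      exact AddSubgroup.zero_mem _
  · refine ⟨0, ?_⟩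
    rw [smul_zero, sub_zero]
    exact AddSubgroup.zero_mem _
  · rintro a b _ _ ⟨y, hy⟩ ⟨z, hz⟩
    refine ⟨y + z, ?_⟩
    have h1 : a + b - (n : ℤ) • (y + z) = (a - (n : ℤ) • y) + (b - (n : ℤ) • z) := by
      rw [smul_add]
      abel
    rw [h1]
    exact AddSubgroup.add_mem _ hy hz
  · rintro a _ ⟨y, hy⟩
    refine ⟨-y, ?_⟩
    have h1 : -a - (n : ℤ) • (-y) = -(a - (n : ℤ) • y) := by
      rw [smul_neg]
      abel
    rw [h1]
    exact AddSubgroup.neg_mem _ hy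

/-- the total mass -/
private noncomputable def fnt3_T {P : Type} [AddCommGroup P] [DistribMulAction G P] (φ : Fs G P) :
    P →+ ℤ := tw φ.1 φ.2 (fun _ => (1 : ℤ))

private theorem fnt3_T_eq {P : Type} [AddCommGroup P] [DistribMulAction G P] (φ : Fs G P) (x : P) :
    ∑ᶠ g : G, φ.1 (g • x) = fnt3_T φ x := by
  rw [fnt3_T, tw_apply, ← finsum_comp_equiv (Equiv.inv G)]
  refine finsum_congr fun g => ?_
  rw [Equiv.inv_apply, smul_eq_mul, mul_one]

private theorem fnt3_T_add {P : Type} [AddCommGroup P] [DistribMulAction G P] (φ ψ : Fs G P)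
    (x : P) : fnt3_T (φ + ψ) x = fnt3_T φ x + fnt3_T ψ x := by
  rw [fnt3_T, fnt3_T, fnt3_T, ← AddMonoidHom.add_apply]
  exact congrArg (fun f : P →+ ℤ => f x) (tw_add_left φ.2 ψ.2 (φ + ψ).2 _)

private theorem fnt3_T_inv {P : Type} [AddCommGroup P] [DistribMulAction G P] (φ : Fs G P) :
    Inv G (fnt3_T φ) := tw_inv _ _ _

private theorem fnt3_T_smul {P : Type} [AddCommGroup P] [DistribMulAction G P] (h : G)
    (φ : Fs G P) (x : P) : fnt3_T (h • φ) x = fnt3_T φ x := by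
  rw [← fnt3_T_eq, ← fnt3_T_eq, ← finsum_comp_equiv (Equiv.mulLeft h)]
  refine finsum_congr fun g => ?_
  rw [Equiv.coe_mulLeft, Fs.smul_apply, mul_smul, inv_smul_smul]

private theorem fnt3_mk (a : ℤ) (n : ℕ) (hn : 0 < n)
    (h : (QuotientAddGroup.mk ((a : ℚ) / n) : QZ) = 0) : (n : ℤ) ∣ a := by
  rw [QuotientAddGroup.eq_zero_iff] at h
  obtain ⟨m, hm⟩ := h
  have hn' : (n : ℚ) ≠ 0 := by exact_mod_cast hn.ne'
  have h1 : (m : ℚ) = (a : ℚ) / n := hm
  rw [eq_div_iff hn'] at h1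
  exact ⟨m, by exact_mod_cast (by rw [← h1]; ring : (a : ℚ) = n * m)⟩

/-- the vanishing for the dual resolution -/
private theorem fnt3_main (D : PD3Data G P0 P1 P2 P3) (hF : FAb G)
    (v : Fs G P1 →+ QZ) (hv : ∀ (g : G) φ, v (g • φ) = v φ)
    (h : ∀ (ψ : Fs G P0) (φ : Fs G P1), (∀ p, φ.1 p = ψ.1 (D.d0 p)) → v φ = 0) :
    ∃ w : Fs G P2 →+ QZ, (∀ (g : G) ψ, w (g • ψ) = w ψ) ∧
      ∀ (φ : Fs G P1) (ψ : Fs G P2), (∀ p, ψ.1 p = φ.1 (D.d1 p)) → v φ = w ψ := by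
  obtain ⟨n, x, hn, hx⟩ := inv_QZ D.b1 v hv
  have hnQ : (n : ℚ) ≠ 0 := by exact_mod_cast hn.ne'
  have h1 : D.d0 x ∈ Kk (⊤ : Subgroup G) n P0 := by
    refine mem_Kk_top D.b0 n _ fun ψ => ?_
    have hfs : IsFs G (ψ.1.comp D.d0) := fun p => by
      refine (ψ.2 (D.d0 p)).subset fun g hg => ?_
      change ψ.1 (D.d0 (g⁻¹ • p)) ≠ 0 at hg
      rw [D.d0_smul] at hg
      exact hg
    obtain ⟨φ, hφ⟩ : ∃ φ : Fs G P1, ∀ p, φ.1 p = ψ.1 (D.d0 p) :=
      ⟨⟨ψ.1.comp D.d0, hfs⟩, fun p => rfl⟩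
    have h2 := h ψ φ hφ
    rw [hx] at h2
    have h3 := fnt3_mk _ n hn h2
    have h4 : ∑ᶠ g : G, φ.1 (g • x) = ∑ᶠ g : G, ψ.1 (g • D.d0 x) :=
      finsum_congr fun g => by rw [hφ, D.d0_smul]
    rw [← h4]
    exact h3
  obtain ⟨y, hy⟩ := fnt3_Kk n _ h1
  have h2 : D.ε y = 0 := by
    have h3 := fnt3_Kk0 D.ε (fun g p => D.ε_smul g p) _ hy
    have h4 : D.ε (D.d0 x) = 0 := (D.exact0 _).2 ⟨x, rfl⟩
    rw [map_sub, h4, map_zsmul, zero_sub, neg_eq_zero, smul_eq_mul] at h3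
    rcases mul_eq_zero.1 h3 with h5 | h5
    · exact absurd (by exact_mod_cast h5) hn.ne'
    · exact h5
  obtain ⟨y', hy'⟩ := (D.exact0 y).1 h2
  have h3 : D.d0 (x - (n : ℤ) • y') ∈ Kk (⊤ : Subgroup G) 0 P0 := by
    rw [map_sub, map_zsmul, hy']
    exact hy
  obtain ⟨m, hm, y2, hy2⟩ := h1_torsion D hF _ h3
  have hmQ : (m : ℚ) ≠ 0 := by exact_mod_cast hm.ne'
  refine ⟨{
    toFun := fun ψ => QuotientAddGroup.mk ((fnt3_T ψ y2 : ℚ) / (n * m))
    map_zero' := ?_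
    map_add' := ?_ }, ?_, ?_⟩
  · have h4 : fnt3_T (0 : Fs G P2) y2 = 0 := by
      have := fnt3_T_add (0 : Fs G P2) 0 y2
      rw [add_zero] at this
      omega
    rw [h4, Int.cast_zero, zero_div]
    rfl
  · intro ψ ψ'
    rw [fnt3_T_add, Int.cast_add, add_div]
    rfl
  · intro g ψ
    change QuotientAddGroup.mk ((fnt3_T (g • ψ) y2 : ℚ) / (n * m)) =
      QuotientAddGroup.mk ((fnt3_T ψ y2 : ℚ) / (n * m))
    rw [fnt3_T_smul]
  · intro φ ψ hψ
    change v φ = QuotientAddGroup.mk ((fnt3_T ψ y2 : ℚ) / (n * m))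
    rw [hx φ, fnt3_T_eq]
    have h4 : fnt3_T ψ y2 = fnt3_T φ (D.d1 y2) := by
      rw [← fnt3_T_eq, ← fnt3_T_eq]
      refine finsum_congr fun g => ?_
      rw [hψ, D.d1_smul]
    have h5 := fnt3_Kk0 (fnt3_T φ) (fnt3_T_inv φ) _ hy2
    rw [map_sub, map_zsmul, map_sub, map_zsmul, sub_eq_zero, ← h4, smul_eq_mul, smul_eq_mul] at h5
    have h6 : (fnt3_T φ x : ℚ) / n = (fnt3_T ψ y2 : ℚ) / (n * m) + (fnt3_T φ y' : ℤ) := by
      rw [← h5]
      push_cast
      field_simp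
      ring
    rw [h6, QuotientAddGroup.mk_add]
    have h7 : (QuotientAddGroup.mk ((fnt3_T φ y' : ℤ) : ℚ) : QZ) = 0 :=
      (QuotientAddGroup.eq_zero_iff _).2 ⟨fnt3_T φ y', rfl⟩
    rw [h7, add_zero]

/-- PIECE FN-T3 (120 lines).  `H^2(G;ℚ/ℤ) = 0`.  Let `E = ofPD3 D`, `E'` its dual (`exists_dual`).
By `H2m_trans` (coefficients `Fn G ⊤ QZ`) it is enough to prove the vanishing for `E'`.  Let
`v : P1^* → ℚ/ℤ` be invariant with `v (ψ ∘ d0) = 0` for `ψ : P0^*`.  `v φ = (1/n) ∑_g φ(g x)`.  For all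
`ψ`: `n ∣ ∑_g ψ(g d0 x)`, so `d0 x ∈ Kk ⊤ n P0`, `d0 x = k + n y` with `k ∈ Kk ⊤ 0 P0`,
`n ε(y) = 0`, `y = d0 y'`; replace `x` by `x - n y'` (`v` does not change).  `h1_torsion`:
`m x = d1 y + k`; `v φ = (1/(n m)) ∑_g φ(g d1 y)`, so `v = w ∘ d1'` with
`w ψ = (1/(n m)) ∑_g ψ(g y)`. -/
theorem H2_QZ (D : PD3Data G P0 P1 P2 P3) (hD1 : DOne (ofPD3 D)) (hF : FAb G)
    (hinf : Infinite G) (ω : P2 →+ QZ) (hω : Inv G ω) (h : ∀ p, ω (D.d2 p) = 0) :
    ∃ η : P1 →+ QZ, Inv G η ∧ ∀ p, ω p = η (D.d1 p) := by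
  obtain ⟨E', e0, e1, e2⟩ := exists_dual D hD1 hinf
  have hsub : Subsingleton (G ⧸ (⊤ : Subgroup G)) := QuotientGroup.subsingleton_quotient_top
  have hsm : ∀ (g : G) (f : Fn G (⊤ : Subgroup G) QZ), g • f = f := fun g f =>
    funext fun x => by
      rw [Fn.smul_apply]
      exact congrArg f (Subsingleton.elim _ _)
  have hid : Eqv G (AddMonoidHom.id (Fn G (⊤ : Subgroup G) QZ)) := fun g p => rfl
  have claim : E'.H2m (AddMonoidHom.id (Fn G (⊤ : Subgroup G) QZ)) := by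
    intro v hv hv0
    obtain ⟨w, hw1, hw2⟩ := fnt3_main D hF
      { toFun := fun φ => v φ ((1 : G) : G ⧸ (⊤ : Subgroup G))
        map_zero' := by rw [map_zero]; rfl
        map_add' := fun a b => by rw [map_add]; rfl }
      (fun g φ => by
        change v (g • φ) _ = v φ _
        rw [hv, hsm])
      (fun ψ φ hφ => by
        change v φ _ = 0
        have h1 : φ = E'.d2 ψ := Subtype.ext (AddMonoidHom.ext fun p => by rw [hφ, e2])
        rw [h1, hv0]
        rfl)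
    refine ⟨{ toFun := fun ψ => (fun _ => w ψ)
              map_zero' := by
                funext x
                rw [map_zero]
                rfl
              map_add' := fun a b => by
                funext x
                rw [map_add]
                rfl }, ?_, ?_⟩
    · intro g ψ
      funext x
      exact hw1 g ψ
    · intro φ
      funext x
      have h1 := hw2 φ (E'.d1 φ) (fun p => e1 φ p)
      have h2 : x = ((1 : G) : G ⧸ (⊤ : Subgroup G)) := Subsingleton.elim _ _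
      rw [h2]
      exact h1
  have key := H2m_trans E' (ofPD3 D) _ hid claim
  obtain ⟨v, hv, hv1⟩ := key
    { toFun := fun p => (fun _ => ω p)
      map_zero' := by
        funext x
        rw [map_zero]
        rfl
      map_add' := fun a b => by
        funext x
        rw [map_add]
        rfl }
    (fun g p => by
      funext x
      exact hω g p)
    (fun p => by
      funext x
      exact h p)
  refine ⟨{ toFun := fun p => v p ((1 : G) : G ⧸ (⊤ : Subgroup G))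
            map_zero' := by rw [map_zero]; rfl
            map_add' := fun a b => by rw [map_add]; rfl }, fun g p => ?_, fun p => ?_⟩
  · change v (g • p) _ = v p _
    rw [hv, hsm]
  · exact congrFun (hv1 p) _

private noncomputable def t4_lift1 (D : PD3Data G P0 P1 P2 P3) (B : G → G → QZ) : P1 →+ QZ :=
  D.b1.lift (fun j g => D.q (B g) (D.b1.e j))

private theorem t4_lift1_smul (D : PD3Data G P0 P1 P2 P3) (B : G → G → QZ)
    (h1 : ∀ g h k, B (g * h) k = B g k + B h k) (h2 : ∀ g h k, B g (h * k) = B g h + B g k)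
    (h : G) (p : P1) : t4_lift1 D B (h • p) = t4_lift1 D B p + D.q (B h) p := by
  have h3 : D.q (B h) p = D.b1.lift (fun j (_ : G) => D.q (B h) (D.b1.e j)) p := by
    rw [DB.lift_apply]
    exact D.b1.expand_inv (D.q (B h)) (D.q_inv _ (h2 h)) p
  have h4 : ∀ g : G, B (h * g) = fun k => B g k + B h k := by
    intro g
    funext k
    rw [h1, add_comm]
  rw [h3, t4_lift1, DB.lift_smul, ← AddMonoidHom.add_apply, ← DB.lift_add]
  congr 2
  funext j g
  rw [h4, PD3Data.q_add, AddMonoidHom.add_apply]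

/-- PIECE FN-T4 (120 lines).  Hence every biadditive `B : G × G → ℚ/ℤ` is the defect of some
`κ : G → ℚ/ℤ`.  This is `exists_kappa` of `Helper20/ACH/O2.lean` (and `ob_inv`, `O1.lean`) with the
field `F` replaced by the abelian group `ℚ/ℤ`: copy `lift1`, `ob` (`Ob.lean`), `O1.lean`, `O2.lean`
(`PD3Data.q`, `lift0` in `H1.lean` are already for abelian groups). -/
theorem exists_kappa_QZ (D : PD3Data G P0 P1 P2 P3) (hD1 : DOne (ofPD3 D)) (hF : FAb G)
    (hinf : Infinite G) (B : G → G → QZ) (h1 : ∀ g h k, B (g * h) k = B g k + B h k)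
    (h2 : ∀ g h k, B g (h * k) = B g h + B g k) :
    ∃ κ : G → QZ, ∀ g h, κ (g * h) = κ g + κ h + B g h := by
  obtain ⟨u, hu, he⟩ := H2_QZ D hD1 hF hinf ((t4_lift1 D B).comp D.d1)
    (fun g p => by
      rw [AddMonoidHom.coe_comp, Function.comp_apply, Function.comp_apply, D.d1_smul,
        t4_lift1_smul D B h1 h2, D.q_d1, add_zero])
    (fun p => by
      rw [AddMonoidHom.coe_comp, Function.comp_apply, D.d1_d2, map_zero])
  obtain ⟨w, hw⟩ : ∃ w : P1 →+ QZ, w = t4_lift1 D B - u := ⟨_, rfl⟩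
  have hw1 : ∀ p : P2, w (D.d1 p) = 0 := by
    intro p
    have h3 : t4_lift1 D B (D.d1 p) = u (D.d1 p) := he p
    rw [hw, AddMonoidHom.sub_apply, h3, sub_self]
  have hw2 : ∀ (g : G) (p : P1), w (g • p) = w p + D.q (B g) p := by
    intro g p
    rw [hw, AddMonoidHom.sub_apply, AddMonoidHom.sub_apply, t4_lift1_smul D B h1 h2 g p, hu g p]
    abel
  have hw3 : ∀ a b : P1, D.d0 a = D.d0 b → w a = w b := by
    intro a b hab
    have h3 : D.d0 (a - b) = 0 := by rw [map_sub, hab, sub_self]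
    obtain ⟨c, hc⟩ := (D.exact1 _).1 h3
    have h4 := hw1 c
    rw [hc, map_sub] at h4
    exact sub_eq_zero.1 h4
  have hy : ∀ g : G, ∃ y : P1, D.d0 y = g • D.p0 - D.p0 := by
    intro g
    apply (D.exact0 _).1
    rw [map_sub, D.ε_smul, sub_self]
  choose y hy using hy
  refine ⟨fun g => w (y g), fun g h => ?_⟩
  have h3 : D.d0 (y (g * h)) = D.d0 (g • y h + y g) := by
    rw [map_add, D.d0_smul, hy, hy, hy, smul_sub, mul_smul]
    abel
  have h4 : D.q (B g) (y h) = B g h := by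
    have h5 : D.q (B g) (y h) = D.lift0 (B g) (D.d0 (y h)) := rfl
    rw [h5, hy, map_sub, D.lift0_smul (B g) (fun a b => h2 g a b), D.ε_p0, one_smul]
    abel
  change w (y (g * h)) = w (y g) + w (y h) + B g h
  rw [hw3 _ _ h3, map_add, hw2, h4]
  abel

end

private theorem t5_mk_zero (q : ℚ) : (QuotientAddGroup.mk q : QZ) = 0 ↔ ∃ k : ℤ, (k : ℚ) = q := by
  rw [QuotientAddGroup.eq_zero_iff]
  exact AddMonoidHom.mem_range

private theorem t5_tors (x : QZ) : ∃ n : ℕ, 0 < n ∧ n • x = 0 := by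
  obtain ⟨q, rfl⟩ := QuotientAddGroup.mk_surjective x
  refine ⟨q.den, q.den_pos, ?_⟩
  rw [← QuotientAddGroup.mk_nsmul, t5_mk_zero]
  exact ⟨q.num, by rw [nsmul_eq_mul, mul_comm, Rat.mul_den_eq_num]⟩

private theorem t5_iota (p : ℕ) [hp : Fact p.Prime] : ∃ ι : ZMod p →+ QZ,
    Function.Injective ι ∧ (∀ a, p • ι a = 0) ∧ ∀ x : QZ, p • x = 0 → ∃ a, ι a = x := by
  have hp0 : (p : ℚ) ≠ 0 := by exact_mod_cast hp.out.ne_zero
  have hm : ∀ m : ℤ, (zmultiplesHom QZ (QuotientAddGroup.mk (1 / (p : ℚ)))) m =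
      QuotientAddGroup.mk ((m : ℚ) / p) := by
    intro m
    rw [zmultiplesHom_apply, ← QuotientAddGroup.mk_zsmul, zsmul_eq_mul, mul_one_div]
  have hp1 : (zmultiplesHom QZ (QuotientAddGroup.mk (1 / (p : ℚ)))) (p : ℤ) = 0 := by
    rw [hm, t5_mk_zero]
    exact ⟨1, by push_cast; rw [div_self hp0]⟩
  refine ⟨ZMod.lift p ⟨_, hp1⟩, ?_, ?_, ?_⟩
  · rw [ZMod.lift_injective]
    intro m h
    rw [hm, t5_mk_zero] at h
    obtain ⟨k, hk⟩ := h
    have : (m : ℚ) = k * p := by rw [hk, div_mul_cancel₀ _ hp0]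
    have h2 : m = k * p := by exact_mod_cast this
    rw [h2]
    push_cast
    simp
  · intro a
    rw [← map_nsmul]
    simp
  · intro x hx
    obtain ⟨q, rfl⟩ := QuotientAddGroup.mk_surjective x
    rw [← QuotientAddGroup.mk_nsmul, t5_mk_zero] at hx
    obtain ⟨k, hk⟩ := hx
    refine ⟨(k : ZMod p), ?_⟩
    rw [ZMod.lift_coe, hm, hk, nsmul_eq_mul, mul_div_cancel_left₀ _ hp0]

private theorem t5_le {z : G} {A : Subgroup G} (h : Ctx G z A) (f : G → QZ)
    (hf : ∀ a b, f (a * b) = f a + f b) (a : G) (ha : a ∈ A) : f a = 0 := by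
  have hfg : Group.FG G := h.good.fg
  let φ : G →* Multiplicative QZ :=
    MonoidHom.mk' (fun x => Multiplicative.ofAdd (f x)) fun x y => by rw [hf, ofAdd_add]
  have htor : Monoid.IsTorsion φ.range := by
    intro x
    obtain ⟨y, hy⟩ := x
    obtain ⟨n, hn, h0⟩ := t5_tors (Multiplicative.toAdd y)
    rw [isOfFinOrder_iff_pow_eq_one]
    refine ⟨n, hn, ?_⟩
    ext
    exact h0
  have hfin : Finite φ.range := CommGroup.finite_of_fg_torsion _ htor
  have hi : φ.ker.index ≠ 0 := by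
    rw [Subgroup.index_ker]
    exact Nat.card_pos.ne'
  have h1 := h.res φ.ker hi ha
  rw [MonoidHom.mem_ker] at h1
  exact h1

/-- PIECE FN-T5 (90 lines).  The torus trick.  `B g h = (α g * β h)/p : QZ` (biadditive: the map
`ZMod p → ℚ/ℤ`, `a ↦ a/p`), `κ` as in `exists_kappa_QZ`.  `α`, `β` vanish on `A` (kernels of finite
index, `Ctx.res`).  `p κ` is additive `G → ℚ/ℤ`; `G` is finitely generated, so its image is finite,
so `p κ = 0` on `A`.  On `A`, `κ` is additive with values in the image of `ZMod p`, and invariant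
under conjugation (`κ(g a g⁻¹) = κ a`), so it is `0` by `Ctx.tau`.  With `a = z x z⁻¹ x⁻¹`
(in `A`: apply `comm` to `x⁻¹`... `z x z⁻¹ x⁻¹ = (x z x⁻¹ z⁻¹)⁻¹`), `z x = a (x z)`:
`κ(z x) = κ(a) + κ(x z) + B a (x z) = κ(x z)`, so `B z x = B x z`, `α z β x = α x β z` in `ZMod p`. -/
theorem Ctx.torus {z : G} {A : Subgroup G} (h : Ctx G z A) (hinf : Infinite G) (p : ℕ)
    [Fact p.Prime] (α β : G → ZMod p) (hα : ∀ a b, α (a * b) = α a + α b)
    (hβ : ∀ a b, β (a * b) = β a + β b) (x : G) : α z * β x = α x * β z := by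
  obtain ⟨ι, hinj, hp0, hsur⟩ := t5_iota p
  obtain ⟨hF, P0, P1, P2, P3, _, _, _, _, _, _, _, _, D, hD1⟩ := h.good
  obtain ⟨κ, hκ⟩ := exists_kappa_QZ D hD1 hF hinf (fun g h => ι (α g * β h))
    (fun g h k => by rw [← map_add, hα, add_mul]) (fun g h k => by rw [← map_add, hβ, mul_add])
  have hαA : ∀ a ∈ A, α a = 0 := fun a ha => hinj (by
    rw [map_zero]
    exact t5_le h (fun g => ι (α g)) (fun a b => by rw [hα, map_add]) a ha)
  have hβA : ∀ a ∈ A, β a = 0 := fun a ha => hinj (by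
    rw [map_zero]
    exact t5_le h (fun g => ι (β g)) (fun a b => by rw [hβ, map_add]) a ha)
  have hpκ : ∀ a ∈ A, p • κ a = 0 := t5_le h (fun g => p • κ g) (fun a b => by
    rw [hκ, smul_add, smul_add, hp0, add_zero])
  choose τ hτ using fun a : A => hsur (κ a) (hpκ a a.2)
  have hκA : ∀ a ∈ A, κ a = 0 := by
    have hτ0 := h.tau p inferInstance τ (fun a b => hinj (by
        rw [map_add, hτ, hτ, hτ, Subgroup.coe_mul, hκ, hαA a a.2, zero_mul, map_zero, add_zero]))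
      (fun a a' ha => hinj (by
        rw [hτ, hτ]
        have e1 : z * (a : G) = a' * z := by rw [ha]; group
        have e2 := hκ z a
        rw [e1, hκ, hαA a' a'.2, hβA a a.2, zero_mul, mul_zero, map_zero, add_zero, add_zero,
          add_comm] at e2
        exact add_left_cancel e2))
    intro a ha
    have := hτ ⟨a, ha⟩
    rw [hτ0, map_zero] at this
    exact this.symm
  have haA : z * x * z⁻¹ * x⁻¹ ∈ A := by
    have := inv_mem (h.comm x)
    have e : (x * z * x⁻¹ * z⁻¹)⁻¹ = z * x * z⁻¹ * x⁻¹ := by group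
    rwa [e] at this
  have e1 : z * x = (z * x * z⁻¹ * x⁻¹) * (x * z) := by group
  have e2 := hκ z x
  rw [e1, hκ (z * x * z⁻¹ * x⁻¹) (x * z), hκ x z, hκA _ haA, hαA _ haA, zero_mul, map_zero, zero_add, add_zero, add_comm (κ x)] at e2
  exact (hinj (add_left_cancel e2)).symm

/-- PIECE FN-T6 (60 lines).  The context for a subgroup `L` of finite index with `z ∈ L`:
`A.subgroupOf L` (`A ≤ L` by `res`). -/
theorem Ctx.restrict {z : G} {A : Subgroup G} (h : Ctx G z A) (L : Subgroup G)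
    (hL : L.index ≠ 0) (hz : z ∈ L) : Ctx L ⟨z, hz⟩ (A.subgroupOf L) := by
  have hAL : A ≤ L := h.res L hL
  refine ⟨h.good.restrict L hL, fun g => ?_, fun K hK => ?_, fun p hp τ hτ hinv a => ?_⟩
  · rw [Subgroup.mem_subgroupOf]
    exact h.comm g
  · have h1 : (K.map L.subtype).index ≠ 0 := by
      rw [Subgroup.index_map_subtype]
      exact mul_ne_zero hK hL
    intro x hx
    obtain ⟨y, hy, hyx⟩ := Subgroup.mem_map.1 (h.res _ h1 (Subgroup.mem_subgroupOf.1 hx))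
    have h2 : y = x := Subtype.ext hyx
    rwa [h2] at hy
  · have hm : ∀ b : A, (⟨(b : G), hAL b.2⟩ : L) ∈ A.subgroupOf L := fun b =>
      Subgroup.mem_subgroupOf.2 b.2
    have h3 := h.tau p hp (fun b => τ ⟨⟨(b : G), hAL b.2⟩, hm b⟩)
      (fun b c => hτ ⟨⟨(b : G), hAL b.2⟩, hm b⟩ ⟨⟨(c : G), hAL c.2⟩, hm c⟩)
      (fun b b' hb => hinv ⟨⟨(b : G), hAL b.2⟩, hm b⟩ ⟨⟨(b' : G), hAL b'.2⟩, hm b'⟩
        (Subtype.ext hb)) ⟨((a : L) : G), Subgroup.mem_subgroupOf.1 a.2⟩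
    exact h3

/-- PIECE FN-T7 (20 lines).  In `L`: if `α z ≠ 0` and `β z = 0` then `β = 0`. -/
theorem Ctx.uniq {z : G} {A : Subgroup G} (h : Ctx G z A) (hinf : Infinite G) (L : Subgroup G)
    (hL : L.index ≠ 0) (hz : z ∈ L) (p : ℕ) [Fact p.Prime] (α β : L → ZMod p)
    (hα : ∀ a b, α (a * b) = α a + α b) (hβ : ∀ a b, β (a * b) = β a + β b)
    (hαz : α ⟨z, hz⟩ ≠ 0) (hβz : β ⟨z, hz⟩ = 0) (x : L) : β x = 0 := by
  have hinfL : Infinite L := by
    by_contra hcon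
    rw [not_infinite_iff_finite] at hcon
    apply hinf.not_finite
    apply Nat.finite_of_card_ne_zero
    rw [← Subgroup.card_mul_index L]
    exact mul_ne_zero Nat.card_pos.ne' hL
  have h1 := (h.restrict L hL hz).torus hinfL p α β hα hβ x
  rw [hβz, mul_zero] at h1
  exact (mul_eq_zero.1 h1).resolve_left hαz

private theorem t8_log {H Q : Type} [Group H] [Group Q] (f : H →* Q) (y : Q) (p : ℕ)
    (hy : p ∣ orderOf y) (hf : ∀ a, ∃ i : ℤ, f a = y ^ i) :
    ∃ α : H → ZMod p, (∀ a b, α (a * b) = α a + α b) ∧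
      ∀ (a : H) (i : ℤ), f a = y ^ i → α a = i := by
  choose i hi using hf
  have key : ∀ (a : H) (j : ℤ), f a = y ^ j → ((i a : ℤ) : ZMod p) = j := by
    intro a j hj
    have h1 : y ^ (i a) = y ^ j := by rw [← hi, hj]
    have h2 : i a ≡ j [ZMOD (orderOf y : ℤ)] := zpow_eq_zpow_iff_modEq.1 h1
    have h3 : i a ≡ j [ZMOD (p : ℤ)] := h2.of_dvd (Int.natCast_dvd_natCast.2 hy)
    exact (ZMod.intCast_eq_intCast_iff _ _ _).2 h3
  refine ⟨fun a => (i a : ZMod p), fun a b => ?_, key⟩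
  have h1 := key (a * b) (i a + i b) (by rw [map_mul, hi a, hi b, zpow_add])
  rw [Int.cast_add] at h1
  exact h1

/-- PIECE FN-T8 (150 lines).  For every prime `p` the `p`-part of the order of `z` in the finite
quotients of `G` is bounded.  If `p` divides no order take `n = 1`.  Otherwise let `K₀` be normal of
finite index, `p` dividing the order of `z` modulo `K₀`, `L = K₀ ⟨z⟩`; the image of `z` is central
(`comm` and `res`), `L / K₀` is cyclic generated by `z`, so there is `α : L → ℤ/p` with `α z ≠ 0`.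
Let `p^n` divide the order of `z` modulo `K`, `K' = K ∩ K₀` (normal in `G`), `Ψ = L / K'`, `ζ` the
image of `z` (central, order divisible by `p^n`).  `p` does not divide the index of `⟨ζ⟩`: otherwise a
Sylow `p`-subgroup of `Ψ / ⟨ζ⟩` is not trivial and has a non-trivial homomorphism to `ℤ/p`; let `L₂`
be its preimage in `L`; this gives `β : L₂ → ℤ/p`, not zero, `β z = 0`, while `α z ≠ 0`, against
`Ctx.uniq` (for `L₂` as a subgroup of `G`).  By `order_abelianization` (`Fi.lean`) `p^n` divides the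
order of the image of `z` in `Abelianization Ψ`, hence (surjection `L → Ψ`) the order of the image of
`z` in `Abelianization L`, which is finite (`finite_abelianization`, `FAb`), independent of `K`. -/
theorem Ctx.bounded {z : G} {A : Subgroup G} (h : Ctx G z A) (hinf : Infinite G) (p : ℕ)
    [Fact p.Prime] : ∃ n : ℕ, ∀ (K : Subgroup G) (_ : K.Normal), K.index ≠ 0 →
      ¬ p ^ n ∣ orderOf (QuotientGroup.mk z : G ⧸ K) := by
  classical
  by_cases hex : ∃ (K₀ : Subgroup G) (_ : K₀.Normal), K₀.index ≠ 0 ∧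
      p ∣ orderOf (QuotientGroup.mk z : G ⧸ K₀)
  swap
  · refine ⟨1, fun K hK hKi hd => hex ⟨K, hK, hKi, ?_⟩⟩
    rwa [pow_one] at hd
  obtain ⟨K₀, hK₀, hK₀i, hd₀⟩ := hex
  -- the subgroup `L`
  obtain ⟨L, hLdef⟩ : ∃ L : Subgroup G, L = (Subgroup.zpowers
    (QuotientGroup.mk z : G ⧸ K₀)).comap (QuotientGroup.mk' K₀) := ⟨_, rfl⟩
  have hmemL : ∀ g : G, g ∈ L ↔ ∃ i : ℤ, (QuotientGroup.mk z : G ⧸ K₀) ^ i = QuotientGroup.mk g := by
    intro g
    rw [hLdef, Subgroup.mem_comap, Subgroup.mem_zpowers_iff]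
    rfl
  have hK₀L : K₀ ≤ L := by
    intro g hg
    rw [hmemL]
    exact ⟨0, by rw [zpow_zero]; exact ((QuotientGroup.eq_one_iff g).2 hg).symm⟩
  have hLi : L.index ≠ 0 := by
    intro h0
    apply hK₀i
    rw [← Subgroup.relIndex_mul_index hK₀L, h0, mul_zero]
  have hzL : z ∈ L := (hmemL z).2 ⟨1, zpow_one _⟩
  obtain ⟨α, hα, hα'⟩ := t8_log ((QuotientGroup.mk' K₀).comp L.subtype)
    (QuotientGroup.mk z : G ⧸ K₀) p hd₀ (fun a => by
      obtain ⟨i, hi⟩ := (hmemL a.1).1 a.2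
      exact ⟨i, hi.symm⟩)
  have hαz : α ⟨z, hzL⟩ = 1 := by
    rw [hα' ⟨z, hzL⟩ 1 (by rw [zpow_one]; rfl), Int.cast_one]
  -- the abelianization of `L`
  have hfgL : Group.FG L := (h.good.restrict L hLi).fg
  have hfinab : Finite (Abelianization L) := finite_abelianization hfgL (h.good.1 L hLi)
  have hord : 0 < orderOf (Abelianization.of (⟨z, hzL⟩ : L)) := orderOf_pos _
  refine ⟨orderOf (Abelianization.of (⟨z, hzL⟩ : L)), fun K hK hKi hd => ?_⟩
  -- the finite group `Ψ`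
  obtain ⟨K', hK'def⟩ : ∃ K' : Subgroup G, K' = K ⊓ K₀ := ⟨_, rfl⟩
  have hK'n : K'.Normal := by
    rw [hK'def]
    infer_instance
  have hK'i : K'.index ≠ 0 := by
    rw [hK'def]
    exact Subgroup.index_inf_ne_zero hKi hK₀i
  have hK'L : K' ≤ L := by
    rw [hK'def]
    exact inf_le_right.trans hK₀L
  have hK'K : K' ≤ K := by
    rw [hK'def]
    exact inf_le_left
  have hfi : (K'.subgroupOf L).index ≠ 0 := by
    intro h0
    apply hK'i
    have h1 : K'.relIndex L = 0 := h0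
    rw [← Subgroup.relIndex_mul_index hK'L, h1, zero_mul]
  have hfiΨ : (K'.subgroupOf L).FiniteIndex := ⟨hfi⟩
  have hfinΨ : Finite (L ⧸ K'.subgroupOf L) := inferInstance
  obtain ⟨ζ, hζ⟩ : ∃ ζ : L ⧸ K'.subgroupOf L, ζ = QuotientGroup.mk ⟨z, hzL⟩ := ⟨_, rfl⟩
  have hcen : ∀ x, x * ζ = ζ * x := by
    intro x
    obtain ⟨g, rfl⟩ := QuotientGroup.mk_surjective x
    rw [hζ, ← QuotientGroup.mk_mul, ← QuotientGroup.mk_mul]
    have h1 := h.res K' hK'i (h.comm g.1)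
    have h2 := h.res K' hK'i (h.comm z⁻¹)
    have h3 : (g : G) * z * (g : G)⁻¹ * z⁻¹ ∈ K' := h1
    rw [QuotientGroup.eq, Subgroup.mem_subgroupOf]
    have h4 : (((g * ⟨z, hzL⟩)⁻¹ * (⟨z, hzL⟩ * g) : L) : G) =
        ((z * (g : G))⁻¹ * ((g : G) * z * (g : G)⁻¹ * z⁻¹) * (z * (g : G))⁻¹⁻¹)⁻¹ := by
      simp only [Subgroup.coe_mul, Subgroup.coe_inv]
      group
    rw [h4]
    exact inv_mem (hK'n.conj_mem _ h3 _)
  have hdζ : p ^ orderOf (Abelianization.of (⟨z, hzL⟩ : L)) ∣ orderOf ζ := by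
    have h1 : K'.subgroupOf L ≤ K.comap L.subtype := fun x hx => hK'K (Subgroup.mem_subgroupOf.1 hx)
    have h2 := orderOf_map_dvd (QuotientGroup.map (K'.subgroupOf L) K L.subtype h1) ζ
    have h3 : QuotientGroup.map (K'.subgroupOf L) K L.subtype h1 ζ = QuotientGroup.mk z := by
      rw [hζ]
      rfl
    rw [h3] at h2
    exact hd.trans h2
  by_cases hi : p ∣ (Subgroup.zpowers ζ).index
  swap
  · have h1 := order_abelianization p ζ hcen hi _ hdζ
    have h2 := orderOf_map_dvd (Abelianization.map (QuotientGroup.mk' (K'.subgroupOf L)))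
      (Abelianization.of (⟨z, hzL⟩ : L))
    rw [Abelianization.map_of, QuotientGroup.mk'_apply, ← hζ] at h2
    have h3 := Nat.le_of_dvd hord (h1.trans h2)
    exact absurd h3 (not_le.2 (Nat.lt_pow_self (Fact.out : p.Prime).one_lt))
  -- the second homomorphism
  have hnor : (Subgroup.zpowers ζ).Normal := by
    refine ⟨fun n hn g => ?_⟩
    have h1 : g * n = n * g := by
      obtain ⟨k, rfl⟩ := Subgroup.mem_zpowers_iff.1 hn
      exact (Commute.zpow_right (hcen g) k)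
    rw [h1, mul_inv_cancel_right]
    exact hn
  obtain ⟨x, hx⟩ := exists_prime_orderOf_dvd_card' (G := (L ⧸ K'.subgroupOf L) ⧸ Subgroup.zpowers ζ)
    p hi
  obtain ⟨π, hπ⟩ : ∃ π : L →* (L ⧸ K'.subgroupOf L) ⧸ Subgroup.zpowers ζ,
    π = (QuotientGroup.mk' (Subgroup.zpowers ζ)).comp (QuotientGroup.mk' (K'.subgroupOf L)) :=
    ⟨_, rfl⟩
  have hπs : Function.Surjective π := by
    rw [hπ]
    exact (QuotientGroup.mk'_surjective _).comp (QuotientGroup.mk'_surjective _)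
  have hπz : π ⟨z, hzL⟩ = 1 := by
    rw [hπ, MonoidHom.comp_apply, QuotientGroup.mk'_apply, QuotientGroup.mk'_apply, ← hζ,
      QuotientGroup.eq_one_iff]
    exact Subgroup.mem_zpowers ζ
  have hπK : ∀ k : L, (k : G) ∈ K' → π k = 1 := by
    intro k hk
    have h1 : (QuotientGroup.mk k : L ⧸ K'.subgroupOf L) = 1 :=
      (QuotientGroup.eq_one_iff k).2 (Subgroup.mem_subgroupOf.2 hk)
    rw [hπ, MonoidHom.comp_apply, QuotientGroup.mk'_apply, QuotientGroup.mk'_apply, h1]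
    rfl
  obtain ⟨M, hM⟩ : ∃ M : Subgroup G, M = ((Subgroup.zpowers x).comap π).map L.subtype :=
    ⟨_, rfl⟩
  have hmemM : ∀ g : G, g ∈ M ↔ ∃ hg : g ∈ L, ∃ i : ℤ, x ^ i = π ⟨g, hg⟩ := by
    intro g
    rw [hM, Subgroup.mem_map]
    constructor
    · rintro ⟨y, hy, rfl⟩
      exact ⟨y.2, Subgroup.mem_zpowers_iff.1 hy⟩
    · rintro ⟨hg, hi⟩
      exact ⟨⟨g, hg⟩, Subgroup.mem_zpowers_iff.2 hi, rfl⟩
  have hK'M : K' ≤ M := by
    intro g hg
    rw [hmemM]
    exact ⟨hK'L hg, 0, by rw [zpow_zero, hπK ⟨g, hK'L hg⟩ hg]⟩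
  have hMi : M.index ≠ 0 := by
    intro h0
    apply hK'i
    rw [← Subgroup.relIndex_mul_index hK'M, h0, mul_zero]
  have hML : M ≤ L := fun g hg => ((hmemM g).1 hg).1
  have hzM : z ∈ M := (hmemM z).2 ⟨hzL, 0, by rw [zpow_zero, hπz]⟩
  obtain ⟨β, hβ, hβ'⟩ := t8_log (π.comp (Subgroup.inclusion hML)) x p (by rw [hx]) (fun a => by
      obtain ⟨_, i, hi⟩ := (hmemM a.1).1 a.2
      exact ⟨i, hi.symm⟩)
  obtain ⟨g, hg⟩ := hπs x
  have hgM : (g : G) ∈ M := (hmemM g).2 ⟨g.2, 1, by rw [zpow_one, hg]⟩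
  have h1 := h.uniq hinf M hMi hzM p (fun a => α (Subgroup.inclusion hML a)) β
    (fun a b => by rw [map_mul, hα]) hβ
    (by
      have h2 : Subgroup.inclusion hML ⟨z, hzM⟩ = ⟨z, hzL⟩ := rfl
      simp only [h2, hαz]
      exact one_ne_zero)
    (by
      rw [hβ' ⟨z, hzM⟩ 0 (by
        rw [zpow_zero, MonoidHom.comp_apply]
        exact hπz), Int.cast_zero])
    ⟨g, hgM⟩
  rw [hβ' ⟨g, hgM⟩ 1 (by
    rw [zpow_one, MonoidHom.comp_apply]
    exact hg), Int.cast_one] at h1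
  exact one_ne_zero h1

private theorem fnt9_dual0 {k Q : Type} [Field k] [AddCommGroup Q] [Module k Q] (q : Q)
    (hq : q ≠ 0) : ∃ φ : Q →ₗ[k] k, φ q ≠ 0 := by
  by_contra h3
  push Not at h3
  exact hq ((Module.forall_dual_apply_eq_zero_iff k q).1 h3)

/-- FN-T9.  Additive maps to `ℤ/p` separate elements of a group of exponent `p`. -/
private theorem fnt9_dual {Q : Type} [AddCommGroup Q] (p : ℕ) [Fact p.Prime]
    (h : ∀ q : Q, p • q = 0) (q : Q) (hq : q ≠ 0) : ∃ φ : Q →+ ZMod p, φ q ≠ 0 := by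
  obtain ⟨φ, hφ⟩ := @fnt9_dual0 (ZMod p) Q _ _ (AddCommGroup.zmodModule h) q hq
  exact ⟨φ.toAddMonoidHom, hφ⟩

private theorem fnt9_sep0 {Y : Type} [CommGroup Y] (p : ℕ)
    [Fact p.Prime] (y ζ : Y) (h : ∀ (w : Y) (k : ℤ), w ^ p * ζ ^ k ≠ y) :
    ∃ α : Y → ZMod p, (∀ a b, α (a * b) = α a + α b) ∧ α ζ = 0 ∧ α y ≠ 0 := by
  obtain ⟨N, hN⟩ : ∃ N : Subgroup Y, N = (powMonoidHom p : Y →* Y).range ⊔ Subgroup.zpowers ζ :=
    ⟨_, rfl⟩
  have hy : y ∉ N := by
    intro hy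
    rw [hN] at hy
    obtain ⟨a, ⟨w, rfl⟩, b, ⟨k, rfl⟩, hab⟩ := Subgroup.mem_sup.1 hy
    exact h w k hab
  obtain ⟨φ, hφ⟩ := fnt9_dual p (Q := Additive (Y ⧸ N)) (by
    intro q
    obtain ⟨w, hw⟩ := QuotientGroup.mk_surjective (Additive.toMul q)
    have h1 : ((w ^ p : Y) : Y ⧸ N) = 1 := by
      rw [QuotientGroup.eq_one_iff, hN]
      exact Subgroup.mem_sup_left ⟨w, rfl⟩
    have h2 : Additive.toMul (p • q) = 1 := by
      rw [toMul_nsmul, ← hw, ← QuotientGroup.mk_pow, h1]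
    exact h2) (Additive.ofMul (QuotientGroup.mk y)) (by
    intro h0
    exact hy ((QuotientGroup.eq_one_iff _).1 h0))
  refine ⟨fun w => φ (Additive.ofMul (QuotientGroup.mk w)), fun a b => ?_, ?_, hφ⟩
  · rw [← map_add]
    rfl
  · have h1 : (QuotientGroup.mk ζ : Y ⧸ N) = 1 := by
      rw [QuotientGroup.eq_one_iff, hN]
      exact Subgroup.mem_sup_right (Subgroup.mem_zpowers ζ)
    change φ (Additive.ofMul (QuotientGroup.mk ζ)) = 0
    rw [h1]
    exact map_zero φ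

/-- FN-T9.  Homomorphisms to `ℤ/p` separate elements modulo `p`-th powers and powers of `ζ`. -/
private theorem fnt9_sep {Y : Type} [Group Y] (hc : ∀ a b : Y, a * b = b * a) (p : ℕ)
    [Fact p.Prime] (y ζ : Y) (h : ∀ (w : Y) (k : ℤ), w ^ p * ζ ^ k ≠ y) :
    ∃ α : Y → ZMod p, (∀ a b, α (a * b) = α a + α b) ∧ α ζ = 0 ∧ α y ≠ 0 :=
  @fnt9_sep0 Y { ‹Group Y› with mul_comm := hc } p _ y ζ h

/-- FN-T9.  A `p`-element with `a ^ (1 - j p)` in `S` is in `S`. -/
private theorem fnt9_root {Y : Type} [Group Y] (p : ℕ) (S : Subgroup Y) (a : Y)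
    (r : ℕ) (ha : a ^ p ^ r = 1) (j : ℤ) (h : a ^ (1 - j * p) ∈ S) : a ∈ S := by
  have h1 : IsCoprime (1 - j * (p : ℤ)) ((p : ℤ) ^ r) := by
    refine IsCoprime.pow_right ⟨1, j, ?_⟩
    ring
  obtain ⟨u, v, huv⟩ := h1
  have h2 : a = (a ^ (1 - j * (p : ℤ))) ^ u := by
    have h3 : a ^ ((p : ℤ) ^ r * v) = 1 := by
      rw [zpow_mul]
      have : a ^ ((p : ℤ) ^ r) = 1 := by
        have h4 : ((p : ℤ) ^ r) = ((p ^ r : ℕ) : ℤ) := by push_cast; rfl
        rw [h4, zpow_natCast, ha]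
      rw [this, one_zpow]
    rw [← zpow_mul]
    calc a = a ^ ((1 - j * (p : ℤ)) * u + (p : ℤ) ^ r * v) := by
          rw [mul_comm _ u, mul_comm _ v, huv, zpow_one]
      _ = _ := by rw [zpow_add, h3, mul_one]
  rw [h2]
  exact S.zpow_mem h u

/-- FN-T9.  The subgroup of the `x ^ i ζ ^ j`. -/
private def fnt9_Y {Φ : Type} [Group Φ] (x ζ : Φ) (hc : x * ζ = ζ * x) : Subgroup Φ where
  carrier := {y | ∃ i j : ℤ, x ^ i * ζ ^ j = y}
  one_mem' := ⟨0, 0, by simp⟩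
  mul_mem' := by
    rintro _ _ ⟨i, j, rfl⟩ ⟨k, l, rfl⟩
    refine ⟨i + k, j + l, ?_⟩
    have h1 : Commute (x ^ k) (ζ ^ j) := Commute.zpow_zpow hc k j
    rw [zpow_add, zpow_add]
    calc x ^ i * x ^ k * (ζ ^ j * ζ ^ l) = x ^ i * (x ^ k * ζ ^ j) * ζ ^ l := by group
      _ = x ^ i * (ζ ^ j * x ^ k) * ζ ^ l := by rw [h1.eq]
      _ = _ := by group
  inv_mem' := by
    rintro _ ⟨i, j, rfl⟩
    refine ⟨-i, -j, ?_⟩
    have h1 : Commute (x ^ (-i)) (ζ ^ (-j)) := Commute.zpow_zpow hc (-i) (-j)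
    rw [mul_inv_rev, ← zpow_neg, ← zpow_neg, h1.eq]

private theorem fnt9_comm {Φ : Type} [Group Φ] (x ζ : Φ) (hc : x * ζ = ζ * x)
    (a b : fnt9_Y x ζ hc) : a * b = b * a := by
  obtain ⟨_, i, j, rfl⟩ := a
  obtain ⟨_, k, l, rfl⟩ := b
  refine Subtype.ext ?_
  change x ^ i * ζ ^ j * (x ^ k * ζ ^ l) = x ^ k * ζ ^ l * (x ^ i * ζ ^ j)
  have h1 : Commute (x ^ k) (ζ ^ j) := Commute.zpow_zpow hc k j
  have h2 : Commute (x ^ i) (ζ ^ l) := Commute.zpow_zpow hc i l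
  calc x ^ i * ζ ^ j * (x ^ k * ζ ^ l) = x ^ i * (ζ ^ j * x ^ k) * ζ ^ l := by group
    _ = x ^ i * (x ^ k * ζ ^ j) * ζ ^ l := by rw [h1.eq]
    _ = x ^ k * (x ^ i * ζ ^ l) * ζ ^ j := by
      rw [← mul_assoc, ← zpow_add, add_comm, zpow_add, mul_assoc, mul_assoc, mul_assoc,
        (Commute.zpow_zpow (Commute.refl ζ) j l).eq]
      group
    _ = x ^ k * (ζ ^ l * x ^ i) * ζ ^ j := by rw [h2.eq]
    _ = _ := by group

/-- FN-T9.  If the `p`-element `x` is not a power of `ζ`, then some `ζ ^ (1 - j p)` is a power of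
`x`. -/
private theorem fnt9_main {z : G} {A : Subgroup G} (h : Ctx G z A) (hinf : Infinite G) (p : ℕ)
    [Fact p.Prime] (K : Subgroup G) [K.Normal] (hK : K.index ≠ 0) (x : G ⧸ K) (r : ℕ)
    (hx : x ^ p ^ r = 1) (hc : x * (QuotientGroup.mk z : G ⧸ K) = QuotientGroup.mk z * x)
    (hxz : x ∉ Subgroup.zpowers (QuotientGroup.mk z : G ⧸ K)) :
    ∃ j : ℤ, (QuotientGroup.mk z : G ⧸ K) ^ (1 - j * p) ∈ Subgroup.zpowers x := by
  have : K.FiniteIndex := ⟨hK⟩
  obtain ⟨ζ, hζ⟩ : ∃ ζ : G ⧸ K, ζ = QuotientGroup.mk z := ⟨_, rfl⟩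
  rw [← hζ] at hc hxz ⊢
  let Y := fnt9_Y x ζ hc
  have hxY : x ∈ Y := ⟨1, 0, by simp⟩
  have hζY : ζ ∈ Y := ⟨0, 1, by simp⟩
  by_cases hw : ∃ w : Y, w ^ p = ⟨ζ, hζY⟩
  · obtain ⟨⟨w, i, j, rfl⟩, hw⟩ := hw
    have h1 : (x ^ i * ζ ^ j) ^ p = ζ := congrArg Subtype.val hw
    have h2 : Commute (x ^ i) (ζ ^ j) := Commute.zpow_zpow hc i j
    rw [h2.mul_pow, ← zpow_natCast, ← zpow_natCast, ← zpow_mul, ← zpow_mul] at h1
    refine ⟨j, i * p, ?_⟩
    change x ^ (i * p) = _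
    rw [zpow_sub, zpow_one]
    exact eq_mul_inv_of_mul_eq h1
  · exfalso
    push Not at hw
    obtain ⟨α, hα, -, hαζ⟩ := fnt9_sep (fnt9_comm x ζ hc) p ⟨ζ, hζY⟩ 1 (by
      intro w k
      rw [one_zpow, mul_one]
      exact hw w)
    obtain ⟨β, hβ, hβζ, hβx⟩ := fnt9_sep (fnt9_comm x ζ hc) p ⟨x, hxY⟩ ⟨ζ, hζY⟩ (by
      rintro ⟨_, i, j, rfl⟩ k hk
      apply hxz
      have h1 : (x ^ i * ζ ^ j) ^ p * ζ ^ k = x := congrArg Subtype.val hk
      have h2 : Commute (x ^ i) (ζ ^ j) := Commute.zpow_zpow hc i j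
      rw [h2.mul_pow, ← zpow_natCast, ← zpow_natCast, ← zpow_mul, ← zpow_mul, mul_assoc,
        ← zpow_add] at h1
      refine fnt9_root p _ x r hx i ⟨j * p + k, ?_⟩
      change ζ ^ (j * p + k) = _
      have e : x ^ (1 - i * (p : ℤ)) = (x ^ (i * (p : ℤ)))⁻¹ * x := by
        rw [← zpow_neg, ← zpow_add_one]
        congr 1
        ring
      rw [e]
      exact eq_inv_mul_of_mul_eq h1)
    let L : Subgroup G := Y.comap (QuotientGroup.mk' K)
    have hL : L.index ≠ 0 := by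
      rw [Subgroup.index_comap_of_surjective _ (QuotientGroup.mk'_surjective K)]
      exact Subgroup.index_ne_zero_of_finite
    have hz : z ∈ L := by
      change (QuotientGroup.mk z : G ⧸ K) ∈ Y
      rw [← hζ]
      exact hζY
    obtain ⟨g, hg⟩ := QuotientGroup.mk_surjective x
    have hgL : g ∈ L := by
      change (QuotientGroup.mk g : G ⧸ K) ∈ Y
      rw [hg]
      exact hxY
    have key := h.uniq hinf L hL hz p (fun a => α ⟨QuotientGroup.mk a.1, a.2⟩)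
      (fun a => β ⟨QuotientGroup.mk a.1, a.2⟩) 
      (fun a b => hα ⟨QuotientGroup.mk a.1, a.2⟩ ⟨QuotientGroup.mk b.1, b.2⟩)
      (fun a b => hβ ⟨QuotientGroup.mk a.1, a.2⟩ ⟨QuotientGroup.mk b.1, b.2⟩)
      (by
        have e : (⟨QuotientGroup.mk z, hz⟩ : Y) = ⟨ζ, hζY⟩ := Subtype.ext hζ.symm
        change α ⟨QuotientGroup.mk z, hz⟩ ≠ 0
        rw [e]
        exact hαζ)
      (by
        have e : (⟨QuotientGroup.mk z, hz⟩ : Y) = ⟨ζ, hζY⟩ := Subtype.ext hζ.symm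
        change β ⟨QuotientGroup.mk z, hz⟩ = 0
        rw [e]
        exact hβζ) ⟨g, hgL⟩
    apply hβx
    have e : (⟨QuotientGroup.mk g, hgL⟩ : Y) = ⟨x, hxY⟩ := Subtype.ext hg
    change β ⟨QuotientGroup.mk g, hgL⟩ = 0 at key
    rw [e] at key
    exact key

/-- PIECE FN-T9 (150 lines).  If the odd prime `p` divides the order of `z` modulo the normal subgroup
`K` of finite index, then `G` has a non-trivial homomorphism to `ℤ/p`.  `Φ = G / K`, `ζ` the image of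
`z`, central; `c` = the power of `ζ` of order `p`; `P` a Sylow `p`-subgroup of `Φ`, `C` = the `p`-part
of `⟨ζ⟩`, contained in `P`, not trivial.  For `x ∈ P` the abelian `p`-group `X = ⟨x⟩ C` is cyclic:
otherwise, `C` being cyclic generated by `c₀` (a power of `ζ`), `X / X^p` has order `p²` with basis
`x, c₀`, so there are homomorphisms `α, β : X ⟨ζ⟩ → ℤ/p` with `α ζ ≠ 0`, `β ζ = 0`, `β x ≠ 0`
(`X ⟨ζ⟩` is the direct product of `X` and the `p'`-part of `⟨ζ⟩`); pull back to the preimage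
`L ∋ z` of `X ⟨ζ⟩`; `Ctx.uniq`.  So `P` is cyclic (`isCyclic_of_center`), and
`exists_hom_of_cyclic`. -/
theorem Ctx.exists_hom {z : G} {A : Subgroup G} (h : Ctx G z A) (hinf : Infinite G) (p : ℕ)
    [Fact p.Prime] (hp2 : p ≠ 2) (K : Subgroup G) [K.Normal] (hK : K.index ≠ 0)
    (hd : p ∣ orderOf (QuotientGroup.mk z : G ⧸ K)) :
    ∃ l : G → ZMod p, (∀ a b, l (a * b) = l a + l b) ∧ ∃ a, l a ≠ 0 := by
  have hp : p.Prime := Fact.out
  have hfi : K.FiniteIndex := ⟨hK⟩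
  obtain ⟨ζ, hζ⟩ : ∃ ζ : G ⧸ K, ζ = QuotientGroup.mk z := ⟨_, rfl⟩
  have hcen : ∀ q : G ⧸ K, q * ζ = ζ * q := by
    intro q
    obtain ⟨g, rfl⟩ := QuotientGroup.mk_surjective q
    have h1 : ((g * z * g⁻¹ * z⁻¹ : G) : G ⧸ K) = 1 :=
      (QuotientGroup.eq_one_iff _).2 (h.res K hK (h.comm g))
    rw [QuotientGroup.mk_mul, QuotientGroup.mk_mul, QuotientGroup.mk_mul, QuotientGroup.mk_inv,
      QuotientGroup.mk_inv, ← hζ, mul_inv_eq_one, mul_inv_eq_iff_eq_mul] at h1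
    exact h1
  have hcenz : ∀ (q : G ⧸ K) (k : ℤ), q * ζ ^ k = ζ ^ k * q := fun q k =>
    (Commute.zpow_right (hcen q) k).eq
  rw [← hζ] at hd
  have hn0 : orderOf ζ ≠ 0 := (orderOf_pos ζ).ne'
  obtain ⟨v, m, hm, hvm⟩ := Nat.exists_eq_pow_mul_and_not_dvd hn0 p hp.ne_one
  have hv : v ≠ 0 := by
    rintro rfl
    rw [pow_zero, one_mul] at hvm
    rw [hvm] at hd
    exact hm hd
  have hm0 : m ≠ 0 := by
    rintro rfl
    exact hm (dvd_zero p)
  have hc0 : (ζ ^ m) ^ p ^ v = 1 := by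
    rw [← pow_mul, mul_comm, ← hvm, pow_orderOf_eq_one]
  have hc1 : ζ ^ m ≠ 1 := by
    intro h1
    have h2 := Nat.le_of_dvd (Nat.pos_of_ne_zero hm0) (orderOf_dvd_of_pow_eq_one h1)
    rw [hvm] at h2
    have h3 : 1 < p ^ v := Nat.one_lt_pow hv hp.one_lt
    nlinarith [Nat.pos_of_ne_zero hm0]
  obtain ⟨P⟩ : Nonempty (Sylow p (G ⧸ K)) := inferInstance
  have hnorm : (Subgroup.zpowers (ζ ^ m)).Normal := by
    refine ⟨?_⟩
    rintro _ ⟨k, rfl⟩ g
    refine ⟨k, ?_⟩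
    change (ζ ^ m) ^ k = g * (ζ ^ m) ^ k * g⁻¹
    rw [← zpow_natCast, ← zpow_mul, hcenz, mul_inv_cancel_right]
  have hpg : IsPGroup p (Subgroup.zpowers (ζ ^ m)) := by
    rintro ⟨_, k, rfl⟩
    refine ⟨v, Subtype.ext ?_⟩
    change ((ζ ^ m) ^ k) ^ p ^ v = 1
    rw [← zpow_natCast, ← zpow_mul, mul_comm, zpow_mul, zpow_natCast, hc0, one_zpow]
  have hmP : ζ ^ m ∈ (P : Subgroup (G ⧸ K)) := by
    have h1 := P.is_maximal' (IsPGroup.to_sup_of_normal_right P.isPGroup' hpg) le_sup_left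
    rw [← h1]
    exact Subgroup.mem_sup_right (Subgroup.mem_zpowers _)
  let c0 : P := ⟨ζ ^ m, hmP⟩
  have hcyc : IsCyclic P := by
    refine isCyclic_of_center p hp2 P.isPGroup' (Subgroup.zpowers c0) ?_ ?_ ?_
    · rw [Ne, Subgroup.zpowers_eq_bot]
      intro h1
      exact hc1 (congrArg Subtype.val h1)
    · rintro _ ⟨k, rfl⟩ x
      refine Subtype.ext ?_
      change (x : G ⧸ K) * (ζ ^ m) ^ k = (ζ ^ m) ^ k * x
      rw [← zpow_natCast, ← zpow_mul, hcenz]
    · intro x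
      by_cases hx : (x : G ⧸ K) ∈ Subgroup.zpowers ζ
      · have hle : (Subgroup.zpowers x ⊔ Subgroup.zpowers c0 : Subgroup P) ≤
            (Subgroup.zpowers ζ).comap (P : Subgroup (G ⧸ K)).subtype := by
          refine sup_le ?_ ?_
          · rw [Subgroup.zpowers_le]
            exact hx
          · rw [Subgroup.zpowers_le]
            exact ⟨m, by simp [c0]⟩
        let f : (Subgroup.zpowers x ⊔ Subgroup.zpowers c0 : Subgroup P) →* Subgroup.zpowers ζ :=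
          { toFun := fun y => ⟨((y : P) : G ⧸ K), hle y.2⟩
            map_one' := rfl
            map_mul' := fun _ _ => rfl }
        refine isCyclic_of_injective f fun a b hab => ?_
        have h1 : ((a : P) : G ⧸ K) = ((b : P) : G ⧸ K) :=
          congrArg (fun y : Subgroup.zpowers ζ => (y : G ⧸ K)) hab
        exact Subtype.ext (Subtype.ext h1)
      · obtain ⟨r, hr⟩ := P.isPGroup' x
        have hr' : (x : G ⧸ K) ^ p ^ r = 1 := congrArg Subtype.val hr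
        obtain ⟨j, hj⟩ := fnt9_main h hinf p K hK x r hr' (by rw [← hζ]; exact hcen x)
          (by rw [← hζ]; exact hx)
        rw [← hζ] at hj
        have h1 : (ζ ^ m) ^ (1 - j * (p : ℤ)) ∈ Subgroup.zpowers (x : G ⧸ K) := by
          rw [← zpow_natCast, ← zpow_mul, mul_comm, zpow_mul, zpow_natCast]
          exact Subgroup.pow_mem _ hj m
        have h2 : ζ ^ m ∈ Subgroup.zpowers (x : G ⧸ K) := fnt9_root p _ _ v hc0 j h1
        obtain ⟨k, hk⟩ := h2
        have h3 : Subgroup.zpowers c0 ≤ Subgroup.zpowers x := by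
          rw [Subgroup.zpowers_le]
          exact ⟨k, Subtype.ext hk⟩
        rw [sup_eq_left.2 h3]
        infer_instance
  have hpos : 0 < orderOf ζ / p := Nat.div_pos (Nat.le_of_dvd (Nat.pos_of_ne_zero hn0) hd) hp.pos
  obtain ⟨l, hl, a, ha⟩ := exists_hom_of_cyclic p P hcyc (ζ ^ (orderOf ζ / p))
    (fun x => by
      have := hcenz x ((orderOf ζ / p : ℕ) : ℤ)
      rwa [zpow_natCast] at this)
    (by
      rw [orderOf_pow_of_dvd hpos.ne' (Nat.div_dvd_of_dvd hd), Nat.div_div_self hd hn0])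
  obtain ⟨g, rfl⟩ := QuotientGroup.mk_surjective a
  exact ⟨fun g => l (QuotientGroup.mk g), fun a b => hl (QuotientGroup.mk a) (QuotientGroup.mk b),
    g, ha⟩

private theorem fnt10_dvd {G : Type} [Group G] [Finite (Abelianization G)] (p : ℕ)
    [hp : Fact p.Prime] (l : G → ZMod p) (hl : ∀ a b, l (a * b) = l a + l b) (a : G)
    (ha : l a ≠ 0) : p ∣ Nat.card (Abelianization G) := by
  let f : G →* Multiplicative (ZMod p) :=
    MonoidHom.mk' (fun x => Multiplicative.ofAdd (l x)) fun x y => by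
      rw [hl, ofAdd_add]
  have h1 : Abelianization.lift f (Abelianization.of a) = Multiplicative.ofAdd (l a) :=
    Abelianization.lift_apply_of f a
  have h2 : orderOf (Abelianization.lift f (Abelianization.of a)) = p := by
    refine orderOf_eq_prime ?_ ?_
    · rw [h1, ← ofAdd_nsmul, nsmul_eq_mul, CharP.cast_eq_zero, zero_mul, ofAdd_zero]
    · rw [h1]
      intro h3
      exact ha (ofAdd_eq_one.1 h3)
  have h3 := orderOf_map_dvd (Abelianization.lift f) (Abelianization.of a)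
  rw [h2] at h3
  exact h3.trans (orderOf_dvd_natCard _)

/-- PIECE FN-T10 (70 lines).  The orders of `z` in the finite quotients are bounded.
`Abelianization G` is finite; by `exists_hom` only `2` and the prime divisors of its order divide
orders of `z`; by `bounded` the exponents are bounded. -/
theorem Ctx.order_bounded {z : G} {A : Subgroup G} (h : Ctx G z A) (hinf : Infinite G) :
    ∃ n : ℕ, ∀ (K : Subgroup G) (_ : K.Normal), K.index ≠ 0 →
      orderOf (QuotientGroup.mk z : G ⧸ K) ≤ n := by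
  have hno : ¬ ∃ f : G →* Multiplicative ℤ, Function.Surjective f := by
    rintro ⟨f, hf⟩
    exact h.good.1 ⊤ (by simp) ⟨f.comp (Subgroup.topEquiv (G := G)).toMonoidHom,
      hf.comp (Subgroup.topEquiv (G := G)).surjective⟩
  have hfin : Finite (Abelianization G) := finite_abelianization h.good.fg hno
  have hN : Nat.card (Abelianization G) ≠ 0 := Nat.card_pos.ne'
  have hb : ∀ p : ℕ, p.Prime → ∃ n : ℕ, ∀ (K : Subgroup G) (_ : K.Normal), K.index ≠ 0 →
      ¬ p ^ n ∣ orderOf (QuotientGroup.mk z : G ⧸ K) := fun p hp => by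
    have := Fact.mk hp
    exact h.bounded hinf p
  choose! n hn using hb
  refine ⟨∏ p ∈ (2 * Nat.card (Abelianization G)).primeFactors, p ^ n p, fun K hK hi => ?_⟩
  have hKfin : Finite (G ⧸ K) := Nat.finite_of_card_ne_zero hi
  set q := orderOf (QuotientGroup.mk z : G ⧸ K) with hq
  have hq0 : q ≠ 0 := (orderOf_pos _).ne'
  have hsub : q.primeFactors ⊆ (2 * Nat.card (Abelianization G)).primeFactors := by
    intro p hp
    obtain ⟨hp1, hp2, -⟩ := Nat.mem_primeFactors.1 hp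
    refine Nat.mem_primeFactors.2 ⟨hp1, ?_, mul_ne_zero two_ne_zero hN⟩
    rcases eq_or_ne p 2 with rfl | h2
    · exact dvd_mul_right _ _
    · have := Fact.mk hp1
      obtain ⟨l, hl, a, ha⟩ := h.exists_hom hinf p h2 K hi hp2
      exact (fnt10_dvd p l hl a ha).mul_left 2
  calc q = ∏ p ∈ q.primeFactors, p ^ q.factorization p := by
        rw [← Nat.prod_factorization_eq_prod_primeFactors, Nat.prod_factorization_pow_eq_self hq0]
    _ ≤ ∏ p ∈ q.primeFactors, p ^ n p := by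
        refine Finset.prod_le_prod' fun p hp => ?_
        obtain ⟨hp1, hp2, -⟩ := Nat.mem_primeFactors.1 hp
        refine Nat.pow_le_pow_right hp1.pos ?_
        by_contra h3
        push Not at h3
        exact hn p hp1 K hK hi ((pow_dvd_pow p h3.le).trans (Nat.ordProj_dvd q p))
    _ ≤ ∏ p ∈ (2 * Nat.card (Abelianization G)).primeFactors, p ^ n p := by
        refine Finset.prod_le_prod_of_subset_of_one_le' hsub fun p hp _ => ?_
        exact Nat.one_le_pow _ _ (Nat.prime_of_mem_primeFactors hp).pos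

end Pool.FN
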